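import Pool.Agent.FQ.SixQ

/-!
# FHD-AlFacts: allowed sets of primes
-/

set_option autoImplicit false

namespace Pool.Agent.FHD

open Finset Pool.Agent.FS Pool.Agent.FQ

/-- the allowed sets -/
def Alw (m : ℕ) (T : Finset ℕ) : Prop := AlM True P2 m T

private theorem al_small {l : ℕ} (hl : l.Prime) (h : l ≤ 23) : PPr l ∨ SpP P2 l := by
  by_cases h4 : l % 4 = 1
  · right
    have h2 := hl.two_le
    have h5 : l = 5 ∨ l = 13 ∨ l = 17 := by
      interval_cases l <;> first | omega | (exact absurd hl (by norm_num))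
    rcases h5 with h5 | h5 | h5
    · exact Or.inl h5
    · exact Or.inr (Or.inl ⟨h5, by simp [P2]⟩)
    · exact Or.inr (Or.inr ⟨h5, by simp [P2]⟩)
  · exact Or.inl (PPr_of hl h4)

theorem alw_mono {m : ℕ} {T T' : Finset ℕ} (h : Alw m T) (hT : T' ⊆ T) : Alw m T' := by
  exact AlM_mono T h T' hT

theorem alw_one {m : ℕ} {T : Finset ℕ} (hT : T.card ≤ 1) : Alw m T := by
  refine Or.inr ⟨by omega, ?_⟩
  intro p hp q hq hpq
  have h1 := card_le_one.mp hT p hp q hq
  omega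

theorem alw_ppr {m : ℕ} {T : Finset ℕ} (hT : ∀ l ∈ T, l.Prime ∧ l % 4 ≠ 1) : Alw m T := by
  exact Or.inl ⟨trivial, fun l hl => PPr_of (hT l hl).1 (hT l hl).2⟩

theorem alw_nice {m : ℕ} (h12 : 12 ∣ m) {T : Finset ℕ} (hT : ∀ l ∈ T, l.Prime ∧ l ≤ 23)
    (hc : T.card ≤ 3) : Alw m T := by
  refine Or.inr ⟨hc, ?_⟩
  intro p hp q hq _
  exact Or.inr ⟨trivial, Or.inr (Or.inl ⟨h12, al_small (hT p hp).1 (hT p hp).2,
    al_small (hT q hq).1 (hT q hq).2⟩)⟩

theorem alw_2357 {m : ℕ} (h12 : 12 ∣ m) {T : Finset ℕ} (hT : T ⊆ {2, 3, 5, 7})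
    (hne : T ≠ {2, 3, 5, 7}) : Alw m T := by
  have hc : T.card < 4 := by
    have h1 : T ⊂ {2, 3, 5, 7} := hT.ssubset_of_ne hne
    exact card_lt_card h1
  refine alw_nice h12 ?_ (by omega)
  intro l hl
  have h1 := hT hl
  simp only [mem_insert, mem_singleton] at h1
  rcases h1 with rfl | rfl | rfl | rfl <;> norm_num

/-- an allowed set which contains `5` and three other primes does not exist -/
theorem alw_five {m : ℕ} {T : Finset ℕ} (h : Alw m T) (h5 : 5 ∈ T) : T.card ≤ 3 := by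
  rcases h with ⟨_, h⟩ | ⟨h, _⟩
  · have h1 := (h 5 h5).2
    omega
  · exact h

end Pool.Agent.FHD
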