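import Pool.Agent.FHD.Exact

/-!
# FHD-Avg: sums over `Kl m l`

The elements `k * x`, `k ∈ Kl m l`, are the elements `z` with `P z = P x` of the same order as `x`, each one the
same number of times.
-/

set_option autoImplicit false

namespace Pool.Agent.FHD

open Finset Pool.Agent.FS
open Pool.Agent.Helper9.Fermat (fib mem_fib)

section

variable {m : ℕ} [NeZero m]

/-- the elements of the fibre of smaller order -/
private theorem av_split {l a e' : ℕ} (hl : l.Prime) {x : ZMod m} (hx : addOrderOf x = l ^ (a + 1) * e')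
    (hcop : l.Coprime e') :
    (fib m (l ^ (a + 1)) (((l ^ (a + 1) : ℕ) : ZMod m) * x)).filter (fun z => ¬ addOrderOf z = addOrderOf x) =
      fib m (l ^ a) (((l ^ a : ℕ) : ZMod m) * (ide m l * x)) := by
  have he0 : addOrderOf x ≠ 0 := (addOrderOf_pos x).ne'
  have hn'0 : e' ≠ 0 := by
    rintro rfl
    rw [mul_zero] at hx
    exact he0 hx
  obtain ⟨z1, hz1⟩ : ∃ z1, z1 = ide m l * x := ⟨_, rfl⟩
  rw [← hz1]
  -- the order of `P x`
  have ho1 : addOrderOf (((l ^ (a + 1) : ℕ) : ZMod m) * x) = e' := by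
    rw [← nsmul_eq_mul, addOrderOf_nsmul' x (pow_ne_zero _ hl.ne_zero), hx,
      Nat.gcd_eq_right (Dvd.intro e' rfl), Nat.mul_div_cancel_left e' (pow_pos hl.pos _)]
  have hle' : ¬ l ∣ e' := (Nat.Prime.coprime_iff_not_dvd hl).1 hcop
  have hqz : ((l ^ (a + 1) : ℕ) : ZMod m) * z1 = ((l ^ (a + 1) : ℕ) : ZMod m) * x := by
    have h1 := ide_mul_eq_self (m := m) l hl (((l ^ (a + 1) : ℕ) : ZMod m) * x) (by rw [ho1]; exact hle')
    rw [hz1]
    linear_combination h1
  have hn'z1 : (e' : ZMod m) * z1 = 0 := by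
    have h1 : addOrderOf z1 = ordCompl[l] (addOrderOf x) := by
      rw [hz1]
      exact addOrderOf_ide_mul l hl x
    have h2 : ordCompl[l] (addOrderOf x) = e' := by
      have h3 : (addOrderOf x).factorization l = a + 1 := by
        rw [hx, Nat.factorization_mul (pow_ne_zero _ hl.ne_zero) hn'0, Nat.factorization_pow,
          Finsupp.add_apply, Finsupp.smul_apply, hl.factorization_self,
          Nat.factorization_eq_zero_of_not_dvd hle']
        simp
      rw [h3, hx]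
      exact Nat.mul_div_cancel_left e' (pow_pos hl.pos _)
    rw [← nsmul_eq_mul, ← h2, ← h1]
    exact addOrderOf_nsmul_eq_zero z1
  have hlq : ((l ^ (a + 1) : ℕ) : ZMod m) = ((l ^ a : ℕ) : ZMod m) * (l : ZMod m) := by
    rw [pow_succ]
    push_cast
    ring
  have hnz0 : (e' : ZMod m) * (((l ^ (a + 1) : ℕ) : ZMod m) * x) = 0 := by
    rw [← hqz]
    linear_combination ((l ^ (a + 1) : ℕ) : ZMod m) * hn'z1
  -- cancellation of `l` on the elements killed by `e'`
  have hcanc : ∀ y : ZMod m, (e' : ZMod m) * y = 0 → (l : ZMod m) * y = 0 → y = 0 := by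
    intro y h1 h2
    have h3 : addOrderOf y ∣ e' := by
      rw [addOrderOf_dvd_iff_nsmul_eq_zero, nsmul_eq_mul]
      exact h1
    have h4 : addOrderOf y ∣ l := by
      rw [addOrderOf_dvd_iff_nsmul_eq_zero, nsmul_eq_mul]
      exact h2
    have h5 : addOrderOf y ∣ 1 := by
      have := Nat.dvd_gcd h4 h3
      rwa [hcop] at this
    rw [Nat.dvd_one, AddMonoid.addOrderOf_eq_one_iff] at h5
    exact h5
  ext z
  rw [mem_filter, mem_fib, mem_fib]
  constructor
  · rintro ⟨hz, ho⟩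
    have h1 : addOrderOf z ∣ addOrderOf x := by
      rw [addOrderOf_dvd_iff_nsmul_eq_zero, nsmul_eq_mul]
      have h2 : ((addOrderOf x : ℕ) : ZMod m) = (e' : ZMod m) * ((l ^ (a + 1) : ℕ) : ZMod m) := by
        rw [hx, Nat.cast_mul, mul_comm]
      rw [h2, mul_assoc, hz, hnz0]
    have h2 : e' ∣ addOrderOf z := by
      rw [← ho1, ← hz, ← nsmul_eq_mul]
      exact addOrderOf_smul_dvd _
    obtain ⟨N, hN⟩ := h2
    have h3 : N ∣ l ^ (a + 1) := by
      rw [hN, hx, mul_comm e' N] at h1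
      exact Nat.dvd_of_mul_dvd_mul_right (Nat.pos_of_ne_zero hn'0) h1
    obtain ⟨j, hj, rfl⟩ := (Nat.dvd_prime_pow hl).1 h3
    have h4 : j ≤ a := by
      rcases Nat.lt_or_ge j (a + 1) with h | h
      · omega
      · exfalso
        apply ho
        have h5 : j = a + 1 := by omega
        rw [hN, h5, hx, mul_comm]
    have h5 : (e' : ZMod m) * (((l ^ a : ℕ) : ZMod m) * z) = 0 := by
      have h6 : addOrderOf z ∣ e' * l ^ a := by
        rw [hN]
        exact Nat.mul_dvd_mul_left e' (pow_dvd_pow l h4)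
      rw [addOrderOf_dvd_iff_nsmul_eq_zero, nsmul_eq_mul] at h6
      push_cast at h6 ⊢
      linear_combination h6
    have h7 : ((l ^ a : ℕ) : ZMod m) * z - ((l ^ a : ℕ) : ZMod m) * z1 = 0 := by
      apply hcanc
      · linear_combination h5 - ((l ^ a : ℕ) : ZMod m) * hn'z1
      · linear_combination hz - hqz - (z - z1) * hlq
    exact sub_eq_zero.1 h7
  · intro hz
    have h1 : ((l ^ (a + 1) : ℕ) : ZMod m) * z = ((l ^ (a + 1) : ℕ) : ZMod m) * x := by
      linear_combination (l : ZMod m) * hz + hqz + (z - z1) * hlq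
    refine ⟨h1, ?_⟩
    intro ho
    have h3 : ((e' * l ^ a : ℕ) : ZMod m) * z = 0 := by
      push_cast at hz ⊢
      linear_combination (e' : ZMod m) * hz + (l : ZMod m) ^ a * hn'z1
    rw [← nsmul_eq_mul, ← addOrderOf_dvd_iff_nsmul_eq_zero, ho, hx, mul_comm e' (l ^ a)] at h3
    have h4 := Nat.dvd_of_mul_dvd_mul_right (Nat.pos_of_ne_zero hn'0) h3
    have h5 := Nat.le_of_dvd (pow_pos hl.pos a) h4
    rw [pow_succ] at h5
    have h6 := hl.two_le
    have h7 : 0 < l ^ a := pow_pos hl.pos a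
    nlinarith

/-- the number of the units of `Kl m l` which map `x` to `z` -/
private theorem av_count {l P : ℕ} (hl : l.Prime) {x : ZMod m} (hP : P ∣ addOrderOf x)
    (hPq : P ∣ qq m l) (z : ZMod m) [Fintype (Kl m l)] [DecidableEq (ZMod m)] :
    (univ.filter fun k : Kl m l => ((k : (ZMod m)ˣ) : ZMod m) * x = z).card ≤ qq m l / P := by
  have hm0 : m ≠ 0 := NeZero.ne m
  have hqpos := RNorm_qq_pos (m := m) l
  have hP0 : 0 < P := Nat.pos_of_dvd_of_pos hPq hqpos
  have hcpos : 0 < ordCompl[l] m := Nat.ordCompl_pos l hm0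
  have hPc : P.Coprime (ordCompl[l] m) := (RNorm_qq_coprime (m := m) hl).coprime_dvd_left hPq
  have hm : m = P * ordCompl[l] m * (qq m l / P) := by
    have h1 := RNorm_qq_mul (m := m) l
    have h2 := Nat.mul_div_cancel' hPq
    calc m = qq m l * ordCompl[l] m := h1.symm
      _ = P * (qq m l / P) * ordCompl[l] m := by rw [h2]
      _ = P * ordCompl[l] m * (qq m l / P) := by ring
  have hM0 : 0 < P * ordCompl[l] m := Nat.mul_pos hP0 hcpos
  rw [← card_range (qq m l / P)]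
  refine card_le_card_of_injOn (fun k => rr (k : (ZMod m)ˣ) / (P * ordCompl[l] m)) ?_ ?_
  · intro k _
    rw [mem_coe, mem_range, Nat.div_lt_iff_lt_mul hM0, mul_comm (qq m l / P), ← hm]
    exact ZMod.val_lt _
  · intro k hk k' hk' hkk
    have h1 : ((k : (ZMod m)ˣ) : ZMod m) * x = ((k' : (ZMod m)ˣ) : ZMod m) * x := by
      rw [(mem_filter.1 (mem_coe.1 hk)).2, (mem_filter.1 (mem_coe.1 hk')).2]
    have h2 : ((addOrderOf x : ℕ) : ℤ) ∣ (rr (k' : (ZMod m)ˣ) : ℤ) - (rr (k : (ZMod m)ˣ) : ℤ) := by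
      rw [addOrderOf_dvd_iff_zsmul_eq_zero, zsmul_eq_mul]
      push_cast
      rw [rr, rr, ZMod.natCast_zmod_val, ZMod.natCast_zmod_val, sub_mul, h1, sub_self]
    have h3 : rr (k : (ZMod m)ˣ) ≡ rr (k' : (ZMod m)ˣ) [MOD P] := by
      rw [Nat.modEq_iff_dvd]
      exact (Int.natCast_dvd_natCast.2 hP).trans h2
    have h4 : rr (k : (ZMod m)ˣ) ≡ rr (k' : (ZMod m)ˣ) [MOD ordCompl[l] m] :=
      (mem_Kl.1 k.2).trans (mem_Kl.1 k'.2).symm
    have h5 : rr (k : (ZMod m)ˣ) ≡ rr (k' : (ZMod m)ˣ) [MOD P * ordCompl[l] m] :=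
      (Nat.modEq_and_modEq_iff_modEq_mul hPc).1 ⟨h3, h4⟩
    have h6 : rr (k : (ZMod m)ˣ) = rr (k' : (ZMod m)ˣ) := by
      have h7 : rr (k : (ZMod m)ˣ) / (P * ordCompl[l] m) = rr (k' : (ZMod m)ˣ) / (P * ordCompl[l] m) := hkk
      rw [← Nat.div_add_mod (rr (k : (ZMod m)ˣ)) (P * ordCompl[l] m),
        ← Nat.div_add_mod (rr (k' : (ZMod m)ˣ)) (P * ordCompl[l] m), h7, h5]
    exact Subtype.ext (rr_inj (by rw [h6]))

theorem Kl_avg {B : Type} [AddCommGroup B] {g : ZMod m → B} (hg : IsDist g) {l : ℕ}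
    (hl : l.Prime) (x : ZMod m) (hx : l ∣ addOrderOf x) :
    ∑ᶠ k : Kl m l, g (((k : (ZMod m)ˣ) : ZMod m) * x) =
      (qq m l / ordProj[l] (addOrderOf x)) •
        (g (((ordProj[l] (addOrderOf x) : ℕ) : ZMod m) * x) -
          g (((ordProj[l] (addOrderOf x) / l : ℕ) : ZMod m) * (ide m l * x))) := by
  classical
  have hm0 : m ≠ 0 := NeZero.ne m
  have he0 : addOrderOf x ≠ 0 := (addOrderOf_pos x).ne'
  have hem := RNorm_ord_dvd x
  have hlm : l ∣ m := hx.trans hem
  obtain ⟨a, ha⟩ : ∃ a, (addOrderOf x).factorization l = a + 1 := by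
    refine ⟨(addOrderOf x).factorization l - 1, ?_⟩
    have := hl.factorization_pos_of_dvd he0 hx
    omega
  obtain ⟨e', he'⟩ : ∃ e', e' = ordCompl[l] (addOrderOf x) := ⟨_, rfl⟩
  have hxe : addOrderOf x = l ^ (a + 1) * e' := by
    rw [he', ← ha]
    exact (Nat.ordProj_mul_ordCompl_eq_self _ l).symm
  have hcop : l.Coprime e' := by
    rw [he']
    exact Nat.coprime_ordCompl hl he0
  have hPq : l ^ (a + 1) ∣ qq m l := by
    rw [← ha]
    exact RNorm_ordProj_dvd l x
  have hPm : l ^ (a + 1) ∣ m := hPq.trans (RNorm_qq_dvd l)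
  have haP : l ^ a ∣ l ^ (a + 1) := pow_dvd_pow l (Nat.le_succ a)
  have hPl : l ^ (a + 1) / l = l ^ a := by
    rw [pow_succ]
    exact Nat.mul_div_cancel _ hl.pos
  have ho1 : addOrderOf (((l ^ (a + 1) : ℕ) : ZMod m) * x) = e' := by
    rw [← nsmul_eq_mul, addOrderOf_nsmul' x (pow_ne_zero _ hl.ne_zero), hxe,
      Nat.gcd_eq_right (Dvd.intro e' rfl), Nat.mul_div_cancel_left e' (pow_pos hl.pos _)]
  rw [ha, hPl]
  obtain ⟨F, hF⟩ : ∃ F, F = (fib m (l ^ (a + 1)) (((l ^ (a + 1) : ℕ) : ZMod m) * x)).filter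
      (fun z => addOrderOf z = addOrderOf x) := ⟨_, rfl⟩
  have hsplit := Finset.sum_filter_add_sum_filter_not
    (fib m (l ^ (a + 1)) (((l ^ (a + 1) : ℕ) : ZMod m) * x)) (fun z => addOrderOf z = addOrderOf x) g
  rw [← hF, av_split hl hxe hcop, isDist_gen hg _ hPm x, isDist_gen hg _ (haP.trans hPm)] at hsplit
  have hcard : F.card + l ^ a = l ^ (a + 1) := by
    have h1 := Finset.card_filter_add_card_filter_not
      (s := fib m (l ^ (a + 1)) (((l ^ (a + 1) : ℕ) : ZMod m) * x)) (fun z => addOrderOf z = addOrderOf x)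
    rw [← hF, av_split hl hxe hcop, Pool.Agent.Helper9.Fermat.fib_card (pow_pos hl.pos _) hPm,
      Pool.Agent.Helper9.Fermat.fib_card (pow_pos hl.pos _) (haP.trans hPm)] at h1
    exact h1
  -- the map
  have hmaps : ∀ k ∈ (univ : Finset (Kl m l)), ((k : (ZMod m)ˣ) : ZMod m) * x ∈ F := by
    intro k _
    rw [hF, mem_filter, mem_fib]
    refine ⟨?_, RUp_addOrderOf_unit_mul _ _⟩
    have h1 := ide_mul_eq_self (m := m) l hl (((l ^ (a + 1) : ℕ) : ZMod m) * x) (by
      rw [ho1]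
      exact (Nat.Prime.coprime_iff_not_dvd hl).1 hcop)
    have h2 := Kl_mul_ide (m := m) l hl (k : (ZMod m)ˣ) k.2 (((l ^ (a + 1) : ℕ) : ZMod m) * x)
    rw [h1] at h2
    linear_combination h2
  have hle : ∀ z ∈ F, (univ.filter fun k : Kl m l => ((k : (ZMod m)ˣ) : ZMod m) * x = z).card ≤
      qq m l / l ^ (a + 1) := fun z _ => av_count hl (by rw [hxe]; exact Dvd.intro e' rfl) hPq z
  have htot := Finset.card_eq_sum_card_fiberwise hmaps
  have hK : (univ : Finset (Kl m l)).card = qq m l / l * (l - 1) := by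
    rw [card_univ, ← Nat.card_eq_fintype_card]
    exact card_Kl l hl hlm
  have heq : ∑ z ∈ F, (univ.filter fun k : Kl m l => ((k : (ZMod m)ˣ) : ZMod m) * x = z).card =
      ∑ _z ∈ F, qq m l / l ^ (a + 1) := by
    rw [← htot, hK, sum_const, smul_eq_mul]
    obtain ⟨c, hc⟩ := hPq
    have h1 : qq m l / l ^ (a + 1) = c := by
      rw [hc]
      exact Nat.mul_div_cancel_left c (pow_pos hl.pos _)
    have h2 : qq m l / l = l ^ a * c := by
      rw [hc, pow_succ, mul_assoc, mul_comm l c, ← mul_assoc]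
      exact Nat.mul_div_cancel _ hl.pos
    have h3 : F.card = l ^ a * (l - 1) := by
      rw [Nat.mul_sub, mul_one, ← pow_succ]
      omega
    rw [h1, h2, h3]
    ring
  have hall := (Finset.sum_eq_sum_iff_of_le hle).1 heq
  rw [finsum_eq_sum_of_fintype, ← Finset.sum_fiberwise_of_maps_to hmaps]
  have h8 : ∀ z ∈ F, ∑ k ∈ univ.filter (fun k : Kl m l => ((k : (ZMod m)ˣ) : ZMod m) * x = z),
      g (((k : (ZMod m)ˣ) : ZMod m) * x) = (qq m l / l ^ (a + 1)) • g z := by
    intro z hz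
    rw [← hall z hz, ← sum_const]
    refine sum_congr rfl fun k hk => ?_
    rw [(mem_filter.1 hk).2]
  rw [sum_congr rfl h8, ← smul_sum, eq_sub_of_add_eq hsplit]

theorem Kl_avg_fix {B : Type} [AddCommGroup B] (g : ZMod m → B) {l : ℕ} (hl : l.Prime)
    (hlm : l ∣ m) (x : ZMod m) (hx : ¬ l ∣ addOrderOf x) :
    ∑ᶠ k : Kl m l, g (((k : (ZMod m)ˣ) : ZMod m) * x) = (qq m l / l * (l - 1)) • g x := by
  classical
  rw [finsum_eq_sum_of_fintype, ← card_Kl l hl hlm, Nat.card_eq_fintype_card, ← card_univ, ← sum_const]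
  refine sum_congr rfl fun k _ => ?_
  have h1 := ide_mul_eq_self (m := m) l hl x hx
  have h2 := Kl_mul_ide (m := m) l hl (k : (ZMod m)ˣ) k.2 x
  rw [h1] at h2
  rw [h2]

theorem lev_avg {A : Type} [AddCommGroup A] (D : Datum m A) (L : Set ℕ) (l : ℕ) (b : A)
    (hb : b ∈ D.lev L) :
    ∃ b' ∈ D.lev L, ∀ t : (ZMod m)ˣ, D.W t b' = ∑ᶠ k : Kl m l, D.W (t * (k : (ZMod m)ˣ)) b := by
  classical
  unfold Datum.lev at hb
  induction hb using AddSubgroup.closure_induction with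
  | mem a ha =>
    obtain ⟨z, hz, rfl⟩ := ha
    refine ⟨∑ k : Kl m l, D.f (((k : (ZMod m)ˣ) : ZMod m) * z), ?_, fun t => ?_⟩
    · refine AddSubgroup.sum_mem _ fun k _ => AddSubgroup.subset_closure ⟨_, ?_, rfl⟩
      rw [RUp_addOrderOf_unit_mul]
      exact hz
    · rw [map_sum, finsum_eq_sum_of_fintype]
      refine sum_congr rfl fun k _ => ?_
      rw [D.wf, D.wf, Units.val_mul, mul_assoc]
  | zero =>
    refine ⟨0, AddSubgroup.zero_mem _, fun t => ?_⟩
    rw [map_zero, finsum_eq_sum_of_fintype]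
    symm
    exact sum_eq_zero fun k _ => map_zero _
  | add a c _ _ iha ihc =>
    obtain ⟨a', ha', ha2⟩ := iha
    obtain ⟨c', hc', hc2⟩ := ihc
    refine ⟨a' + c', AddSubgroup.add_mem _ ha' hc', fun t => ?_⟩
    rw [map_add, ha2, hc2, finsum_eq_sum_of_fintype, finsum_eq_sum_of_fintype,
      finsum_eq_sum_of_fintype, ← sum_add_distrib]
    exact sum_congr rfl fun k _ => (map_add _ _ _).symm
  | neg a _ iha =>
    obtain ⟨a', ha', ha2⟩ := iha
    refine ⟨-a', AddSubgroup.neg_mem _ ha', fun t => ?_⟩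
    rw [map_neg, ha2, finsum_eq_sum_of_fintype, finsum_eq_sum_of_fintype, ← sum_neg_distrib]
    exact sum_congr rfl fun k _ => (map_neg _ _).symm

end

end Pool.Agent.FHD
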