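import Pool.Agent.FHD.Exact

/-! # FHD-BvA: bounds for the values on single elements -/

set_option autoImplicit false

namespace Pool.Agent.FHD

open Finset Pool.Agent.FS
open Pool.Agent.Helper9.Fermat (fib mem_fib)

section

variable {m : ℕ} [NeZero m] {n r : ℕ} [NeZero n]

private theorem Pl_cases (y : ZMod m) (l g : ℕ) : Pl y l g = 0 ∨ Pl y l g = 1 := by
  unfold Pl
  split_ifs
  · exact Or.inr rfl
  · exact Or.inl rfl

private theorem fac_le (y : ZMod m) (l a b : ℕ) : |Pl y l a - Pl y l b| ≤ 1 := by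
  rcases Pl_cases y l a with h | h <;> rcases Pl_cases y l b with h' | h' <;> rw [h, h'] <;> simp

/-- one of the two congruences holds modulo `hb l` -/
private theorem near (y : ZMod m) (hy : (addOrderOf y).primeFactors = tps n r) (l : ℕ)
    (hl : l ∈ tps n r) (hbl : hb l ∣ n) (u v : (ZMod n)ˣ)
    (h : Pl y l (rr u) - Pl y l (rr v) ≠ 0) :
    rr u ≡ lab y [MOD hb l] ∨ rr v ≡ lab y [MOD hb l] := by
  have hlp : l ∈ (addOrderOf y).primeFactors := by rw [hy]; exact hl
  have hlpr : l.Prime := Nat.prime_of_mem_primeFactors hlp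
  have hld : l ∣ addOrderOf y := Nat.dvd_of_mem_primeFactors hlp
  have he0 : addOrderOf y ≠ 0 := (Nat.mem_primeFactors.1 hlp).2.2
  have hlP : l ∣ ordProj[l] (addOrderOf y) := by
    have h1 : 1 ≤ (addOrderOf y).factorization l :=
      (hlpr.dvd_iff_one_le_factorization he0).1 hld
    exact dvd_pow_self l (by omega)
  have hP : hb l ∣ ordProj[l] (addOrderOf y) := by
    unfold hb at hbl ⊢
    split_ifs with h2
    · rw [if_pos h2] at hbl
      subst h2
      by_contra hcon
      have h3 : (addOrderOf y).factorization 2 = 1 := by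
        have h4 : 1 ≤ (addOrderOf y).factorization 2 :=
          (hlpr.dvd_iff_one_le_factorization he0).1 hld
        by_contra h5
        apply hcon
        have h6 : 2 ≤ (addOrderOf y).factorization 2 := by omega
        exact (by norm_num : (4 : ℕ) = 2 ^ 2) ▸ pow_dvd_pow 2 h6
      have h7 : ∀ w : (ZMod n)ˣ, Pl y 2 (rr w) = 1 := by
        intro w
        unfold Pl
        rw [h3, pow_one, if_pos]
        have h8 : Nat.Coprime (rr w) 2 :=
          (rr_coprime w).coprime_dvd_right ((by norm_num : 2 ∣ 4).trans hbl)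
        have h9 : Nat.Coprime (lab y) 2 := (lab_coprime y).coprime_dvd_right hld
        rw [Nat.coprime_two_right, Nat.odd_iff] at h8 h9
        exact h8.trans h9.symm
      exact h (by rw [h7, h7, sub_self])
    · exact hlP
  unfold Pl at h
  split_ifs at h with h1 h2
  · exact Or.inl (h1.of_dvd hP)
  · exact Or.inl (h1.of_dvd hP)
  · rename_i h2
    exact Or.inr (h2.of_dvd hP)
  · exact absurd (sub_self 0) h

theorem bp_le (y : ZMod m) (k : ℕ → (ZMod n)ˣ) (g : (ZMod n)ˣ) : |bp y r k g| ≤ 1 := by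
  unfold bp
  rw [Finset.abs_prod]
  exact Finset.prod_le_one (fun l _ => abs_nonneg _) (fun l _ => fac_le y l _ _)

theorem bv_le (y : ZMod m) (k : ℕ → (ZMod n)ˣ) (g : (ZMod n)ˣ) : |bv y r k g| ≤ 2 := by
  unfold bv
  have h1 := bp_le (r := r) y k g
  have h2 := bp_le (r := r) y k (-1 * g)
  rw [abs_le] at h1 h2 ⊢
  constructor <;> omega

theorem bv_alpha (hn : Uni m n) (y : ZMod m) (hy : (addOrderOf y).primeFactors = tps n r)
    (k : ℕ → (ZMod n)ˣ) (g : (ZMod n)ˣ) (l : ℕ) (hl : l ∈ tps n r) (hbl : hb l ∣ n)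
    (h : ¬ rr (k l) + 1 ≡ 0 [MOD hb l]) : |bv y r k g| ≤ 1 := by
  have hlpr : l.Prime := by
    rw [← hy] at hl
    exact Nat.prime_of_mem_primeFactors hl
  have hb3 := hb_pos hlpr
  -- units are not equal to their negatives
  have hself : ∀ u : (ZMod n)ˣ, ¬ rr u ≡ rr (-1 * u) [MOD hb l] := by
    intro u hu
    have h1 : rr (-1 * u) + rr u ≡ 0 [MOD hb l] := (rr_neg u).of_dvd hbl
    have h2 : 2 * rr u ≡ 0 [MOD hb l] := by
      rw [two_mul]
      exact (hu.add_right _).trans h1
    have h3 : hb l ∣ 2 * rr u := (Nat.modEq_zero_iff_dvd).1 h2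
    have h4 : (rr u).Coprime (hb l) := (rr_coprime u).coprime_dvd_right hbl
    have h5 : hb l ∣ 2 := (Nat.Coprime.dvd_mul_right h4.symm).1 h3
    have h6 := Nat.le_of_dvd (by norm_num) h5
    omega
  have hneg : ∀ u : (ZMod n)ˣ, rr (-1 * (-1 * u)) = rr u := by
    intro u
    congr 1
    simp
  have hk : ∀ u : (ZMod n)ˣ, ¬ rr (k l * u) ≡ rr (-1 * u) [MOD hb l] := by
    intro u hu
    apply h
    have h1 : rr (-1 * u) + rr u ≡ 0 [MOD hb l] := (rr_neg u).of_dvd hbl
    have h2 : rr (k l) * rr u ≡ rr (k l * u) [MOD hb l] := (rr_mul (k l) u).symm.of_dvd hbl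
    have h3 : (rr (k l) + 1) * rr u ≡ 0 * rr u [MOD hb l] := by
      rw [zero_mul, add_mul, one_mul]
      exact ((h2.trans hu).add_right _).trans h1
    have h4 : (rr u).Coprime (hb l) := (rr_coprime u).coprime_dvd_right hbl
    exact Nat.ModEq.cancel_right_of_coprime h4.symm h3
  have hkey : bp y r k g = 0 ∨ bp y r k (-1 * g) = 0 := by
    by_contra hcon
    push Not at hcon
    obtain ⟨h1, h2⟩ := hcon
    unfold bp at h1 h2
    rw [Finset.prod_ne_zero_iff] at h1 h2
    have h3 := near y hy l hl hbl _ _ (h1 l hl)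
    have h4 := near y hy l hl hbl _ _ (h2 l hl)
    have h5 : k l * (-1 * g) = -1 * (k l * g) := by
      simp
    rcases h3 with h3 | h3 <;> rcases h4 with h4 | h4
    · exact hself g (h3.trans h4.symm)
    · apply hk (-1 * g)
      rw [hneg]
      exact h4.trans h3.symm
    · exact hk g (h3.trans h4.symm)
    · rw [h5] at h4
      exact hself (k l * g) (h3.trans h4.symm)
  unfold bv
  rcases hkey with h1 | h1
  · rw [h1, zero_sub, abs_neg]
    exact bp_le y k _
  · rw [h1, sub_zero]
    exact bp_le y k _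

end

end Pool.Agent.FHD
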