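import Pool.Agent.FHD.BvA

/-! FHD-BvB: bounds for the values on single elements of odd order and their doubles. -/

set_option autoImplicit false

namespace Pool.Agent.FHD

open Finset Pool.Agent.FS
open Pool.Agent.Helper9.Fermat (fib mem_fib)

section

variable {m : ℕ} [NeZero m] {n r : ℕ} [NeZero n]

/-- the condition on `k` modulo `l` for `bv_beta` -/
def GoodB (l k : ℕ) : Prop :=
  ¬ k + 1 ≡ 0 [MOD l] ∧ ¬ k ≡ 2 [MOD l] ∧ ¬ k + 2 ≡ 0 [MOD l] ∧ ¬ 2 * k ≡ 1 [MOD l] ∧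
    ¬ 2 * k + 1 ≡ 0 [MOD l]

/-- the condition on `k` modulo `5` and `k'` modulo `7` for `bv_357` -/
def Good57 (k k' : ℕ) : Prop :=
  k ≡ 1 [MOD 5] ∨ k' ≡ 1 [MOD 7] ∨ (k + 1 ≡ 0 [MOD 5] ∧ ¬ k' + 1 ≡ 0 [MOD 7]) ∨
    (¬ k + 1 ≡ 0 [MOD 5] ∧ k' + 1 ≡ 0 [MOD 7])

/-! ### auxiliary lemmas -/

private theorem bvB_int {a b c d : ℤ} (ha : |a| ≤ 1) (hb : |b| ≤ 1) (hc : |c| ≤ 1) (hd : |d| ≤ 1)
    (h1 : a = 0 ∨ b = 0) (h2 : a = 0 ∨ c = 0) (h3 : a = 0 ∨ d = 0) (h4 : b = 0 ∨ c = 0)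
    (h5 : b = 0 ∨ d = 0) (h6 : c = 0 ∨ d = 0) : |a - b - (c - d)| ≤ 1 ∧ |c - d| ≤ 1 := by
  rw [abs_le] at ha hb hc hd
  constructor
  · rw [abs_le]
    omega
  · rw [abs_le]
    omega

private theorem bvB_ex1 {F : Type*} [Field F] {v G K : F} (hG : G ≠ 0) (h2 : (2 : F) ≠ 0)
    (hK : K ≠ 0) (hK1 : K + 1 ≠ 0) (h : v = G ∨ v = K * G) (h' : v = -G ∨ v = K * -G) :
    False := by
  rcases h with h | h <;> rcases h' with h' | h'
  · apply mul_ne_zero h2 hG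
    linear_combination h' - h
  · apply mul_ne_zero hK1 hG
    linear_combination h' - h
  · apply mul_ne_zero hK1 hG
    linear_combination h' - h
  · apply mul_ne_zero (mul_ne_zero h2 hK) hG
    linear_combination h' - h

private theorem bvB_ex2 {F : Type*} [Field F] {v w G K : F} (hG : G ≠ 0)
    (hK : K ≠ 0) (hK1 : K ≠ 2) (hK2 : 2 * K ≠ 1) (hw : w = 2 * v) (h : v = G ∨ v = K * G)
    (h' : w = G ∨ w = K * G) : False := by
  rcases h with h | h <;> rcases h' with h' | h'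
  · apply hG
    linear_combination h' - hw - 2 * h
  · apply mul_ne_zero (sub_ne_zero.mpr hK1) hG
    linear_combination hw + 2 * h - h'
  · apply mul_ne_zero (sub_ne_zero.mpr hK2) hG
    linear_combination h' - hw - 2 * h
  · apply mul_ne_zero hK hG
    linear_combination h' - hw - 2 * h

private theorem bvB_ex3 {F : Type*} [Field F] {v w G K : F} (hG : G ≠ 0) (h3 : (3 : F) ≠ 0)
    (hK : K ≠ 0) (hK1 : K + 2 ≠ 0) (hK2 : 2 * K + 1 ≠ 0) (hw : w = 2 * v)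
    (h : v = G ∨ v = K * G) (h' : w = -G ∨ w = K * -G) : False := by
  rcases h with h | h <;> rcases h' with h' | h'
  · apply mul_ne_zero h3 hG
    linear_combination h' - hw - 2 * h
  · apply mul_ne_zero hK1 hG
    linear_combination h' - hw - 2 * h
  · apply mul_ne_zero hK2 hG
    linear_combination h' - hw - 2 * h
  · apply mul_ne_zero (mul_ne_zero h3 hK) hG
    linear_combination h' - hw - 2 * h

private theorem bvB_tps {l : ℕ} (hl : l ∈ tps n r) : l.Prime ∧ l ∣ n := by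
  unfold tps at hl
  have h := Nat.mem_primeFactors.mp (Finset.mem_of_mem_erase hl)
  exact ⟨h.1, h.2.1⟩

private theorem bvB_mul {l : ℕ} (hln : l ∣ n) (a b : (ZMod n)ˣ) :
    (rr (a * b) : ZMod l) = (rr a : ZMod l) * (rr b : ZMod l) := by
  rw [← Nat.cast_mul, ZMod.natCast_eq_natCast_iff]
  exact (rr_mul a b).of_dvd hln

private theorem bvB_neg {l : ℕ} (hln : l ∣ n) (a : (ZMod n)ˣ) :
    (rr (-1 * a) : ZMod l) = -(rr a : ZMod l) := by
  have h := (ZMod.natCast_eq_natCast_iff _ _ l).mpr ((rr_neg a).of_dvd hln)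
  rw [Nat.cast_add, Nat.cast_zero] at h
  exact eq_neg_of_add_eq_zero_left h

private theorem bvB_unit {l : ℕ} (hlp : l.Prime) (hln : l ∣ n) (a : (ZMod n)ˣ) :
    (rr a : ZMod l) ≠ 0 := by
  intro h
  rw [ZMod.natCast_eq_zero_iff] at h
  have h1 := Nat.dvd_gcd h hln
  rw [(rr_coprime a : Nat.gcd (rr a) n = 1)] at h1
  exact hlp.one_lt.ne' (Nat.dvd_one.mp h1)

/-- the nonzero values -/
private theorem bvB_ne {y : ZMod m} (hy : (addOrderOf y).primeFactors = tps n r)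
    {k : ℕ → (ZMod n)ˣ} {g : (ZMod n)ˣ} {l : ℕ} (hl : l ∈ tps n r) (h : bp y r k g ≠ 0) :
    (lab y : ZMod l) = (rr g : ZMod l) ∨
      (lab y : ZMod l) = (rr (k l) : ZMod l) * (rr g : ZMod l) := by
  obtain ⟨hlp, hln⟩ := bvB_tps hl
  have hl' := hl
  rw [← hy] at hl'
  obtain ⟨-, hly, hy0⟩ := Nat.mem_primeFactors.mp hl'
  have hd : l ∣ ordProj[l] (addOrderOf y) :=
    dvd_pow_self l (hlp.factorization_pos_of_dvd hy0 hly).ne'
  unfold bp at h
  have h1 := (Finset.prod_ne_zero_iff.mp h) l hl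
  by_contra hcon
  rw [not_or] at hcon
  apply h1
  have e1 : Pl y l (rr g) = 0 := by
    unfold Pl
    rw [if_neg]
    intro h2
    apply hcon.1
    exact ((ZMod.natCast_eq_natCast_iff _ _ _).mpr (h2.of_dvd hd)).symm
  have e2 : Pl y l (rr (k l * g)) = 0 := by
    unfold Pl
    rw [if_neg]
    intro h2
    apply hcon.2
    rw [← bvB_mul hln]
    exact ((ZMod.natCast_eq_natCast_iff _ _ _).mpr (h2.of_dvd hd)).symm
  rw [e1, e2, sub_zero]

private theorem bvB_double (y : ZMod m) (h2 : ¬ 2 ∣ addOrderOf y) :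
    addOrderOf (2 * y) = addOrderOf y ∧ lab (2 * y) ≡ 2 * lab y [MOD addOrderOf y] := by
  have h := lab_mul_coprime y 2 ((Nat.Prime.coprime_iff_not_dvd Nat.prime_two).mpr h2)
  rw [Nat.cast_ofNat] at h
  exact h

private theorem bvB_natne {l a : ℕ} (ha : 0 < a) (hal : a < l) : ((a : ℕ) : ZMod l) ≠ 0 := by
  intro h
  rw [ZMod.natCast_eq_zero_iff] at h
  exact absurd (Nat.le_of_dvd ha h) (by omega)

private theorem bvB_modne {l a b : ℕ} (h : ¬ a ≡ b [MOD l]) : (a : ZMod l) ≠ (b : ZMod l) :=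
  fun h' => h ((ZMod.natCast_eq_natCast_iff _ _ _).mp h')

private theorem bvB_main (y : ZMod m) (hy : (addOrderOf y).primeFactors = tps n r)
    (h2 : ¬ 2 ∣ n) (k : ℕ → (ZMod n)ˣ) (g : (ZMod n)ˣ) (l l' : ℕ) (hl : l ∈ tps n r)
    (hl' : l' ∈ tps n r) (h5 : 5 ≤ l) (h1 : ¬ rr (k l) ≡ 2 [MOD l])
    (h3 : ¬ rr (k l) + 2 ≡ 0 [MOD l]) (h4 : ¬ 2 * rr (k l) ≡ 1 [MOD l])
    (h6 : ¬ 2 * rr (k l) + 1 ≡ 0 [MOD l]) (h' : ¬ rr (k l') + 1 ≡ 0 [MOD l']) :
    |bv y r k g| ≤ 1 ∧ |bv (2 * y) r k g - bv y r k g| ≤ 1 := by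
  obtain ⟨hlp, hln⟩ := bvB_tps hl
  obtain ⟨hlp', hln'⟩ := bvB_tps hl'
  haveI := Fact.mk hlp
  haveI := Fact.mk hlp'
  -- the order is odd
  have hodd : ¬ 2 ∣ addOrderOf y := by
    intro h
    have hl'' := hl
    rw [← hy] at hl''
    obtain ⟨-, -, hy0⟩ := Nat.mem_primeFactors.mp hl''
    have h7 : 2 ∈ (addOrderOf y).primeFactors :=
      Nat.mem_primeFactors.mpr ⟨Nat.prime_two, h, hy0⟩
    rw [hy] at h7
    exact h2 (bvB_tps h7).2
  obtain ⟨ho, hla⟩ := bvB_double y hodd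
  have hy2 : (addOrderOf (2 * y)).primeFactors = tps n r := by rw [ho, hy]
  have hdbl : ∀ q ∈ tps n r, (lab (2 * y) : ZMod q) = 2 * (lab y : ZMod q) := by
    intro q hq
    rw [← hy] at hq
    have h7 := (ZMod.natCast_eq_natCast_iff _ _ q).mpr
      (hla.of_dvd (Nat.dvd_of_mem_primeFactors hq))
    rw [h7]
    push_cast
    ring
  have hl2' : l' ≠ 2 := by
    rintro rfl
    exact h2 hln'
  have h3l' : 2 < l' := by
    have := hlp'.two_le
    omega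
  -- the facts modulo `l` and `l'`
  have hG := bvB_unit hlp hln g
  have hK := bvB_unit hlp hln (k l)
  have hG' := bvB_unit hlp' hln' g
  have hK' := bvB_unit hlp' hln' (k l')
  have f2 : (2 : ZMod l') ≠ 0 := by
    have := bvB_natne (l := l') (a := 2) (by norm_num) h3l'
    exact_mod_cast this
  have f3 : (3 : ZMod l) ≠ 0 := by
    have := bvB_natne (l := l) (a := 3) (by norm_num) (by omega)
    exact_mod_cast this
  have g1 : (rr (k l) : ZMod l) ≠ 2 := by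
    have := bvB_modne h1
    exact_mod_cast this
  have g2 : (rr (k l) : ZMod l) + 2 ≠ 0 := by
    have := bvB_modne h3
    exact_mod_cast this
  have g3 : 2 * (rr (k l) : ZMod l) ≠ 1 := by
    have := bvB_modne h4
    exact_mod_cast this
  have g4 : 2 * (rr (k l) : ZMod l) + 1 ≠ 0 := by
    have := bvB_modne h6
    exact_mod_cast this
  have g5 : (rr (k l') : ZMod l') + 1 ≠ 0 := by
    have := bvB_modne h'
    exact_mod_cast this
  have hnG : -(rr g : ZMod l) ≠ 0 := neg_ne_zero.mpr hG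
  have hmain := bvB_int (bp_le (2 * y) (r := r) k g) (bp_le (2 * y) (r := r) k (-1 * g))
    (bp_le y (r := r) k g) (bp_le y (r := r) k (-1 * g))
    (by
      by_contra hcon
      rw [not_or] at hcon
      have a1 := bvB_ne hy2 hl' hcon.1
      have a2 := bvB_ne hy2 hl' hcon.2
      rw [bvB_neg hln'] at a2
      exact bvB_ex1 hG' f2 hK' g5 a1 a2)
    (by
      by_contra hcon
      rw [not_or] at hcon
      have a1 := bvB_ne hy2 hl hcon.1
      have a2 := bvB_ne hy hl hcon.2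
      exact bvB_ex2 hG hK g1 g3 (hdbl l hl) a2 a1)
    (by
      by_contra hcon
      rw [not_or] at hcon
      have a1 := bvB_ne hy2 hl hcon.1
      have a2 := bvB_ne hy hl hcon.2
      rw [bvB_neg hln] at a2
      exact bvB_ex3 hnG f3 hK g2 g4 (hdbl l hl) a2 (by rw [neg_neg]; exact a1))
    (by
      by_contra hcon
      rw [not_or] at hcon
      have a1 := bvB_ne hy2 hl hcon.1
      have a2 := bvB_ne hy hl hcon.2
      rw [bvB_neg hln] at a1
      exact bvB_ex3 hG f3 hK g2 g4 (hdbl l hl) a2 a1)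
    (by
      by_contra hcon
      rw [not_or] at hcon
      have a1 := bvB_ne hy2 hl hcon.1
      have a2 := bvB_ne hy hl hcon.2
      rw [bvB_neg hln] at a1 a2
      exact bvB_ex2 hnG hK g1 g3 (hdbl l hl) a2 a1)
    (by
      by_contra hcon
      rw [not_or] at hcon
      have a1 := bvB_ne hy hl' hcon.1
      have a2 := bvB_ne hy hl' hcon.2
      rw [bvB_neg hln'] at a2
      exact bvB_ex1 hG' f2 hK' g5 a1 a2)
  exact ⟨hmain.2, hmain.1⟩

theorem bv_beta (hn : Uni m n) (y : ZMod m) (hy : (addOrderOf y).primeFactors = tps n r)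
    (h2 : ¬ 2 ∣ n) (k : ℕ → (ZMod n)ˣ) (g : (ZMod n)ˣ) (l : ℕ) (hl : l ∈ tps n r) (h5 : 5 ≤ l)
    (h : GoodB l (rr (k l))) : |bv (2 * y) r k g - bv y r k g| ≤ 1 := by
  obtain ⟨h1, h3, h4, h6, h7⟩ := h
  exact (bvB_main y hy h2 k g l l hl hl h5 h3 h4 h6 h7 h1).2

theorem bv_357 (hn : Uni m n) (y : ZMod m) (hy : (addOrderOf y).primeFactors = tps n r)
    (h2 : ¬ 2 ∣ n) (k : ℕ → (ZMod n)ˣ) (g : (ZMod n)ˣ) (h5 : 5 ∈ tps n r) (h7 : 7 ∈ tps n r)
    (h : Good57 (rr (k 5)) (rr (k 7))) :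
    |bv y r k g| ≤ 1 ∧ |bv (2 * y) r k g - bv y r k g| ≤ 1 := by
  unfold Good57 at h
  rcases h with h | h | ⟨h, h'⟩ | ⟨h', h⟩
  · refine bvB_main y hy h2 k g 5 5 h5 h5 (by norm_num) ?_ ?_ ?_ ?_ ?_ <;>
      unfold Nat.ModEq at * <;> omega
  · refine bvB_main y hy h2 k g 7 7 h7 h7 (by norm_num) ?_ ?_ ?_ ?_ ?_ <;>
      unfold Nat.ModEq at * <;> omega
  · refine bvB_main y hy h2 k g 5 7 h5 h7 (by norm_num) ?_ ?_ ?_ ?_ h' <;>
      unfold Nat.ModEq at * <;> omega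
  · refine bvB_main y hy h2 k g 7 5 h7 h5 (by norm_num) ?_ ?_ ?_ ?_ h' <;>
      unfold Nat.ModEq at * <;> omega

/-- the residues of the sign changes -/
private theorem bvB_sgn {p q : ℕ} (hp : p.Prime) (hq : q.Prime) (hpq : p ≠ q) (hpn : p ∣ n)
    (hqn : q ∣ n) {s : (ZMod n)ˣ} (hs : s ∈ Kl n p) (hs' : rr s + 1 ≡ 0 [MOD ordProj[p] n]) :
    (rr s : ZMod p) = -1 ∧ (rr s : ZMod q) = 1 := by
  have hn0 : n ≠ 0 := NeZero.ne n
  constructor
  · have hd : p ∣ ordProj[p] n := dvd_pow_self p (hp.factorization_pos_of_dvd hn0 hpn).ne'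
    have h := (ZMod.natCast_eq_natCast_iff _ _ p).mpr (hs'.of_dvd hd)
    rw [Nat.cast_add, Nat.cast_zero, Nat.cast_one] at h
    exact eq_neg_of_add_eq_zero_left h
  · have hd : q ∣ ordCompl[p] n := by
      have h1 : q ∣ ordProj[p] n * ordCompl[p] n := by
        rw [Nat.ordProj_mul_ordCompl_eq_self]
        exact hqn
      rcases hq.dvd_mul.mp h1 with h2 | h2
      · exact absurd ((Nat.prime_dvd_prime_iff_eq hq hp).mp (hq.dvd_of_dvd_pow h2)) hpq.symm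
      · exact h2
    have h := (ZMod.natCast_eq_natCast_iff _ _ q).mpr ((mem_Kl.mp hs).of_dvd hd)
    rw [Nat.cast_one] at h
    exact h

/-- the sum over the four sign changes at `5` and `7`: `s₅` and `s₇` are `-1` at `5` and `7` -/
theorem bv_four (hn : Uni m n) (y : ZMod m) (hy : (addOrderOf y).primeFactors = tps n r)
    (k : ℕ → (ZMod n)ˣ) (hk : KFam n r k) (g : (ZMod n)ˣ) (h5 : 5 ∈ tps n r) (h7 : 7 ∈ tps n r)
    (s₅ s₇ : (ZMod n)ˣ) (hs5 : s₅ ∈ Kl n 5) (hs5' : rr s₅ + 1 ≡ 0 [MOD ordProj[5] n])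
    (hs7 : s₇ ∈ Kl n 7) (hs7' : rr s₇ + 1 ≡ 0 [MOD ordProj[7] n])
    (hk5 : ¬ rr (k 5) ≡ 1 [MOD 5]) (hk5' : ¬ rr (k 5) + 1 ≡ 0 [MOD 5])
    (hk7 : ¬ rr (k 7) ≡ 1 [MOD 7]) (hk7' : ¬ rr (k 7) + 1 ≡ 0 [MOD 7]) :
    |bv y r k g + bv y r k (s₅ * g) + bv y r k (s₇ * g) + bv y r k (s₅ * (s₇ * g))| ≤ 2 := by
  obtain ⟨p5, n5⟩ := bvB_tps h5
  obtain ⟨p7, n7⟩ := bvB_tps h7
  haveI := Fact.mk p5
  haveI := Fact.mk p7
  obtain ⟨a55, a57⟩ := bvB_sgn p5 p7 (by norm_num) n5 n7 hs5 hs5'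
  obtain ⟨a77, a75⟩ := bvB_sgn p7 p5 (by norm_num) n7 n5 hs7 hs7'
  have hG5 := bvB_unit p5 n5 g
  have hK5 := bvB_unit p5 n5 (k 5)
  have hG7 := bvB_unit p7 n7 g
  have hK7 := bvB_unit p7 n7 (k 7)
  have f5 : (2 : ZMod 5) ≠ 0 := by
    have := bvB_natne (l := 5) (a := 2) (by norm_num) (by norm_num)
    exact_mod_cast this
  have f7 : (2 : ZMod 7) ≠ 0 := by
    have := bvB_natne (l := 7) (a := 2) (by norm_num) (by norm_num)
    exact_mod_cast this
  have m5 : ∀ x : ZMod 5, -1 * x = -x := fun x => neg_one_mul x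
  have m7 : ∀ x : ZMod 7, -1 * x = -x := fun x => neg_one_mul x
  have g5 : (rr (k 5) : ZMod 5) + 1 ≠ 0 := by
    have := bvB_modne hk5'
    exact_mod_cast this
  have g7 : (rr (k 7) : ZMod 7) + 1 ≠ 0 := by
    have := bvB_modne hk7'
    exact_mod_cast this
  -- the two exclusions
  have ex5 : ¬ (((lab y : ZMod 5) = (rr g : ZMod 5) ∨
        (lab y : ZMod 5) = (rr (k 5) : ZMod 5) * (rr g : ZMod 5)) ∧
      ((lab y : ZMod 5) = -(rr g : ZMod 5) ∨
        (lab y : ZMod 5) = (rr (k 5) : ZMod 5) * -(rr g : ZMod 5))) :=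
    fun h => bvB_ex1 hG5 f5 hK5 g5 h.1 h.2
  have ex7 : ¬ (((lab y : ZMod 7) = (rr g : ZMod 7) ∨
        (lab y : ZMod 7) = (rr (k 7) : ZMod 7) * (rr g : ZMod 7)) ∧
      ((lab y : ZMod 7) = -(rr g : ZMod 7) ∨
        (lab y : ZMod 7) = (rr (k 7) : ZMod 7) * -(rr g : ZMod 7))) :=
    fun h => bvB_ex1 hG7 f7 hK7 g7 h.1 h.2
  -- the eight terms
  have A1 := fun h : bp y r k g ≠ 0 => And.intro (bvB_ne hy h5 h) (bvB_ne hy h7 h)
  have B1 := fun h : bp y r k (-1 * g) ≠ 0 => And.intro (bvB_ne hy h5 h) (bvB_ne hy h7 h)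
  have A2 := fun h : bp y r k (s₅ * g) ≠ 0 => And.intro (bvB_ne hy h5 h) (bvB_ne hy h7 h)
  have B2 := fun h : bp y r k (-1 * (s₅ * g)) ≠ 0 =>
    And.intro (bvB_ne hy h5 h) (bvB_ne hy h7 h)
  have A3 := fun h : bp y r k (s₇ * g) ≠ 0 => And.intro (bvB_ne hy h5 h) (bvB_ne hy h7 h)
  have B3 := fun h : bp y r k (-1 * (s₇ * g)) ≠ 0 =>
    And.intro (bvB_ne hy h5 h) (bvB_ne hy h7 h)
  have A4 := fun h : bp y r k (s₅ * (s₇ * g)) ≠ 0 =>
    And.intro (bvB_ne hy h5 h) (bvB_ne hy h7 h)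
  have B4 := fun h : bp y r k (-1 * (s₅ * (s₇ * g))) ≠ 0 =>
    And.intro (bvB_ne hy h5 h) (bvB_ne hy h7 h)
  simp only [bvB_neg n5, bvB_neg n7, bvB_mul n5, bvB_mul n7, a55, a57, a75, a77, one_mul,
    m5, m7, neg_neg] at A1 B1 A2 B2 A3 B3 A4 B4
  have l1 := bp_le y (r := r) k g
  have l2 := bp_le y (r := r) k (-1 * g)
  have l3 := bp_le y (r := r) k (s₅ * g)
  have l4 := bp_le y (r := r) k (-1 * (s₅ * g))
  have l5 := bp_le y (r := r) k (s₇ * g)
  have l6 := bp_le y (r := r) k (-1 * (s₇ * g))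
  have l7 := bp_le y (r := r) k (s₅ * (s₇ * g))
  have l8 := bp_le y (r := r) k (-1 * (s₅ * (s₇ * g)))
  unfold bv
  rw [abs_le] at *
  by_cases q5 : (lab y : ZMod 5) = (rr g : ZMod 5) ∨
        (lab y : ZMod 5) = (rr (k 5) : ZMod 5) * (rr g : ZMod 5) <;>
    by_cases q7 : (lab y : ZMod 7) = (rr g : ZMod 7) ∨
        (lab y : ZMod 7) = (rr (k 7) : ZMod 7) * (rr g : ZMod 7)
  · have z1 : bp y r k (-1 * g) = 0 := by
      by_contra h; exact ex5 ⟨q5, (B1 h).1⟩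
    have z2 : bp y r k (s₅ * g) = 0 := by
      by_contra h; exact ex5 ⟨q5, (A2 h).1⟩
    have z3 : bp y r k (-1 * (s₅ * g)) = 0 := by
      by_contra h; exact ex7 ⟨q7, (B2 h).2⟩
    have z4 : bp y r k (s₇ * g) = 0 := by
      by_contra h; exact ex7 ⟨q7, (A3 h).2⟩
    have z5 : bp y r k (-1 * (s₇ * g)) = 0 := by
      by_contra h; exact ex5 ⟨q5, (B3 h).1⟩
    have z6 : bp y r k (s₅ * (s₇ * g)) = 0 := by
      by_contra h; exact ex5 ⟨q5, (A4 h).1⟩
    omega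
  · have z1 : bp y r k (-1 * g) = 0 := by
      by_contra h; exact ex5 ⟨q5, (B1 h).1⟩
    have z2 : bp y r k (s₅ * g) = 0 := by
      by_contra h; exact ex5 ⟨q5, (A2 h).1⟩
    have z3 : bp y r k g = 0 := by
      by_contra h; exact q7 (A1 h).2
    have z5 : bp y r k (-1 * (s₇ * g)) = 0 := by
      by_contra h; exact ex5 ⟨q5, (B3 h).1⟩
    have z6 : bp y r k (s₅ * (s₇ * g)) = 0 := by
      by_contra h; exact ex5 ⟨q5, (A4 h).1⟩
    have z7 : bp y r k (-1 * (s₅ * (s₇ * g))) = 0 := by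
      by_contra h; exact q7 (B4 h).2
    omega
  · have z1 : bp y r k (-1 * g) = 0 := by
      by_contra h; exact ex7 ⟨q7, (B1 h).2⟩
    have z3 : bp y r k g = 0 := by
      by_contra h; exact q5 (A1 h).1
    have z4 : bp y r k (s₇ * g) = 0 := by
      by_contra h; exact ex7 ⟨q7, (A3 h).2⟩
    have z2 : bp y r k (-1 * (s₅ * g)) = 0 := by
      by_contra h; exact ex7 ⟨q7, (B2 h).2⟩
    have z6 : bp y r k (s₅ * (s₇ * g)) = 0 := by
      by_contra h; exact ex7 ⟨q7, (A4 h).2⟩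
    have z7 : bp y r k (-1 * (s₅ * (s₇ * g))) = 0 := by
      by_contra h; exact q5 (B4 h).1
    omega
  · have z3 : bp y r k g = 0 := by
      by_contra h; exact q5 (A1 h).1
    have z7 : bp y r k (-1 * (s₅ * (s₇ * g))) = 0 := by
      by_contra h; exact q5 (B4 h).1
    have z2 : bp y r k (s₅ * g) = 0 := by
      by_contra h; exact q7 (A2 h).2
    have z5 : bp y r k (-1 * (s₇ * g)) = 0 := by
      by_contra h; exact q7 (B3 h).2
    have z4 : bp y r k (s₇ * g) = 0 := by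
      by_contra h; exact q5 (A3 h).1
    have z6 : bp y r k (-1 * (s₅ * g)) = 0 := by
      by_contra h; exact q5 (B2 h).1
    omega

end

end Pool.Agent.FHD
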