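import Pool.Agent.FHD.Defs

/-!
# FHD-MixInv: the mixed differences are invariant under `Kl n r`

An element `h ∈ Kl n r` is the image of some `h' ∈ Kl m r`. Apply `R.act h'` to
`a = ∑ N w • F (emb m n w) + b`: the result is again `a`, so
`0 = ∑ (N w - N (h⁻¹ w)) • F (emb m n w) + (b - act h' b)`, and `b - act h' b` is in the same level
set. `RDatum.mixed` for this element (all weights of `0` vanish) gives the theorem.
-/

set_option autoImplicit false

namespace Pool.Agent.FHD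

open Finset Pool.Agent.FS
open Pool.Agent.Helper9.Fermat (fib mem_fib)

section

variable {m r : ℕ} [NeZero m] {U : Type} [AddCommGroup U]

/-- a unit of `ZMod m` fixing all elements of order prime to `r` is in `Kl m r` -/
private theorem mixInv_mem_Kl (hr : r.Prime) (κ : (ZMod m)ˣ)
    (hκ : ∀ z : ZMod m, ¬ r ∣ addOrderOf z → (κ : ZMod m) * z = z) : κ ∈ Kl m r := by
  have hm0 : m ≠ 0 := NeZero.ne m
  have hP : 0 < ordProj[r] m := Nat.ordProj_pos m r
  have hC : 0 < ordCompl[r] m := Nat.ordCompl_pos r hm0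
  have hmul : ordProj[r] m * ordCompl[r] m = m := Nat.ordProj_mul_ordCompl_eq_self m r
  have hord : addOrderOf ((ordProj[r] m : ℕ) : ZMod m) = ordCompl[r] m := by
    rw [ZMod.addOrderOf_coe _ hm0, Nat.gcd_eq_right (Nat.ordProj_dvd m r)]
  have h1 := hκ ((ordProj[r] m : ℕ) : ZMod m) (by
    rw [hord]
    exact Nat.not_dvd_ordCompl hr hm0)
  have h2 : (κ : ZMod m) = (((κ : ZMod m).val : ℕ) : ZMod m) := by
    rw [ZMod.natCast_val, ZMod.cast_id]
  rw [h2, ← Nat.cast_mul, ZMod.natCast_eq_natCast_iff] at h1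
  have h3 : (κ : ZMod m).val * ordProj[r] m ≡ 1 * ordProj[r] m
      [MOD ordCompl[r] m * ordProj[r] m] := by
    rw [one_mul, mul_comm (ordCompl[r] m), hmul]
    exact h1
  have h4 : (κ : ZMod m).val ≡ 1 [MOD ordCompl[r] m] := Nat.ModEq.mul_right_cancel' hP.ne' h3
  show ZMod.unitsMap (Nat.ordCompl_dvd m r) κ = 1
  apply Units.ext
  rw [ZMod.unitsMap_val, Units.val_one, ← ZMod.natCast_val, ← Nat.cast_one,
    ZMod.natCast_eq_natCast_iff]
  exact h4

/-- units preserve the level groups -/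
private theorem mixInv_act_lev (R : UDatum m r U) (h : (ZMod m)ˣ) (L : Set ℕ) {b : U}
    (hb : b ∈ R.lev L) : R.act h b ∈ R.lev L := by
  have hle : R.lev L ≤ (R.lev L).comap (R.act h) := by
    refine (AddSubgroup.closure_le _).mpr ?_
    rintro b ⟨x, hx, rfl⟩
    show R.act h (R.F x) ∈ R.lev L
    rw [R.act_F]
    refine AddSubgroup.subset_closure ⟨(h : ZMod m) * x, ?_, rfl⟩
    have e : addOrderOf ((AddMonoidHom.mulLeft (h : ZMod m)) x) = addOrderOf x :=
      addOrderOf_injective _ h.isUnit.mul_right_injective x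
    rw [AddMonoidHom.coe_mulLeft] at e
    rw [e]
    exact hx
  exact hle hb

/-- a unitary divisor which does not contain `n` misses a prime factor of `n` -/
private theorem mixInv_miss {n n' : ℕ} (hn : Uni m n) (hn' : Uni m n')
    (hrn' : r ∣ n') (hnn : ¬ n ∣ n') : ∃ l ∈ lsr n r, ¬ l ∣ n' := by
  have hm0 : m ≠ 0 := NeZero.ne m
  have hn0 : n ≠ 0 := uni_pos hm0 hn
  have hn0' : n' ≠ 0 := uni_pos hm0 hn'
  by_contra hcon
  push Not at hcon
  apply hnn
  have hall : ∀ l : ℕ, l.Prime → l ∣ n → l ∣ n' := by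
    intro l hl hln
    by_cases hlr : l = r
    · rw [hlr]; exact hrn'
    · apply hcon
      unfold lsr tps
      rw [Finset.mem_toList, Finset.mem_erase, Nat.mem_primeFactors]
      exact ⟨hlr, hl, hln, hn0⟩
  rw [← Nat.factorization_prime_le_iff_dvd hn0 hn0']
  intro p hp
  by_cases hpn : p ∣ n
  · have h1 := uni_ordProj hn hp hpn
    have h2 := uni_ordProj hn' hp (hall p hp hpn)
    rw [← h2] at h1
    exact (Nat.pow_right_injective hp.two_le h1).le
  · rw [Nat.factorization_eq_zero_of_not_dvd hpn]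
    exact Nat.zero_le _

theorem mix_inv (hr : r.Prime) (R : UDatum m r U) (a : U) (hinv : ∀ h ∈ Kl m r, R.act h a = a)
    {n : ℕ} [NeZero n] (hn : Uni m n) (hrn : r ∣ n) (N : (ZMod n)ˣ → ℤ)
    (hN : Rep R.toRDatum n a N) (k : ℕ → (ZMod n)ˣ) (hk : KFam n r k) (h : (ZMod n)ˣ)
    (hh : h ∈ Kl n r) (g : (ZMod n)ˣ) : md n r N k (h * g) = md n r N k g := by
  obtain ⟨κ, hκ1, hκ2⟩ := Mixed_exists_lift hn.1 hn.2 hr hrn hh
  have hκ : κ ∈ Kl m r := mixInv_mem_Kl hr κ hκ2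
  obtain ⟨b, hb, hab⟩ := hN
  have hb' := mixInv_act_lev R κ _ hb
  have hκa := hinv κ hκ
  -- the action on the sum
  have e1 : R.act κ (∑ w : (ZMod n)ˣ, N w • R.F (emb m n w)) =
      ∑ w : (ZMod n)ˣ, N (h⁻¹ * w) • R.F (emb m n w) := by
    rw [map_sum, ← Equiv.sum_comp (Equiv.mulLeft h)
      (fun w : (ZMod n)ˣ => N (h⁻¹ * w) • R.F (emb m n w))]
    refine Finset.sum_congr rfl fun w _ => ?_
    rw [map_zsmul, R.act_F, Mixed_mul_emb hn.1, hκ1, Equiv.coe_mulLeft, inv_mul_cancel_left,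
      Units.val_mul]
  have e2 : ∑ w : (ZMod n)ˣ, (N w - N (h⁻¹ * w)) • R.F (emb m n w) + (b - R.act κ b) = 0 := by
    have e3 : R.act κ a = ∑ w : (ZMod n)ˣ, N (h⁻¹ * w) • R.F (emb m n w) + R.act κ b := by
      conv_lhs => rw [hab]
      rw [map_add, e1]
    have e4 : ∑ w : (ZMod n)ˣ, (N w - N (h⁻¹ * w)) • R.F (emb m n w) =
        ∑ w : (ZMod n)ˣ, N w • R.F (emb m n w) -
          ∑ w : (ZMod n)ˣ, N (h⁻¹ * w) • R.F (emb m n w) := by
      rw [← Finset.sum_sub_distrib]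
      exact Finset.sum_congr rfl fun w _ => sub_smul _ _ _
    have e5 : a - R.act κ a = 0 := by rw [hκa, sub_self]
    rw [e3] at e5
    rw [e4, ← e5]
    conv_rhs => rw [hab]
    abel
  have hks : List.Forall₂ (fun l k => k ∈ Kl n l) (lsr n r) ((lsr n r).map k) := by
    rw [List.forall₂_map_right_iff, List.forall₂_same]
    intro l hl
    refine hk l ?_
    unfold lsr at hl
    exact Finset.mem_toList.mp hl
  have hmem : ∀ l : ℕ, l ∈ lsr n r ↔ l ≠ r ∧ l.Prime ∧ l ∣ n := by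
    intro l
    unfold lsr tps
    rw [Finset.mem_toList, Finset.mem_erase, Nat.mem_primeFactors]
    exact ⟨fun h => ⟨h.1, h.2.1, h.2.2.1⟩, fun h => ⟨h.1, h.2.1, h.2.2, NeZero.ne n⟩⟩
  have e6 := RDatum.mixed R.toRDatum hr hn hrn (lsr n r)
    (fun l hl => ⟨((hmem l).mp hl).2.1, ((hmem l).mp hl).2.2, ((hmem l).mp hl).1⟩)
    (fun l hl hln hlr => (hmem l).mpr ⟨hlr, hl, hln⟩)
    {n' | Uni m n' ∧ r ∣ n' ∧ ¬ n ∣ n'}
    (fun n' hn' => mixInv_miss hn hn'.1 hn'.2.1 hn'.2.2)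
    (fun w => N w - N (h⁻¹ * w)) (b - R.act κ b) (AddSubgroup.sub_mem _ hb hb')
    (fun t => by rw [e2, map_zero]) (fun t => by rw [e2, map_zero])
    ((lsr n r).map k) hks (h * g)
  have e7 : (fun g : (ZMod n)ˣ => (N g - N (h⁻¹ * g)) - (N (-1 * g) - N (h⁻¹ * (-1 * g)))) =
      dif h⁻¹ (fun g => N g - N (-1 * g)) := by
    funext g
    simp only [dif]
    rw [mul_left_comm h⁻¹ (-1) g]
    ring
  rw [e7, Mixed_difs_dif] at e6
  simp only [dif] at e6
  rw [inv_mul_cancel_left] at e6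
  unfold md
  exact sub_eq_zero.mp e6

end

end Pool.Agent.FHD
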