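import Pool.Agent.FHD.Defs

/-!
# FHD-PBound: bounds for pure distributions

Plan. `pure_bound`: induction on `addOrderOf x`. If some `l ∈ T` does not divide the order, `supp`.
If the set of prime factors is `T`, `h1`. Otherwise take a prime factor `l ∉ T`, `P` the `l`-part
of the order; `red`: `φ(P) |Θ x| ≤ |Θ (P x)| + |Θ ((P / l) (ide m l x))| ≤ 2 C`; both elements have
the order `addOrderOf x / P`, which is not `2` modulo `4` (`P` is odd, or the quotient is odd), and
`φ(P) ≥ 2` since `P ≥ 3` (`P = 2` is excluded by `hx`).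
`pure_two_mem`: the fibre of `2 x` for the prime `2` is `{x, x + m / 2}`, `x + m / 2` and `2 x` have
odd order. `pure_bound_two`: `red` for `2`: `Θ x = Θ (2 x) - Θ (ide m 2 * x)` and
`2 x = 2 (ide m 2 x)`; for `z` of odd order show `|Θ (2 z) - Θ z| ≤ C` by induction on the order as
above (`ide m l (2 z) = 2 (ide m l z)`, the orders of `2 z` and `z` are equal).
-/

set_option autoImplicit false

namespace Pool.Agent.FHD

open Finset Pool.Agent.FS
open Pool.Agent.Helper9.Fermat (fib mem_fib)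

section

variable {m : ℕ} [NeZero m] {T : Finset ℕ} {Θ : ZMod m → ℤ}

private theorem pb_num (e l : ℕ) (he : e ≠ 0) (hl : l.Prime) (hle : l ∣ e) (h4 : e % 4 ≠ 2) :
    2 ≤ (ordProj[l] e).totient ∧ (ordCompl[l] e) % 4 ≠ 2 ∧ ordCompl[l] e < e := by
  have hpm : ordProj[l] e * ordCompl[l] e = e := Nat.ordProj_mul_ordCompl_eq_self e l
  have hN0 : 0 < ordCompl[l] e := Nat.ordCompl_pos l he
  have hNl : ¬ l ∣ ordCompl[l] e := Nat.not_dvd_ordCompl hl he
  obtain ⟨a, ha⟩ : ∃ a, e.factorization l = a + 1 := by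
    refine ⟨e.factorization l - 1, ?_⟩
    have := hl.factorization_pos_of_dvd he hle
    omega
  generalize hN : ordCompl[l] e = N at *
  rw [ha] at *
  have h2 : 2 ≤ l := hl.two_le
  have hP1 : 1 ≤ l ^ a := Nat.one_le_pow _ _ hl.pos
  refine ⟨?_, ?_, ?_⟩
  · rw [Nat.totient_prime_pow_succ hl]
    rcases eq_or_lt_of_le h2 with h | h
    · subst h
      rcases a with _ | a
      · exfalso
        rw [zero_add, pow_one] at hpm
        omega
      · rw [pow_succ]
        have := Nat.one_le_pow a 2 (by norm_num)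
        omega
    · have h3 : 2 ≤ l - 1 := by omega
      calc 2 ≤ 1 * (l - 1) := by omega
        _ ≤ l ^ a * (l - 1) := Nat.mul_le_mul_right _ hP1
  · intro h
    rcases eq_or_lt_of_le h2 with h' | h'
    · subst h'
      apply hNl
      omega
    · have hodd : Odd (l ^ (a + 1)) := (hl.odd_of_ne_two (by omega)).pow
      obtain ⟨c, hc⟩ := hodd
      apply h4
      rw [← hpm, hc, Nat.mul_mod, h]
      have : (2 * c + 1) % 4 = 1 ∨ (2 * c + 1) % 4 = 3 := by omega
      rcases this with h5 | h5 <;> rw [h5]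
  · rw [← hpm]
    have : 2 ≤ l ^ (a + 1) := by
      rw [pow_succ]
      nlinarith
    nlinarith

private theorem pb_ordP (l : ℕ) (x : ZMod m) :
    addOrderOf (((ordProj[l] (addOrderOf x) : ℕ) : ZMod m) * x) = ordCompl[l] (addOrderOf x) := by
  rw [← nsmul_eq_mul, addOrderOf_nsmul_of_dvd (Nat.ordProj_pos _ _).ne' (Nat.ordProj_dvd _ _)]

private theorem pb_ordI (l : ℕ) (hl : l.Prime) (x : ZMod m) (hlx : l ∣ addOrderOf x) :
    addOrderOf (((ordProj[l] (addOrderOf x) / l : ℕ) : ZMod m) * (ide m l * x)) =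
      ordCompl[l] (addOrderOf x) := by
  have h0 : addOrderOf x ≠ 0 := (addOrderOf_pos x).ne'
  rw [RNorm_ord_nsmul, addOrderOf_ide_mul l hl]
  rw [addOrderOf_ide_mul l hl]
  have h2 : (addOrderOf x / l ^ (addOrderOf x).factorization l).Coprime
      (l ^ (addOrderOf x).factorization l) :=
    (Nat.Coprime.pow_left _ (Nat.coprime_ordCompl hl h0)).symm
  refine Nat.Coprime.coprime_dvd_right ?_ h2
  exact Nat.div_dvd_of_dvd (dvd_pow_self l (by
    have := hl.factorization_pos_of_dvd h0 hlx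
    omega))

private theorem pb_half {c A a b C : ℤ} (hc : 2 ≤ c) (h : c * A = a - b) (ha : |a| ≤ C)
    (hb : |b| ≤ C) : |A| ≤ C := by
  have h1 : |c * A| ≤ C + C := by
    rw [h]
    exact (abs_sub a b).trans (add_le_add ha hb)
  rw [abs_mul, abs_of_nonneg (by omega : 0 ≤ c)] at h1
  have h2 := abs_nonneg A
  nlinarith

theorem pure_bound (hT : ∀ p ∈ T, p.Prime) (hΘ : Pure m T Θ) (C : ℤ) (hC : 0 ≤ C)
    (h1 : ∀ y : ZMod m, (addOrderOf y).primeFactors = T → |Θ y| ≤ C) (x : ZMod m)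
    (hx : addOrderOf x % 4 ≠ 2) : |Θ x| ≤ C := by
  induction hn : addOrderOf x using Nat.strong_induction_on generalizing x with
  | _ n ih =>
    subst hn
    have h0 : addOrderOf x ≠ 0 := (addOrderOf_pos x).ne'
    by_cases hs : ∃ l ∈ T, ¬ l ∣ addOrderOf x
    · obtain ⟨l, hl, hlx⟩ := hs
      rw [hΘ.supp x l hl hlx, abs_zero]
      exact hC
    push Not at hs
    by_cases he : (addOrderOf x).primeFactors = T
    · exact h1 x he
    obtain ⟨l, hl, hlT⟩ : ∃ l ∈ (addOrderOf x).primeFactors, l ∉ T := by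
      by_contra hcon
      push Not at hcon
      apply he
      refine Finset.Subset.antisymm hcon fun l hl => ?_
      exact Nat.mem_primeFactors.2 ⟨hT l hl, hs l hl, h0⟩
    have hlp := Nat.prime_of_mem_primeFactors hl
    have hlx := Nat.dvd_of_mem_primeFactors hl
    have hr := hΘ.red l hlp hlT x hlx
    obtain ⟨h3, h4, h5⟩ := pb_num (addOrderOf x) l h0 hlp hlx hx
    have h6 := ih _ h5 _ (by rw [pb_ordP]; exact h4) (pb_ordP l x)
    have h7 := ih _ h5 _ (by rw [pb_ordI l hlp x hlx]; exact h4) (pb_ordI l hlp x hlx)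
    exact pb_half (by exact_mod_cast h3) hr h6 h7

private theorem pb_two_ide (x : ZMod m) (hx : addOrderOf x % 4 = 2) :
    ordProj[2] (addOrderOf x) = 2 ∧ (2 : ZMod m) * (ide m 2 * x) = 2 * x ∧
      ¬ 2 ∣ addOrderOf (ide m 2 * x) ∧ ¬ 2 ∣ addOrderOf (2 * x) := by
  have h0 : addOrderOf x ≠ 0 := (addOrderOf_pos x).ne'
  have hpm : ordProj[2] (addOrderOf x) * ordCompl[2] (addOrderOf x) = addOrderOf x :=
    Nat.ordProj_mul_ordCompl_eq_self _ 2
  have hN : ¬ 2 ∣ ordCompl[2] (addOrderOf x) := Nat.not_dvd_ordCompl Nat.prime_two h0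
  have hP : ordProj[2] (addOrderOf x) = 2 := by
    rcases h : (addOrderOf x).factorization 2 with _ | _ | a
    · rw [h, pow_zero, one_mul] at hpm
      rw [h, pow_zero] at hN
      rw [Nat.div_one] at hN
      omega
    · rw [zero_add, pow_one]
    · exfalso
      have h4 : 4 ∣ addOrderOf x := by
        refine (Dvd.dvd.mul_right ?_ _).trans (dvd_of_eq hpm)
        rw [h]
        exact ⟨2 ^ a, by ring⟩
      omega
  have h1 := pb_ordP (m := m) 2 x
  rw [hP, Nat.cast_ofNat] at h1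
  rw [hP] at hN
  have h2 : ¬ 2 ∣ addOrderOf (2 * x) := by
    rw [h1]
    exact hN
  refine ⟨hP, ?_, ?_, h2⟩
  · have h3 := ide_mul_eq_self 2 Nat.prime_two _ h2
    calc (2 : ZMod m) * (ide m 2 * x) = ide m 2 * (2 * x) := by ring
      _ = 2 * x := h3
  · rw [addOrderOf_ide_mul 2 Nat.prime_two, hP]
    exact hN

theorem pure_two_mem (hm : 2 ∣ m) (hΘ : Pure m T Θ) (h2 : 2 ∈ T) (x : ZMod m)
    (hx : addOrderOf x % 4 = 2) : Θ x = 0 := by
  obtain ⟨-, h3, h4, h5⟩ := pb_two_ide x hx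
  have h6 := hΘ.dist 2 Nat.prime_two hm x
  have hne : x ≠ ide m 2 * x := by
    intro h
    apply h4
    rw [← h]
    omega
  have h7 : fib m 2 (((2 : ℕ) : ZMod m) * x) = {x, ide m 2 * x} := by
    symm
    refine Finset.eq_of_subset_of_card_le ?_ ?_
    · intro z hz
      rw [mem_insert, mem_singleton] at hz
      rw [mem_fib]
      rcases hz with rfl | rfl
      · rfl
      · rw [Nat.cast_ofNat]
        exact h3
    · rw [Pool.Agent.Helper9.Fermat.fib_card (by norm_num) hm, card_pair hne]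
  rw [h7, sum_pair hne, hΘ.supp _ 2 h2 h4, add_zero, Nat.cast_ofNat, hΘ.supp _ 2 h2 h5] at h6
  exact h6

private theorem pb_odd (hT : ∀ p ∈ T, p.Prime) (hΘ : Pure m T Θ) (C : ℤ)
    (hC : 0 ≤ C)
    (h1 : ∀ y : ZMod m, (addOrderOf y).primeFactors = T → |Θ (2 * y) - Θ y| ≤ C) (x : ZMod m)
    (hx : ¬ 2 ∣ addOrderOf x) : |Θ (2 * x) - Θ x| ≤ C := by
  induction hn : addOrderOf x using Nat.strong_induction_on generalizing x with
  | _ n ih =>
    subst hn
    have h0 : addOrderOf x ≠ 0 := (addOrderOf_pos x).ne'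
    have ho : addOrderOf (2 * x) = addOrderOf x := by
      have h := RNorm_ord_nsmul (d := 2) x
        (((Nat.Prime.coprime_iff_not_dvd Nat.prime_two).2 hx).symm)
      rw [Nat.cast_ofNat] at h
      exact h
    by_cases hs : ∃ l ∈ T, ¬ l ∣ addOrderOf x
    · obtain ⟨l, hl, hlx⟩ := hs
      rw [hΘ.supp x l hl hlx, hΘ.supp (2 * x) l hl (by rw [ho]; exact hlx), sub_zero, abs_zero]
      exact hC
    push Not at hs
    by_cases he : (addOrderOf x).primeFactors = T
    · exact h1 x he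
    obtain ⟨l, hl, hlT⟩ : ∃ l ∈ (addOrderOf x).primeFactors, l ∉ T := by
      by_contra hcon
      push Not at hcon
      apply he
      refine Finset.Subset.antisymm hcon fun l hl => ?_
      exact Nat.mem_primeFactors.2 ⟨hT l hl, hs l hl, h0⟩
    have hlp := Nat.prime_of_mem_primeFactors hl
    have hlx := Nat.dvd_of_mem_primeFactors hl
    have hr := hΘ.red l hlp hlT x hlx
    have hr2 := hΘ.red l hlp hlT (2 * x) (by rw [ho]; exact hlx)
    rw [ho] at hr2
    obtain ⟨h3, -, h5⟩ := pb_num (addOrderOf x) l h0 hlp hlx (by omega)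
    have h4 : ¬ 2 ∣ ordCompl[l] (addOrderOf x) := fun h => hx (h.trans (Nat.ordCompl_dvd _ _))
    have h6 := ih _ h5 _ (by rw [pb_ordP]; exact h4) (pb_ordP l x)
    have h7 := ih _ h5 _ (by rw [pb_ordI l hlp x hlx]; exact h4) (pb_ordI l hlp x hlx)
    refine pb_half (c := ((ordProj[l] (addOrderOf x)).totient : ℤ)) (by exact_mod_cast h3) ?_ h6 h7
    have e1 : ((ordProj[l] (addOrderOf x) : ℕ) : ZMod m) * (2 * x) =
        2 * (((ordProj[l] (addOrderOf x) : ℕ) : ZMod m) * x) := by ring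
    have e2 : ((ordProj[l] (addOrderOf x) / l : ℕ) : ZMod m) * (ide m l * (2 * x)) =
        2 * (((ordProj[l] (addOrderOf x) / l : ℕ) : ZMod m) * (ide m l * x)) := by ring
    rw [e1, e2] at hr2
    rw [mul_sub, hr, hr2]
    ring

theorem pure_bound_two (hT : ∀ p ∈ T, p.Prime) (hΘ : Pure m T Θ) (h2 : 2 ∉ T) (C : ℤ)
    (hC : 0 ≤ C)
    (h1 : ∀ y : ZMod m, (addOrderOf y).primeFactors = T → |Θ (2 * y) - Θ y| ≤ C) (x : ZMod m)
    (hx : addOrderOf x % 4 = 2) : |Θ x| ≤ C := by
  obtain ⟨hP, h3, h4, -⟩ := pb_two_ide x hx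
  have hr := hΘ.red 2 Nat.prime_two h2 x (by omega)
  rw [hP, Nat.totient_two, Nat.cast_one, one_mul, Nat.div_self (by norm_num), Nat.cast_one,
    one_mul, Nat.cast_ofNat, ← h3] at hr
  rw [hr]
  exact pb_odd hT hΘ C hC h1 _ h4

end

end Pool.Agent.FHD
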