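import Pool.Agent.FHD.Defs

/-!
# FHD-Pairing: the value of a pure distribution on a multiset

Plan. `al_RFun`: `rel_of_dist` and (as in `liftDatum`, `Pool/Agent/FS/RRemove.lean`) `ide_dist`
for `z ↦ Θ (u z)`, `u` the unit of `exists_unit_al` (`al m r * x = u * (ide m r * x)`,
`isDist_unit`). `al_Up`: `RUp_key` (`Pool/Agent/FS/RUp.lean`) for `φ = Θ (u ·)` with
`upl m e / e = r ^ a * d`, `r ^ a = qq m r / ordProj[r] e`, compare the proof of `Up_bound` and
`Up_form` (`Pool/Agent/FF/UpForm.lean`); if `x = (r ^ a * d) * y` then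
`u * (d * (ide m r * y)) = al m r * (d * y) = (ordProj[r] e) * x`. `pairing`: the lift `φ` of
`x ↦ Θ (al m r * x)` applied to both sides of `Rep`: `φ (GG T F) = GG T (Θ (al m r * ·))` is the
sum by `al_Up`; `φ b = 0`: for `n'` unitary, `r ∣ n'`, `¬ n ∣ n'` there is a prime `l ∣ n` with
`¬ l ∣ n'` (both are unitary), `l ≠ r`, and `al m r * x` has order `ordCompl[r] n'`
(`addOrderOf_al_mul`), so `Θ (al m r * x) = 0` by `supp`.
-/

set_option autoImplicit false

namespace Pool.Agent.FHD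

open Finset Pool.Agent.FS
open Pool.Agent.Helper9.Fermat (fib mem_fib)

section

variable {m r : ℕ} [NeZero m] {Θ : ZMod m → ℤ}

private theorem al_mul_eq (hr : r.Prime) (x : ZMod m) : al m r * x = (qq m r : ZMod m) * x := by
  rw [al, RNorm_qq_ide r hr]

theorem al_RFun (hr : r.Prime) (hΘ : IsDist Θ) (hodd : ∀ x, Θ (-x) = - Θ x) :
    RFun m r (fun x => Θ (al m r * x)) where
  odd x := by
    rw [mul_neg, hodd]
  rel n l hn hrn hl hln hne := by
    obtain ⟨u, hu⟩ := exists_unit_al (m := m) r hr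
    refine rel_of_dist hn hl hln (g := fun x => Θ (al m r * x)) fun y => ?_
    have h := ide_dist (m := m) hr hl (hln.trans hn.1) hne (isDist_unit hΘ u) y
    simp only [← hu] at h
    exact h

theorem al_Up (hr : r.Prime) (hΘ : IsDist Θ) (x : ZMod m) (hx : r ∣ addOrderOf x) :
    ∑ w ∈ Up x, Θ (al m r * w) = ((qq m r / ordProj[r] (addOrderOf x) : ℕ) : ℤ) *
      Θ (((ordProj[r] (addOrderOf x) : ℕ) : ZMod m) * x) := by
  have hm0 : m ≠ 0 := NeZero.ne m
  obtain ⟨u, hu⟩ := exists_unit_al (m := m) r hr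
  obtain ⟨y, hy⟩ := RUp_exists x
  have hdm := RUp_dvd x
  have hUe := RUp_upl_eq x
  have hUni := (upl_uni (RUp_order_dvd x)).1
  have hrU : r ∣ upl m (addOrderOf x) := hx.trans (upl_uni (RUp_order_dvd x)).2.1
  rw [RUp_eq_fib]
  set n := upl m (addOrderOf x) / addOrderOf x with hn
  have hn0 : n ≠ 0 := fun h => hm0 (Nat.eq_zero_of_zero_dvd (h ▸ hdm))
  have ho0 : addOrderOf x ≠ 0 := fun h => hm0 (Nat.eq_zero_of_zero_dvd (h ▸ RUp_order_dvd x))
  have hsplit : r ^ n.factorization r * (ordCompl[r] n) = n := Nat.ordProj_mul_ordCompl_eq_self n r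
  have hcop : ¬ r ∣ ordCompl[r] n := Nat.not_dvd_ordCompl hr hn0
  have hkey := RUp_key (m := m) hr hcop (hsplit.symm ▸ hdm) (isDist_unit hΘ u) y
  rw [hsplit, ← hy] at hkey
  simp only [← hu] at hkey
  rw [hkey]
  have h7 : ordProj[r] (upl m (addOrderOf x)) = qq m r := uni_ordProj hUni hr hrU
  have h8 : (upl m (addOrderOf x)).factorization r =
      (addOrderOf x).factorization r + n.factorization r := by
    rw [← hUe, Nat.factorization_mul ho0 hn0]
    rfl
  have h9 : qq m r = ordProj[r] (addOrderOf x) * r ^ n.factorization r := by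
    rw [← h7, h8, pow_add]
  have h10 : qq m r / ordProj[r] (addOrderOf x) = r ^ n.factorization r := by
    rw [h9, Nat.mul_div_cancel_left _ (Nat.ordProj_pos _ _)]
  rw [h10]
  have h11 : (u : ZMod m) * (((ordCompl[r] n : ℕ) : ZMod m) * (ide m r * y)) =
      ((ordProj[r] (addOrderOf x) : ℕ) : ZMod m) * x := by
    have e1 : (u : ZMod m) * (((ordCompl[r] n : ℕ) : ZMod m) * (ide m r * y)) =
        ((ordCompl[r] n : ℕ) : ZMod m) * (al m r * y) := by
      rw [hu]
      ring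
    have e2 : ((ordProj[r] (addOrderOf x) : ℕ) : ZMod m) * x =
        ((ordProj[r] (addOrderOf x) : ℕ) : ZMod m) * ((n : ZMod m) * y) := congrArg _ hy
    have e3 : (n : ZMod m) = ((r ^ n.factorization r : ℕ) : ZMod m) * ((ordCompl[r] n : ℕ) : ZMod m) := by
      rw [← Nat.cast_mul, hsplit]
    rw [e1, al_mul_eq hr, h9, e2, Nat.cast_mul]
    generalize ((ordProj[r] (addOrderOf x) : ℕ) : ZMod m) = E
    rw [e3]
    ring
  rw [h11]

private theorem uni_dvd {n n' : ℕ} (hn : Uni m n) (hn' : Uni m n') (h : ∀ l, l.Prime → l ∣ n → l ∣ n') :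
    n ∣ n' := by
  have hm0 : m ≠ 0 := NeZero.ne m
  have hn0 : n ≠ 0 := fun h => hm0 (Nat.eq_zero_of_zero_dvd (h ▸ hn.1))
  have hn0' : n' ≠ 0 := fun h => hm0 (Nat.eq_zero_of_zero_dvd (h ▸ hn'.1))
  rw [← Nat.factorization_prime_le_iff_dvd hn0 hn0']
  intro l hl
  by_cases hln : l ∣ n
  · have h1 : ordProj[l] n = qq m l := uni_ordProj hn hl hln
    have h2 : ordProj[l] n' = qq m l := uni_ordProj hn' hl (h l hl hln)
    exact (Nat.pow_right_injective hl.two_le (h1.trans h2.symm)).le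
  · rw [Nat.factorization_eq_zero_of_not_dvd hln]
    exact Nat.zero_le _

theorem pairing {U : Type} [AddCommGroup U] (hr : r.Prime) (R : UDatum m r U)
    (T : Multiset (ZMod m)) (hT : ∀ x ∈ T, r ∣ addOrderOf x) {n : ℕ} [NeZero n] (hn : Uni m n)
    (hrn : r ∣ n) (N : (ZMod n)ˣ → ℤ) (hN : Rep R.toRDatum n (GG T R.F) N)
    (hΘ : Pure m (tps n r) Θ) :
    ∑ w : (ZMod n)ˣ, N w * Θ (al m r * emb m n w) =
      (T.map fun x => ((qq m r / ordProj[r] (addOrderOf x) : ℕ) : ℤ) *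
        Θ (((ordProj[r] (addOrderOf x) : ℕ) : ZMod m) * x)).sum := by
  obtain ⟨φ, hφ⟩ := R.lift ℤ (fun x => Θ (al m r * x)) (al_RFun hr hΘ.dist hΘ.odd)
  obtain ⟨b, hb, hab⟩ := hN
  have hb0 : φ b = 0 := by
    have hle : R.toRDatum.lev {n' | Uni m n' ∧ r ∣ n' ∧ ¬ n ∣ n'} ≤ φ.ker := by
      unfold RDatum.lev
      rw [AddSubgroup.closure_le]
      rintro b ⟨x, ⟨hx1, hx2, hx3⟩, rfl⟩
      rw [SetLike.mem_coe, AddMonoidHom.mem_ker, hφ]
      obtain ⟨l, hl, hln, hlx⟩ : ∃ l, l.Prime ∧ l ∣ n ∧ ¬ l ∣ addOrderOf x := by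
        by_contra hcon
        push Not at hcon
        exact hx3 (uni_dvd hn hx1 hcon)
      have hlr : l ≠ r := fun h => hlx (h ▸ hx2)
      refine hΘ.supp _ l ?_ ?_
      · rw [tps, Finset.mem_erase]
        exact ⟨hlr, Nat.mem_primeFactors.2 ⟨hl, hln, NeZero.ne n⟩⟩
      · rw [addOrderOf_al_mul r hr]
        exact fun h => hlx (h.trans (Nat.ordCompl_dvd _ _))
    exact AddMonoidHom.mem_ker.1 (hle hb)
  have h1 := congrArg φ hab
  rw [map_add, hb0, add_zero, map_sum, GG_map] at h1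
  have h2 : GG T (fun w => φ (R.F w)) =
      (T.map fun x => ((qq m r / ordProj[r] (addOrderOf x) : ℕ) : ℤ) *
        Θ (((ordProj[r] (addOrderOf x) : ℕ) : ZMod m) * x)).sum := by
    unfold GG
    refine congrArg Multiset.sum (Multiset.map_congr rfl fun x hx => ?_)
    rw [← al_Up hr hΘ.dist x (hT x hx)]
    exact sum_congr rfl fun w _ => hφ w
  rw [← h2, h1]
  refine sum_congr rfl fun w _ => ?_
  rw [map_zsmul, hφ, smul_eq_mul]

end

end Pool.Agent.FHD
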