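import Pool.Agent.FHD.ExCert
import Pool.Agent.FHD.Pairing
import Pool.Agent.FHD.PBound
import Pool.Agent.FHD.MixInv

/-!
# FHD-Cert: the certificate inequality

The distribution of `exists_cert`, paired with the two representations of the multiset by `pairing`;
the values on the elements of the multiset are bounded by `pure_bound`, `pure_two_mem` and
`pure_bound_two`.
-/

set_option autoImplicit false

namespace Pool.Agent.FHD

open Finset Pool.Agent.FS
open Pool.Agent.Helper9.Fermat (fib mem_fib)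

/-- bound for the sum of a function with two kinds of values -/
private theorem cert_sum {α : Type} (T : Multiset α) (t : α → ℤ) (a b : ℤ) (p q : α → Prop)
    [DecidablePred p] [DecidablePred q]
    (h : ∀ x ∈ T, |t x| ≤ (if p x then a else 0) + (if q x then b else 0)) :
    |(T.map t).sum| ≤ a * (T.filter p).card + b * (T.filter q).card := by
  induction T using Multiset.induction_on with
  | empty => simp
  | cons x T ih =>
    have h1 := ih fun y hy => h y (Multiset.mem_cons_of_mem hy)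
    have h2 := h x (Multiset.mem_cons_self x T)
    have h3 : |t x + (T.map t).sum| ≤ |t x| + |(T.map t).sum| := abs_add_le _ _
    rw [Multiset.map_cons, Multiset.sum_cons, Multiset.filter_cons, Multiset.filter_cons,
      Multiset.card_add, Multiset.card_add]
    have e1 : (((if p x then ({x} : Multiset α) else 0).card : ℕ) : ℤ) = if p x then 1 else 0 := by
      split_ifs <;> simp
    have e2 : (((if q x then ({x} : Multiset α) else 0).card : ℕ) : ℤ) = if q x then 1 else 0 := by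
      split_ifs <;> simp
    rw [Nat.cast_add, Nat.cast_add, e1, e2, mul_add, mul_add, mul_ite, mul_ite, mul_one, mul_zero,
      mul_one, mul_zero]
    linarith

/-- the residue modulo four of a multiple with an odd factor -/
private theorem cert_mod {P c : ℕ} (hP : ¬ 2 ∣ P) : (P * c) % 4 = 2 ↔ c % 4 = 2 := by
  have h1 : P % 4 = 1 ∨ P % 4 = 3 := by omega
  have h2 : c % 4 = 0 ∨ c % 4 = 1 ∨ c % 4 = 2 ∨ c % 4 = 3 := by omega
  rw [Nat.mul_mod]
  rcases h1 with h1 | h1 <;> rcases h2 with h2 | h2 | h2 | h2 <;> rw [h1, h2] <;> norm_num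

/-- the value of a certificate on the elements of the multiset -/
private theorem cert_term {m r : ℕ} [NeZero m] (hr : r.Prime) (hr3 : 3 ≤ r) (hm : 2 ∣ m) {n : ℕ}
    [NeZero n] (Θ : ZMod m → ℤ) (hΘ : Pure m (tps n r) Θ) (A B : ℤ) (hA : 0 ≤ A) (hB : 0 ≤ B)
    (h1 : ∀ y : ZMod m, (addOrderOf y).primeFactors = tps n r → |Θ y| ≤ A)
    (h2 : 2 ∣ n ∨ ∀ y : ZMod m, (addOrderOf y).primeFactors = tps n r → |Θ (2 * y) - Θ y| ≤ B)
    (x : ZMod m) (hx : r ∣ addOrderOf x) :
    (¬ n.primeFactors ⊆ (addOrderOf x).primeFactors →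
      Θ (((ordProj[r] (addOrderOf x) : ℕ) : ZMod m) * x) = 0) ∧
    (addOrderOf x % 4 ≠ 2 → |Θ (((ordProj[r] (addOrderOf x) : ℕ) : ZMod m) * x)| ≤ A) ∧
    (addOrderOf x % 4 = 2 → |Θ (((ordProj[r] (addOrderOf x) : ℕ) : ZMod m) * x)| ≤
      if 2 ∣ n then 0 else B) := by
  have hn0 : n ≠ 0 := NeZero.ne n
  have he0 : addOrderOf x ≠ 0 := fun h => NeZero.ne m (Nat.eq_zero_of_zero_dvd
    (h ▸ RUp_order_dvd x))
  have hord := (lab_mul_dvd x (ordProj[r] (addOrderOf x)) (Nat.ordProj_dvd _ r)).1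
  have hmul : ordProj[r] (addOrderOf x) * (addOrderOf x / ordProj[r] (addOrderOf x)) =
      addOrderOf x := Nat.ordProj_mul_ordCompl_eq_self _ r
  have hodd : ¬ 2 ∣ ordProj[r] (addOrderOf x) := by
    intro h
    have h3 := (Nat.prime_dvd_prime_iff_eq Nat.prime_two hr).1 (Nat.prime_two.dvd_of_dvd_pow h)
    omega
  have h4 : addOrderOf x % 4 = 2 ↔
      addOrderOf (((ordProj[r] (addOrderOf x) : ℕ) : ZMod m) * x) % 4 = 2 := by
    have h5 := cert_mod (c := addOrderOf x / ordProj[r] (addOrderOf x)) hodd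
    rw [hmul] at h5
    rw [hord]
    exact h5
  have hps : ∀ p ∈ tps n r, p.Prime := fun p hp =>
    Nat.prime_of_mem_primeFactors (Finset.mem_of_mem_erase hp)
  refine ⟨?_, ?_, ?_⟩
  · intro hne
    obtain ⟨l, hl1, hl2⟩ := Finset.not_subset.1 hne
    have hlp := Nat.prime_of_mem_primeFactors hl1
    have hl3 : ¬ l ∣ addOrderOf x := fun h => hl2 (Nat.mem_primeFactors.2 ⟨hlp, h, he0⟩)
    have hlr : l ≠ r := by
      rintro rfl
      exact hl3 hx
    refine hΘ.supp _ l (Finset.mem_erase.2 ⟨hlr, hl1⟩) ?_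
    intro h
    rw [hord] at h
    exact hl3 (h.trans (Nat.ordCompl_dvd _ r))
  · intro h
    exact pure_bound hps hΘ A hA h1 _ fun h' => h (h4.2 h')
  · intro h
    have h' := h4.1 h
    by_cases h2n : 2 ∣ n
    · rw [if_pos h2n, pure_two_mem hm hΘ ?_ _ h', abs_zero]
      refine Finset.mem_erase.2 ⟨by omega, Nat.mem_primeFactors.2 ⟨Nat.prime_two, h2n, hn0⟩⟩
    · rw [if_neg h2n]
      refine pure_bound_two hps hΘ ?_ B hB (h2.resolve_left h2n) _ h'
      intro h3
      exact h2n (Nat.dvd_of_mem_primeFactors (Finset.mem_of_mem_erase h3))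

theorem cert {m r : ℕ} [NeZero m] {U : Type} [AddCommGroup U] (hr : r.Prime) (hr3 : 3 ≤ r)
    (hm : 2 ∣ m) (R : UDatum m r U) (T : Multiset (ZMod m)) (hT : ∀ x ∈ T, r ∣ addOrderOf x)
    (hinv : ∀ h ∈ Kl m r, R.act h (GG T R.F) = GG T R.F) {n : ℕ} [NeZero n] (hn : Uni m n)
    (hrn : r ∣ n) (N : (ZMod n)ˣ → ℤ) (hN : Rep R.toRDatum n (GG T R.F) N) :
    CIneq m n r (md n r N) (cA T n) (cB T n) := by
  classical
  intro ι s c k g C₁ C₂ hk hC₁ hC₂
  obtain ⟨M, hM, Θ, hΘ, hv, hN'⟩ := exists_cert hr hn hrn s c k g hk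
  have hM' : (0 : ℤ) < M := by exact_mod_cast hM
  have hm0 : m ≠ 0 := NeZero.ne m
  have hrm : r ∣ m := hrn.trans hn.1
  have hrq : r ∣ qq m r := Nat.dvd_ordProj_of_dvd hm0 hr hrm
  have hQ : 0 < qq m r / r := Nat.div_pos (Nat.le_of_dvd (Nat.ordProj_pos m r) hrq) hr.pos
  have hQ' : (0 : ℤ) < ((qq m r / r : ℕ) : ℤ) := by exact_mod_cast hQ
  have hqn : qq n r = qq m r := by
    have h := uni_ordProj hn hr hrn
    rw [← h, qq]
  -- the value of the pairing
  have key : (M : ℤ) * (((qq m r / r : ℕ) : ℤ) * (((r - 1 : ℕ) : ℤ) *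
      ∑ i ∈ s, c i * md n r N (k i) (g i))) =
      (T.map fun x => ((qq m r / ordProj[r] (addOrderOf x) : ℕ) : ℤ) *
        Θ (((ordProj[r] (addOrderOf x) : ℕ) : ZMod m) * x)).sum := by
    rw [← pairing hr R T hT hn hrn N hN hΘ, hN' N, ← mul_assoc (((qq m r / r : ℕ) : ℤ)),
      Finset.mul_sum]
    congr 1
    refine Finset.sum_congr rfl fun i hi => ?_
    have e1 : ∑ᶠ h : Kl n r, md n r N (k i) ((h : (ZMod n)ˣ) * g i) =
        (((qq m r / r : ℕ) : ℤ) * ((r - 1 : ℕ) : ℤ)) * md n r N (k i) (g i) := by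
      rw [finsum_congr fun h : Kl n r =>
        mix_inv hr R (GG T R.F) hinv hn hrn N hN (k i) (hk i hi) h h.2 (g i)]
      let _ : Fintype (Kl n r) := Fintype.ofFinite _
      rw [finsum_eq_sum_of_fintype, Finset.sum_const, Finset.card_univ,
        ← Nat.card_eq_fintype_card, card_Kl r hr hrn, hqn, nsmul_eq_mul, Nat.cast_mul]
    rw [e1]
    ring
  -- the bounds of the values
  have b1 : ∀ y : ZMod m, (addOrderOf y).primeFactors = tps n r → |Θ y| ≤ M * (C₁ : ℤ) := by
    intro y hy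
    rw [hv y hy, abs_mul, Nat.abs_cast]
    exact mul_le_mul_of_nonneg_left (hC₁ y hy) hM'.le
  have b2 : 2 ∣ n ∨ ∀ y : ZMod m, (addOrderOf y).primeFactors = tps n r →
      |Θ (2 * y) - Θ y| ≤ M * (C₂ : ℤ) := by
    by_cases h2n : 2 ∣ n
    · exact Or.inl h2n
    refine Or.inr fun y hy => ?_
    have hy2 : ¬ 2 ∣ addOrderOf y := by
      intro h
      have h3 : 2 ∈ (addOrderOf y).primeFactors := Nat.mem_primeFactors.2
        ⟨Nat.prime_two, h, fun h' => hm0 (Nat.eq_zero_of_zero_dvd (h' ▸ RUp_order_dvd y))⟩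
      rw [hy] at h3
      exact h2n (Nat.dvd_of_mem_primeFactors (Finset.mem_of_mem_erase h3))
    have ho : addOrderOf (2 * y) = addOrderOf y := by
      have h3 : addOrderOf ((2 : ℕ) • y) = addOrderOf y := Nat.Coprime.addOrderOf_nsmul
        ((Nat.Prime.coprime_iff_not_dvd Nat.prime_two).2 hy2).symm
      rw [nsmul_eq_mul, Nat.cast_ofNat] at h3
      exact h3
    rw [hv y hy, hv (2 * y) (by rw [ho]; exact hy), ← mul_sub, ← Finset.sum_sub_distrib, abs_mul,
      Nat.abs_cast]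
    have h4 := hC₂.resolve_left h2n y hy
    have h5 : ∑ i ∈ s, (c i * bv (2 * y) r (k i) (g i) - c i * bv y r (k i) (g i)) =
        ∑ i ∈ s, c i * (bv (2 * y) r (k i) (g i) - bv y r (k i) (g i)) :=
      Finset.sum_congr rfl fun i _ => (mul_sub _ _ _).symm
    rw [h5]
    exact mul_le_mul_of_nonneg_left h4 hM'.le
  -- the bound of the sum
  have hsum := cert_sum T (fun x => ((qq m r / ordProj[r] (addOrderOf x) : ℕ) : ℤ) *
      Θ (((ordProj[r] (addOrderOf x) : ℕ) : ZMod m) * x))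
    (((qq m r / r : ℕ) : ℤ) * (M * (C₁ : ℤ)))
    (((qq m r / r : ℕ) : ℤ) * (if 2 ∣ n then 0 else M * (C₂ : ℤ)))
    (fun x => n.primeFactors ⊆ (addOrderOf x).primeFactors ∧ addOrderOf x % 4 ≠ 2)
    (fun x => n.primeFactors ⊆ (addOrderOf x).primeFactors ∧ addOrderOf x % 4 = 2) (by
      intro x hx
      have hrx := hT x hx
      obtain ⟨t1, t2, t3⟩ := cert_term hr hr3 hm (n := n) Θ hΘ (M * (C₁ : ℤ)) (M * (C₂ : ℤ))
        (by positivity) (by positivity) b1 b2 x hrx
      have he0 : addOrderOf x ≠ 0 := fun h => hm0 (Nat.eq_zero_of_zero_dvd (h ▸ RUp_order_dvd x))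
      have hle : qq m r / ordProj[r] (addOrderOf x) ≤ qq m r / r :=
        Nat.div_le_div_left (Nat.le_of_dvd (Nat.ordProj_pos _ r)
          (Nat.dvd_ordProj_of_dvd he0 hr hrx)) hr.pos
      have hle' : ((qq m r / ordProj[r] (addOrderOf x) : ℕ) : ℤ) ≤ ((qq m r / r : ℕ) : ℤ) := by
        exact_mod_cast hle
      rw [abs_mul, Nat.abs_cast]
      by_cases hs : n.primeFactors ⊆ (addOrderOf x).primeFactors
      · by_cases h4 : addOrderOf x % 4 = 2
        · rw [if_neg (fun h => h.2 h4), if_pos ⟨hs, h4⟩, zero_add]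
          exact mul_le_mul hle' (t3 h4) (abs_nonneg _) hQ'.le
        · rw [if_pos ⟨hs, h4⟩, if_neg (fun h => h4 h.2), add_zero]
          exact mul_le_mul hle' (t2 h4) (abs_nonneg _) hQ'.le
      · rw [if_neg (fun h => hs h.1), if_neg (fun h => hs h.1), t1 hs, abs_zero, mul_zero,
          add_zero])
  rw [← key] at hsum
  have hA : (T.filter fun x => n.primeFactors ⊆ (addOrderOf x).primeFactors ∧
      addOrderOf x % 4 ≠ 2).card = cA T n := by
    unfold cA
    congr 2
  have hB : (T.filter fun x => n.primeFactors ⊆ (addOrderOf x).primeFactors ∧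
      addOrderOf x % 4 = 2).card = cB T n := by
    unfold cB
    congr 2
  rw [hA, hB] at hsum
  rw [abs_mul, abs_mul, abs_mul, Nat.abs_cast, Nat.abs_cast, Nat.abs_cast] at hsum
  have hfin : ((M : ℤ) * ((qq m r / r : ℕ) : ℤ)) * (((r - 1 : ℕ) : ℤ) *
      |∑ i ∈ s, c i * md n r N (k i) (g i)|) ≤ ((M : ℤ) * ((qq m r / r : ℕ) : ℤ)) *
      (C₁ * cA T n + (if 2 ∣ n then 0 else C₂ * cB T n)) := by
    refine le_trans (le_of_eq (by ring)) (hsum.trans (le_of_eq ?_))
    split_ifs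
    · ring
    · rw [Nat.cast_mul]
      ring
  exact le_of_mul_le_mul_left hfin (mul_pos hM' hQ')

end Pool.Agent.FHD
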