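import Pool.Agent.FHD.Defs

/-!
# FHD-Chain: removal of all levels which are not allowed

Plan: as the proof of `RDatum.inj` (`Pool/Agent/FS/RInj.lean`), induction on `N` for
`a ∈ R.lev {n | (Uni m n ∧ r ∣ n) ∧ (n ≤ N ∨ 𝒟 n)}` with the fixed `a`. In the step `n = N + 1`
(not in `𝒟`, unitary, divisible by `r`) `exists_coeff` gives `N` and `b` with `Rep R n a N` (a member
`n'` of the smaller set is not divisible by `n`: `n' ≤ N` or `𝒟 n'`). Now `Kp R n a` and the half
system for `r` (`RInj_half`, `RInj_difs`) give the hypothesis of `R.low`, so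
`∑ w, N w • F (emb m n w)` is a sum of elements with the orders `ordCompl[l] n ≤ N`, `l ≠ r`.
-/

set_option autoImplicit false

namespace Pool.Agent.FHD

open Finset Pool.Agent.FS
open Pool.Agent.Helper9.Fermat (fib mem_fib)

section

variable {m r : ℕ} [NeZero m] {U : Type} [AddCommGroup U]

/-- the conversion of families into lists -/
theorem exists_fam {G : Type} {P : ℕ → G → Prop} {ls : List ℕ} (hnd : ls.Nodup) {ks : List G}
    (h : List.Forall₂ P ls ks) (g₀ : G) :
    ∃ k : ℕ → G, ks = ls.map k ∧ ∀ l ∈ ls, P l (k l) := by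
  classical
  induction h with
  | nil => exact ⟨fun _ => g₀, rfl, fun l hl => absurd hl List.not_mem_nil⟩
  | @cons l k' ls ks h _ ih =>
    rw [List.nodup_cons] at hnd
    obtain ⟨k, hk, hP⟩ := ih hnd.2
    refine ⟨fun x => if x = l then k' else k x, ?_, ?_⟩
    · rw [List.map_cons, if_pos rfl, hk]
      congr 1
      refine List.map_congr_left fun x hx => ?_
      have hxl : x ≠ l := fun h => hnd.1 (h ▸ hx)
      simp only [if_neg hxl]
    · intro x hx
      by_cases hxl : x = l
      · subst hxl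
        simp only [if_true]
        exact h
      · simp only [if_neg hxl]
        exact hP x ((List.mem_cons.1 hx).resolve_left hxl)

theorem chain (hr : r.Prime) (hr3 : 3 ≤ r) (R : RDatum m r U) (𝒟 : ℕ → Prop)
    (h𝒟 : ∀ n n' : ℕ, n ∣ n' → n' ∣ m → 𝒟 n' → 𝒟 n) (a : U)
    (ha : a ∈ R.lev {n | Uni m n ∧ r ∣ n})
    (hK : ∀ (n : ℕ) [NeZero n], Uni m n → r ∣ n → ¬ 𝒟 n → Kp R n a) :
    a ∈ R.lev {n | Uni m n ∧ r ∣ n ∧ 𝒟 n} := by
  classical
  have hm0 : m ≠ 0 := NeZero.ne m
  have key : ∀ N : ℕ, a ∈ R.lev {n | (Uni m n ∧ r ∣ n) ∧ (n ≤ N ∨ 𝒟 n)} →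
      a ∈ R.lev {n | Uni m n ∧ r ∣ n ∧ 𝒟 n} := by
    intro N
    induction N with
    | zero =>
      intro ha
      refine R.lev_mono ?_ ha
      rintro n ⟨⟨h1, h2⟩, h3 | h3⟩
      · have hn0 : n = 0 := by omega
        subst hn0
        exact absurd (Nat.eq_zero_of_zero_dvd h1.1) hm0
      · exact ⟨h1, h2, h3⟩
    | succ N ih =>
      intro ha
      by_cases hN : (Uni m (N + 1) ∧ r ∣ N + 1) ∧ ¬ 𝒟 (N + 1)
      · obtain ⟨⟨hu, hrn⟩, hnD⟩ := hN
        obtain ⟨n, hnN⟩ : ∃ n, n = N + 1 := ⟨_, rfl⟩
        rw [← hnN] at hu hrn hnD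
        haveI : NeZero n := ⟨by omega⟩
        have hset : {n | (Uni m n ∧ r ∣ n) ∧ (n ≤ N + 1 ∨ 𝒟 n)} =
            insert n {n | (Uni m n ∧ r ∣ n) ∧ (n ≤ N ∨ 𝒟 n)} := by
          ext n'
          simp only [Set.mem_ofPred_eq, Set.mem_insert_iff]
          constructor
          · rintro ⟨h1, h2 | h2⟩
            · rcases Nat.lt_or_ge N n' with h | h
              · exact Or.inl (by omega)
              · exact Or.inr ⟨h1, Or.inl h⟩
            · exact Or.inr ⟨h1, Or.inr h2⟩
          · rintro (h | ⟨h1, h2⟩)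
            · subst h
              exact ⟨⟨hu, hrn⟩, Or.inl (by omega)⟩
            · exact ⟨h1, h2.imp (fun h => by omega) id⟩
        rw [hset] at ha
        obtain ⟨β, b, hbm, hab⟩ := R.exists_coeff hu.1 _ ha
        -- the members of the smaller set are not divisible by `n`
        have hnot : ∀ n' ∈ {n | (Uni m n ∧ r ∣ n) ∧ (n ≤ N ∨ 𝒟 n)}, ¬ n ∣ n' := by
          rintro n' ⟨⟨hu', hr'⟩, hn'⟩ hdvd
          have hn'0 : n' ≠ 0 := fun h => hm0 (Nat.eq_zero_of_zero_dvd (h ▸ hu'.1))
          rcases hn' with h | h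
          · have h3 := Nat.le_of_dvd (Nat.pos_of_ne_zero hn'0) hdvd
            omega
          · exact hnD (h𝒟 n n' hdvd hu'.1 h)
        have hRep : Rep R n a β := by
          refine ⟨b, R.lev_mono ?_ hbm, hab⟩
          intro n' hn'
          exact ⟨hn'.1.1, hn'.1.2, hnot n' hn'⟩
        have hKp := hK n hu hrn hnD β hRep
        -- the primes
        have hmem : ∀ l, l ∈ lsr n r ↔ l.Prime ∧ l ∣ n ∧ l ≠ r := by
          intro l
          rw [lsr, Finset.mem_toList, tps, Finset.mem_erase, Nat.mem_primeFactors]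
          constructor
          · rintro ⟨h1, h2, h3, _⟩
            exact ⟨h2, h3, h1⟩
          · rintro ⟨h1, h2, h3⟩
            exact ⟨h3, h1, h2, NeZero.ne n⟩
        -- the half system
        have hhb : hb r = r := by
          unfold hb
          rw [if_neg (by omega)]
        have hhb' : hb r ∣ n := by rw [hhb]; exact hrn
        have hKl : ∀ l ∈ lsr n r, ∀ k ∈ Kl n l, ∀ g, Half r (rr (k * g)) ↔ Half r (rr g) := by
          intro l hl k hk g
          obtain ⟨h1, h2, h3⟩ := (hmem l).1 hl
          refine half_mod (n := n) (n' := r) (by rw [hhb]) (Kl_mul_mod hk ?_ g)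
          exact (Nat.Coprime.dvd_of_dvd_mul_left
            (((Nat.coprime_primes hr h1).2 (Ne.symm h3)).pow_right _)
            (by rw [Nat.ordProj_mul_ordCompl_eq_self]; exact hrn))
        have hlow := R.low hr hu hrn (lsr n r) (Finset.nodup_toList _)
          (fun l hl => (hmem l).1 hl)
          (fun w => if Half r (rr w) then β w - β (-1 * w) else 0) (by
            intro ks hks g
            rw [RInj_difs (fun w => Half r (rr w)) (Kl n) (lsr n r) hKl
              (fun w => β w - β (-1 * w)) ks hks g]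
            by_cases h : Half r (rr g)
            · rw [if_pos h]
              obtain ⟨k, hk, hkP⟩ := exists_fam (Finset.nodup_toList _) hks (1 : (ZMod n)ˣ)
              rw [hk]
              exact hKp k (fun l hl => hkP l (Finset.mem_toList.2 hl)) g
            · rw [if_neg h])
        rw [RInj_half R hu.1 (fun w => Half r (rr w)) (half_neg_iff hr hhb') β] at hlow
        refine ih ?_
        rw [hab]
        refine add_mem (R.lev_mono ?_ hlow) hbm
        rintro n' ⟨l, hl, rfl⟩
        obtain ⟨h1, h2, h3⟩ := (hmem l).1 hl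
        refine ⟨⟨uni_ordCompl hu h1, ?_⟩, Or.inl ?_⟩
        · exact (Nat.Coprime.dvd_of_dvd_mul_left
            (((Nat.coprime_primes hr h1).2 (Ne.symm h3)).pow_right _)
            (by rw [Nat.ordProj_mul_ordCompl_eq_self]; exact hrn))
        · have h4 : ordCompl[l] n < n := Nat.div_lt_self (Nat.pos_of_ne_zero (NeZero.ne n))
            (Nat.one_lt_pow (h1.factorization_pos_of_dvd (NeZero.ne n) h2).ne' h1.one_lt)
          omega
      · refine ih (R.lev_mono ?_ ha)
        rintro n' ⟨h1, h2⟩
        refine ⟨h1, ?_⟩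
        rcases h2 with h2 | h2
        · rcases Nat.lt_or_ge N n' with h | h
          · right
            have h3 : n' = N + 1 := by omega
            subst h3
            by_contra hcon
            exact hN ⟨h1, hcon⟩
          · exact Or.inl h
        · exact Or.inr h2
  refine key m (R.lev_mono ?_ ha)
  rintro n ⟨h1, h2⟩
  exact ⟨⟨h1, h2⟩, Or.inl (Nat.le_of_dvd (Nat.pos_of_ne_zero hm0) h1.1)⟩

end

end Pool.Agent.FHD
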