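import Mathlib

/-!
# FHD-ParDefs: boxes of residue classes

An element is given by its label `b` and the moduli `q l`, powers of `l`, `l = 2, 3, 5, 7`.
-/

set_option autoImplicit false

namespace Pool.Agent.FHD

/-- the admissible labels and moduli -/
structure OkQ (q : ℕ → ℕ) (b : ℕ) : Prop where
  cop : b.Coprime 210
  pow : ∀ l ∈ ({2, 3, 5, 7} : Finset ℕ), ∃ j, q l = l ^ j
  two : 4 ∣ q 2
  three : 3 ∣ q 3
  five : 5 ∣ q 5
  seven : 7 ∣ q 7

/-- `g` is congruent to `b` or `-b` modulo `q l` for all `l = 2, 3, 5, 7` -/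
def PMx (q : ℕ → ℕ) (b g : ℕ) : Prop :=
  ∀ l ∈ ({2, 3, 5, 7} : Finset ℕ), g ≡ b [MOD q l] ∨ g + b ≡ 0 [MOD q l]

/-- the product of the signs -/
def sgx (T : Finset ℕ) (q : ℕ → ℕ) (b g : ℕ) : ℤ :=
  ∏ l ∈ T, ((if g ≡ b [MOD q l] then 1 else 0) - (if g + b ≡ 0 [MOD q l] then 1 else 0))

end Pool.Agent.FHD
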