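import Pool.Agent.FHD.Exact

/-!
# FHD-Prod: mixed differences of the indicator function of an element

`prod_difs`: induction on the list `ls`, with an additional invariant factor. `ind_prod`: Chinese
remainder theorem. `difs_ind`: the indicator function of an element is a product of functions
`Pl y l`, which depend on the residues modulo the `l`-part of `n` only, and the units `k l'` are
congruent to `1` modulo this `l`-part for `l' ≠ l`.
-/

set_option autoImplicit false

namespace Pool.Agent.FHD

open Finset Pool.Agent.FS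
open Pool.Agent.Helper9.Fermat (fib mem_fib)

section

variable {m : ℕ} [NeZero m]

private theorem prod_difs_aux {G : Type*} [CommGroup G] (ls : List ℕ) (hnd : ls.Nodup)
    (k : ℕ → G) (P : ℕ → G → ℤ)
    (hP : ∀ l ∈ ls, ∀ l' ∈ ls, l' ≠ l → ∀ g, P l (k l' * g) = P l g) (c : G → ℤ)
    (hc : ∀ l ∈ ls, ∀ g, c (k l * g) = c g) (g : G) :
    difs (ls.map k) (fun g => c g * (ls.map fun l => P l g).prod) g =
      c g * (ls.map fun l => P l g - P l (k l * g)).prod := by
  induction ls generalizing c g with
  | nil => rfl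
  | cons l ls ih =>
    obtain ⟨hl, hnd'⟩ := List.nodup_cons.1 hnd
    have hP' : ∀ l₁ ∈ ls, ∀ l' ∈ ls, l' ≠ l₁ → ∀ g, P l₁ (k l' * g) = P l₁ g :=
      fun l₁ h₁ l' h' => hP l₁ (List.mem_cons_of_mem _ h₁) l' (List.mem_cons_of_mem _ h')
    have hc' : ∀ l' ∈ ls, ∀ g, (c (k l' * g)) * P l (k l' * g) = c g * P l g := by
      intro l' h' g
      rw [hc l' (List.mem_cons_of_mem _ h'), hP l List.mem_cons_self l'
        (List.mem_cons_of_mem _ h') (fun h => hl (h ▸ h'))]
    have e : ∀ g, difs (ls.map k) (fun g => c g * ((l :: ls).map fun l => P l g).prod) g =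
        (c g * P l g) * (ls.map fun l => P l g - P l (k l * g)).prod := by
      intro g
      rw [← ih hnd' hP' (fun g => c g * P l g) hc' g]
      exact congrArg (fun F => difs (ls.map k) F g) (funext fun g => by
        rw [List.map_cons, List.prod_cons, mul_assoc])
    have e2 : (ls.map fun l' => P l' (k l * g) - P l' (k l' * (k l * g))).prod =
        (ls.map fun l => P l g - P l (k l * g)).prod := by
      refine congrArg List.prod (List.map_congr_left fun l' h' => ?_)
      have hne : l ≠ l' := fun h => hl (h ▸ h')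
      have hi := hP l' (List.mem_cons_of_mem _ h') l List.mem_cons_self hne
      rw [hi, mul_left_comm, hi]
    show difs (ls.map k) (fun g => c g * ((l :: ls).map fun l => P l g).prod) g -
      difs (ls.map k) (fun g => c g * ((l :: ls).map fun l => P l g).prod) (k l * g) = _
    rw [e, e, e2, hc l List.mem_cons_self, List.map_cons, List.prod_cons]
    ring

theorem prod_difs {G : Type*} [CommGroup G] (ls : List ℕ) (hnd : ls.Nodup) (k : ℕ → G)
    (P : ℕ → G → ℤ) (hP : ∀ l ∈ ls, ∀ l' ∈ ls, l' ≠ l → ∀ g, P l (k l' * g) = P l g) (g : G) :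
    difs (ls.map k) (fun g => (ls.map fun l => P l g).prod) g =
      (ls.map fun l => P l g - P l (k l * g)).prod := by
  have h := prod_difs_aux ls hnd k P hP (fun _ => 1) (fun _ _ _ => rfl) g
  rw [one_mul] at h
  rw [← h]
  exact congrArg (fun F => difs (ls.map k) F g) (funext fun g => (one_mul _).symm)

theorem ind_prod (y : ZMod m) (g : ℕ) :
    (if g ≡ lab y [MOD addOrderOf y] then (1 : ℤ) else 0) =
      ∏ l ∈ (addOrderOf y).primeFactors, Pl y l g := by
  have he0 : addOrderOf y ≠ 0 := by
    intro h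
    have h1 := RUp_order_dvd y
    rw [h] at h1
    exact NeZero.ne m (Nat.eq_zero_of_zero_dvd h1)
  split_ifs with h
  · symm
    refine Finset.prod_eq_one fun l _ => ?_
    unfold Pl
    rw [if_pos (h.of_dvd (Nat.ordProj_dvd _ l))]
  · by_contra hcon
    apply h
    have hall : ∀ l ∈ (addOrderOf y).primeFactors,
        g ≡ lab y [MOD ordProj[l] (addOrderOf y)] := by
      intro l hl
      by_contra hl'
      exact hcon (Finset.prod_eq_zero hl (by unfold Pl; rw [if_neg hl'])).symm
    rw [Nat.modEq_iff_dvd]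
    have hprod : ((addOrderOf y : ℕ) : ℤ) =
        ∏ l ∈ (addOrderOf y).primeFactors, ((ordProj[l] (addOrderOf y) : ℕ) : ℤ) := by
      rw [← Nat.cast_prod]
      exact congrArg _ (Nat.prod_factorization_pow_eq_self he0).symm
    rw [hprod]
    refine Finset.prod_dvd_of_coprime ?_ fun l hl => Nat.modEq_iff_dvd.1 (hall l hl)
    intro a ha b hb hab
    have ha' := Nat.prime_of_mem_primeFactors ha
    have hb' := Nat.prime_of_mem_primeFactors hb
    exact Nat.isCoprime_iff_coprime.2
      (Nat.Coprime.pow _ _ ((Nat.coprime_primes ha' hb').2 hab))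

/-- the value of the mixed difference on the indicator function of an element -/
theorem difs_ind {n r : ℕ} [NeZero n] (hr : r.Prime) (hn : Uni m n) (hrn : r ∣ n)
    (k : ℕ → (ZMod n)ˣ) (hk : KFam n r k) (g : (ZMod n)ˣ) (y : ZMod m)
    (hy : (addOrderOf y).primeFactors = tps n r) :
    difs ((lsr n r).map k)
      (fun v : (ZMod n)ˣ => if rr v ≡ lab y [MOD addOrderOf y] then (1 : ℤ) else 0) g =
      bp y r k g := by
  have _ := hr
  have _ := hrn
  have hF : (fun v : (ZMod n)ˣ => if rr v ≡ lab y [MOD addOrderOf y] then (1 : ℤ) else 0) =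
      fun v => ((lsr n r).map fun l => Pl y l (rr v)).prod := by
    funext v
    rw [ind_prod, hy]
    exact (Finset.prod_map_toList _ _).symm
  have hmem : ∀ l, l ∈ lsr n r ↔ l ∈ tps n r := fun l => Finset.mem_toList
  have hinv : ∀ l ∈ lsr n r, ∀ l' ∈ lsr n r, l' ≠ l → ∀ g : (ZMod n)ˣ,
      Pl y l (rr (k l' * g)) = Pl y l (rr g) := by
    intro l hl l' hl' hne g
    have hl1 := (hmem l).1 hl
    have hl1' := (hmem l').1 hl'
    have hlp : l.Prime := Nat.prime_of_mem_primeFactors (Finset.mem_of_mem_erase hl1)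
    have hlp' : l'.Prime := Nat.prime_of_mem_primeFactors (Finset.mem_of_mem_erase hl1')
    have hln : l ∣ n := Nat.dvd_of_mem_primeFactors (Finset.mem_of_mem_erase hl1)
    have hd1 : ordProj[l] (addOrderOf y) ∣ ordProj[l] n := by
      rw [uni_ordProj hn hlp hln]
      exact Nat.ordProj_dvd_ordProj_of_dvd (NeZero.ne m) (RUp_order_dvd y) l
    have hd2 : ordProj[l] n ∣ ordCompl[l'] n := by
      have h1 : ordProj[l] n ∣ ordProj[l'] n * ordCompl[l'] n := by
        rw [Nat.ordProj_mul_ordCompl_eq_self]
        exact Nat.ordProj_dvd n l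
      exact (Nat.Coprime.pow _ _ ((Nat.coprime_primes hlp hlp').2 hne.symm)).dvd_of_dvd_mul_left h1
    have hmod : rr (k l' * g) ≡ rr g [MOD ordProj[l] (addOrderOf y)] :=
      Kl_mul_mod (hk l' hl1') (hd1.trans hd2) g
    unfold Pl
    by_cases h : rr g ≡ lab y [MOD ordProj[l] (addOrderOf y)]
    · rw [if_pos h, if_pos (hmod.trans h)]
    · rw [if_neg h, if_neg (fun h' => h (hmod.symm.trans h'))]
  rw [hF, prod_difs (lsr n r) (Finset.nodup_toList _) k (fun l v => Pl y l (rr v)) hinv g]
  unfold bp lsr
  exact Finset.prod_map_toList _ _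

end

end Pool.Agent.FHD
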