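import Pool.Agent.FHD.Avg
import Pool.Agent.FHD.Prod
import Pool.Agent.FHD.ParDefs
import Pool.Agent.FQ.StepMin

/-!
# FHD-CoreFlip: the equation for three of the primes `2, 3, 5, 7`

The equations for the weights, summed over the translates by `Kl m l₀` (`Kl_avg`, `lev_avg`), and
the theorem `mixed` for the elements which are `-1` modulo the `l`-part. The mixed difference of the
indicator function of an element is a product of three signs (`cf_ind`), which is odd (`cf_odd`).
-/

set_option autoImplicit false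

namespace Pool.Agent.FHD

open Finset Pool.Agent.FS
open Pool.Agent.Helper9.Fermat (fib mem_fib)
open Pool.Agent.FF Pool.Agent.FQ

/-- residue classes of opposite elements -/
private theorem cf_neg {q a g : ℕ} (b : ℕ) (h : a + g ≡ 0 [MOD q]) :
    (a ≡ b [MOD q] ↔ g + b ≡ 0 [MOD q]) ∧ (a + b ≡ 0 [MOD q] ↔ g ≡ b [MOD q]) := by
  rw [← ZMod.natCast_eq_natCast_iff] at h
  rw [← ZMod.natCast_eq_natCast_iff, ← ZMod.natCast_eq_natCast_iff,
    ← ZMod.natCast_eq_natCast_iff, ← ZMod.natCast_eq_natCast_iff]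
  push_cast at h ⊢
  refine ⟨⟨fun h' => ?_, fun h' => ?_⟩, ⟨fun h' => ?_, fun h' => ?_⟩⟩
  · linear_combination h - h'
  · linear_combination h - h'
  · linear_combination h - h'
  · linear_combination h - h'

/-- the products of signs depend on the residue classes only -/
private theorem cf_congr {T : Finset ℕ} {q q' : ℕ → ℕ} {b b' g g' : ℕ}
    (h : ∀ l ∈ T, (g ≡ b [MOD q l] ↔ g' ≡ b' [MOD q' l]) ∧
      (g + b ≡ 0 [MOD q l] ↔ g' + b' ≡ 0 [MOD q' l])) : sgx T q b g = sgx T q' b' g' := by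
  unfold sgx
  refine Finset.prod_congr rfl fun l hl => ?_
  obtain ⟨h1, h2⟩ := h l hl
  rw [if_congr h1 rfl rfl, if_congr h2 rfl rfl]

/-- the products of signs of opposite elements -/
private theorem cf_odd {T : Finset ℕ} {q : ℕ → ℕ} {b g g' : ℕ}
    (h : ∀ l ∈ T, g' + g ≡ 0 [MOD q l]) : sgx T q b g' = (-1) ^ T.card * sgx T q b g := by
  unfold sgx
  rw [← Finset.prod_const, ← Finset.prod_mul_distrib]
  refine Finset.prod_congr rfl fun l hl => ?_
  obtain ⟨h1, h2⟩ := cf_neg b (h l hl)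
  rw [if_congr h1 rfl rfl, if_congr h2 rfl rfl]
  ring

/-- the mixed difference of the indicator function of an element -/
private theorem cf_ind {m n : ℕ} [NeZero m] [NeZero n] (hn : Uni m n) {S : Finset ℕ}
    (hS : n.primeFactors = S) (κ : ℕ → (ZMod n)ˣ →* (ZMod n)ˣ) (hκ : IsProj n κ S.toList)
    (y : ZMod m) (hy : (addOrderOf y).primeFactors = S) (g : (ZMod n)ˣ) :
    difs (S.toList.map fun l => κ l (-1))
      (fun v : (ZMod n)ˣ => if rr v ≡ lab y [MOD addOrderOf y] then (1 : ℤ) else 0) g =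
      sgx S (fun l => ordProj[l] (addOrderOf y)) (lab y) (rr g) := by
  have hF : (fun v : (ZMod n)ˣ => if rr v ≡ lab y [MOD addOrderOf y] then (1 : ℤ) else 0) =
      fun v => (S.toList.map fun l => Pl y l (rr v)).prod := by
    funext v
    rw [ind_prod, hy]
    exact (Finset.prod_map_toList _ _).symm
  have hsp : ∀ l ∈ S, l.Prime ∧ l ∣ n := by
    intro l hl
    rw [← hS] at hl
    exact ⟨Nat.prime_of_mem_primeFactors hl, Nat.dvd_of_mem_primeFactors hl⟩
  have hd1 : ∀ l ∈ S, ordProj[l] (addOrderOf y) ∣ ordProj[l] n := by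
    intro l hl
    rw [uni_ordProj hn (hsp l hl).1 (hsp l hl).2]
    exact Nat.ordProj_dvd_ordProj_of_dvd (NeZero.ne m) (RUp_order_dvd y) l
  have hinv : ∀ l ∈ S.toList, ∀ l' ∈ S.toList, l' ≠ l → ∀ g : (ZMod n)ˣ,
      Pl y l (rr (κ l' (-1) * g)) = Pl y l (rr g) := by
    intro l hl l' hl' hne g
    have hl1 := hsp l (Finset.mem_toList.1 hl)
    have hl1' := hsp l' (Finset.mem_toList.1 hl')
    have hd2 : ordProj[l] n ∣ ordCompl[l'] n := by
      have h1 : ordProj[l] n ∣ ordProj[l'] n * ordCompl[l'] n := by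
        rw [Nat.ordProj_mul_ordCompl_eq_self]
        exact Nat.ordProj_dvd n l
      exact (Nat.Coprime.pow _ _
        ((Nat.coprime_primes hl1.1 hl1'.1).2 hne.symm)).dvd_of_dvd_mul_left h1
    have hmod : rr (κ l' (-1) * g) ≡ rr g [MOD ordProj[l] (addOrderOf y)] :=
      Kl_mul_mod (hκ l' hl' (-1)).1 ((hd1 l (Finset.mem_toList.1 hl)).trans hd2) g
    unfold Pl
    rw [if_congr ⟨fun h => hmod.symm.trans h, fun h => hmod.trans h⟩ rfl rfl]
  rw [hF, prod_difs S.toList (Finset.nodup_toList _) (fun l => κ l (-1))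
    (fun l v => Pl y l (rr v)) hinv g]
  unfold sgx
  refine (Finset.prod_map_toList _ _).trans (Finset.prod_congr rfl fun l hl => ?_)
  have h1 : rr (κ l (-1) * g) + rr g ≡ 0 [MOD ordProj[l] (addOrderOf y)] := by
    have hln : ordProj[l] (addOrderOf y) ∣ n := (hd1 l hl).trans (Nat.ordProj_dvd n l)
    have h2 : rr (κ l (-1) * g) ≡ rr (κ l (-1)) * rr g [MOD ordProj[l] (addOrderOf y)] :=
      (rr_mul _ g).of_dvd hln
    have h3 : rr (κ l (-1)) ≡ rr (-1 : (ZMod n)ˣ) [MOD ordProj[l] (addOrderOf y)] :=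
      ((hκ l (Finset.mem_toList.2 hl) (-1)).2).of_dvd (hd1 l hl)
    have h4 : rr (-1 * g) ≡ rr (-1 : (ZMod n)ˣ) * rr g [MOD ordProj[l] (addOrderOf y)] :=
      (rr_mul _ g).of_dvd hln
    have h5 : rr (-1 * g) + rr g ≡ 0 [MOD ordProj[l] (addOrderOf y)] := (rr_neg g).of_dvd hln
    exact ((h2.trans ((h3.mul_right _).trans h4.symm)).add_right _).trans h5
  unfold Pl
  rw [if_congr (cf_neg (lab y) h1).1 rfl rfl]

/-- difference operators and sums over multisets -/
private theorem cf_difs_sum {G : Type*} [Mul G] (ks : List G) {α : Type} (E : Multiset α)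
    (c : α → ℤ) (F : α → G → ℤ) (g : G) :
    difs ks (fun g => (E.map fun x => c x * F x g).sum) g =
      (E.map fun x => c x * difs ks (F x) g).sum := by
  induction ks generalizing g with
  | nil => rfl
  | cons k ks ih =>
    show difs ks (fun g => (E.map fun x => c x * F x g).sum) g -
      difs ks (fun g => (E.map fun x => c x * F x g).sum) (k * g) = _
    rw [ih, ih, ← Multiset.sum_map_sub]
    exact congrArg Multiset.sum (Multiset.map_congr rfl fun x _ => (mul_sub _ _ _).symm)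

private theorem cf_difs_sub {G : Type*} [Mul G] (ks : List G) (F F' : G → ℤ) (g : G) :
    difs ks (fun g => F g - F' g) g = difs ks F g - difs ks F' g := by
  induction ks generalizing g with
  | nil => rfl
  | cons k ks ih =>
    show difs ks (fun g => F g - F' g) g - difs ks (fun g => F g - F' g) (k * g) =
      (difs ks F g - difs ks F (k * g)) - (difs ks F' g - difs ks F' (k * g))
    rw [ih, ih]
    ring

section

variable {m : ℕ} [NeZero m] {A : Type} [AddCommGroup A] (D : Datum m A)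

/-- the sum of the equations over the translates -/
private theorem cf_avg {l : ℕ} (hl : l.Prime) (E : Multiset (ZMod m))
    (hE : ∀ x ∈ E, l ∣ addOrderOf x) (L : Set ℕ) (b : A) (hb : b ∈ D.lev L)
    (hW : ∀ t, D.W t ((E.map D.f).sum + b) = 0) :
    ∃ b' ∈ D.lev L, ∀ t, D.W t ((E.map fun x => (qq m l / ordProj[l] (addOrderOf x)) •
      (D.f (((ordProj[l] (addOrderOf x) : ℕ) : ZMod m) * x) -
        D.f (((ordProj[l] (addOrderOf x) / l : ℕ) : ZMod m) * (ide m l * x)))).sum + b') = 0 := by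
  classical
  obtain ⟨b', hb', h⟩ := lev_avg D L l b hb
  refine ⟨b', hb', fun t => ?_⟩
  let _ : Fintype (Kl m l) := Fintype.ofFinite _
  have key : ∀ E : Multiset (ZMod m), (∀ x ∈ E, l ∣ addOrderOf x) →
      D.W t (E.map fun x => (qq m l / ordProj[l] (addOrderOf x)) •
        (D.f (((ordProj[l] (addOrderOf x) : ℕ) : ZMod m) * x) -
          D.f (((ordProj[l] (addOrderOf x) / l : ℕ) : ZMod m) * (ide m l * x)))).sum =
      ∑ k : Kl m l, D.W (t * (k : (ZMod m)ˣ)) (E.map D.f).sum := by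
    intro E
    induction E using Multiset.induction_on with
    | empty =>
      intro _
      rw [Multiset.map_zero, Multiset.map_zero, Multiset.sum_zero, map_zero]
      exact (Finset.sum_eq_zero fun k _ => map_zero _).symm
    | cons x E ih =>
      intro hE
      rw [Multiset.map_cons, Multiset.map_cons, Multiset.sum_cons, Multiset.sum_cons, map_add,
        ih fun y hy => hE y (Multiset.mem_cons_of_mem hy),
        ← Kl_avg (D_isDist D) hl x (hE x (Multiset.mem_cons_self x E)),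
        finsum_eq_sum_of_fintype, map_sum, ← Finset.sum_add_distrib]
      refine Finset.sum_congr rfl fun k _ => ?_
      rw [map_add, D.wf, D.wf, Units.val_mul, mul_assoc]
  rw [map_add, h t, key E hE, finsum_eq_sum_of_fintype, ← Finset.sum_add_distrib]
  refine Finset.sum_eq_zero fun k _ => ?_
  rw [← map_add, hW]

/-- the sums of values as sums over the units of the level -/
private theorem cf_sum {n : ℕ} [NeZero n] (hn : Uni m n) (E : Multiset (ZMod m)) (c : ZMod m → ℕ)
    (u v : ZMod m → ZMod m) (hu : ∀ x ∈ E, (addOrderOf (u x)).primeFactors = n.primeFactors)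
    (hv : ∀ x ∈ E, (addOrderOf (v x)).primeFactors = n.primeFactors) :
    (E.map fun x => c x • (D.f (u x) - D.f (v x))).sum =
      ∑ w : (ZMod n)ˣ, (E.map fun x => (c x : ℤ) *
        ((if rr w ≡ lab (u x) [MOD addOrderOf (u x)] then 1 else 0) -
          (if rr w ≡ lab (v x) [MOD addOrderOf (v x)] then 1 else 0))).sum •
        D.f (emb m n w) := by
  have hex : ∀ y : ZMod m, (addOrderOf y).primeFactors = n.primeFactors →
      D.f y = ∑ w : (ZMod n)ˣ, (if rr w ≡ lab y [MOD addOrderOf y] then (1 : ℤ) else 0) •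
        D.f (emb m n w) := by
    intro y hy
    rw [dist_exact (D_isDist D) hn y hy]
    refine Finset.sum_congr rfl fun w _ => ?_
    rw [ite_smul, one_smul, zero_smul]
  induction E using Multiset.induction_on with
  | empty =>
    rw [Multiset.map_zero, Multiset.sum_zero]
    exact (Finset.sum_eq_zero fun w _ => by
      rw [Multiset.map_zero, Multiset.sum_zero, zero_smul]).symm
  | cons x E ih =>
    rw [Multiset.map_cons, Multiset.sum_cons, ih (fun y hy => hu y (Multiset.mem_cons_of_mem hy))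
      (fun y hy => hv y (Multiset.mem_cons_of_mem hy)), hex (u x) (hu x (Multiset.mem_cons_self x E)),
      hex (v x) (hv x (Multiset.mem_cons_self x E)), ← Finset.sum_sub_distrib, Finset.smul_sum,
      ← Finset.sum_add_distrib]
    refine Finset.sum_congr rfl fun w _ => ?_
    rw [Multiset.map_cons, Multiset.sum_cons, add_smul, mul_smul, sub_smul, natCast_zsmul]

end

/-- the two elements -/
private theorem cf_elt {m : ℕ} [NeZero m] {l : ℕ} (hl : l.Prime) (x : ZMod m)
    (hx : l ∣ addOrderOf x) :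
    addOrderOf (((ordProj[l] (addOrderOf x) : ℕ) : ZMod m) * x) =
      addOrderOf x / ordProj[l] (addOrderOf x) ∧
    lab (((ordProj[l] (addOrderOf x) : ℕ) : ZMod m) * x) ≡ lab x
      [MOD addOrderOf x / ordProj[l] (addOrderOf x)] ∧
    addOrderOf (((ordProj[l] (addOrderOf x) / l : ℕ) : ZMod m) * (ide m l * x)) =
      addOrderOf x / ordProj[l] (addOrderOf x) ∧
    l * lab (((ordProj[l] (addOrderOf x) / l : ℕ) : ZMod m) * (ide m l * x)) ≡ lab x
      [MOD addOrderOf x / ordProj[l] (addOrderOf x)] := by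
  have he0 : addOrderOf x ≠ 0 := fun h => NeZero.ne m (Nat.eq_zero_of_zero_dvd
    (h ▸ RUp_order_dvd x))
  obtain ⟨h1, h2⟩ := lab_mul_dvd x (ordProj[l] (addOrderOf x)) (Nat.ordProj_dvd _ l)
  have hcop : l.Coprime (addOrderOf x / ordProj[l] (addOrderOf x)) := Nat.coprime_ordCompl hl he0
  have hi : addOrderOf (ide m l * x) = addOrderOf x / ordProj[l] (addOrderOf x) :=
    addOrderOf_ide_mul l hl x
  have hlP : l ∣ ordProj[l] (addOrderOf x) := Nat.dvd_ordProj_of_dvd he0 hl hx
  have h3 : addOrderOf (((ordProj[l] (addOrderOf x) / l : ℕ) : ZMod m) * (ide m l * x)) =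
      addOrderOf x / ordProj[l] (addOrderOf x) := by
    rw [← hi]
    refine RNorm_ord_nsmul _ ?_
    rw [hi]
    have h4 : (ordProj[l] (addOrderOf x)).Coprime (addOrderOf x / ordProj[l] (addOrderOf x)) :=
      Nat.Coprime.pow_left _ hcop
    exact (h4.coprime_dvd_left (Nat.div_dvd_of_dvd hlP)).symm
  refine ⟨h1, h2, h3, ?_⟩
  have h4 : (l : ZMod m) * (((ordProj[l] (addOrderOf x) / l : ℕ) : ZMod m) * (ide m l * x)) =
      ((ordProj[l] (addOrderOf x) : ℕ) : ZMod m) * x := by
    have h5 : ((l * (ordProj[l] (addOrderOf x) / l) : ℕ) : ZMod m) =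
        ((ordProj[l] (addOrderOf x) : ℕ) : ZMod m) := by
      rw [Nat.mul_div_cancel' hlP]
    have h6 : ide m l * (((ordProj[l] (addOrderOf x) : ℕ) : ZMod m) * x) =
        ((ordProj[l] (addOrderOf x) : ℕ) : ZMod m) * x := by
      refine ide_mul_eq_self l hl _ ?_
      rw [h1]
      exact Nat.not_dvd_ordCompl hl he0
    calc (l : ZMod m) * (((ordProj[l] (addOrderOf x) / l : ℕ) : ZMod m) * (ide m l * x))
        = ((l * (ordProj[l] (addOrderOf x) / l) : ℕ) : ZMod m) * (ide m l * x) := by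
          rw [Nat.cast_mul, mul_assoc]
      _ = ide m l * (((ordProj[l] (addOrderOf x) : ℕ) : ZMod m) * x) := by rw [h5]; ring
      _ = _ := h6
  have h7 := (lab_mul_coprime (((ordProj[l] (addOrderOf x) / l : ℕ) : ZMod m) *
    (ide m l * x)) l (by rw [h3]; exact hcop)).2
  rw [h4, h3] at h7
  exact h7.symm.trans h2

theorem core_flip {m : ℕ} [NeZero m] {A : Type} [AddCommGroup A] (D : Datum m A)
    (E : Multiset (ZMod m))
    (hE : ∀ x ∈ E, (addOrderOf x).primeFactors = {2, 3, 5, 7} ∧ 4 ∣ addOrderOf x)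
    (l₀ : ℕ) (hl₀ : l₀ ∈ ({2, 3, 5, 7} : Finset ℕ)) (L : Set ℕ)
    (hL : ∀ n' ∈ L, ∃ l ∈ ({2, 3, 5, 7} : Finset ℕ).erase l₀, ¬ l ∣ n') (b : A)
    (hb : b ∈ D.lev L) (hW : ∀ t, D.W t ((E.map D.f).sum + b) = 0) (g : ℕ)
    (hg : ∀ l ∈ ({2, 3, 5, 7} : Finset ℕ).erase l₀, ¬ l ∣ g) :
    (E.map fun x => ((qq m l₀ / ordProj[l₀] (addOrderOf x) : ℕ) : ℤ) *
      sgx (({2, 3, 5, 7} : Finset ℕ).erase l₀) (fun l => ordProj[l] (addOrderOf x)) (lab x)
        (l₀ * g)).sum =
    (E.map fun x => ((qq m l₀ / ordProj[l₀] (addOrderOf x) : ℕ) : ℤ) *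
      sgx (({2, 3, 5, 7} : Finset ℕ).erase l₀) (fun l => ordProj[l] (addOrderOf x)) (lab x)
        g).sum := by
  classical
  obtain ⟨Q, hQ⟩ : ∃ Q : Finset ℕ, Q = {2, 3, 5, 7} := ⟨_, rfl⟩
  rw [← hQ] at hE hl₀ hL hg ⊢
  have hQp : ∀ l ∈ Q, l.Prime := by
    rw [hQ]
    intro l hl
    simp only [Finset.mem_insert, Finset.mem_singleton] at hl
    rcases hl with h | h | h | h <;> rw [h] <;> norm_num
  have hQc : Q.card = 4 := by
    rw [hQ]
    rfl
  obtain ⟨T, hT⟩ : ∃ T : Finset ℕ, T = Q.erase l₀ := ⟨_, rfl⟩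
  rw [← hT] at hL hg ⊢
  have hTc : T.card = 3 := by
    rw [hT, Finset.card_erase_of_mem hl₀, hQc]
  have hTQ : ∀ l ∈ T, l ∈ Q ∧ l ≠ l₀ := by
    intro l hl
    rw [hT] at hl
    exact ⟨Finset.mem_of_mem_erase hl, Finset.ne_of_mem_erase hl⟩
  have hTp : ∀ l ∈ T, l.Prime := fun l hl => hQp l (hTQ l hl).1
  by_cases hE0 : E = 0
  · rw [hE0, Multiset.map_zero, Multiset.map_zero]
  obtain ⟨x0, hx0⟩ := Multiset.exists_mem_of_ne_zero hE0
  have hm0 : m ≠ 0 := NeZero.ne m
  have hQm : ∀ l ∈ Q, l ∣ m := by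
    intro l hl
    rw [← (hE x0 hx0).1] at hl
    exact (Nat.dvd_of_mem_primeFactors hl).trans (RUp_order_dvd x0)
  have hlp := hQp l₀ hl₀
  -- the level
  have hnm : nR m T ∣ m := nR_dvd hTp
  have hu : (nR m T).Coprime (m / nR m T) := nR_unitary hTp
  have hUni : Uni m (nR m T) := ⟨hnm, hu⟩
  have : NeZero (nR m T) := ⟨nR_ne hTp⟩
  have hpf : (nR m T).primeFactors = T := by
    ext l
    rw [Nat.mem_primeFactors]
    constructor
    · rintro ⟨h1, h2, _⟩
      exact mem_of_dvd_nR hTp h1 h2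
    · intro hl
      refine ⟨hTp l hl, (?_ : l ∣ qq m l).trans (qq_dvd_nR hl), nR_ne hTp⟩
      exact Nat.dvd_ordProj_of_dvd hm0 (hTp l hl) (hQm l (hTQ l hl).1)
  -- the sum of the equations
  have hEd : ∀ x ∈ E, l₀ ∣ addOrderOf x := fun x hx =>
    Nat.dvd_of_mem_primeFactors (by rw [(hE x hx).1]; exact hl₀)
  obtain ⟨b', hb', hW'⟩ := cf_avg D hlp E hEd L b hb hW
  have hpf1 : ∀ x ∈ E, (addOrderOf x / ordProj[l₀] (addOrderOf x)).primeFactors = T := by
    intro x hx
    rw [← Nat.support_factorization, Nat.factorization_ordCompl, Finsupp.support_erase,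
      Nat.support_factorization, (hE x hx).1, hT]
  obtain ⟨u, hu1⟩ : ∃ u : ZMod m → ZMod m, u = fun x =>
      ((ordProj[l₀] (addOrderOf x) : ℕ) : ZMod m) * x := ⟨_, rfl⟩
  obtain ⟨v, hv1⟩ : ∃ v : ZMod m → ZMod m, v = fun x =>
      ((ordProj[l₀] (addOrderOf x) / l₀ : ℕ) : ZMod m) * (ide m l₀ * x) := ⟨_, rfl⟩
  obtain ⟨c, hc1⟩ : ∃ c : ZMod m → ℕ, c = fun x => qq m l₀ / ordProj[l₀] (addOrderOf x) :=
    ⟨_, rfl⟩
  have helt : ∀ x ∈ E, addOrderOf (u x) = addOrderOf x / ordProj[l₀] (addOrderOf x) ∧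
      lab (u x) ≡ lab x [MOD addOrderOf x / ordProj[l₀] (addOrderOf x)] ∧
      addOrderOf (v x) = addOrderOf x / ordProj[l₀] (addOrderOf x) ∧
      l₀ * lab (v x) ≡ lab x [MOD addOrderOf x / ordProj[l₀] (addOrderOf x)] := by
    intro x hx
    rw [hu1, hv1]
    exact cf_elt hlp x (hEd x hx)
  have hpu : ∀ x ∈ E, (addOrderOf (u x)).primeFactors = T := fun x hx => by
    rw [(helt x hx).1, hpf1 x hx]
  have hpv : ∀ x ∈ E, (addOrderOf (v x)).primeFactors = T := fun x hx => by
    rw [(helt x hx).2.2.1, hpf1 x hx]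
  have hsum := cf_sum D hUni E c u v (fun x hx => (hpu x hx).trans hpf.symm)
    (fun x hx => (hpv x hx).trans hpf.symm)
  -- the mixed differences
  obtain ⟨κ, hκ⟩ := exists_proj (nR m T) T.toList fun l hl => hTp l (Finset.mem_toList.1 hl)
  obtain ⟨I, hI⟩ : ∃ I : ZMod m → (ZMod (nR m T))ˣ → ℤ, I = fun y w =>
      if rr w ≡ lab y [MOD addOrderOf y] then 1 else 0 := ⟨_, rfl⟩
  obtain ⟨N, hN⟩ : ∃ N : (ZMod (nR m T))ˣ → ℤ, N = fun w =>
      (E.map fun x => (c x : ℤ) * (I (u x) w - I (v x) w)).sum := ⟨_, rfl⟩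
  obtain ⟨ks, hks⟩ : ∃ ks : List (ZMod (nR m T))ˣ, ks = T.toList.map fun l => κ l (-1) :=
    ⟨_, rfl⟩
  have hmix : ∀ g : (ZMod (nR m T))ˣ, difs ks (fun g => N g - N (-1 * g)) g = 0 := by
    intro g
    refine mixed D hnm hu T.toList ?_ ?_ L ?_ N b' hb' ?_ ks ?_ g
    · intro l hl
      have hl' := Finset.mem_toList.1 hl
      refine ⟨hTp l hl', ?_⟩
      rw [← hpf] at hl'
      exact Nat.dvd_of_mem_primeFactors hl'
    · intro l hl h
      exact Finset.mem_toList.2 (mem_of_dvd_nR hTp hl h)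
    · intro n' hn'
      obtain ⟨l, hl, h⟩ := hL n' hn'
      exact ⟨l, Finset.mem_toList.2 hl, h⟩
    · intro t
      have h1 := hW' t
      rw [← hW' t, hN, hI]
      rw [hu1, hv1, hc1] at hsum
      rw [hu1, hv1, hc1, ← hsum]
    · rw [hks]
      refine List.forall₂_map_right_iff.2 (List.forall₂_same.2 fun l hl => ?_)
      exact (hκ l hl (-1)).1
  -- the value of the mixed differences
  have hval : ∀ g : (ZMod (nR m T))ˣ, difs ks N g = (E.map fun x => (c x : ℤ) *
      (sgx T (fun l => ordProj[l] (addOrderOf x)) (lab x) (rr g) -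
        sgx T (fun l => ordProj[l] (addOrderOf x)) (lab x) (l₀ * rr g))).sum := by
    intro g
    rw [hN, cf_difs_sum ks E (fun x => (c x : ℤ)) (fun x w => I (u x) w - I (v x) w) g]
    refine congrArg Multiset.sum (Multiset.map_congr rfl fun x hx => ?_)
    obtain ⟨e1, e2, e3, e4⟩ := helt x hx
    have he0 : addOrderOf x ≠ 0 := fun h => hm0 (Nat.eq_zero_of_zero_dvd (h ▸ RUp_order_dvd x))
    have hop : ∀ l ∈ T, ordProj[l] (addOrderOf x / ordProj[l₀] (addOrderOf x)) =
        ordProj[l] (addOrderOf x) := by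
      intro l hl
      rw [Nat.factorization_ordCompl, Finsupp.erase_ne (hTQ l hl).2]
    have hopd : ∀ l ∈ T, ordProj[l] (addOrderOf x) ∣
        addOrderOf x / ordProj[l₀] (addOrderOf x) := by
      intro l hl
      rw [← hop l hl]
      exact Nat.ordProj_dvd _ l
    rw [cf_difs_sub ks (I (u x)) (I (v x)) g]
    have i1 : difs ks (I (u x)) g =
        sgx T (fun l => ordProj[l] (addOrderOf x)) (lab x) (rr g) := by
      rw [hI, hks]
      refine (cf_ind hUni hpf κ hκ (u x) (hpu x hx) g).trans (cf_congr fun l hl => ?_)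
      rw [e1, hop l hl]
      have h1 := e2.of_dvd (hopd l hl)
      exact ⟨⟨fun h => h.trans h1, fun h => h.trans h1.symm⟩,
        ⟨fun h => (h1.symm.add_left _).trans h, fun h => (h1.add_left _).trans h⟩⟩
    have i2 : difs ks (I (v x)) g =
        sgx T (fun l => ordProj[l] (addOrderOf x)) (lab x) (l₀ * rr g) := by
      rw [hI, hks]
      refine (cf_ind hUni hpf κ hκ (v x) (hpv x hx) g).trans (cf_congr fun l hl => ?_)
      rw [e3, hop l hl]
      have h1 := e4.of_dvd (hopd l hl)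
      have hco : (ordProj[l] (addOrderOf x)).gcd l₀ = 1 :=
        Nat.Coprime.pow_left _ ((Nat.coprime_primes (hTp l hl) hlp).2 (hTQ l hl).2)
      refine ⟨⟨fun h => (h.mul_left l₀).trans h1, fun h =>
        Nat.ModEq.cancel_left_of_coprime hco (h.trans h1.symm)⟩, ⟨fun h => ?_, fun h => ?_⟩⟩
      · have h2 := h.mul_left l₀
        rw [mul_zero, mul_add] at h2
        exact (h1.symm.add_left _).trans h2
      · have h2 : l₀ * (rr g + lab (v x)) ≡ l₀ * 0 [MOD ordProj[l] (addOrderOf x)] := by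
          rw [mul_zero, mul_add]
          exact (h1.add_left _).trans h
        exact Nat.ModEq.cancel_left_of_coprime hco h2
    rw [i1, i2]
  -- the oddness
  have hodd : ∀ g : (ZMod (nR m T))ˣ, difs ks N (-1 * g) = - difs ks N g := by
    intro g
    rw [hval, hval, ← Multiset.sum_map_neg]
    refine congrArg Multiset.sum (Multiset.map_congr rfl fun x hx => ?_)
    have hd : ∀ l ∈ T, ordProj[l] (addOrderOf x) ∣ nR m T := by
      intro l hl
      refine dvd_trans ?_ (qq_dvd_nR hl)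
      exact Nat.ordProj_dvd_ordProj_of_dvd hm0 (RUp_order_dvd x) l
    have h1 : ∀ l ∈ T, rr (-1 * g) + rr g ≡ 0 [MOD ordProj[l] (addOrderOf x)] := fun l hl =>
      (rr_neg g).of_dvd (hd l hl)
    have h2 : ∀ l ∈ T, l₀ * rr (-1 * g) + l₀ * rr g ≡ 0 [MOD ordProj[l] (addOrderOf x)] := by
      intro l hl
      have h3 := (h1 l hl).mul_left l₀
      rw [mul_zero, mul_add] at h3
      exact h3
    rw [cf_odd h1, cf_odd h2, hTc]
    ring
  have hzero : ∀ g : (ZMod (nR m T))ˣ, difs ks N g = 0 := by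
    intro g
    have h1 := hmix g
    rw [cf_difs_sub ks N (fun g => N (-1 * g)) g] at h1
    have h2 : difs ks (fun g => N (-1 * g)) g = difs ks N (-1 * g) := by
      have h3 := congrFun (RMixed_difs_shift (-1) ks N) g
      beta_reduce at h3
      have h4 : (fun t : (ZMod (nR m T))ˣ => N (t * -1)) = fun g => N (-1 * g) := by
        funext t
        rw [mul_comm]
      rw [h4] at h3
      rw [h3, mul_comm]
    rw [h2, hodd g] at h1
    linarith
  -- the number `g`
  have hgc : g.Coprime (nR m T) := by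
    refine Nat.Coprime.prod_right fun l hl => ?_
    exact Nat.Coprime.pow_right _ ((Nat.Prime.coprime_iff_not_dvd (hTp l hl)).2 (hg l hl)).symm
  have hrg : rr (ZMod.unitOfCoprime g hgc) ≡ g [MOD nR m T] := by
    unfold rr
    rw [ZMod.coe_unitOfCoprime, ZMod.val_natCast]
    exact Nat.mod_modEq _ _
  have hfin := hzero (ZMod.unitOfCoprime g hgc)
  rw [hval] at hfin
  have hfin2 : (E.map fun x => (c x : ℤ) *
      (sgx T (fun l => ordProj[l] (addOrderOf x)) (lab x) g -
        sgx T (fun l => ordProj[l] (addOrderOf x)) (lab x) (l₀ * g))).sum = 0 := by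
    rw [← hfin]
    refine congrArg Multiset.sum (Multiset.map_congr rfl fun x hx => ?_)
    have hd : ∀ l ∈ T, ordProj[l] (addOrderOf x) ∣ nR m T := by
      intro l hl
      refine dvd_trans ?_ (qq_dvd_nR hl)
      exact Nat.ordProj_dvd_ordProj_of_dvd hm0 (RUp_order_dvd x) l
    have h1 : ∀ l ∈ T, rr (ZMod.unitOfCoprime g hgc) ≡ g [MOD ordProj[l] (addOrderOf x)] :=
      fun l hl => hrg.of_dvd (hd l hl)
    have h2 : ∀ l ∈ T, l₀ * rr (ZMod.unitOfCoprime g hgc) ≡ l₀ * g
        [MOD ordProj[l] (addOrderOf x)] := fun l hl => (h1 l hl).mul_left l₀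
    rw [cf_congr (g := g) (g' := rr (ZMod.unitOfCoprime g hgc)) (b := lab x) (b' := lab x)
      (q := fun l => ordProj[l] (addOrderOf x)) (q' := fun l => ordProj[l] (addOrderOf x))
      (fun l hl => ⟨⟨fun h => (h1 l hl).trans h, fun h => (h1 l hl).symm.trans h⟩,
        ⟨fun h => ((h1 l hl).add_right _).trans h, fun h => ((h1 l hl).symm.add_right _).trans h⟩⟩),
      cf_congr (g := l₀ * g) (g' := l₀ * rr (ZMod.unitOfCoprime g hgc)) (b := lab x)
      (b' := lab x) (q := fun l => ordProj[l] (addOrderOf x))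
      (q' := fun l => ordProj[l] (addOrderOf x))
      (fun l hl => ⟨⟨fun h => (h2 l hl).trans h, fun h => (h2 l hl).symm.trans h⟩,
        ⟨fun h => ((h2 l hl).add_right _).trans h, fun h => ((h2 l hl).symm.add_right _).trans h⟩⟩)]
  have hfin3 : (E.map fun x => (c x : ℤ) *
      sgx T (fun l => ordProj[l] (addOrderOf x)) (lab x) g).sum -
      (E.map fun x => (c x : ℤ) *
        sgx T (fun l => ordProj[l] (addOrderOf x)) (lab x) (l₀ * g)).sum = 0 := by
    rw [← Multiset.sum_map_sub, ← hfin2]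
    exact congrArg Multiset.sum (Multiset.map_congr rfl fun x _ => (mul_sub _ _ _).symm)
  rw [hc1] at hfin3
  exact (sub_eq_zero.1 hfin3).symm

end Pool.Agent.FHD
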