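import Pool.Agent.FHD.Prod
import Pool.Agent.FHD.ParDefs
import Pool.Agent.FQ.StepMin

/-!
# FHD-CorePar: parity of the number of elements in the classes

Plan. If `E = 0` then `hno` is wrong. Let `n = nR m {2, 3, 5, 7}`, `N w` the number of `x ∈ E` with
`rr w ≡ lab x [MOD addOrderOf x]`; `(E.map D.f).sum = ∑ w : (ZMod n)ˣ, N w • D.f (emb m n w)` by
`dist_exact`. `T4x` (`Pool/Agent/FQ/T4x.lean`, see its use in the proof of `stepMin`) with
`L₀ = {n' | ∃ l ∈ {2, 3, 5, 7}, n' = nR m ({2, 3, 5, 7}.erase l)}` and `hno` shows that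
`oss (ls.map fun l => κ l (-1)) N g'` is odd for all `g'`. It is the number of pairs of an `x ∈ E` and
a choice of signs such that `g'` with these signs at `2, 3, 5, 7` is congruent to `lab x` modulo the
order of `x`; for given `x` there is at most one choice of signs, and there is one if and only if
`PMx .. (lab x) (rr g')`. (`oss` is additive; for the indicator function of one element use a product
formula as `prod_difs`: `oss (ls.map k) (∏ P l) g = ∏ (P l g + P l (k l * g))`.) Every `g` prime to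
`210` is congruent to some `rr g'` modulo `n`.
-/

set_option autoImplicit false

namespace Pool.Agent.FHD

open Finset Pool.Agent.FS
open Pool.Agent.Helper9.Fermat (fib mem_fib)

open Pool.Agent.FF (oss os IsProj exists_proj)

private theorem oss_cons {G : Type*} [CommGroup G] (σ : G) (σs : List G) (F : G → ℤ) (g : G) :
    oss (σ :: σs) F g = oss σs F g + oss σs F (σ * g) := rfl

private theorem prod_oss_aux {G : Type*} [CommGroup G] (ls : List ℕ) (hnd : ls.Nodup)
    (k : ℕ → G) (P : ℕ → G → ℤ)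
    (hP : ∀ l ∈ ls, ∀ l' ∈ ls, l' ≠ l → ∀ g, P l (k l' * g) = P l g) (c : G → ℤ)
    (hc : ∀ l ∈ ls, ∀ g, c (k l * g) = c g) (g : G) :
    oss (ls.map k) (fun g => c g * (ls.map fun l => P l g).prod) g =
      c g * (ls.map fun l => P l g + P l (k l * g)).prod := by
  induction ls generalizing c g with
  | nil => rfl
  | cons l ls ih =>
    obtain ⟨hl, hnd'⟩ := List.nodup_cons.1 hnd
    have hP' : ∀ l₁ ∈ ls, ∀ l' ∈ ls, l' ≠ l₁ → ∀ g, P l₁ (k l' * g) = P l₁ g :=
      fun l₁ h₁ l' h' => hP l₁ (List.mem_cons_of_mem _ h₁) l' (List.mem_cons_of_mem _ h')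
    have hc' : ∀ l' ∈ ls, ∀ g, (c (k l' * g)) * P l (k l' * g) = c g * P l g := by
      intro l' h' g
      rw [hc l' (List.mem_cons_of_mem _ h'), hP l List.mem_cons_self l'
        (List.mem_cons_of_mem _ h') (fun h => hl (h ▸ h'))]
    have e : ∀ g, oss (ls.map k) (fun g => c g * ((l :: ls).map fun l => P l g).prod) g =
        (c g * P l g) * (ls.map fun l => P l g + P l (k l * g)).prod := by
      intro g
      rw [← ih hnd' hP' (fun g => c g * P l g) hc' g]
      exact congrArg (fun F => oss (ls.map k) F g) (funext fun g => by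
        rw [List.map_cons, List.prod_cons, mul_assoc])
    have e2 : (ls.map fun l' => P l' (k l * g) + P l' (k l' * (k l * g))).prod =
        (ls.map fun l => P l g + P l (k l * g)).prod := by
      refine congrArg List.prod (List.map_congr_left fun l' h' => ?_)
      have hne : l ≠ l' := fun h => hl (h ▸ h')
      have hi := hP l' (List.mem_cons_of_mem _ h') l List.mem_cons_self hne
      rw [hi, mul_left_comm, hi]
    show oss (ls.map k) (fun g => c g * ((l :: ls).map fun l => P l g).prod) g +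
      oss (ls.map k) (fun g => c g * ((l :: ls).map fun l => P l g).prod) (k l * g) = _
    rw [e, e, e2, hc l List.mem_cons_self, List.map_cons, List.prod_cons]
    ring

private theorem prod_oss {G : Type*} [CommGroup G] (ls : List ℕ) (hnd : ls.Nodup) (k : ℕ → G)
    (P : ℕ → G → ℤ) (hP : ∀ l ∈ ls, ∀ l' ∈ ls, l' ≠ l → ∀ g, P l (k l' * g) = P l g) (g : G) :
    oss (ls.map k) (fun g => (ls.map fun l => P l g).prod) g =
      (ls.map fun l => P l g + P l (k l * g)).prod := by
  have h := prod_oss_aux ls hnd k P hP (fun _ => 1) (fun _ _ _ => rfl) g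
  rw [one_mul] at h
  rw [← h]
  exact congrArg (fun F => oss (ls.map k) F g) (funext fun g => (one_mul _).symm)

private theorem oss_add {G : Type*} [CommGroup G] (σs : List G) (F F' : G → ℤ) (g : G) :
    oss σs (fun g => F g + F' g) g = oss σs F g + oss σs F' g := by
  induction σs generalizing g with
  | nil => rfl
  | cons σ σs ih =>
    rw [oss_cons, oss_cons, oss_cons, ih, ih]
    ring

private theorem oss_zero' {G : Type*} [CommGroup G] (σs : List G) (g : G) :
    oss σs (fun _ => (0 : ℤ)) g = 0 := by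
  induction σs generalizing g with
  | nil => rfl
  | cons σ σs ih =>
    rw [oss_cons, ih, ih]
    rfl

private theorem oss_sum {G X : Type*} [CommGroup G] (σs : List G) (E : Multiset X)
    (F : X → G → ℤ) (g : G) :
    oss σs (fun g => (E.map fun x => F x g).sum) g = (E.map fun x => oss σs (F x) g).sum := by
  induction E using Multiset.induction_on with
  | empty =>
    simp only [Multiset.map_zero, Multiset.sum_zero]
    exact oss_zero' σs g
  | cons x E ih =>
    simp only [Multiset.map_cons, Multiset.sum_cons]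
    rw [oss_add, ih]

private theorem filter_card {X : Type*} (E : Multiset X) (p : X → Prop) [DecidablePred p] :
    (((E.filter p).card : ℕ) : ℤ) = (E.map fun x => if p x then (1 : ℤ) else 0).sum := by
  induction E using Multiset.induction_on with
  | empty => simp
  | cons x E ih =>
    rw [Multiset.map_cons, Multiset.sum_cons, ← ih, Multiset.filter_cons]
    split_ifs with h
    · rw [Multiset.card_add, Multiset.card_singleton]
      push_cast
      ring
    · rw [zero_add, zero_add]

private theorem sumE {m : ℕ} [NeZero m] {A : Type} [AddCommGroup A] (D : Datum m A) {n : ℕ}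
    [NeZero n] (hn : Uni m n) (E : Multiset (ZMod m))
    (hE : ∀ x ∈ E, (addOrderOf x).primeFactors = n.primeFactors) :
    (E.map D.f).sum = ∑ w : (ZMod n)ˣ,
      (E.map fun x => if rr w ≡ lab x [MOD addOrderOf x] then (1 : ℤ) else 0).sum •
        D.f (emb m n w) := by
  induction E using Multiset.induction_on with
  | empty => simp
  | cons x E ih =>
    rw [Multiset.map_cons, Multiset.sum_cons, ih fun y hy => hE y (Multiset.mem_cons_of_mem hy),
      dist_exact (D.dist : IsDist D.f) hn x (hE x (Multiset.mem_cons_self _ _)),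
      ← Finset.sum_add_distrib]
    refine Finset.sum_congr rfl fun w _ => ?_
    rw [Multiset.map_cons, Multiset.sum_cons, add_smul]
    congr 1
    split_ifs
    · rw [one_smul]
    · rw [zero_smul]

private theorem oss_one {m : ℕ} [NeZero m] {n : ℕ} [NeZero n] (hn : Uni m n) (x : ZMod m)
    (hx : (addOrderOf x).primeFactors = {2, 3, 5, 7}) (h4 : 4 ∣ addOrderOf x)
    (hS : ∀ l ∈ ({2, 3, 5, 7} : Finset ℕ), l ∣ n)
    (κ : ℕ → (ZMod n)ˣ →* (ZMod n)ˣ) (hκ : IsProj n κ [2, 3, 5, 7]) (g : (ZMod n)ˣ) :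
    oss ([2, 3, 5, 7].map fun l => κ l (-1))
      (fun w : (ZMod n)ˣ => if rr w ≡ lab x [MOD addOrderOf x] then (1 : ℤ) else 0) g =
      ∏ l ∈ ({2, 3, 5, 7} : Finset ℕ),
        (if (rr g ≡ lab x [MOD ordProj[l] (addOrderOf x)] ∨
          rr g + lab x ≡ 0 [MOD ordProj[l] (addOrderOf x)]) then (1 : ℤ) else 0) := by
  have hF : (fun v : (ZMod n)ˣ => if rr v ≡ lab x [MOD addOrderOf x] then (1 : ℤ) else 0) =
      fun v => ([2, 3, 5, 7].map fun l => Pl x l (rr v)).prod := by
    funext v
    rw [ind_prod, hx]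
    rfl
  have hmem : ∀ l, l ∈ [2, 3, 5, 7] ↔ l ∈ ({2, 3, 5, 7} : Finset ℕ) := fun l => by simp
  have hprime : ∀ l ∈ ({2, 3, 5, 7} : Finset ℕ), l.Prime := by
    intro l hl
    rw [← hx] at hl
    exact Nat.prime_of_mem_primeFactors hl
  have hord : ∀ l ∈ ({2, 3, 5, 7} : Finset ℕ), ordProj[l] (addOrderOf x) ∣ ordProj[l] n := by
    intro l hl
    rw [uni_ordProj hn (hprime l hl) (hS l hl)]
    exact Nat.ordProj_dvd_ordProj_of_dvd (NeZero.ne m) (RUp_order_dvd x) l
  have hinv : ∀ l ∈ [2, 3, 5, 7], ∀ l' ∈ [2, 3, 5, 7], l' ≠ l → ∀ g : (ZMod n)ˣ,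
      Pl x l (rr (κ l' (-1) * g)) = Pl x l (rr g) := by
    intro l hl l' hl' hne g
    have hl1 := (hmem l).1 hl
    have hl1' := (hmem l').1 hl'
    have hlp := hprime l hl1
    have hlp' := hprime l' hl1'
    have hd2 : ordProj[l] n ∣ ordCompl[l'] n := by
      have h1 : ordProj[l] n ∣ ordProj[l'] n * ordCompl[l'] n := by
        rw [Nat.ordProj_mul_ordCompl_eq_self]
        exact Nat.ordProj_dvd n l
      exact (Nat.Coprime.pow _ _ ((Nat.coprime_primes hlp hlp').2 hne.symm)).dvd_of_dvd_mul_left h1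
    have hmod : rr (κ l' (-1) * g) ≡ rr g [MOD ordProj[l] (addOrderOf x)] :=
      Kl_mul_mod (hκ l' hl' (-1)).1 ((hord l hl1).trans hd2) g
    unfold Pl
    by_cases h : rr g ≡ lab x [MOD ordProj[l] (addOrderOf x)]
    · rw [if_pos h, if_pos (hmod.trans h)]
    · rw [if_neg h, if_neg (fun h' => h (hmod.symm.trans h'))]
  have hnd : ([2, 3, 5, 7] : List ℕ).Nodup := by decide
  rw [hF, prod_oss [2, 3, 5, 7] hnd (fun l => κ l (-1)) (fun l v => Pl x l (rr v)) hinv g]
  have hfac : ∀ l ∈ ({2, 3, 5, 7} : Finset ℕ),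
      Pl x l (rr g) + Pl x l (rr (κ l (-1) * g)) =
        (if (rr g ≡ lab x [MOD ordProj[l] (addOrderOf x)] ∨
          rr g + lab x ≡ 0 [MOD ordProj[l] (addOrderOf x)]) then (1 : ℤ) else 0) := by
    intro l hl
    have hlp := hprime l hl
    have hlL := (hmem l).2 hl
    -- the second function
    have hneg : rr (κ l (-1) * g) + rr g ≡ 0 [MOD ordProj[l] (addOrderOf x)] := by
      have h1 : rr (κ l (-1) * g) ≡ rr (-1 * g) [MOD ordProj[l] n] := by
        refine ((rr_mul (κ l (-1)) g).of_dvd (Nat.ordProj_dvd n l)).trans ?_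
        refine Nat.ModEq.trans ?_ ((rr_mul (-1) g).of_dvd (Nat.ordProj_dvd n l)).symm
        exact ((hκ l hlL (-1)).2).mul_right _
      exact ((h1.of_dvd (hord l hl)).add_right _).trans
        ((rr_neg g).of_dvd ((hord l hl).trans (Nat.ordProj_dvd n l)))
    have hiff : rr (κ l (-1) * g) ≡ lab x [MOD ordProj[l] (addOrderOf x)] ↔
        rr g + lab x ≡ 0 [MOD ordProj[l] (addOrderOf x)] := by
      constructor
      · intro h
        have h2 := (h.add_right (rr g)).symm.trans hneg
        rwa [add_comm] at h2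
      · intro h
        have h2 : rr (κ l (-1) * g) + rr g ≡ lab x + rr g [MOD ordProj[l] (addOrderOf x)] := by
          refine hneg.trans ?_
          rw [add_comm (lab x)]
          exact h.symm
        exact Nat.ModEq.add_right_cancel' _ h2
    have h3 : 3 ≤ ordProj[l] (addOrderOf x) := by
      have hl0 : l ∣ addOrderOf x := by
        rw [← hx] at hl
        exact Nat.dvd_of_mem_primeFactors hl
      have hne : addOrderOf x ≠ 0 := (addOrderOf_pos x).ne'
      by_cases h2 : l = 2
      · subst h2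
        have h5 : 4 ∣ ordProj[2] (addOrderOf x) := by
          have h6 : (4 : ℕ).Coprime (ordCompl[2] (addOrderOf x)) :=
            (Nat.coprime_ordCompl Nat.prime_two hne).pow_left 2
          refine h6.dvd_of_dvd_mul_right ?_
          rw [Nat.ordProj_mul_ordCompl_eq_self]
          exact h4
        have h7 := Nat.le_of_dvd (Nat.ordProj_pos _ _) h5
        omega
      · have h5 : l ∣ ordProj[l] (addOrderOf x) := by
          refine dvd_pow_self l ?_
          have := (hlp.dvd_iff_one_le_factorization hne).mp hl0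
          omega
        have h7 := Nat.le_of_dvd (Nat.ordProj_pos _ _) h5
        have h8 := hlp.two_le
        omega
    have hnb : ¬ (rr g ≡ lab x [MOD ordProj[l] (addOrderOf x)] ∧
        rr g + lab x ≡ 0 [MOD ordProj[l] (addOrderOf x)]) := by
      rintro ⟨h5, h6⟩
      have h7 : 2 * lab x ≡ 0 [MOD ordProj[l] (addOrderOf x)] := by
        have h8 := (h5.add_right (lab x)).symm.trans h6
        rwa [← two_mul] at h8
      have h8 : ordProj[l] (addOrderOf x) ∣ 2 * lab x := (Nat.modEq_zero_iff_dvd).1 h7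
      have h9 : (ordProj[l] (addOrderOf x)).Coprime (lab x) :=
        (Nat.Coprime.coprime_dvd_right (Nat.ordProj_dvd _ l) (lab_coprime x)).symm
      have h10 : ordProj[l] (addOrderOf x) ∣ 2 := h9.dvd_of_dvd_mul_right h8
      have h11 := Nat.le_of_dvd (by norm_num) h10
      omega
    unfold Pl
    by_cases c1 : rr g ≡ lab x [MOD ordProj[l] (addOrderOf x)]
    · have c2 : ¬ (rr (κ l (-1) * g) ≡ lab x [MOD ordProj[l] (addOrderOf x)]) :=
        fun h => hnb ⟨c1, hiff.1 h⟩
      rw [if_pos c1, if_neg c2, if_pos (Or.inl c1)]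
      rfl
    · by_cases c2 : rr (κ l (-1) * g) ≡ lab x [MOD ordProj[l] (addOrderOf x)]
      · rw [if_neg c1, if_pos c2, if_pos (Or.inr (hiff.1 c2))]
        rfl
      · rw [if_neg c1, if_neg c2, if_neg (fun h => h.elim c1 fun h' => c2 (hiff.2 h'))]
        rfl
  rw [← Finset.prod_congr rfl hfac]
  rfl

private theorem prod_ind (T : Finset ℕ) (p : ℕ → Prop) [∀ l, Decidable (p l)]
    [Decidable (∀ l ∈ T, p l)] :
    ∏ l ∈ T, (if p l then (1 : ℤ) else 0) = if ∀ l ∈ T, p l then 1 else 0 := by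
  split_ifs with h
  · exact Finset.prod_eq_one fun l hl => if_pos (h l hl)
  · push Not at h
    obtain ⟨l, hl, hp⟩ := h
    exact Finset.prod_eq_zero hl (if_neg hp)

open Classical in
theorem core_par {m : ℕ} [NeZero m] {A : Type} [AddCommGroup A] (D : Datum m A)
    (E : Multiset (ZMod m))
    (hE : ∀ x ∈ E, (addOrderOf x).primeFactors = {2, 3, 5, 7} ∧ 4 ∣ addOrderOf x)
    (L : Set ℕ) (hL : ∀ n' ∈ L, ∃ l ∈ ({2, 3, 5, 7} : Finset ℕ), ¬ l ∣ n') (b : A)
    (hb : b ∈ D.lev L) (hW : ∀ t, D.W t ((E.map D.f).sum + b) = 0)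
    (hno : (E.map D.f).sum ∉
      D.lev {n' | ∃ l ∈ ({2, 3, 5, 7} : Finset ℕ), n' = FQ.nR m (({2, 3, 5, 7} : Finset ℕ).erase l)})
    (g : ℕ) (hg : g.Coprime 210) :
    Odd (E.filter fun x => PMx (fun l => ordProj[l] (addOrderOf x)) (lab x) g).card := by
  set S : Finset ℕ := {2, 3, 5, 7} with hS
  have hp : ∀ l ∈ S, l.Prime := by
    intro l hl
    simp only [hS, Finset.mem_insert, Finset.mem_singleton] at hl
    rcases hl with rfl | rfl | rfl | rfl <;> norm_num
  have hmem : ∀ l, l ∈ [2, 3, 5, 7] ↔ l ∈ S := fun l => by simp [hS]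
  have hn0 : FQ.nR m S ≠ 0 := FQ.nR_ne hp
  haveI : NeZero (FQ.nR m S) := ⟨hn0⟩
  have hun : Uni m (FQ.nR m S) := ⟨FQ.nR_dvd hp, FQ.nR_unitary hp⟩
  obtain ⟨x0, hx0⟩ : ∃ x, x ∈ E := by
    by_contra hcon
    push Not at hcon
    have hE0 : E = 0 := Multiset.eq_zero_of_forall_notMem hcon
    apply hno
    rw [hE0, Multiset.map_zero, Multiset.sum_zero]
    exact zero_mem _
  have hdm : addOrderOf x0 ∣ m := RUp_order_dvd x0
  have hm0 : m ≠ 0 := NeZero.ne m
  have hbq : ∀ l ∈ S, Pool.Agent.FS.hb l ∣ qq m l := by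
    intro l hl
    have hl0 : l ∣ addOrderOf x0 := by
      have h1 := (hE x0 hx0).1
      rw [← h1] at hl
      exact Nat.dvd_of_mem_primeFactors hl
    unfold Pool.Agent.FS.hb qq
    split_ifs with h2
    · subst h2
      have h6 : (4 : ℕ).Coprime (ordCompl[2] m) :=
        (Nat.coprime_ordCompl Nat.prime_two hm0).pow_left 2
      refine h6.dvd_of_dvd_mul_right ?_
      rw [Nat.ordProj_mul_ordCompl_eq_self]
      exact (hE x0 hx0).2.trans hdm
    · refine dvd_pow_self l ?_
      have := ((hp l hl).dvd_iff_one_le_factorization hm0).mp (hl0.trans hdm)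
      omega
  have hbn : ∀ l ∈ S, Pool.Agent.FS.hb l ∣ FQ.nR m S := fun l hl =>
    (hbq l hl).trans (FQ.qq_dvd_nR hl)
  have hln : ∀ l ∈ S, l ∣ FQ.nR m S := by
    intro l hl
    refine dvd_trans ?_ (hbn l hl)
    unfold Pool.Agent.FS.hb
    split_ifs with h2
    · rw [h2]; norm_num
    · exact dvd_rfl
  have hpf : (FQ.nR m S).primeFactors = S := by
    ext l
    rw [Nat.mem_primeFactors]
    constructor
    · rintro ⟨h1, h2, -⟩
      exact FQ.mem_of_dvd_nR hp h1 h2
    · intro hl
      exact ⟨hp l hl, hln l hl, hn0⟩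
  have hsum := sumE D hun E fun x hx => by rw [(hE x hx).1, hpf]
  obtain ⟨κ, hκ⟩ := exists_proj (FQ.nR m S) [2, 3, 5, 7] fun l hl => hp l ((hmem l).1 hl)
  -- the unit
  have hgn : g.Coprime (FQ.nR m S) := by
    rw [Nat.coprime_comm]
    refine Nat.Coprime.symm ?_
    by_contra hcon
    obtain ⟨l, hl, hlg, hln'⟩ := Nat.Prime.not_coprime_iff_dvd.mp hcon
    have h1 : l ∈ S := FQ.mem_of_dvd_nR hp hl hln'
    have h2 : l ∣ 210 := by
      simp only [hS, Finset.mem_insert, Finset.mem_singleton] at h1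
      rcases h1 with rfl | rfl | rfl | rfl <;> norm_num
    have h3 := Nat.eq_one_of_dvd_coprimes hg hlg h2
    exact hl.one_lt.ne' h3
  set g' : (ZMod (FQ.nR m S))ˣ := ZMod.unitOfCoprime g hgn with hg'
  have hrr : rr g' ≡ g [MOD FQ.nR m S] := by
    rw [hg', rr, ZMod.coe_unitOfCoprime, ZMod.val_natCast]
    exact Nat.mod_modEq g _
  by_contra hodd
  apply hno
  rw [hsum]
  refine FQ.T4x D hun.1 hun.2 [2, 3, 5, 7] (by decide) ⟨2, rfl⟩ (by simp)
    (fun l hl => ⟨hp l ((hmem l).1 hl), hbn l ((hmem l).1 hl)⟩)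
    (fun l hl h => (hmem l).2 (FQ.mem_of_dvd_nR hp hl h)) L
    {n' | ∃ l ∈ S, n' = FQ.nR m (S.erase l)}
    (fun n' hn' => ?_) (fun l hl => ⟨l, (hmem l).1 hl, FQ.ordCompl_nR hp ((hmem l).1 hl)⟩) κ hκ _ b
    hb (fun t => by rw [← hsum]; exact hW t) ⟨g', ?_⟩
  · obtain ⟨l, hl, h⟩ := hL n' hn'
    exact ⟨l, (hmem l).2 hl, h⟩
  · rw [oss_sum]
    have h1 : (E.map fun x => oss ([2, 3, 5, 7].map fun l => κ l (-1))
        (fun w : (ZMod (FQ.nR m S))ˣ =>
          if rr w ≡ lab x [MOD addOrderOf x] then (1 : ℤ) else 0) g').sum =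
        (((E.filter fun x => PMx (fun l => ordProj[l] (addOrderOf x)) (lab x) g).card : ℕ) : ℤ) := by
      rw [filter_card]
      refine congrArg Multiset.sum (Multiset.map_congr rfl fun x hx => ?_)
      rw [oss_one hun x (hE x hx).1 (hE x hx).2 hln κ hκ g', prod_ind]
      have hiff : (∀ l ∈ ({2, 3, 5, 7} : Finset ℕ),
          (rr g' ≡ lab x [MOD ordProj[l] (addOrderOf x)] ∨
            rr g' + lab x ≡ 0 [MOD ordProj[l] (addOrderOf x)])) ↔
          PMx (fun l => ordProj[l] (addOrderOf x)) (lab x) g := by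
        unfold PMx
        refine forall₂_congr fun l hl => ?_
        have hd : ordProj[l] (addOrderOf x) ∣ FQ.nR m S := by
          refine dvd_trans (Nat.ordProj_dvd_ordProj_of_dvd hm0 (RUp_order_dvd x) l) ?_
          exact FQ.qq_dvd_nR hl
        have h5 := hrr.of_dvd hd
        refine or_congr ⟨fun h => h5.symm.trans h, fun h => h5.trans h⟩ ⟨fun h => ?_, fun h => ?_⟩
        · exact (h5.symm.add_right _).trans h
        · exact (h5.add_right _).trans h
      exact if_congr hiff rfl rfl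
    rw [h1]
    exact_mod_cast Nat.not_odd_iff_even.1 hodd

end Pool.Agent.FHD
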