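import Pool.Agent.FHD.ParDefs

/-!
# FHD-ParB: the contradiction for the prime `7`
-/

set_option autoImplicit false

namespace Pool.Agent.FHD

open Finset

private theorem pb_one {m Q g b : ℕ} (hm : m ∣ Q) (h : g ≡ b [MOD Q] ∨ g + b ≡ 0 [MOD Q])
    (h0 : ¬ (g + b) % m = 0) :
    ((if g ≡ b [MOD Q] then 1 else 0) - (if g + b ≡ 0 [MOD Q] then 1 else 0) : ℤ) = 1 := by
  have h1 : ¬ g + b ≡ 0 [MOD Q] := by
    intro h2
    have h3 := h2.of_dvd hm
    rw [Nat.ModEq, Nat.zero_mod] at h3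
    exact h0 h3
  rcases h with h | h
  · rw [if_pos h, if_neg h1, sub_zero]
  · exact absurd h h1

private theorem pb_neg {m Q g b : ℕ} (hm : m ∣ Q) (h : g ≡ b [MOD Q] ∨ g + b ≡ 0 [MOD Q])
    (h0 : ¬ g % m = b % m) :
    ((if g ≡ b [MOD Q] then 1 else 0) - (if g + b ≡ 0 [MOD Q] then 1 else 0) : ℤ) = -1 := by
  have h1 : ¬ g ≡ b [MOD Q] := fun h2 => h0 (h2.of_dvd hm)
  rcases h with h | h
  · exact absurd h h1
  · rw [if_neg h1, if_pos h, zero_sub]

private theorem pb_zero {m Q g b : ℕ} (hm : m ∣ Q) (h0 : ¬ (g + b) % m = 0)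
    (h1 : ¬ g % m = b % m) :
    ((if g ≡ b [MOD Q] then 1 else 0) - (if g + b ≡ 0 [MOD Q] then 1 else 0) : ℤ) = 0 := by
  have h2 : ¬ g + b ≡ 0 [MOD Q] := by
    intro h2
    have h3 := h2.of_dvd hm
    rw [Nat.ModEq, Nat.zero_mod] at h3
    exact h0 h3
  have h3 : ¬ g ≡ b [MOD Q] := fun h2 => h1 (h2.of_dvd hm)
  rw [if_neg h2, if_neg h3, sub_zero]

private theorem pb_sgx (q : ℕ → ℕ) (b g : ℕ) :
    sgx {2, 3, 5} q b g =
      ((if g ≡ b [MOD q 2] then 1 else 0) - (if g + b ≡ 0 [MOD q 2] then 1 else 0)) *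
      (((if g ≡ b [MOD q 3] then 1 else 0) - (if g + b ≡ 0 [MOD q 3] then 1 else 0)) *
      ((if g ≡ b [MOD q 5] then 1 else 0) - (if g + b ≡ 0 [MOD q 5] then 1 else 0))) := by
  rw [sgx, Finset.prod_insert (by decide), Finset.prod_insert (by decide),
    Finset.prod_singleton]

private theorem pb_nd {g n p : ℕ} (h : g.Coprime n) (hp : 1 < p) (hd : p ∣ n) :
    g % p ≠ 0 := by
  intro h0
  have h1 := Nat.dvd_gcd (Nat.dvd_of_mod_eq_zero h0) hd
  rw [Nat.Coprime.gcd_eq_one h] at h1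
  have := Nat.le_of_dvd one_pos h1
  omega

private theorem pb_cop {g : ℕ} (h2 : g % 2 ≠ 0) (h3 : g % 3 ≠ 0) (h5 : g % 5 ≠ 0)
    (h7 : g % 7 ≠ 0) : g.Coprime 210 := by
  have e : 210 = 2 * (3 * (5 * 7)) := by norm_num
  rw [e]
  refine Nat.Coprime.mul_right ?_ (Nat.Coprime.mul_right ?_ (Nat.Coprime.mul_right ?_ ?_))
  · exact ((Nat.Prime.coprime_iff_not_dvd (by norm_num)).mpr (by omega)).symm
  · exact ((Nat.Prime.coprime_iff_not_dvd (by norm_num)).mpr (by omega)).symm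
  · exact ((Nat.Prime.coprime_iff_not_dvd (by norm_num)).mpr (by omega)).symm
  · exact ((Nat.Prime.coprime_iff_not_dvd (by norm_num)).mpr (by omega)).symm

private theorem pb_sq {m Q g b : ℕ} (hm : m ∣ Q) (h : g ≡ b [MOD Q] ∨ g + b ≡ 0 [MOD Q]) :
    g ^ 2 ≡ b ^ 2 [MOD m] := by
  rcases h with h | h
  · exact (h.of_dvd hm).pow 2
  · have h1 : m ∣ g + b := (Nat.modEq_zero_iff_dvd).mp (h.of_dvd hm)
    rw [Nat.modEq_iff_dvd]
    obtain ⟨k, hk⟩ := h1
    refine ⟨((b : ℤ) - g) * k, ?_⟩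
    have hk' : (g : ℤ) + b = m * k := by exact_mod_cast hk
    push_cast
    linear_combination ((b : ℤ) - g) * hk'

private theorem pb_crt (q : ℕ → ℕ) (b : ℕ) (h : OkQ q b) (h5 : b ^ 2 % 5 = 1)
    (hP : ∀ g : ℕ, g.Coprime 210 → b ^ 2 % 35 = g ^ 2 % 35 → PMx q b g)
    (g : ℕ) (hg : g.Coprime 30) (hg5 : g ^ 2 % 5 = 1) :
    (g ≡ b [MOD q 2] ∨ g + b ≡ 0 [MOD q 2]) ∧ (g ≡ b [MOD q 3] ∨ g + b ≡ 0 [MOD q 3]) ∧
      (g ≡ b [MOD q 5] ∨ g + b ≡ 0 [MOD q 5]) := by
  obtain ⟨j2, e2⟩ := h.pow 2 (by decide)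
  obtain ⟨j3, e3⟩ := h.pow 3 (by decide)
  obtain ⟨j5, e5⟩ := h.pow 5 (by decide)
  obtain ⟨j7, e7⟩ := h.pow 7 (by decide)
  have hco : (q 2 * q 3 * q 5).Coprime (q 7) := by
    rw [e2, e3, e5, e7]
    exact Nat.Coprime.mul_left (Nat.Coprime.mul_left (Nat.Coprime.pow _ _ (by norm_num))
      (Nat.Coprime.pow _ _ (by norm_num))) (Nat.Coprime.pow _ _ (by norm_num))
  obtain ⟨g', h1, h2⟩ := Nat.chineseRemainder hco g b
  have c2 : g' ≡ g [MOD q 2] := h1.of_dvd ⟨q 3 * q 5, by ring⟩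
  have c3 : g' ≡ g [MOD q 3] := h1.of_dvd ⟨q 2 * q 5, by ring⟩
  have c5 : g' ≡ g [MOD q 5] := h1.of_dvd ⟨q 2 * q 3, by ring⟩
  have d2 : g' % 4 = g % 4 := c2.of_dvd h.two
  have d3 : g' % 3 = g % 3 := c3.of_dvd h.three
  have d5 : g' % 5 = g % 5 := c5.of_dvd h.five
  have d7 : g' % 7 = b % 7 := h2.of_dvd h.seven
  have k2 : g % 2 ≠ 0 := pb_nd hg (by norm_num) (by norm_num)
  have k3 : g % 3 ≠ 0 := pb_nd hg (by norm_num) (by norm_num)
  have k5 : g % 5 ≠ 0 := pb_nd hg (by norm_num) (by norm_num)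
  have k7 : b % 7 ≠ 0 := pb_nd h.cop (by norm_num) (by norm_num)
  have hcop : g'.Coprime 210 := pb_cop (by omega) (by omega) (by omega) (by omega)
  have a5 : b ^ 2 ≡ g' ^ 2 [MOD 5] := by
    have a1 : g' ^ 2 ≡ g ^ 2 [MOD 5] := Nat.ModEq.pow 2 d5
    have a2 : g ^ 2 ≡ b ^ 2 [MOD 5] := by
      rw [Nat.ModEq, hg5, h5]
    exact (a1.trans a2).symm
  have a7 : b ^ 2 ≡ g' ^ 2 [MOD 7] := (Nat.ModEq.pow 2 d7).symm
  have a35 : b ^ 2 % 35 = g' ^ 2 % 35 :=
    (Nat.modEq_and_modEq_iff_modEq_mul (by norm_num : Nat.Coprime 5 7)).mp ⟨a5, a7⟩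
  have hPM := hP g' hcop a35
  have hgen : ∀ l, g' ≡ g [MOD q l] → (g' ≡ b [MOD q l] ∨ g' + b ≡ 0 [MOD q l]) →
      (g ≡ b [MOD q l] ∨ g + b ≡ 0 [MOD q l]) := by
    intro l hl hh
    rcases hh with hh | hh
    · exact Or.inl (hl.symm.trans hh)
    · exact Or.inr ((Nat.ModEq.add_right b hl.symm).trans hh)
  exact ⟨hgen 2 c2 (hPM 2 (by decide)), hgen 3 c3 (hPM 3 (by decide)),
    hgen 5 c5 (hPM 5 (by decide))⟩

private theorem pb_core (q : ℕ → ℕ) (b : ℕ) (h : OkQ q b) (h5 : b ^ 2 % 5 = 1)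
    (hP : ∀ g : ℕ, g.Coprime 210 → b ^ 2 % 35 = g ^ 2 % 35 → PMx q b g) :
    Odd (sgx {2, 3, 5} q b 1) ∧ sgx {2, 3, 5} q b 49 = - sgx {2, 3, 5} q b 1 := by
  obtain ⟨u2, u3, u5⟩ := pb_crt q b h h5 hP 1 (by norm_num) (by norm_num)
  obtain ⟨v2, v3, v5⟩ := pb_crt q b h h5 hP 49 (by norm_num) (by norm_num)
  have k2 : b % 2 ≠ 0 := pb_nd h.cop (by norm_num) (by norm_num)
  have k3 : b % 3 ≠ 0 := pb_nd h.cop (by norm_num) (by norm_num)
  have k5 : b % 5 = 1 ∨ b % 5 = 4 := by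
    rw [Nat.pow_mod] at h5
    have h6 : b % 5 < 5 := Nat.mod_lt _ (by norm_num)
    generalize b % 5 = r at h5 h6
    interval_cases r <;> simp_all
  have w2 : ∃ e : ℤ, (e = 1 ∨ e = -1) ∧
      ((if 1 ≡ b [MOD q 2] then 1 else 0) - (if 1 + b ≡ 0 [MOD q 2] then 1 else 0) : ℤ) = e ∧
      ((if 49 ≡ b [MOD q 2] then 1 else 0) - (if 49 + b ≡ 0 [MOD q 2] then 1 else 0) : ℤ) = e := by
    rcases (by omega : b % 4 = 1 ∨ b % 4 = 3) with h4 | h4
    · exact ⟨1, Or.inl rfl, pb_one h.two u2 (by omega), pb_one h.two v2 (by omega)⟩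
    · exact ⟨-1, Or.inr rfl, pb_neg h.two u2 (by omega), pb_neg h.two v2 (by omega)⟩
  have w3 : ∃ e : ℤ, (e = 1 ∨ e = -1) ∧
      ((if 1 ≡ b [MOD q 3] then 1 else 0) - (if 1 + b ≡ 0 [MOD q 3] then 1 else 0) : ℤ) = e ∧
      ((if 49 ≡ b [MOD q 3] then 1 else 0) - (if 49 + b ≡ 0 [MOD q 3] then 1 else 0) : ℤ) = e := by
    rcases (by omega : b % 3 = 1 ∨ b % 3 = 2) with h4 | h4
    · exact ⟨1, Or.inl rfl, pb_one h.three u3 (by omega), pb_one h.three v3 (by omega)⟩
    · exact ⟨-1, Or.inr rfl, pb_neg h.three u3 (by omega), pb_neg h.three v3 (by omega)⟩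
  have w5 : ∃ e : ℤ, (e = 1 ∨ e = -1) ∧
      ((if 1 ≡ b [MOD q 5] then 1 else 0) - (if 1 + b ≡ 0 [MOD q 5] then 1 else 0) : ℤ) = e ∧
      ((if 49 ≡ b [MOD q 5] then 1 else 0) - (if 49 + b ≡ 0 [MOD q 5] then 1 else 0) : ℤ) = -e := by
    rcases k5 with h4 | h4
    · exact ⟨1, Or.inl rfl, pb_one h.five u5 (by omega), pb_neg h.five v5 (by omega)⟩
    · refine ⟨-1, Or.inr rfl, pb_neg h.five u5 (by omega), ?_⟩
      rw [pb_one h.five v5 (by omega), neg_neg]
  obtain ⟨e2, f2, g2, g2'⟩ := w2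
  obtain ⟨e3, f3, g3, g3'⟩ := w3
  obtain ⟨e5, f5, g5, g5'⟩ := w5
  rw [pb_sgx, pb_sgx, g2, g2', g3, g3', g5, g5']
  constructor
  · have ho : ∀ e : ℤ, (e = 1 ∨ e = -1) → Odd e := by
      intro e he
      rcases he with he | he
      · rw [he]; exact odd_one
      · rw [he]; exact odd_neg_one
    exact (ho _ f2).mul ((ho _ f3).mul (ho _ f5))
  · ring

private theorem pb_off (q : ℕ → ℕ) (b : ℕ) (h : OkQ q b) (h5 : ¬ b ^ 2 % 5 = 1) :
    sgx {2, 3, 5} q b 1 = 0 ∧ sgx {2, 3, 5} q b 49 = 0 := by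
  have k : b % 5 ≠ 0 := pb_nd h.cop (by norm_num) (by norm_num)
  have k5 : b % 5 = 2 ∨ b % 5 = 3 := by
    rw [Nat.pow_mod] at h5
    have h6 : b % 5 < 5 := Nat.mod_lt _ (by norm_num)
    generalize b % 5 = r at h5 h6 k
    interval_cases r <;> simp_all
  constructor
  · rw [pb_sgx, pb_zero (g := 1) h.five (by omega) (by omega)]
    ring
  · rw [pb_sgx, pb_zero (g := 49) h.five (by omega) (by omega)]
    ring

private theorem pb_sum {α : Type} (E : Multiset α) (f : α → ℕ) (S : Finset ℕ) :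
    ∑ s ∈ S, (E.filter fun x => f x = s).card = (E.filter fun x => f x ∈ S).card := by
  induction E using Multiset.induction_on with
  | empty => simp
  | cons a E ih =>
    have h1 : ∀ s, ((a ::ₘ E).filter fun x => f x = s).card =
        (E.filter fun x => f x = s).card + if f a = s then 1 else 0 := by
      intro s
      by_cases h : f a = s
      · rw [Multiset.filter_cons_of_pos (p := fun x => f x = s) _ h, Multiset.card_cons,
          if_pos h]
      · rw [Multiset.filter_cons_of_neg (p := fun x => f x = s) _ h, if_neg h, add_zero]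
    simp only [h1, Finset.sum_add_distrib]
    rw [ih, Finset.sum_ite_eq]
    by_cases h : f a ∈ S
    · rw [if_pos h, Multiset.filter_cons_of_pos (p := fun x => f x ∈ S) _ h,
        Multiset.card_cons]
    · rw [if_neg h, Multiset.filter_cons_of_neg (p := fun x => f x ∈ S) _ h, add_zero]

private theorem pb_par {α : Type} (E : Multiset α) (f : α → ℤ) (P : α → Prop) [DecidablePred P]
    (h1 : ∀ x ∈ E, P x → Odd (f x)) (h2 : ∀ x ∈ E, ¬ P x → f x = 0) :
    Odd (E.map f).sum ↔ Odd (E.filter P).card := by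
  induction E using Multiset.induction_on with
  | empty => simp
  | cons a E ih =>
    have ih' := ih (fun x hx => h1 x (Multiset.mem_cons_of_mem hx))
      (fun x hx => h2 x (Multiset.mem_cons_of_mem hx))
    rw [Multiset.map_cons, Multiset.sum_cons]
    by_cases hP : P a
    · rw [Multiset.filter_cons_of_pos _ hP, Multiset.card_cons, Int.odd_add, Nat.odd_add_one,
        ← ih', ← Int.not_odd_iff_even]
      have := h1 a (Multiset.mem_cons_self a E) hP
      tauto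
    · rw [Multiset.filter_cons_of_neg _ hP, h2 a (Multiset.mem_cons_self a E) hP, zero_add, ih']

section

variable {α : Type} (E : Multiset α) (q : α → ℕ → ℕ) (b : α → ℕ)

open Classical in
theorem par_flip7 (hE : ∀ x ∈ E, OkQ (q x) (b x))
    (hodd : ∀ g : ℕ, g.Coprime 210 → Odd (E.filter fun x => PMx (q x) (b x) g).card)
    (hc : E.card ≤ 6) (c : α → ℤ) (hc1 : ∀ x ∈ E, Odd (c x))
    (hU : ∀ g : ℕ, g.Coprime 30 →
      (E.map fun x => c x * sgx {2, 3, 5} (q x) (b x) (7 * g)).sum =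
        (E.map fun x => c x * sgx {2, 3, 5} (q x) (b x) g).sum) : False := by
  obtain ⟨cl, hcl⟩ : ∃ cl : α → ℕ, ∀ x, cl x = (b x) ^ 2 % 35 := ⟨_, fun _ => rfl⟩
  have hle : ∀ g : ℕ, (E.filter fun x => PMx (q x) (b x) g) ≤
      E.filter fun x => cl x = g ^ 2 % 35 := by
    intro g
    have h1 : (E.filter fun x => PMx (q x) (b x) g) =
        E.filter fun x => PMx (q x) (b x) g ∧ cl x = g ^ 2 % 35 := by
      refine Multiset.filter_congr ?_
      intro x hx
      constructor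
      · intro h
        refine ⟨h, ?_⟩
        rw [hcl]
        have a5 := pb_sq (hE x hx).five (h 5 (by decide))
        have a7 := pb_sq (hE x hx).seven (h 7 (by decide))
        exact ((Nat.modEq_and_modEq_iff_modEq_mul (by norm_num : Nat.Coprime 5 7)).mp
          ⟨a5, a7⟩).symm
      · exact fun h => h.1
    rw [h1]
    exact Multiset.monotone_filter_right E (fun x h => h.2)
  have hpos : ∀ g s : ℕ, g.Coprime 210 → g ^ 2 % 35 = s →
      1 ≤ (E.filter fun x => cl x = s).card := by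
    rintro g s hg rfl
    have h1 := (hodd g hg).pos
    have h2 := Multiset.card_le_card (hle g)
    omega
  have n1 := hpos 1 1 (by norm_num) (by norm_num)
  have n4 := hpos 37 4 (by norm_num) (by norm_num)
  have n9 := hpos 73 9 (by norm_num) (by norm_num)
  have n11 := hpos 79 11 (by norm_num) (by norm_num)
  have n16 := hpos 31 16 (by norm_num) (by norm_num)
  have n29 := hpos 43 29 (by norm_num) (by norm_num)
  have hS := pb_sum E cl {1, 4, 9, 11, 16, 29}
  have hS2 := Multiset.card_le_card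
    (Multiset.filter_le (fun x => cl x ∈ ({1, 4, 9, 11, 16, 29} : Finset ℕ)) E)
  rw [← hS, Finset.sum_insert (by decide), Finset.sum_insert (by decide),
    Finset.sum_insert (by decide), Finset.sum_insert (by decide), Finset.sum_insert (by decide),
    Finset.sum_singleton] at hS2
  have m1 : (E.filter fun x => cl x = 1).card = 1 := by omega
  have m4 : (E.filter fun x => cl x = 4).card = 1 := by omega
  have m9 : (E.filter fun x => cl x = 9).card = 1 := by omega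
  have m11 : (E.filter fun x => cl x = 11).card = 1 := by omega
  have m16 : (E.filter fun x => cl x = 16).card = 1 := by omega
  have m29 : (E.filter fun x => cl x = 29).card = 1 := by omega
  have hcls : ∀ g : ℕ, g.Coprime 210 → g ^ 2 % 35 = 1 ∨ g ^ 2 % 35 = 4 ∨ g ^ 2 % 35 = 9 ∨
      g ^ 2 % 35 = 11 ∨ g ^ 2 % 35 = 16 ∨ g ^ 2 % 35 = 29 := by
    intro g hg
    have k5 : g % 5 ≠ 0 := pb_nd hg (by norm_num) (by norm_num)
    have k7 : g % 7 ≠ 0 := pb_nd hg (by norm_num) (by norm_num)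
    have l5 : (g % 35) % 5 ≠ 0 := by omega
    have l7 : (g % 35) % 7 ≠ 0 := by omega
    have h6 : g % 35 < 35 := Nat.mod_lt _ (by norm_num)
    rw [Nat.pow_mod]
    generalize g % 35 = r at l5 l7 h6
    revert l5 l7
    revert r
    decide
  have hcard : ∀ g : ℕ, g.Coprime 210 → (E.filter fun x => cl x = g ^ 2 % 35).card = 1 := by
    intro g hg
    rcases hcls g hg with h | h | h | h | h | h
    · rw [h]; exact m1
    · rw [h]; exact m4
    · rw [h]; exact m9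
    · rw [h]; exact m11
    · rw [h]; exact m16
    · rw [h]; exact m29
  have hkey : ∀ x ∈ E, ∀ g : ℕ, g.Coprime 210 → (b x) ^ 2 % 35 = g ^ 2 % 35 →
      PMx (q x) (b x) g := by
    intro x hx g hg h
    have h1 := (hodd g hg).pos
    have h2 := Multiset.eq_of_le_of_card_le (hle g) (by rw [hcard g hg]; omega)
    have h3 : x ∈ E.filter fun x => cl x = g ^ 2 % 35 :=
      Multiset.mem_filter.mpr ⟨hx, by rw [hcl]; exact h⟩
    rw [← h2] at h3
    exact (Multiset.mem_filter.mp h3).2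
  have hT := pb_sum E cl {1, 11, 16}
  rw [Finset.sum_insert (by decide), Finset.sum_insert (by decide), Finset.sum_singleton,
    m1, m11, m16] at hT
  have hT2 : (E.filter fun x => (b x) ^ 2 % 5 = 1) =
      E.filter fun x => cl x ∈ ({1, 11, 16} : Finset ℕ) := by
    refine Multiset.filter_congr ?_
    intro x hx
    have h1 := hcls (b x) (hE x hx).cop
    rw [hcl]
    have h2 : (b x) ^ 2 % 5 = ((b x) ^ 2 % 35) % 5 := by
      rw [Nat.mod_mod_of_dvd _ (by norm_num : 5 ∣ 35)]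
    rw [h2]
    rcases h1 with h | h | h | h | h | h <;> rw [h] <;> decide
  have hU1 : Odd (E.map fun x => c x * sgx {2, 3, 5} (q x) (b x) 1).sum := by
    rw [pb_par E (fun x => c x * sgx {2, 3, 5} (q x) (b x) 1) (fun x => (b x) ^ 2 % 5 = 1)
      (fun x hx h => (hc1 x hx).mul (pb_core (q x) (b x) (hE x hx) h (hkey x hx)).1)
      (fun x hx h => by
        show c x * sgx {2, 3, 5} (q x) (b x) 1 = 0
        rw [(pb_off (q x) (b x) (hE x hx) h).1, mul_zero]), hT2, ← hT]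
    decide
  have hU2 : (E.map fun x => c x * sgx {2, 3, 5} (q x) (b x) 49).sum =
      -(E.map fun x => c x * sgx {2, 3, 5} (q x) (b x) 1).sum := by
    rw [← Multiset.sum_map_neg]
    refine congrArg _ (Multiset.map_congr rfl ?_)
    intro x hx
    by_cases h : (b x) ^ 2 % 5 = 1
    · rw [(pb_core (q x) (b x) (hE x hx) h (hkey x hx)).2]
      ring
    · rw [(pb_off (q x) (b x) (hE x hx) h).1, (pb_off (q x) (b x) (hE x hx) h).2]
      ring
  have e1 := hU 1 (by norm_num)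
  have e7 := hU 7 (by norm_num)
  norm_num only at e1 e7
  rw [hU2, e1] at e7
  obtain ⟨k, hk⟩ := hU1
  omega

end

end Pool.Agent.FHD
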