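import Pool.Agent.FHD.ParA
import Pool.Agent.FHD.ParB
import Pool.Agent.FHD.CoreFlip
import Pool.Agent.FHD.CorePar
import Pool.Agent.SP.Dbl

/-!
# FHD-CoreZero: the elements of order divisible by `2, 3, 5, 7`

Plan. Assume that the conclusion is wrong. `core_par` with the element `(Y.map f).sum + b` (the
elements of `Y` with order `2` modulo `4` are rewritten: `f x = f (2 x) - f (x + m / 2)`, `f_half`,
both of odd order) gives the parity. `q x l = ordProj[l] (addOrderOf x)`, `lab x` satisfy `OkQ`.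
`par_six`: `6 ≤ E.card`.
1. Some `y₁ ∈ Y` has order divisible by `4, 5, 7`: otherwise the order of (the rewritten) elements of
   `Y` and `b` is not divisible by all of `2, 5, 7`; `core_flip` for `l₀ = 3` and `par_flip` with
   `c x = qq m 3 / ordProj[3] (addOrderOf x) > 0`.
2. Some `y₂ ∈ Y` has order divisible by `3, 5, 7`: `l₀ = 2`.
   `y₁` is not divisible by `3` and `y₂` not by `4`, so they are different, `E.card ≤ 6`.
3. Some `y₃ ∈ Y` has order divisible by `4, 3, 5`: `l₀ = 7`, `par_flip7` (`c x` is a power of `7`).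
   It is different from `y₁`, `y₂`; so `E.card ≤ 5`, a contradiction.
-/

set_option autoImplicit false

namespace Pool.Agent.FHD

open Finset Pool.Agent.FS
open Pool.Agent.Helper9.Fermat (fib mem_fib)

/-- the orders of the elements which are used for `y` -/
private theorem cz_mem {m : ℕ} [NeZero m] {A : Type} [AddCommGroup A] (D : Datum m A)
    (hm : 2 ∣ m) (y : ZMod m) :
    D.f y ∈ D.lev {n' | n' ∣ addOrderOf y ∧ (2 ∣ n' → 4 ∣ addOrderOf y)} := by
  by_cases h : SP.Reg y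
  · refine AddSubgroup.subset_closure ⟨y, ⟨dvd_rfl, fun h2 => ?_⟩, rfl⟩
    exact h.resolve_left (not_not.2 h2)
  · obtain ⟨y', z', hf, e₁, h1, h2, h3, h4⟩ := SP.dbl_one (A := A) hm y h
    rw [hf D]
    have hd : e₁ ∣ addOrderOf y := by rw [h2]; exact Dvd.intro_left 2 rfl
    refine add_mem
      (AddSubgroup.subset_closure ⟨y', ⟨by rw [h3]; exact hd, fun h5 => ?_⟩, rfl⟩)
      (AddSubgroup.subset_closure ⟨z', ⟨by rw [h4]; exact hd, fun h5 => ?_⟩, rfl⟩)
    · rw [h3] at h5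
      exact absurd h5 h1
    · rw [h4] at h5
      exact absurd h5 h1

private theorem cz_lev {m : ℕ} [NeZero m] {A : Type} [AddCommGroup A] (D : Datum m A)
    (hm : 2 ∣ m) (Y : Multiset (ZMod m)) (T : Finset ℕ) (L : Set ℕ)
    (hL : ∀ n' ∈ L, ∃ l ∈ T, ¬ l ∣ n')
    (hY : ∀ y ∈ Y, ∃ l ∈ T, ¬ hb l ∣ addOrderOf y) (b : A) (hb' : b ∈ D.lev L) :
    (Y.map D.f).sum + b ∈ D.lev {n' | ∃ l ∈ T, ¬ l ∣ n'} := by
  refine add_mem (AddSubgroup.multiset_sum_mem _ _ ?_)
    ((AddSubgroup.closure_mono ?_) hb')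
  · intro a ha
    obtain ⟨y, hy, rfl⟩ := Multiset.mem_map.1 ha
    obtain ⟨l, hl, hly⟩ := hY y hy
    refine (AddSubgroup.closure_mono ?_) (cz_mem D hm y)
    rintro a' ⟨z, ⟨h1, h2⟩, rfl⟩
    refine ⟨z, ⟨l, hl, fun h3 => ?_⟩, rfl⟩
    unfold hb at hly
    split_ifs at hly with h4
    · subst h4
      exact hly (h2 h3)
    · exact hly (h3.trans h1)
  · rintro a' ⟨z, h1, rfl⟩
    exact ⟨z, hL _ h1, rfl⟩

private theorem cz_pow {x l : ℕ} (h : l ∣ x) (hl : l.Prime) (hx : x ≠ 0) : l ∣ ordProj[l] x :=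
  dvd_pow_self l (hl.factorization_pos_of_dvd hx h).ne'

private theorem cz_okq {m : ℕ} [NeZero m] (x : ZMod m)
    (hx : (addOrderOf x).primeFactors = {2, 3, 5, 7} ∧ 4 ∣ addOrderOf x) :
    OkQ (fun l => ordProj[l] (addOrderOf x)) (lab x) := by
  have hx0 : addOrderOf x ≠ 0 := by
    intro h
    have h1 := hx.1
    rw [h, Nat.primeFactors_zero] at h1
    exact absurd h1 (by decide)
  have hdvd : ∀ l ∈ ({2, 3, 5, 7} : Finset ℕ), l ∣ addOrderOf x := by
    intro l hl
    rw [← hx.1] at hl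
    exact Nat.dvd_of_mem_primeFactors hl
  refine ⟨?_, fun l _ => ⟨_, rfl⟩, ?_, cz_pow (hdvd 3 (by decide)) (by norm_num) hx0,
    cz_pow (hdvd 5 (by decide)) (by norm_num) hx0, cz_pow (hdvd 7 (by decide)) (by norm_num) hx0⟩
  · have h1 : (lab x).Coprime (addOrderOf x) := lab_coprime x
    refine Nat.Coprime.coprime_dvd_right ?_ h1
    have e : (210 : ℕ) = 2 * (3 * (5 * 7)) := by norm_num
    rw [e]
    refine Nat.Coprime.mul_dvd_of_dvd_of_dvd (by norm_num) (hdvd 2 (by decide)) ?_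
    refine Nat.Coprime.mul_dvd_of_dvd_of_dvd (by norm_num) (hdvd 3 (by decide)) ?_
    exact Nat.Coprime.mul_dvd_of_dvd_of_dvd (by norm_num) (hdvd 5 (by decide)) (hdvd 7 (by decide))
  · show 4 ∣ ordProj[2] (addOrderOf x)
    have h1 : 2 ≤ (addOrderOf x).factorization 2 := by
      have := (Nat.Prime.pow_dvd_iff_le_factorization Nat.prime_two hx0 (k := 2)).1
        (by norm_num; exact hx.2)
      exact this
    exact (show (4 : ℕ) = 2 ^ 2 by norm_num) ▸ pow_dvd_pow 2 h1

theorem core_zero {m : ℕ} [NeZero m] {A : Type} [AddCommGroup A] (D : Datum m A) (hm : 4 ∣ m)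
    (E Y : Multiset (ZMod m))
    (hE : ∀ x ∈ E, (addOrderOf x).primeFactors = {2, 3, 5, 7} ∧ 4 ∣ addOrderOf x)
    (hY : ∀ x ∈ Y, (addOrderOf x).primeFactors ⊆ {2, 3, 5, 7} ∧
      ¬ ((addOrderOf x).primeFactors = {2, 3, 5, 7} ∧ 4 ∣ addOrderOf x))
    (hc : E.card + Y.card ≤ 8) (L : Set ℕ)
    (hL : ∀ n' ∈ L, (¬ 5 ∣ n') ∨ (¬ 7 ∣ n' ∧ (¬ 2 ∣ n' ∨ ¬ 3 ∣ n')) ∨ (¬ 2 ∣ n' ∧ ¬ 3 ∣ n'))
    (b : A) (hb : b ∈ D.lev L)
    (hW : ∀ t, D.W t ((E.map D.f).sum + ((Y.map D.f).sum + b)) = 0) :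
    (E.map D.f).sum ∈
      D.lev {n' | ∃ l ∈ ({2, 3, 5, 7} : Finset ℕ),
        n' = FQ.nR m (({2, 3, 5, 7} : Finset ℕ).erase l)} := by
  classical
  have hm2 : 2 ∣ m := (by norm_num : 2 ∣ 4).trans hm
  by_contra hno
  have hm0 : m ≠ 0 := NeZero.ne m
  have hx0 : ∀ x : ZMod m, addOrderOf x ≠ 0 := by
    intro x h
    have h1 := addOrderOf_dvd_card (x := x)
    rw [ZMod.card, h] at h1
    exact hm0 (Nat.eq_zero_of_zero_dvd h1)
  -- a set of primes which divide the order of an element of `Y`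
  have hfull : ∀ y ∈ Y, 2 ∣ addOrderOf y → 3 ∣ addOrderOf y → 5 ∣ addOrderOf y →
      7 ∣ addOrderOf y → ¬ 4 ∣ addOrderOf y := by
    intro y hy h2 h3 h5 h7 h4
    refine (hY y hy).2 ⟨(hY y hy).1.antisymm ?_, h4⟩
    intro l hl
    simp only [mem_insert, mem_singleton] at hl
    rcases hl with rfl | rfl | rfl | rfl
    · exact Nat.mem_primeFactors.2 ⟨by norm_num, h2, hx0 y⟩
    · exact Nat.mem_primeFactors.2 ⟨by norm_num, h3, hx0 y⟩
    · exact Nat.mem_primeFactors.2 ⟨by norm_num, h5, hx0 y⟩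
    · exact Nat.mem_primeFactors.2 ⟨by norm_num, h7, hx0 y⟩
  -- parity
  have hpar : ∀ g : ℕ, g.Coprime 210 →
      Odd (E.filter fun x => PMx (fun l => ordProj[l] (addOrderOf x)) (lab x) g).card := by
    intro g hg
    refine core_par D E hE {n' | ∃ l ∈ ({2, 3, 5, 7} : Finset ℕ), ¬ l ∣ n'} (fun n' h => h)
      _ (cz_lev D hm2 Y {2, 3, 5, 7} L ?_ ?_ b hb) hW hno g hg
    · intro n' hn'
      rcases hL n' hn' with h | ⟨h, _⟩ | ⟨h, _⟩
      · exact ⟨5, by decide, h⟩
      · exact ⟨7, by decide, h⟩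
      · exact ⟨2, by decide, h⟩
    · intro y hy
      by_contra hcon
      push Not at hcon
      have h2 := hcon 2 (by decide)
      have h3 := hcon 3 (by decide)
      have h5 := hcon 5 (by decide)
      have h7 := hcon 7 (by decide)
      unfold FS.hb at h2 h3 h5 h7
      norm_num at h2 h3 h5 h7
      exact hfull y hy ((by norm_num : 2 ∣ 4).trans h2) h3 h5 h7 h2
  have hOk : ∀ x ∈ E, OkQ (fun l => ordProj[l] (addOrderOf x)) (lab x) :=
    fun x hx => cz_okq x (hE x hx)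
  have h6 : 6 ≤ E.card := par_six E (fun x l => ordProj[l] (addOrderOf x)) lab hOk hpar
  have hflip := fun (l₀ : ℕ) (hl₀ : l₀ ∈ ({2, 3, 5, 7} : Finset ℕ))
      (h : ∀ y ∈ Y, ∃ l ∈ ({2, 3, 5, 7} : Finset ℕ).erase l₀, ¬ FS.hb l ∣ addOrderOf y)
      (h' : ∀ n' ∈ L, ∃ l ∈ ({2, 3, 5, 7} : Finset ℕ).erase l₀, ¬ l ∣ n') =>
    core_flip D E hE l₀ hl₀ {n' | ∃ l ∈ ({2, 3, 5, 7} : Finset ℕ).erase l₀, ¬ l ∣ n'}
      (fun n' h => h) _ (cz_lev D hm2 Y _ L h' h b hb) hW
  have hcpos : ∀ (l₀ : ℕ), l₀.Prime → ∀ x ∈ E,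
      0 < ((qq m l₀ / ordProj[l₀] (addOrderOf x) : ℕ) : ℤ) := by
    intro l₀ hl x hx
    have h1 : ordProj[l₀] (addOrderOf x) ∣ qq m l₀ := by
      have h1 := addOrderOf_dvd_card (x := x)
      rw [ZMod.card] at h1
      exact Nat.ordProj_dvd_ordProj_of_dvd hm0 h1 l₀
    have h2 : 0 < qq m l₀ := Nat.ordProj_pos m l₀
    exact_mod_cast Nat.div_pos (Nat.le_of_dvd h2 h1) (Nat.ordProj_pos _ _)
  -- step 1
  obtain ⟨y₁, hy₁, h14, h15, h17⟩ : ∃ y ∈ Y, 4 ∣ addOrderOf y ∧ 5 ∣ addOrderOf y ∧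
      7 ∣ addOrderOf y := by
    by_contra hcon
    push Not at hcon
    have hU := hflip 3 (by decide) (by
      intro y hy
      by_contra hc'
      push Not at hc'
      have h2 := hc' 2 (by decide)
      have h5 := hc' 5 (by decide)
      have h7 := hc' 7 (by decide)
      unfold FS.hb at h2 h5 h7
      norm_num at h2 h5 h7
      exact hcon y hy h2 h5 h7) (by
      intro n' hn'
      rcases hL n' hn' with h | ⟨h, _⟩ | ⟨h, _⟩
      · exact ⟨5, by decide, h⟩
      · exact ⟨7, by decide, h⟩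
      · exact ⟨2, by decide, h⟩)
    refine par_flip E (fun x l => ordProj[l] (addOrderOf x)) lab 3 2 (Or.inl ⟨rfl, rfl⟩) hOk hpar
      (by omega) (fun x => ((qq m 3 / ordProj[3] (addOrderOf x) : ℕ) : ℤ))
      (hcpos 3 (by norm_num)) ?_
    intro g hg
    have hT : ({2, 3, 5, 7} : Finset ℕ).erase 3 = {2, 5, 7} := by decide
    rw [hT] at hU
    refine hU g ?_
    intro l hl hlg
    have h1 : l ∣ 2 * 35 := by
      simp only [mem_insert, mem_singleton] at hl
      rcases hl with rfl | rfl | rfl <;> norm_num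
    have h2 := Nat.dvd_gcd hlg h1
    rw [hg] at h2
    have h3 := Nat.le_of_dvd one_pos h2
    simp only [mem_insert, mem_singleton] at hl
    omega
  -- step 2
  obtain ⟨y₂, hy₂, h23, h25, h27⟩ : ∃ y ∈ Y, 3 ∣ addOrderOf y ∧ 5 ∣ addOrderOf y ∧
      7 ∣ addOrderOf y := by
    by_contra hcon
    push Not at hcon
    have hU := hflip 2 (by decide) (by
      intro y hy
      by_contra hc'
      push Not at hc'
      have h3 := hc' 3 (by decide)
      have h5 := hc' 5 (by decide)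
      have h7 := hc' 7 (by decide)
      unfold FS.hb at h3 h5 h7
      norm_num at h3 h5 h7
      exact hcon y hy h3 h5 h7) (by
      intro n' hn'
      rcases hL n' hn' with h | ⟨h, _⟩ | ⟨_, h⟩
      · exact ⟨5, by decide, h⟩
      · exact ⟨7, by decide, h⟩
      · exact ⟨3, by decide, h⟩)
    refine par_flip E (fun x l => ordProj[l] (addOrderOf x)) lab 2 3 (Or.inr ⟨rfl, rfl⟩) hOk hpar
      (by omega) (fun x => ((qq m 2 / ordProj[2] (addOrderOf x) : ℕ) : ℤ))
      (hcpos 2 (by norm_num)) ?_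
    intro g hg
    have hT : ({2, 3, 5, 7} : Finset ℕ).erase 2 = {3, 5, 7} := by decide
    rw [hT] at hU
    refine hU g ?_
    intro l hl hlg
    have h1 : l ∣ 3 * 35 := by
      simp only [mem_insert, mem_singleton] at hl
      rcases hl with rfl | rfl | rfl <;> norm_num
    have h2 := Nat.dvd_gcd hlg h1
    rw [hg] at h2
    have h3 := Nat.le_of_dvd one_pos h2
    simp only [mem_insert, mem_singleton] at hl
    omega
  have h13 : ¬ 3 ∣ addOrderOf y₁ := fun h =>
    hfull y₁ hy₁ ((by norm_num : 2 ∣ 4).trans h14) h h15 h17 h14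
  have h24 : ¬ 4 ∣ addOrderOf y₂ := fun h =>
    hfull y₂ hy₂ ((by norm_num : 2 ∣ 4).trans h) h23 h25 h27 h
  have h12 : y₁ ≠ y₂ := by
    rintro rfl
    exact h13 h23
  have hY2 : 2 ≤ Y.card := by
    have h1 : ({y₁, y₂} : Finset (ZMod m)) ⊆ Y.toFinset := by
      intro y hy
      rw [mem_insert, mem_singleton] at hy
      rcases hy with rfl | rfl
      · exact Multiset.mem_toFinset.2 hy₁
      · exact Multiset.mem_toFinset.2 hy₂
    have h2 := card_le_card h1
    rw [card_pair h12] at h2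
    exact h2.trans (Multiset.toFinset_card_le Y)
  -- step 3
  obtain ⟨y₃, hy₃, h34, h33, h35⟩ : ∃ y ∈ Y, 4 ∣ addOrderOf y ∧ 3 ∣ addOrderOf y ∧
      5 ∣ addOrderOf y := by
    by_contra hcon
    push Not at hcon
    have hU := hflip 7 (by decide) (by
      intro y hy
      by_contra hc'
      push Not at hc'
      have h2 := hc' 2 (by decide)
      have h3 := hc' 3 (by decide)
      have h5 := hc' 5 (by decide)
      unfold FS.hb at h2 h3 h5
      norm_num at h2 h3 h5
      exact hcon y hy h2 h3 h5) (by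
      intro n' hn'
      rcases hL n' hn' with h | ⟨_, h | h⟩ | ⟨h, _⟩
      · exact ⟨5, by decide, h⟩
      · exact ⟨2, by decide, h⟩
      · exact ⟨3, by decide, h⟩
      · exact ⟨2, by decide, h⟩)
    refine par_flip7 E (fun x l => ordProj[l] (addOrderOf x)) lab hOk hpar
      (by omega) (fun x => ((qq m 7 / ordProj[7] (addOrderOf x) : ℕ) : ℤ)) ?_ ?_
    · intro x hx
      have h1 : ordProj[7] (addOrderOf x) ∣ qq m 7 := by
        have h1 := addOrderOf_dvd_card (x := x)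
        rw [ZMod.card] at h1
        exact Nat.ordProj_dvd_ordProj_of_dvd hm0 h1 7
      have h2 : Odd (qq m 7 / ordProj[7] (addOrderOf x)) := by
        have h3 : Odd (qq m 7) := Odd.pow (by decide)
        obtain ⟨c, hc'⟩ := h1
        rw [hc', Nat.mul_div_cancel_left _ (Nat.ordProj_pos _ _)]
        rw [hc'] at h3
        exact (Nat.odd_mul.1 h3).2
      exact_mod_cast h2
    intro g hg
    have hT : ({2, 3, 5, 7} : Finset ℕ).erase 7 = {2, 3, 5} := by decide
    rw [hT] at hU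
    refine hU g ?_
    intro l hl hlg
    have h1 : l ∣ 30 := by
      simp only [mem_insert, mem_singleton] at hl
      rcases hl with rfl | rfl | rfl <;> norm_num
    have h2 := Nat.dvd_gcd hlg h1
    rw [hg] at h2
    have h3 := Nat.le_of_dvd one_pos h2
    simp only [mem_insert, mem_singleton] at hl
    omega
  have h31 : y₃ ≠ y₁ := by
    rintro rfl
    exact h13 h33
  have h32 : y₃ ≠ y₂ := by
    rintro rfl
    exact h24 h34
  have hY3 : 3 ≤ Y.card := by
    have h1 : ({y₃, y₁, y₂} : Finset (ZMod m)) ⊆ Y.toFinset := by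
      intro y hy
      rw [mem_insert, mem_insert, mem_singleton] at hy
      rcases hy with rfl | rfl | rfl
      · exact Multiset.mem_toFinset.2 hy₃
      · exact Multiset.mem_toFinset.2 hy₁
      · exact Multiset.mem_toFinset.2 hy₂
    have h2 := card_le_card h1
    have h3 : ({y₃, y₁, y₂} : Finset (ZMod m)).card = 3 := by
      rw [card_insert_of_notMem (by rw [mem_insert, mem_singleton]; push Not; exact ⟨h31, h32⟩),
        card_pair h12]
    rw [h3] at h2
    exact h2.trans (Multiset.toFinset_card_le Y)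
  omega

end Pool.Agent.FHD
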