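import Pool.Agent.FS.RMain

/-!
# Hodge characters with few elements: definitions

`m` is the level, `r` a prime. The removal of the elements of a Hodge character whose order is
divisible by `r`, modulo the elements with allowed orders.
-/

set_option autoImplicit false

namespace Pool.Agent.FHD

open Finset Pool.Agent.FS
open Pool.Agent.Helper9.Fermat (fib mem_fib)

/-- Odd functions with the norm relations for the primes different from `r` at the unitary levels
divisible by `r`. -/
structure RFun (m r : ℕ) [NeZero m] {B : Type} [AddCommGroup B] (g : ZMod m → B) : Prop where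
  odd : ∀ x, g (-x) = - g x
  rel : ∀ n l : ℕ, Uni m n → r ∣ n → l.Prime → l ∣ n → l ≠ r → Rel g n l

/-- The universal `RDatum`, with the action of the units. -/
structure UDatum (m r : ℕ) [NeZero m] (U : Type) [AddCommGroup U] extends RDatum m r U where
  act : (ZMod m)ˣ → U →+ U
  act_F : ∀ (h : (ZMod m)ˣ) (x : ZMod m), act h (F x) = F ((h : ZMod m) * x)
  lift : ∀ (B : Type) [AddCommGroup B] (g : ZMod m → B), RFun m r g →
    ∃ φ : U →+ B, ∀ x, φ (F x) = g x

/-- the primes different from `r` which divide `n` -/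
def tps (n r : ℕ) : Finset ℕ := n.primeFactors.erase r

/-- the list of the primes different from `r` which divide `n` -/
noncomputable def lsr (n r : ℕ) : List ℕ := (tps n r).toList

/-- families of elements of the subgroups `Kl n l` -/
def KFam (n r : ℕ) (k : ℕ → (ZMod n)ˣ) : Prop := ∀ l ∈ tps n r, k l ∈ Kl n l

/-- the mixed differences of the odd part of `N` -/
noncomputable def md (n r : ℕ) (N : (ZMod n)ˣ → ℤ) (k : ℕ → (ZMod n)ˣ) (g : (ZMod n)ˣ) : ℤ :=
  difs ((lsr n r).map k) (fun g => N g - N (-1 * g)) g

/-- `a` is a sum of elements of order `n` with the coefficients `N` and of elements whose order is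
not divisible by `n`. -/
def Rep {m r : ℕ} [NeZero m] {U : Type} [AddCommGroup U] (R : RDatum m r U) (n : ℕ) [NeZero n]
    (a : U) (N : (ZMod n)ˣ → ℤ) : Prop :=
  ∃ b ∈ R.lev {n' | Uni m n' ∧ r ∣ n' ∧ ¬ n ∣ n'}, a = ∑ w : (ZMod n)ˣ, N w • R.F (emb m n w) + b

/-- The elements of order `n` can be removed from `a`. -/
def Kp {m r : ℕ} [NeZero m] {U : Type} [AddCommGroup U] (R : RDatum m r U) (n : ℕ) [NeZero n]
    (a : U) : Prop :=
  ∀ N : (ZMod n)ˣ → ℤ, Rep R n a N → ∀ k : ℕ → (ZMod n)ˣ, KFam n r k → ∀ g, md n r N k g = 0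

/-- The integral odd distributions which vanish on all elements whose order is not divisible by all
primes of `T`, and which are invariant for the primes outside of `T`: they are given by their
values on the elements of order divisible by the primes of `T` only. -/
structure Pure (m : ℕ) [NeZero m] (T : Finset ℕ) (Θ : ZMod m → ℤ) : Prop where
  dist : IsDist Θ
  odd : ∀ x, Θ (-x) = - Θ x
  supp : ∀ x, ∀ l ∈ T, ¬ l ∣ addOrderOf x → Θ x = 0
  red : ∀ l : ℕ, l.Prime → l ∉ T → ∀ x : ZMod m, l ∣ addOrderOf x →
    ((ordProj[l] (addOrderOf x)).totient : ℤ) * Θ x =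
      Θ (((ordProj[l] (addOrderOf x) : ℕ) : ZMod m) * x) -
        Θ (((ordProj[l] (addOrderOf x) / l : ℕ) : ZMod m) * (ide m l * x))

/-- the numerator of an element: `y` is `lab y / addOrderOf y` in `ℚ/ℤ` -/
noncomputable def lab {m : ℕ} (y : ZMod m) : ℕ := y.val / (m / addOrderOf y)

/-- the indicator function of the `l`-part of an element -/
noncomputable def Pl {m : ℕ} (y : ZMod m) (l g : ℕ) : ℤ :=
  if g ≡ lab y [MOD ordProj[l] (addOrderOf y)] then 1 else 0

/-- the value of the mixed difference on the indicator function of an element -/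
noncomputable def bp {m : ℕ} (y : ZMod m) {n : ℕ} (r : ℕ) (k : ℕ → (ZMod n)ˣ) (g : (ZMod n)ˣ) : ℤ :=
  ∏ l ∈ tps n r, (Pl y l (rr g) - Pl y l (rr (k l * g)))

/-- the value of the mixed difference on the odd part of the indicator function of an element -/
noncomputable def bv {m : ℕ} (y : ZMod m) {n : ℕ} (r : ℕ) (k : ℕ → (ZMod n)ˣ) (g : (ZMod n)ˣ) : ℤ :=
  bp y r k g - bp y r k (-1 * g)

open Classical in
/-- the number of elements of `T` whose order is divisible by all prime factors of `n` and is not
`2` modulo `4` -/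
noncomputable def cA {m : ℕ} (T : Multiset (ZMod m)) (n : ℕ) : ℕ :=
  (T.filter fun x => n.primeFactors ⊆ (addOrderOf x).primeFactors ∧ addOrderOf x % 4 ≠ 2).card

open Classical in
/-- the number of elements of `T` whose order is divisible by all prime factors of `n` and is
`2` modulo `4` -/
noncomputable def cB {m : ℕ} (T : Multiset (ZMod m)) (n : ℕ) : ℕ :=
  (T.filter fun x => n.primeFactors ⊆ (addOrderOf x).primeFactors ∧ addOrderOf x % 4 = 2).card

/-- The certificate inequality for the function `M` on the families of elements of `Kl n l` and the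
units: all integral combinations of the values of `M` are bounded by the bounds of the
corresponding combinations of the values `bv` on single elements. -/
def CIneq (m n r : ℕ) (M : (ℕ → (ZMod n)ˣ) → (ZMod n)ˣ → ℤ) (A B : ℕ) : Prop :=
  ∀ (ι : Type) (s : Finset ι) (c : ι → ℤ) (k : ι → ℕ → (ZMod n)ˣ) (g : ι → (ZMod n)ˣ)
    (C₁ C₂ : ℕ), (∀ i ∈ s, KFam n r (k i)) →
    (∀ y : ZMod m, (addOrderOf y).primeFactors = tps n r →
      |∑ i ∈ s, c i * bv y r (k i) (g i)| ≤ C₁) →
    (2 ∣ n ∨ ∀ y : ZMod m, (addOrderOf y).primeFactors = tps n r →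
      |∑ i ∈ s, c i * (bv (2 * y) r (k i) (g i) - bv y r (k i) (g i))| ≤ C₂) →
    ((r - 1 : ℕ) : ℤ) * |∑ i ∈ s, c i * M (k i) (g i)| ≤
      C₁ * A + (if 2 ∣ n then 0 else C₂ * B)

end Pool.Agent.FHD
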