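import Pool.Agent.FHD.Defs

/-!
# FHD-Dl: the functionals given by mixed differences

`dl ks g w` is the value at the basis element `w` of the functional which maps `F` to
`difs ks F g - difs ks F (-1 * g)`.

Everything is linear in the function.
-/

set_option autoImplicit false

namespace Pool.Agent.FHD

open Finset Pool.Agent.FS
open Pool.Agent.Helper9.Fermat (fib mem_fib)

/-- the coefficients of the functional `F ↦ difs ks F g - difs ks F (-1 * g)` -/
def dl {n : ℕ} (ks : List (ZMod n)ˣ) (g w : (ZMod n)ˣ) : ℤ :=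
  difs ks (fun v => if v = w then 1 else 0) g - difs ks (fun v => if v = w then 1 else 0) (-1 * g)

section

variable {n : ℕ} [NeZero n]

private theorem dl_sum {G ι : Type*} [CommGroup G] (s : Finset ι) (ks : List G) (φ : ι → G → ℤ) (t : G) :
    difs ks (fun v => ∑ i ∈ s, φ i v) t = ∑ i ∈ s, difs ks (φ i) t := by
  induction ks generalizing t with
  | nil => rfl
  | cons k ks ih =>
    rw [Mixed_difs_cons]
    simp only [Mixed_difs_cons, dif]
    rw [ih, ih, Finset.sum_sub_distrib]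

private theorem dl_delta (ks : List (ZMod n)ˣ) (w t : (ZMod n)ˣ) :
    difs ks (fun v => if v = -1 * w then (1 : ℤ) else 0) t =
      difs ks (fun v => if v = w then (1 : ℤ) else 0) (-1 * t) := by
  have h1 : (fun v : (ZMod n)ˣ => if v = -1 * w then (1 : ℤ) else 0) =
      fun v => (fun v => if v = w then (1 : ℤ) else 0) (v * -1) := by
    funext v
    have h2 : v = -1 * w ↔ v * -1 = w := by
      constructor
      · intro h
        rw [h, mul_comm, ← mul_assoc, neg_one_mul, neg_neg, one_mul]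
      · intro h
        rw [← h, mul_comm v, ← mul_assoc, neg_one_mul, neg_neg, one_mul]
    simp only [h2]
  have h3 := congrFun (RMixed_difs_shift (-1 : (ZMod n)ˣ) ks
    (fun v : (ZMod n)ˣ => if v = w then (1 : ℤ) else 0)) t
  rw [h1]
  refine h3.trans ?_
  rw [mul_comm t]

private theorem dl_pair0 (ks : List (ZMod n)ˣ) (g : (ZMod n)ˣ) (F : (ZMod n)ˣ → ℤ) :
    ∑ w : (ZMod n)ˣ, F w * difs ks (fun v => if v = w then 1 else 0) g = difs ks F g := by
  induction ks generalizing g with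
  | nil =>
    show ∑ w : (ZMod n)ˣ, F w * (if g = w then 1 else 0) = F g
    simp
  | cons k ks ih =>
    simp only [Mixed_difs_cons, dif, mul_sub]
    rw [Finset.sum_sub_distrib, ih, ih]

private theorem dl_fib (r : ℕ) (φ : (ZMod n)ˣ → ℤ) (x : (ZMod n)ˣ) :
    ∑ᶠ h : Kl n r, φ ((h : (ZMod n)ˣ) * x) =
      ∑ w ∈ univ.filter (fun w => ZMod.unitsMap (Nat.ordCompl_dvd n r) w =
        ZMod.unitsMap (Nat.ordCompl_dvd n r) x), φ w := by
  classical
  have : Fintype (Kl n r) := Fintype.ofFinite _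
  rw [finsum_eq_sum_of_fintype]
  refine Finset.sum_bij (fun (h : Kl n r) _ => (h : (ZMod n)ˣ) * x) ?_ ?_ ?_ ?_
  · intro h _
    rw [mem_filter]
    refine ⟨mem_univ _, ?_⟩
    have h1 : ZMod.unitsMap (Nat.ordCompl_dvd n r) (h : (ZMod n)ˣ) = 1 := h.2
    rw [map_mul, h1, one_mul]
  · intro a _ b _ hab
    exact Subtype.ext (mul_right_cancel hab)
  · intro w hw
    rw [mem_filter] at hw
    refine ⟨⟨w * x⁻¹, ?_⟩, mem_univ _, ?_⟩
    · show ZMod.unitsMap (Nat.ordCompl_dvd n r) (w * x⁻¹) = 1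
      rw [map_mul, hw.2, ← map_mul, mul_inv_cancel, map_one]
    · exact inv_mul_cancel_right w x
  · intro h _
    rfl

omit [NeZero n] in
private theorem dl_um_neg {d : ℕ} (h : d ∣ n) : ZMod.unitsMap h (-1) = -1 := by
  apply Units.ext
  rw [ZMod.unitsMap_def]
  simp

omit [NeZero n] in
private theorem dl_odd (ks : List (ZMod n)ˣ) (N : (ZMod n)ˣ → ℤ) (x : (ZMod n)ˣ) :
    difs ks (fun g => N g - N (-1 * g)) x = difs ks N x - difs ks N (-1 * x) := by
  have h1 : (fun g : (ZMod n)ˣ => N g - N (-1 * g)) = N + -(fun g => N (g * -1)) := by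
    funext g
    rw [Pi.add_apply, Pi.neg_apply, mul_comm (-1 : (ZMod n)ˣ) g, sub_eq_add_neg]
  rw [h1, Mixed_difs_add, Mixed_difs_neg, RMixed_difs_shift, Pi.add_apply, Pi.neg_apply, mul_comm x (-1), sub_eq_add_neg]

theorem dl_neg (ks : List (ZMod n)ˣ) (g w : (ZMod n)ˣ) : dl ks g (-1 * w) = - dl ks g w := by
  unfold dl
  have h0 : (-1 : (ZMod n)ˣ) * (-1 * g) = g := by
    rw [← mul_assoc, neg_one_mul, neg_neg, one_mul]
  rw [dl_delta, dl_delta, h0]
  ring

theorem dl_pair (ks : List (ZMod n)ˣ) (g : (ZMod n)ˣ) (F : (ZMod n)ˣ → ℤ) :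
    ∑ w : (ZMod n)ˣ, F w * dl ks g w = difs ks F g - difs ks F (-1 * g) := by
  unfold dl
  simp only [mul_sub]
  rw [Finset.sum_sub_distrib, dl_pair0, dl_pair0]

theorem dl_ker {l : ℕ} (ks : List (ZMod n)ˣ) (κ : (ZMod n)ˣ) (hκ : κ ∈ ks) (hl : κ ∈ Kl n l)
    (g w : (ZMod n)ˣ) : ∑ᶠ k : Kl n l, dl ks g ((k : (ZMod n)ˣ) * w) = 0 := by
  classical
  have : Fintype (Kl n l) := Fintype.ofFinite _
  rw [finsum_eq_sum_of_fintype]
  unfold dl
  rw [Finset.sum_sub_distrib]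
  have h1 : ∀ t, ∑ k : Kl n l, difs ks (fun v => if v = (k : (ZMod n)ˣ) * w then (1 : ℤ) else 0) t = 0 := by
    intro t
    rw [← dl_sum Finset.univ ks (fun (k : Kl n l) v => if v = (k : (ZMod n)ˣ) * w then (1 : ℤ) else 0) t]
    have h2 : dif κ (fun v => ∑ k : Kl n l, if v = (k : (ZMod n)ˣ) * w then (1 : ℤ) else 0) = 0 := by
      funext v
      show (∑ k : Kl n l, if v = (k : (ZMod n)ˣ) * w then (1 : ℤ) else 0) -
        (∑ k : Kl n l, if κ * v = (k : (ZMod n)ˣ) * w then (1 : ℤ) else 0) = 0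
      rw [sub_eq_zero]
      refine Fintype.sum_equiv (Equiv.mulLeft (⟨κ, hl⟩ : Kl n l)) _ _ fun k => ?_
      have h3 : v = (k : (ZMod n)ˣ) * w ↔ κ * v = ((Equiv.mulLeft (⟨κ, hl⟩ : Kl n l) k : Kl n l) : (ZMod n)ˣ) * w := by
        show _ ↔ κ * v = (κ * (k : (ZMod n)ˣ)) * w
        rw [mul_assoc]
        exact (mul_right_inj κ).symm
      simp only [h3]
    rw [Mixed_difs_kill hκ h2]
    rfl
  rw [h1, h1, sub_zero]

theorem dl_push {m : ℕ} [NeZero m] {r : ℕ} (hr : r.Prime) (hn : Uni m n) (hrn : r ∣ n)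
    (N : (ZMod n)ˣ → ℤ) (ks : List (ZMod n)ˣ) (g : (ZMod n)ˣ) :
    ∑ w : (ZMod n)ˣ, N w * dl (ks.map (ZMod.unitsMap (Nat.ordCompl_dvd n r)))
        (ZMod.unitsMap (Nat.ordCompl_dvd n r) g) (ZMod.unitsMap (Nat.ordCompl_dvd n r) w) =
      ∑ᶠ h : Kl n r, difs ks (fun g => N g - N (-1 * g)) ((h : (ZMod n)ˣ) * g) := by
  classical
  have hNZ : NeZero (ordCompl[r] n) := ⟨(Nat.ordCompl_pos r (NeZero.ne n)).ne'⟩
  have h1 : ∑ w : (ZMod n)ˣ, N w * dl (ks.map (ZMod.unitsMap (Nat.ordCompl_dvd n r)))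
      (ZMod.unitsMap (Nat.ordCompl_dvd n r) g) (ZMod.unitsMap (Nat.ordCompl_dvd n r) w) =
      ∑ v : (ZMod (ordCompl[r] n))ˣ, (∑ w ∈ univ.filter (fun w => ZMod.unitsMap (Nat.ordCompl_dvd n r) w = v), N w) *
        dl (ks.map (ZMod.unitsMap (Nat.ordCompl_dvd n r))) (ZMod.unitsMap (Nat.ordCompl_dvd n r) g) v := by
    rw [← Finset.sum_fiberwise (s := univ) (g := fun w => ZMod.unitsMap (Nat.ordCompl_dvd n r) w)]
    refine Finset.sum_congr rfl fun v _ => ?_
    rw [Finset.sum_mul]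
    refine Finset.sum_congr rfl fun w hw => ?_
    rw [(mem_filter.1 hw).2]
  rw [h1, dl_pair, RMixed_difs_push (ZMod.unitsMap (Nat.ordCompl_dvd n r)) ks N,
    RMixed_difs_push (ZMod.unitsMap (Nat.ordCompl_dvd n r)) ks N]
  have h2 : (-1 : (ZMod (ordCompl[r] n))ˣ) * ZMod.unitsMap (Nat.ordCompl_dvd n r) g =
      ZMod.unitsMap (Nat.ordCompl_dvd n r) (-1 * g) := by
    rw [map_mul, dl_um_neg]
  rw [h2, ← dl_fib, ← dl_fib]
  have h3 : Fintype (Kl n r) := Fintype.ofFinite _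
  rw [finsum_eq_sum_of_fintype, finsum_eq_sum_of_fintype, finsum_eq_sum_of_fintype, ← Finset.sum_sub_distrib]
  refine Finset.sum_congr rfl fun h _ => ?_
  rw [dl_odd, mul_left_comm (h : (ZMod n)ˣ) (-1) g]

end

end Pool.Agent.FHD
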