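import Pool.Agent.FHD.ThDefs
import Pool.Agent.FS.RLift

/-! # FHD-ThStep: extension to one more prime -/

set_option autoImplicit false

namespace Pool.Agent.FHD

open Finset Pool.Agent.FS
open Pool.Agent.Helper9.Fermat (fib mem_fib fib_card)

section

variable {m : ℕ} [NeZero m]

/-- the `l`-part of the order -/
private noncomputable def PP (l : ℕ) (x : ZMod m) : ℕ := ordProj[l] (addOrderOf x)

private theorem o_ne (x : ZMod m) : addOrderOf x ≠ 0 := (addOrderOf_pos x).ne'

private theorem o_dvd (c x : ZMod m) : addOrderOf (c * x) ∣ addOrderOf x := by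
  rw [addOrderOf_dvd_iff_nsmul_eq_zero, nsmul_eq_mul]
  have h1 : ((addOrderOf x : ℕ) : ZMod m) * x = 0 := by
    rw [← nsmul_eq_mul]
    exact addOrderOf_nsmul_eq_zero x
  rw [mul_left_comm, h1, mul_zero]

private theorem o_nsm (c : ℕ) (x : ZMod m) (hc : c ≠ 0) :
    addOrderOf ((c : ZMod m) * x) = addOrderOf x / (addOrderOf x).gcd c := by
  rw [← nsmul_eq_mul, addOrderOf_nsmul' x hc]

private theorem o_dvd_c {c : ℕ} {x : ZMod m} (h : c ∣ addOrderOf x) :
    addOrderOf ((c : ZMod m) * x) = addOrderOf x / c := by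
  have hc : c ≠ 0 := fun h0 => o_ne x (Nat.eq_zero_of_zero_dvd (h0 ▸ h))
  rw [o_nsm c x hc, Nat.gcd_eq_right h]

private theorem o_PP (l : ℕ) (x : ZMod m) : addOrderOf ((PP l x : ZMod m) * x) = ordCompl[l] (addOrderOf x) :=
  o_dvd_c (Nat.ordProj_dvd _ _)

private theorem cop_compl {l : ℕ} (hl : l.Prime) (x : ZMod m) (k : ℕ) : (ordCompl[l] (addOrderOf x)).Coprime (l ^ k) :=
  (Nat.Coprime.pow_left _ (Nat.coprime_ordCompl hl (o_ne x))).symm

private theorem PP_succ {l : ℕ} (hl : l.Prime) {x : ZMod m} (h : l ∣ addOrderOf x) : ∃ a, PP l x = l ^ (a + 1) ∧ PP l x / l = l ^ a := by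
  have h1 : 0 < (addOrderOf x).factorization l := hl.factorization_pos_of_dvd (o_ne x) h
  refine ⟨(addOrderOf x).factorization l - 1, ?_, ?_⟩
  · show l ^ _ = l ^ _
    congr 1
    omega
  · show l ^ _ / l = l ^ _
    obtain ⟨a, ha⟩ : ∃ a, (addOrderOf x).factorization l = a + 1 := ⟨(addOrderOf x).factorization l - 1, by omega⟩
    rw [ha, pow_succ, Nat.mul_div_cancel _ hl.pos]
    rfl

private theorem o_PPl {l : ℕ} (hl : l.Prime) {x : ZMod m} (h : l ∣ addOrderOf x) :
    addOrderOf (((PP l x / l : ℕ) : ZMod m) * (ide m l * x)) = ordCompl[l] (addOrderOf x) := by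
  obtain ⟨a, _, ha⟩ := PP_succ hl h
  rw [ha, RNorm_ord_nsmul, addOrderOf_ide_mul l hl]
  rw [addOrderOf_ide_mul l hl]
  exact cop_compl hl x a

private theorem not_dvd_compl {l : ℕ} (hl : l.Prime) (x : ZMod m) : ¬ l ∣ ordCompl[l] (addOrderOf x) :=
  Nat.not_dvd_ordCompl hl (o_ne x)

/-- the `l`-part of the part off `p` -/
private theorem proj_compl {l p : ℕ} (h : l ≠ p) (a : ℕ) : ordProj[l] (ordCompl[p] a) = ordProj[l] a := by
  rw [Nat.factorization_ordCompl, Finsupp.erase_ne h]

private theorem dvd_compl {l p : ℕ} (hl : l.Prime) (hp : p.Prime) (h : l ≠ p) {a : ℕ} (ha : a ≠ 0) :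
    l ∣ ordCompl[p] a ↔ l ∣ a := by
  constructor
  · intro h1
    exact h1.trans (Nat.ordCompl_dvd a p)
  · intro h1
    have h2 : l ∣ ordProj[p] a * ordCompl[p] a := by rwa [Nat.ordProj_mul_ordCompl_eq_self]
    rcases (Nat.Prime.dvd_mul hl).1 h2 with h3 | h3
    · have h4 := hl.dvd_of_dvd_pow h3
      exact absurd ((Nat.prime_dvd_prime_iff_eq hl hp).1 h4) h
    · exact h3

private theorem PP_dvd (l : ℕ) (x : ZMod m) : PP l x ∣ qq m l := RNorm_ordProj_dvd l x

/-- `φ(P) (q / P) = φ(q)` -/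
private theorem tot_PP {l : ℕ} (hl : l.Prime) (hlm : l ∣ m) {x : ZMod m} (h : l ∣ addOrderOf x) :
    ((PP l x).totient : ℤ) * ((qq m l / PP l x : ℕ) : ℤ) = ((qq m l).totient : ℤ) := by
  obtain ⟨a, ha, _⟩ := PP_succ hl h
  obtain ⟨b, hb, _⟩ := RNorm_qq_div (m := m) l hl hlm
  have h1 := PP_dvd l x
  rw [ha, hb] at h1
  have hab : a + 1 ≤ b + 1 := (Nat.pow_dvd_pow_iff_le_right hl.one_lt).1 h1
  rw [ha, hb]
  have h2 : l ^ (b + 1) / l ^ (a + 1) = l ^ (b - a) := by
    rw [Nat.pow_div hab hl.pos]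
    congr 1
    omega
  rw [h2, Nat.totient_prime_pow_succ hl, Nat.totient_prime_pow_succ hl]
  have h3 : l ^ b = l ^ a * l ^ (b - a) := by
    rw [← pow_add]
    congr 1
    omega
  rw [h3]
  push_cast
  ring

/-- the new function -/
private noncomputable def Th (l : ℕ) (Θ : ZMod m → ℤ) (x : ZMod m) : ℤ := by
  classical
  exact if l ∣ addOrderOf x then ((qq m l / PP l x : ℕ) : ℤ) *
    (Θ ((PP l x : ZMod m) * x) - Θ (((PP l x / l : ℕ) : ZMod m) * (ide m l * x))) else ((qq m l).totient : ℤ) * Θ x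

private theorem Th_pos {l : ℕ} {Θ : ZMod m → ℤ} {x : ZMod m} (h : l ∣ addOrderOf x) :
    Th l Θ x = ((qq m l / PP l x : ℕ) : ℤ) *
    (Θ ((PP l x : ZMod m) * x) - Θ (((PP l x / l : ℕ) : ZMod m) * (ide m l * x))) := by
  unfold Th
  rw [if_pos h]

private theorem Th_neg {l : ℕ} {Θ : ZMod m → ℤ} {x : ZMod m} (h : ¬ l ∣ addOrderOf x) :
    Th l Θ x = ((qq m l).totient : ℤ) * Θ x := by
  unfold Th
  rw [if_neg h]

private theorem Th_odd {l : ℕ} {Θ : ZMod m → ℤ} (ho : ∀ x, Θ (-x) = - Θ x) (x : ZMod m) :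
    Th l Θ (-x) = - Th l Θ x := by
  have h1 : addOrderOf (-x) = addOrderOf x := addOrderOf_neg x
  have h2 : PP l (-x) = PP l x := by
    unfold PP
    rw [h1]
  by_cases h : l ∣ addOrderOf x
  · rw [Th_pos h, Th_pos (by rwa [h1]), h2, mul_neg, ho, mul_neg, mul_neg, ho]
    ring
  · rw [Th_neg h, Th_neg (by rwa [h1]), ho]
    ring

/-- The fibres are permuted by a multiplication which is injective on the kernel. -/
private theorem sum_fib {p : ℕ} {c : ZMod m} (hc : ∀ w : ZMod m, (p : ZMod m) * w = 0 → c * w = 0 → w = 0)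
    (Θ : ZMod m → ℤ) (y : ZMod m) :
    ∑ z ∈ fib m p ((p : ZMod m) * y), Θ (c * z) = ∑ z ∈ fib m p ((p : ZMod m) * (c * y)), Θ z := by
  have hmap : ∀ z ∈ fib m p ((p : ZMod m) * y), c * z ∈ fib m p ((p : ZMod m) * (c * y)) := by
    intro z hz
    rw [mem_fib] at hz ⊢
    rw [mul_left_comm, hz]
    ring
  have hinj : ∀ z ∈ fib m p ((p : ZMod m) * y), ∀ z' ∈ fib m p ((p : ZMod m) * y), c * z = c * z' → z = z' := by
    intro z hz z' hz' h
    rw [mem_fib] at hz hz'
    have h1 : z - z' = 0 := by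
      apply hc
      · rw [mul_sub, hz, hz', sub_self]
      · rw [mul_sub, h, sub_self]
    exact sub_eq_zero.1 h1
  have hK : (univ.filter fun w : ZMod m => (p : ZMod m) * w = 0).image (fun w => c * w) =
      univ.filter fun w : ZMod m => (p : ZMod m) * w = 0 := by
    apply Finset.eq_of_subset_of_card_le
    · intro w hw
      obtain ⟨w', hw', rfl⟩ := Finset.mem_image.1 hw
      rw [Finset.mem_filter] at hw' ⊢
      refine ⟨Finset.mem_univ _, ?_⟩
      rw [mul_left_comm, hw'.2, mul_zero]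
    · rw [Finset.card_image_of_injOn]
      intro w hw w' hw' h
      rw [Finset.mem_coe, Finset.mem_filter] at hw hw'
      have h1 : w - w' = 0 := by
        apply hc
        · rw [mul_sub, hw.2, hw'.2, sub_self]
        · have h2 : c * w = c * w' := h
          rw [mul_sub, h2, sub_self]
      exact sub_eq_zero.1 h1
  refine Finset.sum_bij (fun z _ => c * z) hmap (fun z hz z' hz' h => hinj z hz z' hz' h) ?_ (fun z _ => rfl)
  intro z' hz'
  rw [mem_fib] at hz'
  have h1 : z' - c * y ∈ univ.filter fun w : ZMod m => (p : ZMod m) * w = 0 := by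
    rw [Finset.mem_filter]
    exact ⟨Finset.mem_univ _, by rw [mul_sub, hz', sub_self]⟩
  rw [← hK] at h1
  obtain ⟨w, hw, hw2⟩ := Finset.mem_image.1 h1
  rw [Finset.mem_filter] at hw
  refine ⟨y + w, ?_, ?_⟩
  · rw [mem_fib, mul_add, hw.2, add_zero]
  · show c * (y + w) = z'
    rw [mul_add, hw2]
    ring

/-- elements killed by two coprime numbers -/
private theorem eq_zero_of_two {a b : ℕ} (h : a.Coprime b) {w : ZMod m} (h1 : (a : ZMod m) * w = 0)
    (h2 : (b : ZMod m) * w = 0) : w = 0 := by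
  rw [← nsmul_eq_mul, ← addOrderOf_dvd_iff_nsmul_eq_zero] at h1 h2
  have h3 := Nat.eq_one_of_dvd_coprimes h h1 h2
  rwa [AddMonoid.addOrderOf_eq_one_iff] at h3

/-- the order of `l z` -/
private theorem o_mul_l {l : ℕ} {z : ZMod m} (h : l ∣ addOrderOf z) :
    addOrderOf z = l * addOrderOf ((l : ZMod m) * z) := by
  rw [o_dvd_c h, Nat.mul_div_cancel' h]

private theorem proj_of_not {l a : ℕ} (h : ¬ l ∣ a) : ordProj[l] a = 1 := by
  rw [Nat.factorization_eq_zero_of_not_dvd h, pow_zero]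

private theorem PP_mul_l {l : ℕ} (hl : l.Prime) {z : ZMod m} (h : l ∣ addOrderOf z) :
    PP l z = l * PP l ((l : ZMod m) * z) := by
  unfold PP
  conv_lhs => rw [o_mul_l h]
  rw [Nat.ordProj_mul l hl.ne_zero (o_ne _)]
  congr 1
  have h1 := Nat.ordProj_self_pow (k := 1) hl
  rwa [pow_one] at h1

/-- the `l`-part is not changed by a prime `p ≠ l` -/
private theorem PP_mul_p {l p : ℕ} (hl : l.Prime) (hp : p.Prime) (h : l ≠ p) (z : ZMod m) :
    PP l ((p : ZMod m) * z) = PP l z ∧ (l ∣ addOrderOf ((p : ZMod m) * z) ↔ l ∣ addOrderOf z) := by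
  by_cases h1 : p ∣ addOrderOf z
  · have h2 := o_mul_l h1
    have hlp : ¬ l ∣ p := fun h3 => h ((Nat.prime_dvd_prime_iff_eq hl hp).1 h3)
    constructor
    · unfold PP
      conv_rhs => rw [h2]
      rw [Nat.ordProj_mul l hp.ne_zero (o_ne _), proj_of_not hlp, one_mul]
    · constructor
      · intro h3
        rw [h2]
        exact h3.mul_left p
      · intro h3
        rw [h2] at h3
        exact ((Nat.Prime.dvd_mul hl).1 h3).resolve_left hlp
  · have h2 : addOrderOf ((p : ZMod m) * z) = addOrderOf z :=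
      RNorm_ord_nsmul z ((Nat.Prime.coprime_iff_not_dvd hp).2 h1).symm
    constructor
    · unfold PP
      rw [h2]
    · rw [h2]

private theorem dvd_of {n l : ℕ} (hl : l.Prime) {x : ZMod m} (h : addOrderOf x ∣ n * qq m l) (h' : ¬ l ∣ addOrderOf x) :
    addOrderOf x ∣ n := by
  refine Nat.Coprime.dvd_of_dvd_mul_right ?_ h
  exact Nat.Coprime.pow_right _ ((Nat.Prime.coprime_iff_not_dvd hl).2 h').symm

private theorem compl_dvd_of {n l : ℕ} (hl : l.Prime) {x : ZMod m} (h : addOrderOf x ∣ n * qq m l) :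
    ordCompl[l] (addOrderOf x) ∣ n := by
  refine Nat.Coprime.dvd_of_dvd_mul_right ?_ ((Nat.ordCompl_dvd _ l).trans h)
  exact cop_compl hl x _

/-- the distribution relation for the new prime -/
private theorem dist_l {l : ℕ} (hl : l.Prime) (hlm : l ∣ m) (Θ : ZMod m → ℤ) (y : ZMod m) :
    ∑ z ∈ fib m l ((l : ZMod m) * y), Th l Θ z = Th l Θ ((l : ZMod m) * y) := by
  have hcard := fib_card hl.pos hlm y
  have hlq : l ∣ qq m l := by
    obtain ⟨b, hb, _⟩ := RNorm_qq_div (m := m) l hl hlm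
    rw [hb, pow_succ]
    exact Dvd.intro_left _ rfl
  -- `ide z = ide y`
  have hid : ∀ z ∈ fib m l ((l : ZMod m) * y), ide m l * z = ide m l * y := by
    intro z hz
    rw [mem_fib] at hz
    apply RLift.ide_mul_of
    obtain ⟨c, hc⟩ := hlq
    rw [hc]
    push_cast
    linear_combination (c : ZMod m) * hz
  by_cases h : l ∣ addOrderOf ((l : ZMod m) * y)
  · -- all elements have the `l`-part `l P`
    set P := PP l ((l : ZMod m) * y) with hP
    have hz1 : ∀ z ∈ fib m l ((l : ZMod m) * y), Th l Θ z = ((qq m l / (l * P) : ℕ) : ℤ) *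
        (Θ ((P : ZMod m) * ((l : ZMod m) * y)) - Θ ((P : ZMod m) * (ide m l * y))) := by
      intro z hz
      have h1 := mem_fib.1 hz
      have h2 : l ∣ addOrderOf z := by
        rw [← h1] at h
        exact h.trans (o_dvd _ _)
      have h3 : PP l z = l * P := by
        rw [PP_mul_l hl h2, h1]
      rw [Th_pos h2, h3, Nat.mul_div_cancel_left _ hl.pos, hid z hz]
      congr 3
      push_cast
      rw [← h1]
      ring
    rw [Finset.sum_congr rfl hz1, Finset.sum_const, hcard, Th_pos h, ← hP, nsmul_eq_mul, ← mul_assoc]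
    have h4 : l * P ∣ qq m l := by
      have hy : y ∈ fib m l ((l : ZMod m) * y) := mem_fib.2 rfl
      have h2 : l ∣ addOrderOf y := h.trans (o_dvd _ _)
      have h3 : PP l y = l * P := PP_mul_l hl h2
      rw [← h3]
      exact PP_dvd l y
    have hPpos : 0 < P := Nat.pos_of_ne_zero (by
      rintro h0
      rw [h0, mul_zero] at h4
      have := RNorm_qq_pos (m := m) l
      rw [Nat.eq_zero_of_zero_dvd h4] at this
      exact lt_irrefl _ this)
    have h5 : ((l : ℕ) : ℤ) * ((qq m l / (l * P) : ℕ) : ℤ) = ((qq m l / P : ℕ) : ℤ) := by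
      rw [← Nat.cast_mul]
      congr 1
      obtain ⟨c, hc⟩ := h4
      rw [hc, Nat.mul_div_cancel_left _ (Nat.mul_pos hl.pos hPpos), mul_comm l P, mul_assoc,
        Nat.mul_div_cancel_left _ hPpos]
    rw [h5]
    congr 3
    -- `P v = (P / l) (ide (l y))`
    obtain ⟨a, ha, ha'⟩ := PP_succ hl h
    rw [← hP] at ha ha'
    have h6 : (P : ZMod m) = ((P / l : ℕ) : ZMod m) * (l : ZMod m) := by
      rw [← Nat.cast_mul, ha', ha, pow_succ]
    rw [h6]
    ring
  · -- one element of order prime to `l`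
    set z0 := ide m l * y with hz0
    have hz0f : z0 ∈ fib m l ((l : ZMod m) * y) := by
      rw [mem_fib, hz0]
      have h1 := ide_mul_eq_self (m := m) l hl _ h
      linear_combination h1
    have hz0o : ¬ l ∣ addOrderOf z0 := by
      rw [hz0, addOrderOf_ide_mul l hl]
      exact not_dvd_compl hl y
    have hrest : ∀ z ∈ (fib m l ((l : ZMod m) * y)).erase z0, Th l Θ z =
        ((qq m l / l : ℕ) : ℤ) * (Θ ((l : ZMod m) * y) - Θ z0) := by
      intro z hz
      rw [Finset.mem_erase] at hz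
      have h1 := mem_fib.1 hz.2
      have h2 : l ∣ addOrderOf z := by
        by_contra h3
        apply hz.1
        have h4 := ide_mul_eq_self (m := m) l hl _ h3
        rw [← h4, hid z hz.2]
      have h3 : PP l z = l := by
        rw [PP_mul_l hl h2, h1]
        unfold PP
        rw [proj_of_not h, mul_one]
      rw [Th_pos h2, h3, Nat.div_self hl.pos, Nat.cast_one, one_mul, hid z hz.2, h1]
    rw [← Finset.add_sum_erase _ _ hz0f, Finset.sum_congr rfl hrest, Finset.sum_const,
      Finset.card_erase_of_mem hz0f, hcard, Th_neg h, Th_neg hz0o, nsmul_eq_mul]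
    obtain ⟨b, hb, hb'⟩ := RNorm_qq_div (m := m) l hl hlm
    have h5 : ((qq m l).totient : ℤ) = ((l - 1 : ℕ) : ℤ) * ((qq m l / l : ℕ) : ℤ) := by
      rw [hb', hb, Nat.totient_prime_pow_succ hl]
      push_cast
      ring
    rw [h5]
    ring

/-- the distribution relation for the old primes -/
private theorem dist_p {n l p : ℕ} (hl : l.Prime) (hp : p.Prime) (hpn : p ∣ n) (hlp : l ≠ p)
    {Θ : ZMod m → ℤ} (hΘ : DistOn m n Θ) (y : ZMod m) (hy : addOrderOf ((p : ZMod m) * y) ∣ n * qq m l) :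
    ∑ z ∈ fib m p ((p : ZMod m) * y), Th l Θ z = Th l Θ ((p : ZMod m) * y) := by
  by_cases h : l ∣ addOrderOf ((p : ZMod m) * y)
  · set P := PP l ((p : ZMod m) * y) with hP
    have hz1 : ∀ z ∈ fib m p ((p : ZMod m) * y), Th l Θ z = ((qq m l / P : ℕ) : ℤ) *
        (Θ ((P : ZMod m) * z) - Θ ((((P / l : ℕ) : ZMod m) * ide m l) * z)) := by
      intro z hz
      have h1 := mem_fib.1 hz
      have h2 := PP_mul_p hl hp hlp z
      rw [h1] at h2
      rw [Th_pos (h2.2.1 h), ← h2.1, ← hP, mul_assoc]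
    rw [Finset.sum_congr rfl hz1, ← Finset.mul_sum, Finset.sum_sub_distrib]
    have hPl : ∃ a, P = l ^ (a + 1) ∧ P / l = l ^ a := PP_succ hl h
    obtain ⟨a, ha, ha'⟩ := hPl
    have hcop : ∀ k, (l ^ k).Coprime p := fun k =>
      Nat.Coprime.pow_left k ((Nat.coprime_primes hl hp).2 hlp)
    have e1 : ∑ z ∈ fib m p ((p : ZMod m) * y), Θ ((P : ZMod m) * z) = Θ ((p : ZMod m) * ((P : ZMod m) * y)) := by
      rw [sum_fib (c := (P : ZMod m)) (fun w hw hw' => eq_zero_of_two (by rw [ha]; exact hcop _) hw' hw)]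
      apply hΘ p hp hpn
      rw [mul_left_comm, hP, o_PP]
      exact compl_dvd_of hl hy
    have e2 : ∑ z ∈ fib m p ((p : ZMod m) * y), Θ ((((P / l : ℕ) : ZMod m) * ide m l) * z) =
        Θ ((p : ZMod m) * ((((P / l : ℕ) : ZMod m) * ide m l) * y)) := by
      rw [sum_fib (c := ((P / l : ℕ) : ZMod m) * ide m l)]
      · apply hΘ p hp hpn
        have h5 : (p : ZMod m) * ((((P / l : ℕ) : ZMod m) * ide m l) * y) =
            ((P / l : ℕ) : ZMod m) * (ide m l * ((p : ZMod m) * y)) := by ring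
        rw [h5, hP, o_PPl hl h]
        exact compl_dvd_of hl hy
      · intro w hw hw'
        have h6 : ¬ l ∣ addOrderOf w := by
          intro h7
          have h8 : addOrderOf w ∣ p := by
            rw [addOrderOf_dvd_iff_nsmul_eq_zero, nsmul_eq_mul, hw]
          exact hlp ((Nat.prime_dvd_prime_iff_eq hl hp).1 (h7.trans h8))
        rw [mul_assoc, ide_mul_eq_self l hl w h6] at hw'
        exact eq_zero_of_two (by rw [ha']; exact hcop _) hw' hw
    rw [e1, e2, Th_pos h, ← hP]
    congr 3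
    · ring
    · ring
  · have hz1 : ∀ z ∈ fib m p ((p : ZMod m) * y), Th l Θ z = ((qq m l).totient : ℤ) * Θ z := by
      intro z hz
      have h1 := mem_fib.1 hz
      have h2 := PP_mul_p hl hp hlp z
      rw [h1] at h2
      exact Th_neg fun h3 => h (h2.2.2 h3)
    rw [Finset.sum_congr rfl hz1, ← Finset.mul_sum, Th_neg h, hΘ p hp hpn y (dvd_of hl hy h)]

end

theorem theta_step {m : ℕ} [NeZero m] {n l : ℕ} (hn : Uni m n) (hl : l.Prime) (hlm : l ∣ m)
    (hln : ¬ l ∣ n) {T : Finset ℕ} (hT : ∀ p ∈ T, p.Prime ∧ p ∣ n) {Θ : ZMod m → ℤ}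
    (hΘ : PureOn m n T Θ) :
    ∃ Θ' : ZMod m → ℤ, PureOn m (n * qq m l) T Θ' ∧
      ∀ x, ¬ l ∣ addOrderOf x → Θ' x = ((qq m l).totient : ℤ) * Θ x := by
  refine ⟨Th l Θ, ⟨?_, Th_odd hΘ.odd, ?_, ?_⟩, fun x hx => Th_neg hx⟩
  · intro p hp hpn y hy
    by_cases hpl : p = l
    · subst hpl
      exact dist_l hp hlm Θ y
    · have hpn' : p ∣ n := by
        rcases (Nat.Prime.dvd_mul hp).1 hpn with h1 | h1
        · exact h1
        · exact absurd ((Nat.prime_dvd_prime_iff_eq hp hl).1 (hp.dvd_of_dvd_pow h1)) hpl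
      exact dist_p hl hp hpn' (Ne.symm hpl) hΘ.dist y hy
  · intro x p hp hpx
    have h0 : ∀ c : ZMod m, Θ (c * x) = 0 := fun c =>
      hΘ.supp _ p hp fun h => hpx (h.trans (o_dvd c x))
    by_cases h : l ∣ addOrderOf x
    · rw [Th_pos h, h0, ← mul_assoc, h0, sub_zero, mul_zero]
    · have h1 := h0 1
      rw [one_mul] at h1
      rw [Th_neg h, h1, mul_zero]
  · intro p hp hpT x hx hpx
    by_cases hpl : p = l
    · subst hpl
      have hx' : ((PP p x : ℕ) : ℤ) = ((ordProj[p] (addOrderOf x) : ℕ) : ℤ) := rfl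
      have h1 : ¬ p ∣ addOrderOf ((PP p x : ZMod m) * x) := by
        rw [o_PP]
        exact not_dvd_compl hp x
      have h2 : ¬ p ∣ addOrderOf (((PP p x / p : ℕ) : ZMod m) * (ide m p * x)) := by
        rw [o_PPl hp hpx]
        exact not_dvd_compl hp x
      show ((PP p x).totient : ℤ) * Th p Θ x = Th p Θ ((PP p x : ZMod m) * x) -
        Th p Θ (((PP p x / p : ℕ) : ZMod m) * (ide m p * x))
      rw [Th_neg h1, Th_neg h2, Th_pos hpx, ← mul_assoc, tot_PP hp hlm hpx]
      ring
    · show ((PP p x).totient : ℤ) * Th l Θ x = Th l Θ ((PP p x : ZMod m) * x) -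
        Th l Θ (((PP p x / p : ℕ) : ZMod m) * (ide m p * x))
      have hlp : l ≠ p := Ne.symm hpl
      by_cases h : l ∣ addOrderOf x
      · -- both elements have the same `l`-part
        have o1 : addOrderOf ((PP p x : ZMod m) * x) = ordCompl[p] (addOrderOf x) := o_PP p x
        have o2 : addOrderOf (((PP p x / p : ℕ) : ZMod m) * (ide m p * x)) = ordCompl[p] (addOrderOf x) :=
          o_PPl hp hpx
        have d1 : l ∣ ordCompl[p] (addOrderOf x) := (dvd_compl hl hp hlp (o_ne x)).2 h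
        have p1 : PP l ((PP p x : ZMod m) * x) = PP l x := by
          unfold PP at o1 ⊢
          rw [o1, proj_compl hlp]
        have p2 : PP l (((PP p x / p : ℕ) : ZMod m) * (ide m p * x)) = PP l x := by
          unfold PP at o2 ⊢
          rw [o2, proj_compl hlp]
        rw [Th_pos h, Th_pos (by rw [o1]; exact d1), Th_pos (by rw [o2]; exact d1), p1, p2]
        -- the relations for `Θ`
        set u := (PP l x : ZMod m) * x with hu
        set v := ((PP l x / l : ℕ) : ZMod m) * (ide m l * x) with hv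
        have ou : addOrderOf u = ordCompl[l] (addOrderOf x) := o_PP l x
        have ov : addOrderOf v = ordCompl[l] (addOrderOf x) := o_PPl hl h
        have dp : p ∣ ordCompl[l] (addOrderOf x) := (dvd_compl hp hl hpl (o_ne x)).2 hpx
        have cn : ordCompl[l] (addOrderOf x) ∣ n := compl_dvd_of hl hx
        have r1 := hΘ.red p hp hpT u (by rw [ou]; exact cn) (by rw [ou]; exact dp)
        have r2 := hΘ.red p hp hpT v (by rw [ov]; exact cn) (by rw [ov]; exact dp)
        rw [ou, proj_compl hpl] at r1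
        rw [ov, proj_compl hpl] at r2
        change ((PP p x).totient : ℤ) * Θ u = Θ ((PP p x : ZMod m) * u) -
          Θ (((PP p x / p : ℕ) : ZMod m) * (ide m p * u)) at r1
        change ((PP p x).totient : ℤ) * Θ v = Θ ((PP p x : ZMod m) * v) -
          Θ (((PP p x / p : ℕ) : ZMod m) * (ide m p * v)) at r2
        have a1 : (PP l x : ZMod m) * ((PP p x : ZMod m) * x) = (PP p x : ZMod m) * u := by
          rw [hu]
          ring
        have a2 : ((PP l x / l : ℕ) : ZMod m) * (ide m l * ((PP p x : ZMod m) * x)) = (PP p x : ZMod m) * v := by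
          rw [hv]
          ring
        have a3 : (PP l x : ZMod m) * (((PP p x / p : ℕ) : ZMod m) * (ide m p * x)) =
            ((PP p x / p : ℕ) : ZMod m) * (ide m p * u) := by
          rw [hu]
          ring
        have a4 : ((PP l x / l : ℕ) : ZMod m) * (ide m l * (((PP p x / p : ℕ) : ZMod m) * (ide m p * x))) =
            ((PP p x / p : ℕ) : ZMod m) * (ide m p * v) := by
          rw [hv]
          ring
        rw [a1, a2, a3, a4]
        linear_combination ((qq m l / PP l x : ℕ) : ℤ) * r1 - ((qq m l / PP l x : ℕ) : ℤ) * r2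
      · have h1 : ¬ l ∣ addOrderOf ((PP p x : ZMod m) * x) := fun h2 => h (h2.trans (o_dvd _ _))
        have h2 : ¬ l ∣ addOrderOf (((PP p x / p : ℕ) : ZMod m) * (ide m p * x)) := fun h2 =>
          h (h2.trans ((o_dvd _ _).trans (o_dvd _ _)))
        rw [Th_neg h, Th_neg h1, Th_neg h2]
        have r1 := hΘ.red p hp hpT x (dvd_of hl hx h) hpx
        change ((PP p x).totient : ℤ) * Θ x = Θ ((PP p x : ZMod m) * x) -
          Θ (((PP p x / p : ℕ) : ZMod m) * (ide m p * x)) at r1
        linear_combination ((qq m l).totient : ℤ) * r1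

end Pool.Agent.FHD
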