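import Pool.Agent.FHD.ThBase
import Pool.Agent.FHD.ThStep

/-!
# FHD-ThEx: pure distributions

Induction over the primes which divide `m` but not `n`.
-/

set_option autoImplicit false

namespace Pool.Agent.FHD

open Finset Pool.Agent.FS
open Pool.Agent.Helper9.Fermat (fib mem_fib)

private theorem te_dvd {m : ℕ} [NeZero m] {N l : ℕ} (hN : Uni m N) (hl : l.Prime) (hlN : l ∣ N) : qq m l ∣ N := by
  rw [← uni_ordProj hN hl hlN]
  exact Nat.ordProj_dvd N l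

private theorem te_uni {m : ℕ} [NeZero m] {N l : ℕ} (hN : Uni m N) (hl : l.Prime) (hlN : ¬ l ∣ N) :
    Uni m (N * qq m l) := by
  have hcop : Nat.Coprime N (qq m l) :=
    ((Nat.Prime.coprime_iff_not_dvd hl).2 hlN).symm.pow_right _
  have hd : N * qq m l ∣ m := hcop.mul_dvd_of_dvd_of_dvd hN.1 (Nat.ordProj_dvd m l)
  refine ⟨hd, unitary hd fun p hp hpN => ?_⟩
  rcases (Nat.Prime.dvd_mul hp).1 hpN with h | h
  · exact (te_dvd hN hp h).mul_right _
  · have hpl : p = l := (Nat.prime_dvd_prime_iff_eq hp hl).1 (hp.dvd_of_dvd_pow h)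
    rw [hpl]
    exact Dvd.intro_left _ rfl

private theorem te_main {m : ℕ} [NeZero m] {n : ℕ} [NeZero n] (hn : Uni m n) (φ : (ZMod n)ˣ → ℤ)
    (hodd : ∀ w, φ (-1 * w) = - φ w)
    (hker : ∀ l : ℕ, l.Prime → l ∣ n → ∀ w, ∑ᶠ k : Kl n l, φ ((k : (ZMod n)ˣ) * w) = 0) (s : Finset ℕ) :
    (∀ l ∈ s, l.Prime ∧ l ∣ m ∧ ¬ l ∣ n) → Uni m (n * ∏ l ∈ s, qq m l) ∧
    ∃ M : ℕ, 0 < M ∧ ∃ Θ : ZMod m → ℤ, PureOn m (n * ∏ l ∈ s, qq m l) n.primeFactors Θ ∧
      ∀ w : (ZMod n)ˣ, Θ (emb m n w) = M * φ w := by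
  classical
  have hn0 : n ≠ 0 := NeZero.ne n
  induction s using Finset.induction_on with
  | empty =>
    intro _
    rw [Finset.prod_empty, mul_one]
    refine ⟨hn, ?_⟩
    obtain ⟨Θ, h1, h2, h3, h4⟩ := theta_base hn φ hodd hker
    refine ⟨1, one_pos, Θ, ⟨h1, h2, h3, ?_⟩, fun w => ?_⟩
    · intro l hl hlT x hx hlx
      exact absurd (Nat.mem_primeFactors.2 ⟨hl, hlx.trans hx, hn0⟩) hlT
    · rw [h4, Nat.cast_one, one_mul]
  | insert l s hls ih =>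
    intro hs
    obtain ⟨hU, M, hM, Θ, hΘ, hv⟩ := ih fun p hp => hs p (Finset.mem_insert_of_mem hp)
    obtain ⟨hl, hlm, hln⟩ := hs l (Finset.mem_insert_self l s)
    have hlN : ¬ l ∣ n * ∏ p ∈ s, qq m p := by
      intro h
      rcases (Nat.Prime.dvd_mul hl).1 h with h1 | h1
      · exact hln h1
      · obtain ⟨p, hp, hlp⟩ := (hl.prime.dvd_finsetProd_iff _).1 h1
        have hpp := (hs p (Finset.mem_insert_of_mem hp)).1
        have hlp' : l = p := (Nat.prime_dvd_prime_iff_eq hl hpp).1 (hl.dvd_of_dvd_pow hlp)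
        rw [hlp'] at hls
        exact hls hp
    have he : n * ∏ p ∈ insert l s, qq m p = (n * ∏ p ∈ s, qq m p) * qq m l := by
      rw [Finset.prod_insert hls]
      ring
    rw [he]
    refine ⟨te_uni hU hl hlN, ?_⟩
    obtain ⟨Θ', h1, h2⟩ := theta_step hU hl hlm hlN (T := n.primeFactors)
      (fun p hp => ⟨Nat.prime_of_mem_primeFactors hp, (Nat.dvd_of_mem_primeFactors hp).mul_right _⟩) hΘ
    refine ⟨(qq m l).totient * M, Nat.mul_pos (Nat.totient_pos.2 (Nat.pow_pos hl.pos)) hM, Θ', h1, fun w => ?_⟩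
    have h3 : addOrderOf (emb m n (w : ZMod n)) = n := (exists_emb hn.1 _).2 ⟨w, rfl⟩
    rw [h2 _ (by rw [h3]; exact hln), hv]
    push_cast
    ring

theorem exists_theta {m : ℕ} [NeZero m] {n : ℕ} [NeZero n] (hn : Uni m n) (φ : (ZMod n)ˣ → ℤ)
    (hodd : ∀ w, φ (-1 * w) = - φ w)
    (hker : ∀ l : ℕ, l.Prime → l ∣ n → ∀ w, ∑ᶠ k : Kl n l, φ ((k : (ZMod n)ˣ) * w) = 0) :
    ∃ M : ℕ, 0 < M ∧ ∃ Θ : ZMod m → ℤ, Pure m n.primeFactors Θ ∧
      ∀ w : (ZMod n)ˣ, Θ (emb m n w) = M * φ w := by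
  classical
  have hm0 : m ≠ 0 := NeZero.ne m
  set s : Finset ℕ := m.primeFactors.filter fun l => ¬ l ∣ n with hs
  obtain ⟨hU, M, hM, Θ, hΘ, hv⟩ := te_main hn φ hodd hker s fun l hl => by
    rw [hs, Finset.mem_filter] at hl
    exact ⟨Nat.prime_of_mem_primeFactors hl.1, Nat.dvd_of_mem_primeFactors hl.1, hl.2⟩
  have hN : n * ∏ l ∈ s, qq m l = m := by
    refine Nat.dvd_antisymm hU.1 ?_
    rw [Nat.dvd_iff_prime_pow_dvd_dvd]
    intro p k hp hpk
    rcases Nat.eq_zero_or_pos k with hk | hk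
    · rw [hk, pow_zero]
      exact one_dvd _
    · have hpm : p ∣ m := (dvd_pow_self p hk.ne').trans hpk
      have hpq : p ^ k ∣ qq m p := pow_dvd_pow p ((hp.pow_dvd_iff_le_factorization hm0).1 hpk)
      refine hpq.trans ?_
      by_cases hpn : p ∣ n
      · exact (te_dvd hn hp hpn).mul_right _
      · refine Dvd.dvd.mul_left (Finset.dvd_prod_of_mem (fun l => qq m l) ?_) _
        rw [hs, Finset.mem_filter]
        exact ⟨Nat.mem_primeFactors.2 ⟨hp, hpm, hm0⟩, hpn⟩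
  rw [hN] at hΘ
  have hord : ∀ x : ZMod m, addOrderOf x ∣ m := by
    intro x
    have := addOrderOf_dvd_card (x := x)
    rwa [ZMod.card] at this
  exact ⟨M, hM, Θ, ⟨fun l hl hlm y => hΘ.dist l hl hlm y (hord _), hΘ.odd, hΘ.supp,
    fun l hl hlT x hlx => hΘ.red l hl hlT x (hord x) hlx⟩, hv⟩

end Pool.Agent.FHD
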