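import Pool.Agent.FHD.Dl
import Pool.Agent.FHD.Prod
import Pool.Agent.FHD.ThEx

/-!
# FHD-ExCert: the certificate for a combination of mixed differences

Plan. Let `n₁ = ordCompl[r] n` (unitary, `n₁.primeFactors = tps n r`), `π` the reduction of units
and `φ w = ∑ i ∈ s, c i * dl (((lsr n r).map (k i)).map π) (π (g i)) w`. `exists_theta` for `n₁` and
`φ` (`dl_neg`, `dl_ker`: `π (k i l) ∈ Kl n₁ l`). If `(addOrderOf y).primeFactors = tps n r`:
`dist_exact` and `dl_pair` give `Θ y = M * ∑ i, c i * (difs .. I (π g) - difs .. I (-1 * π g))`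
with `I v = if rr v ≡ lab y [MOD addOrderOf y] then 1 else 0` on the units modulo `n₁`; pull back to
the units modulo `n` (`Mixed_difs_comp`, `rr (π v) ≡ rr v [MOD n₁]`, `addOrderOf y ∣ n₁`) and use
`difs_ind`. Last part: `al m r * emb m n w = emb m n₁ (π w)` (`RNorm_al`, `RMixed_qq_mul_emb`) and
`dl_push`.
-/

set_option autoImplicit false

namespace Pool.Agent.FHD

open Finset Pool.Agent.FS
open Pool.Agent.Helper9.Fermat (fib mem_fib)

private theorem ec_pf {n r : ℕ} [NeZero n] (hr : r.Prime) : (ordCompl[r] n).primeFactors = tps n r := by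
  unfold tps
  have hn0 : n ≠ 0 := NeZero.ne n
  ext l
  rw [Nat.mem_primeFactors, Finset.mem_erase, Nat.mem_primeFactors]
  have h3 := Nat.ordProj_mul_ordCompl_eq_self n r
  constructor
  · rintro ⟨hl, h1, -⟩
    refine ⟨?_, hl, h1.trans (Nat.ordCompl_dvd n r), hn0⟩
    rintro rfl
    exact Nat.not_dvd_ordCompl hl hn0 h1
  · rintro ⟨hlr, hl, h1, -⟩
    refine ⟨hl, ?_, (Nat.ordCompl_pos r hn0).ne'⟩
    rw [← h3] at h1
    rcases (Nat.Prime.dvd_mul hl).mp h1 with h | h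
    · exact absurd ((Nat.prime_dvd_prime_iff_eq hl hr).mp (hl.dvd_of_dvd_pow h)) hlr
    · exact h

private theorem ec_upl {m : ℕ} [NeZero m] {n : ℕ} (hn : Uni m n) {e : ℕ}
    (hpf : e.primeFactors = n.primeFactors) : upl m e = n := by
  have hm0 : m ≠ 0 := NeZero.ne m
  have hn0 : n ≠ 0 := fun h => hm0 (Nat.eq_zero_of_zero_dvd (h ▸ hn.1))
  unfold upl
  rw [hpf]
  have h1 : ∀ l ∈ n.primeFactors, qq m l = l ^ n.factorization l := by
    intro l hl
    rw [Nat.mem_primeFactors] at hl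
    exact (uni_ordProj hn hl.1 hl.2.1).symm
  rw [prod_congr rfl h1]
  conv_rhs => rw [← Nat.prod_factorization_pow_eq_self hn0]
  rw [Finsupp.prod, Nat.support_factorization]

private theorem ec_dvd {m : ℕ} [NeZero m] {n : ℕ} (hn : Uni m n) (y : ZMod m)
    (hy : (addOrderOf y).primeFactors = n.primeFactors) : addOrderOf y ∣ n := by
  have h1 := (upl_uni (RUp_order_dvd y)).2.1
  rw [ec_upl hn hy] at h1
  exact h1

private theorem ec_Kl {n r l : ℕ} {k : (ZMod n)ˣ} (hk : k ∈ Kl n l) :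
    ZMod.unitsMap (Nat.ordCompl_dvd n r) k ∈ Kl (ordCompl[r] n) l := by
  have hk1 : ZMod.unitsMap (Nat.ordCompl_dvd n l) k = 1 := hk
  have hd : ordCompl[l] (ordCompl[r] n) ∣ ordCompl[l] n :=
    Nat.ordCompl_dvd_ordCompl_of_dvd (Nat.ordCompl_dvd n r) l
  show ZMod.unitsMap (Nat.ordCompl_dvd (ordCompl[r] n) l) (ZMod.unitsMap (Nat.ordCompl_dvd n r) k) = 1
  have h1 : ZMod.unitsMap (Nat.ordCompl_dvd (ordCompl[r] n) l) (ZMod.unitsMap (Nat.ordCompl_dvd n r) k) =
      ZMod.unitsMap hd (ZMod.unitsMap (Nat.ordCompl_dvd n l) k) := by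
    rw [← MonoidHom.comp_apply, ← MonoidHom.comp_apply, ZMod.unitsMap_comp, ZMod.unitsMap_comp]
  rw [h1, hk1, map_one]

private theorem ec_neg {n d : ℕ} (h : d ∣ n) (g : (ZMod n)ˣ) :
    ZMod.unitsMap h (-1 * g) = -1 * ZMod.unitsMap h g := by
  rw [map_mul]
  congr 1
  apply Units.ext
  rw [ZMod.unitsMap_val, Units.val_neg, Units.val_one, Units.val_neg, Units.val_one,
    ZMod.cast_neg h, ZMod.cast_one h]

private theorem ec_rr {n d : ℕ} [NeZero n] [NeZero d] (h : d ∣ n) (g : (ZMod n)ˣ) :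
    rr (ZMod.unitsMap h g) ≡ rr g [MOD d] := by
  rw [← ZMod.natCast_eq_natCast_iff, rr, ZMod.natCast_zmod_val, ZMod.unitsMap_val, rr, ZMod.natCast_val]

private theorem ec_finsum {n l : ℕ} [NeZero n] {ι : Type} (s : Finset ι) (c : ι → ℤ) (f : ι → (ZMod n)ˣ → ℤ)
    (h : ∀ i ∈ s, ∀ w, ∑ᶠ k : Kl n l, f i ((k : (ZMod n)ˣ) * w) = 0) (w : (ZMod n)ˣ) :
    ∑ᶠ k : Kl n l, ∑ i ∈ s, c i * f i ((k : (ZMod n)ˣ) * w) = 0 := by
  have := Fintype.ofFinite (Kl n l)
  rw [finsum_eq_sum_of_fintype, Finset.sum_comm]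
  refine Finset.sum_eq_zero fun i hi => ?_
  rw [← Finset.mul_sum, ← finsum_eq_sum_of_fintype, h i hi w, mul_zero]

theorem exists_cert {m n r : ℕ} [NeZero m] [NeZero n] (hr : r.Prime) (hn : Uni m n)
    (hrn : r ∣ n) {ι : Type} (s : Finset ι) (c : ι → ℤ) (k : ι → ℕ → (ZMod n)ˣ)
    (g : ι → (ZMod n)ˣ) (hk : ∀ i ∈ s, KFam n r (k i)) :
    ∃ M : ℕ, 0 < M ∧ ∃ Θ : ZMod m → ℤ, Pure m (tps n r) Θ ∧
      (∀ y : ZMod m, (addOrderOf y).primeFactors = tps n r →
        Θ y = M * ∑ i ∈ s, c i * bv y r (k i) (g i)) ∧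
      ∀ N : (ZMod n)ˣ → ℤ, ∑ w : (ZMod n)ˣ, N w * Θ (al m r * emb m n w) =
        M * ∑ i ∈ s, c i * ∑ᶠ h : Kl n r, md n r N (k i) ((h : (ZMod n)ˣ) * g i) := by
  have hn0 : n ≠ 0 := NeZero.ne n
  have : NeZero (ordCompl[r] n) := ⟨(Nat.ordCompl_pos r hn0).ne'⟩
  have hn1 : Uni m (ordCompl[r] n) := uni_ordCompl hn hr
  have hpf : (ordCompl[r] n).primeFactors = tps n r := ec_pf hr
  obtain ⟨M, hM, Θ, hΘ, hΘv⟩ := exists_theta hn1
    (fun w => ∑ i ∈ s, c i * dl (((lsr n r).map (k i)).map (ZMod.unitsMap (Nat.ordCompl_dvd n r)))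
      (ZMod.unitsMap (Nat.ordCompl_dvd n r) (g i)) w)
    (by
      intro w
      rw [← Finset.sum_neg_distrib]
      refine Finset.sum_congr rfl fun i _ => ?_
      rw [dl_neg, mul_neg])
    (by
      intro l hl hln w
      have hlt : l ∈ tps n r := by
        rw [← hpf, Nat.mem_primeFactors]
        exact ⟨hl, hln, NeZero.ne _⟩
      refine ec_finsum s c _ (fun i hi w => ?_) w
      refine dl_ker _ (ZMod.unitsMap (Nat.ordCompl_dvd n r) (k i l)) ?_ (ec_Kl (hk i hi l hlt)) _ w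
      refine List.mem_map_of_mem (List.mem_map_of_mem ?_)
      unfold lsr
      exact Finset.mem_toList.2 hlt)
  rw [hpf] at hΘ
  refine ⟨M, hM, Θ, hΘ, ?_, ?_⟩
  · intro y hy
    have hy' : (addOrderOf y).primeFactors = (ordCompl[r] n).primeFactors := by rw [hy, hpf]
    have hed : addOrderOf y ∣ ordCompl[r] n := ec_dvd hn1 y hy'
    rw [dist_exact hΘ.dist hn1 y hy']
    have h1 : ∀ w : (ZMod (ordCompl[r] n))ˣ,
        (if rr w ≡ lab y [MOD addOrderOf y] then Θ (emb m (ordCompl[r] n) w) else 0) =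
        ∑ i ∈ s, M * (c i * ((if rr w ≡ lab y [MOD addOrderOf y] then (1 : ℤ) else 0) *
          dl (((lsr n r).map (k i)).map (ZMod.unitsMap (Nat.ordCompl_dvd n r)))
            (ZMod.unitsMap (Nat.ordCompl_dvd n r) (g i)) w)) := by
      intro w
      rw [hΘv]
      split_ifs
      · rw [Finset.mul_sum]
        exact Finset.sum_congr rfl fun i _ => by rw [one_mul]
      · symm
        exact Finset.sum_eq_zero fun i _ => by rw [zero_mul, mul_zero, mul_zero]
    rw [Finset.sum_congr rfl fun w _ => h1 w, Finset.sum_comm, Finset.mul_sum]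
    refine Finset.sum_congr rfl fun i hi => ?_
    rw [← Finset.mul_sum, ← Finset.mul_sum, dl_pair]
    congr 2
    have hI : (fun t : (ZMod n)ˣ => (if rr (ZMod.unitsMap (Nat.ordCompl_dvd n r) t) ≡ lab y
        [MOD addOrderOf y] then (1 : ℤ) else 0)) =
        fun t => if rr t ≡ lab y [MOD addOrderOf y] then (1 : ℤ) else 0 := by
      funext t
      have h2 := (ec_rr (Nat.ordCompl_dvd n r) t).of_dvd hed
      by_cases h3 : rr t ≡ lab y [MOD addOrderOf y]
      · rw [if_pos h3, if_pos (h2.trans h3)]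
      · rw [if_neg h3, if_neg fun h4 => h3 (h2.symm.trans h4)]
    have h2 : ∀ v : (ZMod n)ˣ, difs (((lsr n r).map (k i)).map (ZMod.unitsMap (Nat.ordCompl_dvd n r)))
        (fun w => if rr w ≡ lab y [MOD addOrderOf y] then (1 : ℤ) else 0)
        (ZMod.unitsMap (Nat.ordCompl_dvd n r) v) = bp y r (k i) v := by
      intro v
      have h3 := congrFun (Mixed_difs_comp (ZMod.unitsMap (Nat.ordCompl_dvd n r)) ((lsr n r).map (k i))
        (fun w => if rr w ≡ lab y [MOD addOrderOf y] then (1 : ℤ) else 0)) v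
      rw [← h3, hI]
      exact difs_ind hr hn hrn (k i) (hk i hi) v y hy
    rw [← ec_neg, h2, h2]
    rfl
  · intro N
    have h1 : ∀ w : (ZMod n)ˣ, N w * Θ (al m r * emb m n w) = ∑ i ∈ s, M * (c i * (N w *
        dl (((lsr n r).map (k i)).map (ZMod.unitsMap (Nat.ordCompl_dvd n r)))
          (ZMod.unitsMap (Nat.ordCompl_dvd n r) (g i)) (ZMod.unitsMap (Nat.ordCompl_dvd n r) w))) := by
      intro w
      rw [RNorm_al r hr, RMixed_qq_mul_emb hr hn hrn w, hΘv, Finset.mul_sum, Finset.mul_sum]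
      exact Finset.sum_congr rfl fun i _ => by ring
    rw [Finset.sum_congr rfl fun w _ => h1 w, Finset.sum_comm, Finset.mul_sum]
    refine Finset.sum_congr rfl fun i _ => ?_
    rw [← Finset.mul_sum, ← Finset.mul_sum, dl_push hr hn hrn N ((lsr n r).map (k i)) (g i)]
    rfl

end Pool.Agent.FHD
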