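import Pool.Agent.FHD.Defs

/-!
# FHD-Exact: an element as a sum of elements of unitary order

Plan. `Up_sum`: `g y = ∑ w ∈ Up y, g w`, `Up y = {w | (upl / e) * w = y}`, `e = addOrderOf y`,
`upl m e = n` (both are unitary with the same prime factors). `y = (m / e) * lab y` (`lab_spec`),
`emb m n w = (m / n) * w`, so `(n / e) * emb m n w = (m / e) * rr w`, which is `y` if and only if
`rr w ≡ lab y [MOD e]`. All elements of `Up y` have order `n` (`Up_order`), so they are of the form
`emb m n w` (`exists_emb`).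
-/

set_option autoImplicit false

namespace Pool.Agent.FHD

open Finset Pool.Agent.FS
open Pool.Agent.Helper9.Fermat (fib mem_fib)

section

variable {m : ℕ} [NeZero m]

/-- the numerator: `c = m / e` -/
private theorem ex_div {e : ℕ} (he : e ∣ m) : 0 < m / e ∧ m = e * (m / e) ∧ e ≠ 0 := by
  have hm0 : m ≠ 0 := NeZero.ne m
  have he0 : e ≠ 0 := fun h => hm0 (Nat.eq_zero_of_zero_dvd (h ▸ he))
  exact ⟨Nat.div_pos (Nat.le_of_dvd (Nat.pos_of_ne_zero hm0) he) (Nat.pos_of_ne_zero he0),
    (Nat.mul_div_cancel' he).symm, he0⟩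

private theorem ex_val (y : ZMod m) : y.val = m / addOrderOf y * lab y := by
  obtain ⟨hc, hmc, he0⟩ := ex_div (RUp_order_dvd y)
  have h1 : ((addOrderOf y * y.val : ℕ) : ZMod m) = 0 := by
    have h2 := addOrderOf_nsmul_eq_zero y
    rw [nsmul_eq_mul] at h2
    rw [Nat.cast_mul, ZMod.natCast_zmod_val]
    exact h2
  rw [ZMod.natCast_eq_zero_iff] at h1
  have h3 : addOrderOf y * (m / addOrderOf y) ∣ addOrderOf y * y.val := by
    rw [← hmc]
    exact h1
  have h4 : m / addOrderOf y ∣ y.val := Nat.dvd_of_mul_dvd_mul_left (Nat.pos_of_ne_zero he0) h3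
  unfold lab
  exact (Nat.mul_div_cancel' h4).symm

private theorem ex_cancel {e a b : ℕ} (he : e ∣ m) :
    ((m / e * a : ℕ) : ZMod m) = ((m / e * b : ℕ) : ZMod m) ↔ a ≡ b [MOD e] := by
  obtain ⟨hc, hmc, he0⟩ := ex_div he
  rw [ZMod.natCast_eq_natCast_iff]
  constructor
  · intro h
    have h1 : m / e * a ≡ m / e * b [MOD m / e * e] := by
      rw [mul_comm (m / e) e, ← hmc]
      exact h
    exact Nat.ModEq.mul_left_cancel' hc.ne' h1
  · intro h
    have h1 := Nat.ModEq.mul_left' (m / e) h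
    rw [mul_comm (m / e) e, ← hmc] at h1
    exact h1

private theorem ex_order {e a : ℕ} (he : e ∣ m) :
    addOrderOf ((m / e * a : ℕ) : ZMod m) = e / e.gcd a := by
  obtain ⟨hc, hmc, he0⟩ := ex_div he
  have hm0 : m ≠ 0 := NeZero.ne m
  rw [ZMod.addOrderOf_coe _ hm0]
  have h1 : m.gcd (m / e * a) = m / e * e.gcd a := by
    have h2 : m.gcd (m / e * a) = (m / e * e).gcd (m / e * a) := by
      rw [mul_comm (m / e) e, ← hmc]
    rw [h2, Nat.gcd_mul_left]
  rw [h1]
  have h3 : m / (m / e * e.gcd a) = (m / e * e) / (m / e * e.gcd a) := by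
    rw [mul_comm (m / e) e, ← hmc]
  rw [h3, Nat.mul_div_mul_left _ _ hc]

theorem lab_spec (y : ZMod m) : y = ((m / addOrderOf y * lab y : ℕ) : ZMod m) := by
  rw [← ex_val y, ZMod.natCast_zmod_val]

theorem lab_coprime (y : ZMod m) : (lab y).Coprime (addOrderOf y) := by
  obtain ⟨hc, hmc, he0⟩ := ex_div (RUp_order_dvd y)
  have h1 := ex_order (a := lab y) (RUp_order_dvd y)
  rw [← lab_spec y] at h1
  have h2 : (addOrderOf y).gcd (lab y) ∣ addOrderOf y := Nat.gcd_dvd_left _ _
  have h3 : addOrderOf y * (addOrderOf y).gcd (lab y) = addOrderOf y * 1 := by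
    conv_rhs => rw [mul_one, ← Nat.div_mul_cancel h2, ← h1]
  have h4 := Nat.eq_of_mul_eq_mul_left (Nat.pos_of_ne_zero he0) h3
  rw [Nat.coprime_comm]
  exact h4

/-- the label is determined by this -/
theorem lab_of (y : ZMod m) (a : ℕ) (h : y = ((m / addOrderOf y * a : ℕ) : ZMod m)) :
    a ≡ lab y [MOD addOrderOf y] := by
  apply (ex_cancel (RUp_order_dvd y)).1
  rw [← h]
  exact lab_spec y

private theorem ex_gen (y : ZMod m) {e a : ℕ} (he : e ∣ m) (hco : a.Coprime e)
    (h : y = ((m / e * a : ℕ) : ZMod m)) : addOrderOf y = e ∧ lab y ≡ a [MOD e] := by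
  have h1 : addOrderOf y = e := by
    rw [h, ex_order he, (Nat.coprime_comm.1 hco : e.gcd a = 1), Nat.div_one]
  refine ⟨h1, ?_⟩
  have h2 := lab_of y a (by rw [h1]; exact h)
  rw [h1] at h2
  exact h2.symm

theorem lab_unit_mul (t : (ZMod m)ˣ) (y : ZMod m) :
    lab ((t : ZMod m) * y) ≡ (t : ZMod m).val * lab y [MOD addOrderOf y] := by
  have h1 := RUp_addOrderOf_unit_mul t y
  have h2 := lab_of ((t : ZMod m) * y) ((t : ZMod m).val * lab y) (by
    rw [h1]
    conv_lhs => rw [lab_spec y]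
    rw [Nat.cast_mul, Nat.cast_mul, Nat.cast_mul, ZMod.natCast_zmod_val]
    ring)
  rw [h1] at h2
  exact h2.symm

/-- multiplication by a divisor of the order -/
theorem lab_mul_dvd (y : ZMod m) (d : ℕ) (hd : d ∣ addOrderOf y) :
    addOrderOf ((d : ZMod m) * y) = addOrderOf y / d ∧
      lab ((d : ZMod m) * y) ≡ lab y [MOD addOrderOf y / d] := by
  obtain ⟨hc, hmc, he0⟩ := ex_div (RUp_order_dvd y)
  obtain ⟨f, hf⟩ := hd
  have hd0 : 0 < d := Nat.pos_of_ne_zero (by rintro rfl; rw [zero_mul] at hf; exact he0 hf)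
  have hfd : addOrderOf y / d = f := by
    rw [hf]
    exact Nat.mul_div_cancel_left f hd0
  have hf0 : 0 < f := Nat.pos_of_ne_zero (by rintro rfl; rw [mul_zero] at hf; exact he0 hf)
  rw [hfd]
  have hfm : f ∣ m := (Dvd.intro_left d hf.symm).trans (RUp_order_dvd y)
  have hmf : m / f = d * (m / addOrderOf y) := by
    apply Nat.div_eq_of_eq_mul_left hf0
    calc m = addOrderOf y * (m / addOrderOf y) := hmc
      _ = d * f * (m / addOrderOf y) := by rw [← hf]
      _ = d * (m / addOrderOf y) * f := by ring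
  apply ex_gen _ hfm
  · exact (lab_coprime y).coprime_dvd_right (Dvd.intro_left d hf.symm)
  · rw [hmf]
    conv_lhs => rw [lab_spec y]
    push_cast
    ring

/-- multiplication by a number prime to the order -/
theorem lab_mul_coprime (y : ZMod m) (d : ℕ) (hd : d.Coprime (addOrderOf y)) :
    addOrderOf ((d : ZMod m) * y) = addOrderOf y ∧
      lab ((d : ZMod m) * y) ≡ d * lab y [MOD addOrderOf y] := by
  apply ex_gen _ (RUp_order_dvd y)
  · exact Nat.Coprime.mul_left hd (lab_coprime y)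
  · conv_lhs => rw [lab_spec y]
    push_cast
    ring

private theorem ex_upl {n : ℕ} (hn : Uni m n) {e : ℕ}
    (hpf : e.primeFactors = n.primeFactors) : upl m e = n := by
  have hm0 : m ≠ 0 := NeZero.ne m
  have hn0 : n ≠ 0 := fun h => hm0 (Nat.eq_zero_of_zero_dvd (h ▸ hn.1))
  unfold upl
  rw [hpf]
  have h1 : ∀ l ∈ n.primeFactors, qq m l = l ^ n.factorization l := by
    intro l hl
    rw [Nat.mem_primeFactors] at hl
    exact (uni_ordProj hn hl.1 hl.2.1).symm
  rw [prod_congr rfl h1]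
  conv_rhs => rw [← Nat.prod_factorization_pow_eq_self hn0]
  rw [Finsupp.prod, Nat.support_factorization]

open Classical in
private theorem ex_key {n : ℕ} [NeZero n] (hn : Uni m n) (y : ZMod m)
    (hy : (addOrderOf y).primeFactors = n.primeFactors) {B : Type} [AddCommGroup B]
    (g : ZMod m → B) :
    ∑ w : (ZMod n)ˣ, (if emb m n (w : ZMod n) ∈ Up y then g (emb m n (w : ZMod n)) else 0) =
      ∑ z ∈ Up y, g z := by
  rw [← sum_filter]
  refine sum_bij (fun w _ => emb m n (w : ZMod n)) ?_ ?_ ?_ ?_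
  · intro w hw
    exact (mem_filter.1 hw).2
  · intro w _ w' _ h
    exact Units.ext (emb_inj hn.1 h)
  · intro z hz
    have h1 : addOrderOf z = n := by
      rw [Up_order y z hz]
      exact ex_upl hn hy
    obtain ⟨w, hw⟩ := (exists_emb hn.1 z).1 h1
    exact ⟨w, mem_filter.2 ⟨mem_univ _, hw ▸ hz⟩, hw.symm⟩
  · intro w _
    rfl

private theorem ex_iff {n : ℕ} [NeZero n] (hn : Uni m n) (y : ZMod m)
    (hy : (addOrderOf y).primeFactors = n.primeFactors) (w : (ZMod n)ˣ) :
    emb m n (w : ZMod n) ∈ Up y ↔ rr w ≡ lab y [MOD addOrderOf y] := by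
  rw [RUp_mem, ex_upl hn hy]
  have hen : addOrderOf y ∣ n := by
    have h1 := (upl_uni (RUp_order_dvd y)).2.1
    rw [ex_upl hn hy] at h1
    exact h1
  obtain ⟨f, hf⟩ := hen
  obtain ⟨hc, hmc, he0⟩ := ex_div (RUp_order_dvd y)
  obtain ⟨hcn, hmn, hn0⟩ := ex_div hn.1
  have h2 : n / addOrderOf y = f := by
    conv_lhs => rw [hf]
    exact Nat.mul_div_cancel_left f (Nat.pos_of_ne_zero he0)
  have h3 : m / addOrderOf y = f * (m / n) := by
    apply Nat.div_eq_of_eq_mul_left (Nat.pos_of_ne_zero he0)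
    calc m = n * (m / n) := hmn
      _ = addOrderOf y * f * (m / n) := by rw [← hf]
      _ = f * (m / n) * addOrderOf y := by ring
  rw [h2]
  have h4 : (f : ZMod m) * emb m n (w : ZMod n) = ((m / addOrderOf y * rr w : ℕ) : ZMod m) := by
    rw [h3]
    unfold emb rr
    push_cast
    ring
  rw [h4]
  constructor
  · intro h
    apply (ex_cancel (RUp_order_dvd y)).1
    rw [h]
    exact lab_spec y
  · intro h
    rw [(ex_cancel (RUp_order_dvd y)).2 h]
    exact (lab_spec y).symm

theorem dist_exact {B : Type} [AddCommGroup B] {g : ZMod m → B} (hg : IsDist g) {n : ℕ}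
    [NeZero n] (hn : Uni m n) (y : ZMod m) (hy : (addOrderOf y).primeFactors = n.primeFactors) :
    g y = ∑ w : (ZMod n)ˣ, if rr w ≡ lab y [MOD addOrderOf y] then g (emb m n w) else 0 := by
  classical
  rw [← Up_sum hg y, ← ex_key hn y hy g]
  refine sum_congr rfl fun w _ => ?_
  by_cases h : rr w ≡ lab y [MOD addOrderOf y]
  · rw [if_pos h, if_pos ((ex_iff hn y hy w).2 h)]
  · rw [if_neg h, if_neg (fun h1 => h ((ex_iff hn y hy w).1 h1))]

end

end Pool.Agent.FHD
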