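import Pool.Agent.FHD.Defs

/-!
# FHD-InvAct: invariance of the part divisible by `r`

As in the proof of `remove_prime`.
-/

set_option autoImplicit false

namespace Pool.Agent.FHD

open Finset Pool.Agent.FS
open Pool.Agent.Helper9.Fermat (fib mem_fib)

section

variable {m r : ℕ} [NeZero m] {U : Type} [AddCommGroup U]

private theorem ia_up (hr : r.Prime) {T : Multiset (ZMod m)} (hT : ∀ x ∈ T, r ∣ addOrderOf x) :
    ∀ x ∈ T, ∀ w ∈ Up x, Uni m (addOrderOf w) ∧ r ∣ addOrderOf w := by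
  have _ := hr
  intro x hx w hw
  have hxm : addOrderOf x ∣ m := by
    have := addOrderOf_dvd_card (x := x)
    rwa [ZMod.card] at this
  obtain ⟨h1, h2, _⟩ := upl_uni hxm
  rw [Up_order x w hw]
  exact ⟨h1, (hT x hx).trans h2⟩

private theorem ia_ord (h : (ZMod m)ˣ) (w : ZMod m) : addOrderOf ((h : ZMod m) * w) = addOrderOf w := by
  refine Nat.dvd_antisymm ?_ ?_
  · rw [addOrderOf_dvd_iff_nsmul_eq_zero, nsmul_eq_mul, mul_left_comm, ← nsmul_eq_mul _ w,
      addOrderOf_nsmul_eq_zero, mul_zero]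
  · rw [addOrderOf_dvd_iff_nsmul_eq_zero, nsmul_eq_mul]
    have h1 := addOrderOf_nsmul_eq_zero ((h : ZMod m) * w)
    rw [nsmul_eq_mul, mul_left_comm] at h1
    exact (Units.mul_right_eq_zero h).1 h1

theorem GG_mem_lev (hr : r.Prime) (R : RDatum m r U) (T : Multiset (ZMod m))
    (hT : ∀ x ∈ T, r ∣ addOrderOf x) : GG T R.F ∈ R.lev {n | Uni m n ∧ r ∣ n} :=
  GG_mem T _ _ fun x hx w hw => AddSubgroup.subset_closure ⟨_, ia_up hr hT x hx w hw, rfl⟩

theorem inv_GG (hr : r.Prime) (hr3 : 3 ≤ r) (R : RDatum m r U) (S : Multiset (ZMod m))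
    (hW : ∀ t : (ZMod m)ˣ, (S.map fun x => sw ((t : ZMod m) * x)).sum = 0) (h : (ZMod m)ˣ)
    (hh : h ∈ Kl m r) :
    GG (S.filter fun x => r ∣ addOrderOf x) (fun w => R.F ((h : ZMod m) * w)) =
      GG (S.filter fun x => r ∣ addOrderOf x) R.F := by
  set T := S.filter fun x => r ∣ addOrderOf x with hT
  have hTr : ∀ x ∈ T, r ∣ addOrderOf x := fun x hx => (Multiset.mem_filter.1 hx).2
  have hUp := ia_up hr hTr
  have hsplit : ∀ t : (ZMod m)ˣ, (T.map fun x => sw ((t : ZMod m) * x)).sum +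
      ((S.filter fun x => ¬ r ∣ addOrderOf x).map fun x => sw ((t : ZMod m) * x)).sum = 0 := by
    intro t
    rw [← Multiset.sum_add, ← Multiset.map_add, Multiset.filter_add_not, hW t]
  have hK : ∀ t h : (ZMod m)ˣ, h ∈ Kl m r → (T.map fun x => sw (((t * h : (ZMod m)ˣ) : ZMod m) * x)).sum =
      (T.map fun x => sw ((t : ZMod m) * x)).sum := by
    intro t h hh
    have h1 := hsplit (t * h)
    have h2 := hsplit t
    have h3 : ((S.filter fun x => ¬ r ∣ addOrderOf x).map
        fun x => sw (((t * h : (ZMod m)ˣ) : ZMod m) * x)) =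
        ((S.filter fun x => ¬ r ∣ addOrderOf x).map fun x => sw ((t : ZMod m) * x)) := by
      refine Multiset.map_congr rfl fun x hx => ?_
      have hx2 := (Multiset.mem_filter.1 hx).2
      have h4 := Kl_mul_ide r hr h hh x
      rw [ide_mul_eq_self r hr x hx2] at h4
      rw [Units.val_mul, mul_assoc, h4]
    rw [h3] at h1
    linarith
  rw [← sub_eq_zero]
  refine R.inj hr hr3 _ (sub_mem ?_ ?_) ?_ ?_
  · refine GG_mem T _ _ fun x hx w hw => AddSubgroup.subset_closure ⟨_, ?_, rfl⟩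
    change Uni m _ ∧ r ∣ _
    rw [ia_ord]
    exact hUp x hx w hw
  · exact GG_mem T _ _ fun x hx w hw => AddSubgroup.subset_closure ⟨_, hUp x hx w hw, rfl⟩
  · intro t
    rw [map_sub, GG_map, GG_map]
    have e1 : (fun w => R.W t (R.F ((h : ZMod m) * w))) =
        fun w => sw (((t * h : (ZMod m)ˣ) : ZMod m) * w) := by
      funext w
      rw [R.wf, Units.val_mul, mul_assoc]
    have e2 : (fun w => R.W t (R.F w)) = fun w => sw ((t : ZMod m) * w) := by
      funext w
      rw [R.wf]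
    rw [e1, e2, GG_dist T (isDist_sw_unit (t * h)), GG_dist T (isDist_sw_unit t), hK t h hh,
      sub_self]
  · intro t
    rw [map_sub, GG_map, GG_map]
    have e1 : (fun w => R.W' t (R.F ((h : ZMod m) * w))) = fun w => R.W' t (R.F w) := by
      funext w
      rw [R.wf', R.wf', mul_left_comm (ide m r) (h : ZMod m) w, Kl_mul_ide r hr h hh]
    rw [e1, sub_self]

theorem inv_act (hr : r.Prime) (hr3 : 3 ≤ r) (R : UDatum m r U) (S : Multiset (ZMod m))
    (hW : ∀ t : (ZMod m)ˣ, (S.map fun x => sw ((t : ZMod m) * x)).sum = 0) (h : (ZMod m)ˣ)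
    (hh : h ∈ Kl m r) :
    R.act h (GG (S.filter fun x => r ∣ addOrderOf x) R.F) =
      GG (S.filter fun x => r ∣ addOrderOf x) R.F := by
  rw [GG_map]
  have e1 : (fun w => R.act h (R.F w)) = fun w => R.F ((h : ZMod m) * w) := by
    funext w
    rw [R.act_F]
  rw [e1]
  exact inv_GG hr hr3 R.toRDatum S hW h hh

end

end Pool.Agent.FHD
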