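import Pool.Agent.FHD.BvB

/-!
# FHD-Split: the elements of `Kl n l` as products

Chinese remainder theorem and counting in the field with `l` elements.
-/

set_option autoImplicit false

namespace Pool.Agent.FHD

open Finset Pool.Agent.FS
open Pool.Agent.Helper9.Fermat (fib mem_fib)

section

variable {m : ℕ} [NeZero m] {n : ℕ} [NeZero n]

/-- elements of `Kl n l` with a given residue -/
theorem exists_Kl (l : ℕ) (hl : l.Prime) (a : ℕ) (ha : ¬ l ∣ a) :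
    ∃ k ∈ Kl n l, rr k ≡ a [MOD ordProj[l] n] := by
  have hn : n ≠ 0 := NeZero.ne n
  have hab : n = ordProj[l] n * ordCompl[l] n := (Nat.ordProj_mul_ordCompl_eq_self n l).symm
  have hcop : (ordProj[l] n).Coprime (ordCompl[l] n) :=
    (Nat.coprime_ordCompl hl hn).pow_left _
  have hac : a.Coprime (ordProj[l] n) := ((Nat.Prime.coprime_iff_not_dvd hl).2 ha).symm.pow_right _
  obtain ⟨w, h1, h2⟩ := exists_unit_crt hab hcop a 1 hac (Nat.coprime_one_left _)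
  exact ⟨w, mem_Kl.2 h2, h1⟩

private theorem sp_avoid {l : ℕ} [Fact l.Prime] (L : List (ZMod l)) (hL : L.length < l) : ∃ α : ZMod l, α ∉ L := by
  classical
  by_contra hc
  push Not at hc
  have h1 : L.toFinset = Finset.univ := by
    ext x
    rw [List.mem_toFinset]
    exact ⟨fun _ => Finset.mem_univ _, fun _ => hc x⟩
  have h2 := List.toFinset_card_le L
  rw [h1, Finset.card_univ, ZMod.card] at h2
  omega

private theorem sp_alpha {l : ℕ} [Fact l.Prime] (h5 : 5 ≤ l) (ξ : ZMod l) :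
    ∃ α : ZMod l, α ≠ 0 ∧ α + 1 ≠ 0 ∧ ξ + α ≠ 0 := by
  obtain ⟨α, hα⟩ := sp_avoid [0, -1, -ξ] (by simp only [List.length_cons, List.length_nil]; omega)
  simp only [List.mem_cons, List.not_mem_nil, or_false, not_or] at hα
  obtain ⟨h1, h2, h3⟩ := hα
  exact ⟨α, h1, fun h => h2 (eq_neg_of_add_eq_zero_left h), fun h => h3 (eq_neg_of_add_eq_zero_right h)⟩

private theorem sp_beta11 : ∀ ξ : ZMod 11, ξ ≠ 0 → ∃ α : ZMod 11, α ≠ 0 ∧ α + 1 ≠ 0 ∧ α ≠ 2 ∧ α + 2 ≠ 0 ∧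
    2 * α ≠ 1 ∧ 2 * α + 1 ≠ 0 ∧ ξ + α ≠ 0 ∧ ξ ≠ 2 * α ∧ ξ + 2 * α ≠ 0 ∧ 2 * ξ ≠ α ∧ 2 * ξ + α ≠ 0 := by
  decide

private theorem sp_beta {l : ℕ} [hlp : Fact l.Prime] (h11 : 11 ≤ l) (ξ : ZMod l) (hξ : ξ ≠ 0) :
    ∃ α : ZMod l, α ≠ 0 ∧ α + 1 ≠ 0 ∧ α ≠ 2 ∧ α + 2 ≠ 0 ∧ 2 * α ≠ 1 ∧ 2 * α + 1 ≠ 0 ∧ ξ + α ≠ 0 ∧
      ξ ≠ 2 * α ∧ ξ + 2 * α ≠ 0 ∧ 2 * ξ ≠ α ∧ 2 * ξ + α ≠ 0 := by
  by_cases h : l = 11
  · subst h
    exact sp_beta11 ξ hξ
  · have h12 : 12 ≤ l := by omega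
    have h2 : (2 : ZMod l) ≠ 0 := by
      intro h0
      have h1 : ((2 : ℕ) : ZMod l) = 0 := by exact_mod_cast h0
      rw [ZMod.natCast_eq_zero_iff] at h1
      have := Nat.le_of_dvd (by norm_num) h1
      omega
    obtain ⟨α, hα⟩ := sp_avoid [0, -1, 2, -2, 2⁻¹, -2⁻¹, -ξ, 2⁻¹ * ξ, -(2⁻¹ * ξ), 2 * ξ, -(2 * ξ)]
      (by simp only [List.length_cons, List.length_nil]; omega)
    simp only [List.mem_cons, List.not_mem_nil, or_false, not_or] at hα
    obtain ⟨a1, a2, a3, a4, a5, a6, a7, a8, a9, a10, a11⟩ := hα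
    refine ⟨α, a1, ?_, a3, ?_, ?_, ?_, ?_, ?_, ?_, ?_, ?_⟩
    · exact fun h => a2 (eq_neg_of_add_eq_zero_left h)
    · exact fun h => a4 (eq_neg_of_add_eq_zero_left h)
    · intro h
      apply a5
      exact eq_inv_of_mul_eq_one_right h
    · intro h
      apply a6
      have h3 : 2 * (-α) = 1 := by linear_combination -h
      rw [← eq_inv_of_mul_eq_one_right h3, neg_neg]
    · exact fun h => a7 (eq_neg_of_add_eq_zero_right h)
    · intro h
      apply a8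
      rw [h, ← mul_assoc, inv_mul_cancel₀ h2, one_mul]
    · intro h
      apply a9
      have h3 : ξ = 2 * (-α) := by linear_combination h
      rw [h3, ← mul_assoc, inv_mul_cancel₀ h2, one_mul, neg_neg]
    · exact fun h => a10 h.symm
    · exact fun h => a11 (eq_neg_of_add_eq_zero_right h)

/-- an element of `Kl n l` with the residue `α`, and the complementary factor -/
private theorem sp_split (l : ℕ) [hlp : Fact l.Prime] (hln : l ∣ n) (x : (ZMod n)ˣ) (hx : x ∈ Kl n l)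
    (α : ZMod l) (hα : α ≠ 0) : ∃ a ∈ Kl n l, ∃ b ∈ Kl n l, x = a * b ∧ (rr a : ZMod l) = α ∧
      (rr x : ZMod l) = α * (rr b : ZMod l) := by
  have hl : l.Prime := hlp.out
  have hn : n ≠ 0 := NeZero.ne n
  have h1 : ¬ l ∣ α.val := by
    intro h
    apply hα
    rw [← ZMod.natCast_zmod_val α, ZMod.natCast_eq_zero_iff]
    exact h
  obtain ⟨a, ha, ha'⟩ := exists_Kl (n := n) l hl α.val h1
  have h2 : l ∣ ordProj[l] n := dvd_pow_self l (hl.factorization_pos_of_dvd hn hln).ne'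
  have h3 : (rr a : ZMod l) = α := by
    have h4 := (ZMod.natCast_eq_natCast_iff (rr a) α.val l).2 (ha'.of_dvd h2)
    rw [h4, ZMod.natCast_zmod_val]
  have h5 : a * (a⁻¹ * x) = x := mul_inv_cancel_left a x
  refine ⟨a, ha, a⁻¹ * x, mul_mem (inv_mem ha) hx, h5.symm, h3, ?_⟩
  have h6 := (rr_mul a (a⁻¹ * x)).of_dvd hln
  rw [h5, ← ZMod.natCast_eq_natCast_iff] at h6
  rw [h6, Nat.cast_mul, h3]

private theorem sp_iff (l c d : ℕ) : c ≡ d [MOD l] ↔ (c : ZMod l) = (d : ZMod l) :=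
  (ZMod.natCast_eq_natCast_iff c d l).symm

theorem split_alpha (l : ℕ) (hl : l.Prime) (hln : l ∣ n) (h5 : 5 ≤ l) (x : (ZMod n)ˣ)
    (hx : x ∈ Kl n l) : ∃ a ∈ Kl n l, ∃ b ∈ Kl n l,
      (¬ rr a + 1 ≡ 0 [MOD l]) ∧ (¬ rr b + 1 ≡ 0 [MOD l]) ∧ x = a * b := by
  haveI : Fact l.Prime := ⟨hl⟩
  obtain ⟨α, a1, a2, a3⟩ := sp_alpha h5 (rr x : ZMod l)
  obtain ⟨a, ha, b, hb, hab, h1, h2⟩ := sp_split (n := n) l hln x hx α a1
  refine ⟨a, ha, b, hb, ?_, ?_, hab⟩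
  · rw [sp_iff]
    push_cast
    rw [h1]
    exact a2
  · rw [sp_iff]
    push_cast
    intro h
    apply a3
    rw [h2]
    linear_combination α * h

theorem split_beta (l : ℕ) (hl : l.Prime) (hln : l ∣ n) (h11 : 11 ≤ l) (x : (ZMod n)ˣ)
    (hx : x ∈ Kl n l) : ∃ a ∈ Kl n l, ∃ b ∈ Kl n l,
      GoodB l (rr a) ∧ GoodB l (rr b) ∧ x = a * b := by
  haveI : Fact l.Prime := ⟨hl⟩
  have hx0 : (rr x : ZMod l) ≠ 0 := by
    rw [Ne, ZMod.natCast_eq_zero_iff]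
    intro h
    have h1 := Nat.dvd_gcd h hln
    rw [(rr_coprime x).gcd_eq_one] at h1
    exact hl.one_lt.ne' (Nat.dvd_one.1 h1)
  obtain ⟨α, a1, a2, a3, a4, a5, a6, a7, a8, a9, a10, a11⟩ := sp_beta h11 (rr x : ZMod l) hx0
  obtain ⟨a, ha, b, hb, hab, h1, h2⟩ := sp_split (n := n) l hln x hx α a1
  refine ⟨a, ha, b, hb, ⟨?_, ?_, ?_, ?_, ?_⟩, ⟨?_, ?_, ?_, ?_, ?_⟩, hab⟩
  · rw [sp_iff]
    push_cast
    rw [h1]
    exact a2
  · rw [sp_iff]
    push_cast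
    rw [h1]
    exact a3
  · rw [sp_iff]
    push_cast
    rw [h1]
    exact a4
  · rw [sp_iff]
    push_cast
    rw [h1]
    exact a5
  · rw [sp_iff]
    push_cast
    rw [h1]
    exact a6
  · rw [sp_iff]
    push_cast
    intro h
    apply a7
    rw [h2]
    linear_combination α * h
  · rw [sp_iff]
    push_cast
    intro h
    apply a8
    rw [h2]
    linear_combination α * h
  · rw [sp_iff]
    push_cast
    intro h
    apply a9
    rw [h2]
    linear_combination α * h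
  · rw [sp_iff]
    push_cast
    intro h
    apply a10
    rw [h2]
    linear_combination α * h
  · rw [sp_iff]
    push_cast
    intro h
    apply a11
    rw [h2]
    linear_combination α * h

end

end Pool.Agent.FHD
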