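import Pool.Agent.FHD.MdMul
import Pool.Agent.FHD.Split

/-!
# FHD-Kp57: vanishing of the mixed differences, `5` and `7` divide `n`

Plan.
1. If `Good57 (rr (k 5)) (rr (k 7))` then `md n r N k g = 0`: the certificate inequality for one
   term with `C₁ = C₂ = 1` (`bv_357`) and `A + B < r - 1`.
2. If `k 5` is `-1` modulo `5`: write `k 7 = a * b` with `a`, `b` not `-1` modulo `7` (`split_alpha`)
   and use `md_mul` and 1. Likewise if `k 7` is `-1` modulo `7`.
3. Let `k 5` be different from `1`, `-1` modulo `5` and `k 7` from `1`, `-1` modulo `7`, and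
   `s₅`, `s₇` the elements of `Kl n 5`, `Kl n 7` congruent to `-1` modulo the `5`- and `7`-part of `n`
   (`exists_Kl`). By `md_head` for `l = 5` and 2. (for `update k 5 s₅`) `F g = F (s₅ * g)`, so
   `md n r N k (s₅ * g) = md n r N k g`; likewise for `s₇`. The certificate inequality for the four
   terms `g`, `s₅ * g`, `s₇ * g`, `s₅ * (s₇ * g)` with `C₁ = 2`, `C₂ = 4` (`bv_four` for `y` and
   `2 * y`): `(r - 1) * (4 * |md n r N k g|) ≤ 2 * A + 4 * B ≤ 4 * (A + B)`.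
-/

set_option autoImplicit false

namespace Pool.Agent.FHD

open Finset Pool.Agent.FS
open Pool.Agent.Helper9.Fermat (fib mem_fib)

private theorem step1 {m : ℕ} [NeZero m] {n r : ℕ} [NeZero n] {N : (ZMod n)ˣ → ℤ} {A B : ℕ}
    (hn : Uni m n) (hC : CIneq m n r (md n r N) A B) (h5 : 5 ∈ tps n r) (h7 : 7 ∈ tps n r)
    (h2 : ¬ 2 ∣ n) (h : A + B < r - 1) (k : ℕ → (ZMod n)ˣ) (hk : KFam n r k)
    (hg : Good57 (rr (k 5)) (rr (k 7))) (g : (ZMod n)ˣ) : md n r N k g = 0 := by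
  have H := hC Unit {()} (fun _ => 1) (fun _ => k) (fun _ => g) 1 1 (fun _ _ => hk)
    (fun y hy => by
      simpa using (bv_357 hn y hy h2 k g h5 h7 hg).1)
    (Or.inr fun y hy => by
      simpa using (bv_357 hn y hy h2 k g h5 h7 hg).2)
  rw [if_neg h2] at H
  simp only [Finset.sum_singleton, one_mul] at H
  by_contra hne
  have h1 : (1 : ℤ) ≤ |md n r N k g| := Int.one_le_abs hne
  have h3 : ((r - 1 : ℕ) : ℤ) * 1 ≤ ((r - 1 : ℕ) : ℤ) * |md n r N k g| :=
    mul_le_mul_of_nonneg_left h1 (Int.natCast_nonneg _)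
  have h4 : ((A + B : ℕ) : ℤ) < ((r - 1 : ℕ) : ℤ) := by exact_mod_cast h
  push_cast at H h4
  linarith

private theorem upd_KFam {n r : ℕ} [NeZero n] (k : ℕ → (ZMod n)ˣ) (hk : KFam n r k) (l : ℕ)
    (a : (ZMod n)ˣ) (ha : a ∈ Kl n l) : KFam n r (Function.update k l a) := by
  intro l' hl'
  by_cases e : l' = l
  · subst e
    rw [Function.update_self]
    exact ha
  · rw [Function.update_of_ne e]
    exact hk l' hl'

private theorem tps_dvd {n r l : ℕ} (hl : l ∈ tps n r) : l ∣ n :=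
  Nat.dvd_of_mem_primeFactors (Finset.mem_of_mem_erase hl)

private theorem step2 {m : ℕ} [NeZero m] {n r : ℕ} [NeZero n] {N : (ZMod n)ˣ → ℤ} {A B : ℕ}
    (hn : Uni m n) (hC : CIneq m n r (md n r N) A B) (h5 : 5 ∈ tps n r) (h7 : 7 ∈ tps n r)
    (h2 : ¬ 2 ∣ n) (h : A + B < r - 1) (k : ℕ → (ZMod n)ˣ) (hk : KFam n r k)
    (hm : rr (k 5) + 1 ≡ 0 [MOD 5] ∨ rr (k 7) + 1 ≡ 0 [MOD 7]) (g : (ZMod n)ˣ) :
    md n r N k g = 0 := by
  rcases hm with hm | hm
  · obtain ⟨a, ha, b, hb', ha1, hb1, hab⟩ := split_alpha 7 (by norm_num) (tps_dvd h7) (by norm_num)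
      (k 7) (hk 7 h7)
    have e1 : k = Function.update k 7 (a * b) := by
      rw [← hab, Function.update_eq_self]
    have e57 : (5 : ℕ) ≠ 7 := by norm_num
    rw [e1, md_mul N 7 h7, step1 hn hC h5 h7 h2 h _ (upd_KFam k hk 7 a ha) ?_ g,
      step1 hn hC h5 h7 h2 h _ (upd_KFam k hk 7 b hb') ?_ (a * g), add_zero]
    · rw [Function.update_self, Function.update_of_ne e57]
      exact Or.inr (Or.inr (Or.inl ⟨hm, hb1⟩))
    · rw [Function.update_self, Function.update_of_ne e57]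
      exact Or.inr (Or.inr (Or.inl ⟨hm, ha1⟩))
  · obtain ⟨a, ha, b, hb', ha1, hb1, hab⟩ := split_alpha 5 (by norm_num) (tps_dvd h5) (by norm_num)
      (k 5) (hk 5 h5)
    have e1 : k = Function.update k 5 (a * b) := by
      rw [← hab, Function.update_eq_self]
    have e75 : (7 : ℕ) ≠ 5 := by norm_num
    rw [e1, md_mul N 5 h5, step1 hn hC h5 h7 h2 h _ (upd_KFam k hk 5 a ha) ?_ g,
      step1 hn hC h5 h7 h2 h _ (upd_KFam k hk 5 b hb') ?_ (a * g), add_zero]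
    · rw [Function.update_self, Function.update_of_ne e75]
      exact Or.inr (Or.inr (Or.inr ⟨hb1, hm⟩))
    · rw [Function.update_self, Function.update_of_ne e75]
      exact Or.inr (Or.inr (Or.inr ⟨ha1, hm⟩))

private theorem exists_neg {n : ℕ} [NeZero n] (l : ℕ) (hl : l.Prime) (hln : l ∣ n) :
    ∃ s ∈ Kl n l, rr s + 1 ≡ 0 [MOD ordProj[l] n] ∧ rr s + 1 ≡ 0 [MOD l] := by
  have hd : l ∣ ordProj[l] n := by
    have h1 : n.factorization l ≠ 0 := by
      have := (hl.dvd_iff_one_le_factorization (NeZero.ne n)).mp hln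
      omega
    exact dvd_pow_self l h1
  have hpos : 0 < ordProj[l] n := Nat.ordProj_pos n l
  have hnd : ¬ l ∣ (ordProj[l] n - 1) := by
    intro hc
    have h1 : l ∣ ordProj[l] n - (ordProj[l] n - 1) := Nat.dvd_sub hd hc
    have h2 : ordProj[l] n - (ordProj[l] n - 1) = 1 := by omega
    rw [h2] at h1
    exact hl.one_lt.ne' (Nat.dvd_one.mp h1)
  obtain ⟨s, hs, hs'⟩ := exists_Kl (n := n) l hl (ordProj[l] n - 1) hnd
  have h3 : rr s + 1 ≡ 0 [MOD ordProj[l] n] := by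
    have h4 := hs'.add_right 1
    have h5 : ordProj[l] n - 1 + 1 = ordProj[l] n := by omega
    rw [h5] at h4
    exact h4.trans (Nat.modEq_zero_iff_dvd.mpr dvd_rfl)
  exact ⟨s, hs, h3, h3.of_dvd hd⟩

private theorem inv_of {m : ℕ} [NeZero m] {n r : ℕ} [NeZero n] {N : (ZMod n)ˣ → ℤ} {A B : ℕ}
    (hn : Uni m n) (hC : CIneq m n r (md n r N) A B) (h5 : 5 ∈ tps n r) (h7 : 7 ∈ tps n r)
    (h2 : ¬ 2 ∣ n) (h : A + B < r - 1) (k : ℕ → (ZMod n)ˣ) (hk : KFam n r k) (l : ℕ)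
    (hl57 : l = 5 ∨ l = 7) (s : (ZMod n)ˣ) (hs : s ∈ Kl n l) (hs' : rr s + 1 ≡ 0 [MOD l])
    (g : (ZMod n)ˣ) : md n r N k (s * g) = md n r N k g := by
  have hl : l ∈ tps n r := by
    rcases hl57 with rfl | rfl
    · exact h5
    · exact h7
  obtain ⟨F, hF⟩ := md_head N l hl k
  have h0 : ∀ g, F g = F (s * g) := by
    intro g
    have e1 := hF s g
    rw [step2 hn hC h5 h7 h2 h _ (upd_KFam k hk l s hs) ?_ g] at e1
    · linarith
    · rcases hl57 with rfl | rfl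
      · left
        rw [Function.update_self]
        exact hs'
      · right
        rw [Function.update_self]
        exact hs'
  have h1 : ∀ g, md n r N k g = F g - F (k l * g) := by
    intro g
    have := hF (k l) g
    rwa [Function.update_eq_self] at this
  rw [h1, h1, ← h0 g, mul_left_comm, ← h0 (k l * g)]

private theorem order_two {m : ℕ} [NeZero m] {n r : ℕ} (h2 : ¬ 2 ∣ n) (y : ZMod m)
    (hy : (addOrderOf y).primeFactors = tps n r) :
    (addOrderOf (2 * y)).primeFactors = tps n r := by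
  have h1 : ¬ 2 ∣ addOrderOf y := by
    intro hd
    have h3 : addOrderOf y ≠ 0 := (addOrderOf_pos y).ne'
    have h4 : 2 ∈ (addOrderOf y).primeFactors := Nat.mem_primeFactors.mpr ⟨Nat.prime_two, hd, h3⟩
    rw [hy] at h4
    exact h2 (tps_dvd h4)
  have h5 : (addOrderOf y).Coprime 2 :=
    ((Nat.Prime.coprime_iff_not_dvd Nat.prime_two).mpr h1).symm
  have h6 : (2 : ZMod m) * y = 2 • y := by
    rw [two_mul, two_nsmul]
  rw [h6, h5.addOrderOf_nsmul, hy]

theorem kp_57 {m : ℕ} [NeZero m] {n r : ℕ} [NeZero n] {N : (ZMod n)ˣ → ℤ} {A B : ℕ}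
    (hn : Uni m n) (hC : CIneq m n r (md n r N) A B) (h5 : 5 ∈ tps n r) (h7 : 7 ∈ tps n r)
    (h2 : ¬ 2 ∣ n) (h : A + B < r - 1) (k : ℕ → (ZMod n)ˣ) (hk : KFam n r k) (g : (ZMod n)ˣ) :
    md n r N k g = 0 := by
  by_cases c1 : rr (k 5) ≡ 1 [MOD 5]
  · exact step1 hn hC h5 h7 h2 h k hk (Or.inl c1) g
  by_cases c2 : rr (k 7) ≡ 1 [MOD 7]
  · exact step1 hn hC h5 h7 h2 h k hk (Or.inr (Or.inl c2)) g
  by_cases c3 : rr (k 5) + 1 ≡ 0 [MOD 5]
  · exact step2 hn hC h5 h7 h2 h k hk (Or.inl c3) g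
  by_cases c4 : rr (k 7) + 1 ≡ 0 [MOD 7]
  · exact step2 hn hC h5 h7 h2 h k hk (Or.inr c4) g
  obtain ⟨s₅, hs5, hs5', hs5m⟩ := exists_neg (n := n) 5 (by norm_num) (tps_dvd h5)
  obtain ⟨s₇, hs7, hs7', hs7m⟩ := exists_neg (n := n) 7 (by norm_num) (tps_dvd h7)
  have i5 := inv_of hn hC h5 h7 h2 h k hk 5 (Or.inl rfl) s₅ hs5 hs5m
  have i7 := inv_of hn hC h5 h7 h2 h k hk 7 (Or.inr rfl) s₇ hs7 hs7m
  have four : ∀ y : ZMod m, (addOrderOf y).primeFactors = tps n r →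
      |bv y r k g + bv y r k (s₅ * g) + bv y r k (s₇ * g) + bv y r k (s₅ * (s₇ * g))| ≤ 2 :=
    fun y hy => bv_four hn y hy k hk g h5 h7 s₅ s₇ hs5 hs5' hs7 hs7' c1 c3 c2 c4
  have H := hC (Fin 4) Finset.univ (fun _ => 1) (fun _ => k)
    ![g, s₅ * g, s₇ * g, s₅ * (s₇ * g)] 2 4 (fun _ _ => hk)
    (fun y hy => by
      have := four y hy
      simpa [Fin.sum_univ_four] using this)
    (Or.inr fun y hy => by
      have e1 := four y hy
      have e2 := four (2 * y) (order_two h2 y hy)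
      have e3 : ∑ i : Fin 4, (1 : ℤ) *
          (bv (2 * y) r k ((![g, s₅ * g, s₇ * g, s₅ * (s₇ * g)] : Fin 4 → (ZMod n)ˣ) i) -
            bv y r k ((![g, s₅ * g, s₇ * g, s₅ * (s₇ * g)] : Fin 4 → (ZMod n)ˣ) i)) =
          (bv (2 * y) r k g + bv (2 * y) r k (s₅ * g) + bv (2 * y) r k (s₇ * g) +
            bv (2 * y) r k (s₅ * (s₇ * g))) -
          (bv y r k g + bv y r k (s₅ * g) + bv y r k (s₇ * g) + bv y r k (s₅ * (s₇ * g))) := by
        simp only [Fin.sum_univ_four, one_mul, Matrix.cons_val_zero, Matrix.cons_val_one,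
          Matrix.cons_val]
        ring
      rw [e3]
      have e4 := abs_sub (bv (2 * y) r k g + bv (2 * y) r k (s₅ * g) + bv (2 * y) r k (s₇ * g) +
            bv (2 * y) r k (s₅ * (s₇ * g)))
          (bv y r k g + bv y r k (s₅ * g) + bv y r k (s₇ * g) + bv y r k (s₅ * (s₇ * g)))
      push_cast
      linarith)
  rw [if_neg h2] at H
  have e5 : ∑ i : Fin 4, (1 : ℤ) *
      md n r N k ((![g, s₅ * g, s₇ * g, s₅ * (s₇ * g)] : Fin 4 → (ZMod n)ˣ) i) =
      4 * md n r N k g := by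
    simp [Fin.sum_univ_four, i5, i7]
    ring
  rw [e5, abs_mul] at H
  by_contra hne
  have h1 : (1 : ℤ) ≤ |md n r N k g| := Int.one_le_abs hne
  have h3 : ((r - 1 : ℕ) : ℤ) * 1 ≤ ((r - 1 : ℕ) : ℤ) * |md n r N k g| :=
    mul_le_mul_of_nonneg_left h1 (Int.natCast_nonneg _)
  have h4 : ((A + B : ℕ) : ℤ) < ((r - 1 : ℕ) : ℤ) := by exact_mod_cast h
  have h6 : |(4 : ℤ)| = 4 := by norm_num
  rw [h6] at H
  push_cast at H h4
  have h7' : (0 : ℤ) ≤ A := Int.natCast_nonneg _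
  nlinarith

end Pool.Agent.FHD
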