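import Pool.Agent.FHD.Kp29
import Pool.Agent.FHD.Kp57
import Pool.Agent.FHD.AlFacts
import Pool.Agent.FHD.InvAct

/-!
# FHD-K8: the coefficient condition for at most eight elements

Plan. `S' = S.filter (Low r) + Sb`, `T = S'.filter (r ∣ addOrderOf ·)`. `inv_act` for `S'` and `cert`
give `CIneq m n r (md n r N) (cA T n) (cB T n)` for all `N` with `Rep`. An element of `Sb` is not counted
in `cA T n`, `cB T n` (otherwise `Alw m n.primeFactors` by `alw_mono`). So `cA T n + cB T n ≤ S.card ≤ 8`.
* A prime `p > r` divides `n`: `cA T n = cB T n = 0` (the elements of `S.filter (Low r)`), `kp_triv`.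
* Otherwise all primes of `n` are at most `r`. If `37 ≤ r`: `kp_triv`, `2 * A + 4 * B ≤ 32 < 36`.
* `19 ≤ r < 37` (`19, 23, 29, 31`): `2 ∣ n`: `kp_triv`, `2 * A ≤ 16 < 18`. `¬ 2 ∣ n`: if
  `5 ≤ l ∈ tps n r`: `kp_alpha`, `A + 2 * B ≤ 16 < 18`. Otherwise `tps n r ⊆ {3}`; if it is empty,
  `alw_one` contradicts `¬ Alw`. So `n.primeFactors = {3, r}`; for `r = 19, 23, 31` `alw_ppr`
  contradicts `¬ Alw`. For `r = 29`: `kp29A`, with `exists_om` and `om_contra` for
  `Q x = (Low 29 x ∧ 29 ∣ addOrderOf x)`: the elements `x` of `Sb` with `29 ∣ addOrderOf x` satisfy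
  `¬ 3 ∣ addOrderOf x` (`alw_mono`), so `ω x = 0` (`Pure.supp`).
* `11 ≤ r < 19`: `alw_nice` shows that `n` has at least four prime factors, all at most `r`.
  `2 ∣ n`: `kp_alpha` for a prime `5 ≤ l ∈ tps n r`, `8 < 10`. `¬ 2 ∣ n`: if `11 ≤ l ∈ tps n r`:
  `kp_beta`, `A + B ≤ 8 < 10`; otherwise `tps n r ⊆ {3, 5, 7}` has three elements: `kp_57`.
-/

set_option autoImplicit false

namespace Pool.Agent.FHD

open Finset Pool.Agent.FS
open Pool.Agent.Helper9.Fermat (fib mem_fib)

/-- all primes which divide the order of `x` are at most `r` -/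
def Low (r : ℕ) {m : ℕ} (x : ZMod m) : Prop := ∀ p : ℕ, p.Prime → p ∣ addOrderOf x → p ≤ r

private theorem kc_add {m : ℕ} (T1 T2 : Multiset (ZMod m)) (n : ℕ) :
    cA (T1 + T2) n = cA T1 n + cA T2 n ∧ cB (T1 + T2) n = cB T1 n + cB T2 n := by
  unfold cA cB
  rw [Multiset.filter_add, Multiset.card_add, Multiset.filter_add, Multiset.card_add]
  exact ⟨rfl, rfl⟩

private theorem kc_zero {m : ℕ} (T : Multiset (ZMod m)) (n : ℕ)
    (h : ∀ x ∈ T, ¬ n.primeFactors ⊆ (addOrderOf x).primeFactors) :
    cA T n = 0 ∧ cB T n = 0 := by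
  unfold cA cB
  constructor
  · rw [Multiset.card_eq_zero, Multiset.filter_eq_nil]
    exact fun x hx hc => h x hx hc.1
  · rw [Multiset.card_eq_zero, Multiset.filter_eq_nil]
    exact fun x hx hc => h x hx hc.1

private theorem kc_le {m : ℕ} (T : Multiset (ZMod m)) (n : ℕ) : cA T n + cB T n ≤ T.card := by
  classical
  induction T using Multiset.induction_on with
  | empty =>
    have h := kc_zero (0 : Multiset (ZMod m)) n (fun x hx => absurd hx (Multiset.notMem_zero x))
    rw [h.1, h.2, Multiset.card_zero]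
  | cons a T ih =>
    have h := kc_add ({a} : Multiset (ZMod m)) T n
    rw [Multiset.singleton_add] at h
    have h1 : cA ({a} : Multiset (ZMod m)) n + cB ({a} : Multiset (ZMod m)) n ≤ 1 := by
      unfold cA cB
      rw [Multiset.filter_singleton, Multiset.filter_singleton]
      by_cases h4 : addOrderOf a % 4 = 2
      · rw [if_neg (fun hc => hc.2 h4)]
        split_ifs <;> simp
      · rw [if_neg (fun hc : _ ∧ addOrderOf a % 4 = 2 => h4 hc.2)]
        split_ifs <;> simp
    rw [h.1, h.2, Multiset.card_cons]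
    omega

private theorem kc_prime {r : ℕ} (hr : r.Prime) (h19 : 19 ≤ r) (h37 : r < 37) :
    r = 29 ∨ r % 4 ≠ 1 := by
  interval_cases r <;> first | (left; rfl) | (right; norm_num; done) | (exfalso; revert hr; norm_num)

private theorem kc_five {l : ℕ} (hl : l.Prime) (h2 : l ≠ 2) (h3 : l ≠ 3) : 5 ≤ l := by
  by_contra h
  have h' : l < 5 := by omega
  have := hl.two_le
  interval_cases l
  · exact h2 rfl
  · exact h3 rfl
  · revert hl; norm_num

private theorem kc_eleven {l : ℕ} (hl : l.Prime) (h2 : l ≠ 2) (h11 : ¬ 11 ≤ l) :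
    l = 3 ∨ l = 5 ∨ l = 7 := by
  have h' : l < 11 := by omega
  have := hl.two_le
  by_cases h3 : l = 3
  · exact Or.inl h3
  by_cases h5 : l = 5
  · exact Or.inr (Or.inl h5)
  by_cases h7 : l = 7
  · exact Or.inr (Or.inr h7)
  exfalso
  revert hl
  interval_cases l <;> first | exact absurd rfl h2 | exact absurd rfl h3 | exact absurd rfl h5 | exact absurd rfl h7 | norm_num

open Classical in
theorem kp8 {m : ℕ} [NeZero m] (h12 : 12 ∣ m) {r : ℕ} (hr : r.Prime) (hr11 : 11 ≤ r) {U : Type}
    [AddCommGroup U] (R : UDatum m r U) (S Sb : Multiset (ZMod m)) (hc : S.card ≤ 8)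
    (hS : ∀ t : (ZMod m)ˣ, (S.map fun x => sw ((t : ZMod m) * x)).sum = 0)
    (hb : ∀ x ∈ Sb, Alw m (addOrderOf x).primeFactors)
    (hW : ∀ t : (ZMod m)ˣ,
      ((S.filter (Low r) + Sb).map fun x => sw ((t : ZMod m) * x)).sum = 0)
    {n : ℕ} [NeZero n] (hn : Uni m n) (hrn : r ∣ n) (hna : ¬ Alw m n.primeFactors) :
    Kp R.toRDatum n (GG ((S.filter (Low r) + Sb).filter fun x => r ∣ addOrderOf x) R.F) := by
  have hr3 : 3 ≤ r := by omega
  have hm0 : m ≠ 0 := NeZero.ne m
  have hn0 : n ≠ 0 := NeZero.ne n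
  have hm2 : 2 ∣ m := (by norm_num : 2 ∣ 12).trans h12
  have hinv : ∀ h ∈ Kl m r,
      R.act h (GG ((S.filter (Low r) + Sb).filter fun x => r ∣ addOrderOf x) R.F) =
        GG ((S.filter (Low r) + Sb).filter fun x => r ∣ addOrderOf x) R.F := by
    intro h hh
    exact inv_act hr hr3 R _ hW h hh
  have hTr : ∀ x ∈ (S.filter (Low r) + Sb).filter (fun x => r ∣ addOrderOf x),
      r ∣ addOrderOf x := fun x hx => (Multiset.mem_filter.1 hx).2
  have hSb : ∀ x ∈ Sb, ¬ n.primeFactors ⊆ (addOrderOf x).primeFactors :=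
    fun x hx hs => hna (alw_mono (hb x hx) hs)
  have hsplit : (S.filter (Low r) + Sb).filter (fun x => r ∣ addOrderOf x) =
      (S.filter (Low r)).filter (fun x => r ∣ addOrderOf x) +
        Sb.filter (fun x => r ∣ addOrderOf x) := Multiset.filter_add _ _ _
  have hz := kc_zero (Sb.filter (fun x => r ∣ addOrderOf x)) n
    (fun x hx => hSb x (Multiset.mem_filter.1 hx).1)
  have hadd := kc_add ((S.filter (Low r)).filter (fun x => r ∣ addOrderOf x))
    (Sb.filter (fun x => r ∣ addOrderOf x)) n
  rw [← hsplit, hz.1, hz.2, add_zero, add_zero] at hadd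
  have hle := kc_le ((S.filter (Low r)).filter (fun x => r ∣ addOrderOf x)) n
  have hcard : ((S.filter (Low r)).filter (fun x => r ∣ addOrderOf x)).card ≤ S.card :=
    Multiset.card_le_card ((Multiset.filter_le _ _).trans (Multiset.filter_le _ _))
  have hAB : cA ((S.filter (Low r) + Sb).filter fun x => r ∣ addOrderOf x) n +
      cB ((S.filter (Low r) + Sb).filter fun x => r ∣ addOrderOf x) n ≤ 8 := by
    rw [hadd.1, hadd.2]
    omega
  have hrm : r ∈ n.primeFactors := Nat.mem_primeFactors.2 ⟨hr, hrn, hn0⟩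
  by_cases h29 : r = 29 ∧ n.primeFactors = {3, 29}
  · -- the level `{3, 29}`
    obtain ⟨hr29, hn3⟩ := h29
    subst hr29
    obtain ⟨ω, hω, hkill, hunit, hV, hval⟩ := exists_om m ((by norm_num : 3 ∣ 12).trans h12)
    refine kp29A h12 R _ hTr hinv hn hn3 hAB hω hunit hval ?_
    have hQ := om_contra h12 hω hunit hV hval S hc (hkill S hS) hS
      (fun x => 29 ∣ addOrderOf x ∧ Low 29 x) (fun x hx => hx.1)
    have hzero : ((Sb.filter (fun x => 29 ∣ addOrderOf x)).map ω).sum = 0 := by
      refine Multiset.sum_eq_zero ?_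
      intro y hy
      obtain ⟨x, hx, rfl⟩ := Multiset.mem_map.1 hy
      obtain ⟨hx1, hx2⟩ := Multiset.mem_filter.1 hx
      refine hω.supp x 3 (Finset.mem_singleton_self 3) ?_
      intro h3
      refine hSb x hx1 ?_
      rw [hn3]
      intro p hp
      rw [Finset.mem_insert, Finset.mem_singleton] at hp
      have hx0 : addOrderOf x ≠ 0 := (addOrderOf_pos x).ne'
      rcases hp with rfl | rfl
      · exact Nat.mem_primeFactors.2 ⟨by norm_num, h3, hx0⟩
      · exact Nat.mem_primeFactors.2 ⟨by norm_num, hx2, hx0⟩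
    rw [hsplit, Multiset.map_add, Multiset.sum_add, hzero, add_zero, Multiset.filter_filter]
    refine lt_of_eq_of_lt (congrArg (fun M : Multiset (ZMod m) => |(M.map ω).sum|) ?_) hQ
    congr
  intro N hN k hk g
  have hC := cert hr hr3 hm2 R _ hTr hinv hn hrn N hN
  generalize hTT : (S.filter (Low r) + Sb).filter (fun x => r ∣ addOrderOf x) = T at *
  by_cases hbig : ∃ p : ℕ, p.Prime ∧ r < p ∧ p ∣ n
  · obtain ⟨p, hp, hrp, hpn⟩ := hbig
    have hz2 := kc_zero ((S.filter (Low r)).filter (fun x => r ∣ addOrderOf x)) n (by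
      intro x hx hs
      have hx1 := (Multiset.mem_filter.1 (Multiset.mem_filter.1 hx).1).2
      have h3 := hs (Nat.mem_primeFactors.2 ⟨hp, hpn, hn0⟩)
      have h4 := hx1 p hp (Nat.dvd_of_mem_primeFactors h3)
      omega)
    rw [hz2.1, hz2.2] at hadd
    rw [hadd.1, hadd.2] at hC
    exact kp_triv hC (by split_ifs <;> omega) k hk g
  push Not at hbig
  have hprim : ∀ l ∈ n.primeFactors, l.Prime ∧ l ≤ r := by
    intro l hl
    have hlp := Nat.prime_of_mem_primeFactors hl
    refine ⟨hlp, ?_⟩
    by_contra hlr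
    exact hbig l hlp (by omega) (Nat.dvd_of_mem_primeFactors hl)
  by_cases h37 : 37 ≤ r
  · exact kp_triv hC (by split_ifs <;> omega) k hk g
  have htps : ∀ l, l ∈ tps n r ↔ l ≠ r ∧ l ∈ n.primeFactors := fun l => Finset.mem_erase
  by_cases h19 : 19 ≤ r
  · by_cases h2 : 2 ∣ n
    · exact kp_triv hC (by rw [if_pos h2]; omega) k hk g
    by_cases h5 : ∃ l ∈ tps n r, 5 ≤ l
    · obtain ⟨l, hl, hl5⟩ := h5
      exact kp_alpha hn hC l hl hl5 (by rw [if_neg h2]; omega) k hk g
    push Not at h5
    exfalso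
    have h33 : ∀ l ∈ tps n r, l = 3 := by
      intro l hl
      have hlp := Nat.prime_of_mem_primeFactors ((htps l).1 hl).2
      have hl2 : l ≠ 2 := by
        rintro rfl
        exact h2 (Nat.dvd_of_mem_primeFactors ((htps 2).1 hl).2)
      by_contra hl3
      have := kc_five hlp hl2 hl3
      have := h5 l hl
      omega
    have hins : insert r (tps n r) = n.primeFactors := Finset.insert_erase hrm
    rcases kc_prime hr h19 (by omega) with h29' | h4
    · by_cases hemp : tps n r = ∅
      · refine hna (alw_one ?_)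
        rw [← hins, hemp]
        simp
      · obtain ⟨l, hl⟩ := Finset.nonempty_iff_ne_empty.2 hemp
        have hl3 := h33 l hl
        subst hl3
        refine h29 ⟨h29', ?_⟩
        have h6 : tps n r = {3} := by
          ext l'
          rw [Finset.mem_singleton]
          exact ⟨fun h => h33 l' h, fun h => h ▸ hl⟩
        rw [← hins, h6, h29', Finset.pair_comm]
    · refine hna (alw_ppr fun l hl => ⟨(hprim l hl).1, ?_⟩)
      by_cases hlr : l = r
      · rw [hlr]; exact h4
      · rw [h33 l ((htps l).2 ⟨hlr, hl⟩)]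
        norm_num
  · have hcard4 : 4 ≤ n.primeFactors.card := by
      by_contra hlt
      exact hna (alw_nice h12 (fun l hl => ⟨(hprim l hl).1, by have := (hprim l hl).2; omega⟩)
        (by omega))
    have hcard3 : 3 ≤ (tps n r).card := by
      have h6 : (tps n r).card = n.primeFactors.card - 1 := Finset.card_erase_of_mem hrm
      omega
    by_cases h2 : 2 ∣ n
    · have h5 : ∃ l ∈ tps n r, 5 ≤ l := by
        by_contra hcon
        push Not at hcon
        have hsub : tps n r ⊆ {2, 3} := by
          intro l hl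
          have hlp := Nat.prime_of_mem_primeFactors ((htps l).1 hl).2
          rw [Finset.mem_insert, Finset.mem_singleton]
          by_contra hne
          push Not at hne
          have := kc_five hlp hne.1 hne.2
          have := hcon l hl
          omega
        have h6 := Finset.card_le_card hsub
        have h7 : ({2, 3} : Finset ℕ).card ≤ 2 := Finset.card_le_two
        omega
      obtain ⟨l, hl, hl5⟩ := h5
      exact kp_alpha hn hC l hl hl5 (by rw [if_pos h2]; omega) k hk g
    · by_cases h11 : ∃ l ∈ tps n r, 11 ≤ l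
      · obtain ⟨l, hl, hl11⟩ := h11
        exact kp_beta hn hC l hl hl11 h2 (by omega) k hk g
      push Not at h11
      have hsub : tps n r ⊆ {3, 5, 7} := by
        intro l hl
        have hlp := Nat.prime_of_mem_primeFactors ((htps l).1 hl).2
        have hl2 : l ≠ 2 := by
          rintro rfl
          exact h2 (Nat.dvd_of_mem_primeFactors ((htps 2).1 hl).2)
        rw [Finset.mem_insert, Finset.mem_insert, Finset.mem_singleton]
        exact kc_eleven hlp hl2 (by have := h11 l hl; omega)
      have heq : tps n r = {3, 5, 7} := by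
        refine Finset.eq_of_subset_of_card_le hsub ?_
        have h7 : ({3, 5, 7} : Finset ℕ).card ≤ 3 := Finset.card_le_three
        omega
      refine kp_57 hn hC ?_ ?_ h2 (by omega) k hk g
      · rw [heq]; simp
      · rw [heq]; simp

end Pool.Agent.FHD
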