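import Pool.Agent.FHD.KpA
import Pool.Agent.FHD.Cert
import Pool.Agent.FHD.InvAct
import Pool.Agent.FHD.K8

/-!
# FHD-K8N: the coefficient condition for at most eight elements and restricted degrees

The cases `kp_triv`, `kp_alpha`, `kp_beta`; the remaining orders are allowed or excluded.
-/

set_option autoImplicit false

namespace Pool.Agent.FHD

open Finset Pool.Agent.FS
open Pool.Agent.Helper9.Fermat (fib mem_fib)

/-- the excluded divisors -/
def exc : List ℕ := [35, 44, 51, 52, 55, 57, 65, 68, 69, 77, 85, 87, 91, 93, 119]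

/-- the allowed sets without additional generators -/
def Aln (m : ℕ) (T : Finset ℕ) : Prop := FQ.AlM False ∅ m T

private theorem k8n_two {n r : ℕ} [NeZero n] (hr11 : 11 ≤ r) (h4 : n % 4 = 2) (N : (ZMod n)ˣ → ℤ)
    (k : ℕ → (ZMod n)ˣ) (hk : KFam n r k) (g : (ZMod n)ˣ) : md n r N k g = 0 := by
  have hn0 : n ≠ 0 := NeZero.ne n
  have h2n : 2 ∣ n := by omega
  have h2t : 2 ∈ tps n r := by
    unfold tps
    exact mem_erase.2 ⟨by omega, Nat.mem_primeFactors.2 ⟨Nat.prime_two, h2n, hn0⟩⟩
  have hf : n.factorization 2 = 1 := by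
    have h5 : ¬ 2 ^ 2 ∣ n := by
      intro h
      have h6 : (4 : ℕ) ∣ n := by simpa using h
      omega
    have h6 : 1 ≤ n.factorization 2 := (Nat.Prime.dvd_iff_one_le_factorization Nat.prime_two hn0).1 h2n
    have h7 : ¬ 2 ≤ n.factorization 2 := fun h => h5 ((Nat.Prime.pow_dvd_iff_le_factorization Nat.prime_two hn0).2 h)
    omega
  have hc : Nat.card (Kl n 2) = 1 := by
    rw [card_Kl 2 Nat.prime_two h2n, qq, hf]
    norm_num
  have hb : Kl n 2 = ⊥ := Subgroup.card_eq_one.1 hc
  have hk1 : k 2 = 1 := by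
    have h := hk 2 h2t
    rw [hb, Subgroup.mem_bot] at h
    exact h
  unfold md
  have hmem : (1 : (ZMod n)ˣ) ∈ (lsr n r).map k := by
    rw [← hk1]
    refine List.mem_map.2 ⟨2, ?_, rfl⟩
    unfold lsr
    rw [Finset.mem_toList]
    exact h2t
  rw [Mixed_difs_kill hmem (by
    funext t
    show _ - _ = _
    rw [one_mul, sub_self]
    rfl)]
  rfl

private theorem k8n_card {α : Type} (T : Multiset α) (p q q' : α → Prop)
    (d1 : DecidablePred fun x => p x ∧ q x) (d2 : DecidablePred fun x => p x ∧ q' x)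
    (d3 : DecidablePred p) (hq : ∀ x, q' x ↔ ¬ q x) :
    (T.filter fun x => p x ∧ q x).card + (T.filter fun x => p x ∧ q' x).card =
      (T.filter p).card := by
  induction T using Multiset.induction_on with
  | empty => simp
  | cons x T ih =>
    rw [Multiset.filter_cons, Multiset.filter_cons, Multiset.filter_cons, Multiset.card_add,
      Multiset.card_add, Multiset.card_add, ← ih]
    have h := hq x
    by_cases hp : p x <;> by_cases hqx : q x
    · rw [if_pos ⟨hp, hqx⟩, if_neg (fun h' => (h.1 h'.2) hqx), if_pos hp]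
      simp only [Multiset.card_singleton, Multiset.card_zero]
      omega
    · rw [if_neg (fun h' => hqx h'.2), if_pos ⟨hp, h.2 hqx⟩, if_pos hp]
      simp only [Multiset.card_singleton, Multiset.card_zero]
      omega
    · rw [if_neg (fun h' => hp h'.1), if_neg (fun h' => hp h'.1), if_neg hp]
      simp only [Multiset.card_zero]
      omega
    · rw [if_neg (fun h' => hp h'.1), if_neg (fun h' => hp h'.1), if_neg hp]
      simp only [Multiset.card_zero]
      omega

open Classical in
private theorem k8n_count {m : ℕ} [NeZero m] {r : ℕ} (S Sb : Multiset (ZMod m)) (hc : S.card ≤ 8)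
    (hb : ∀ x ∈ Sb, Aln m (addOrderOf x).primeFactors) {n : ℕ} (hna : ¬ Aln m n.primeFactors) :
    cA ((S.filter (Low r) + Sb).filter fun x => r ∣ addOrderOf x) n +
      cB ((S.filter (Low r) + Sb).filter fun x => r ∣ addOrderOf x) n ≤ 8 ∧
    ((∃ p : ℕ, p.Prime ∧ r < p ∧ p ∈ n.primeFactors) →
      cA ((S.filter (Low r) + Sb).filter fun x => r ∣ addOrderOf x) n = 0 ∧
      cB ((S.filter (Low r) + Sb).filter fun x => r ∣ addOrderOf x) n = 0) := by
  have h1 : ∀ x ∈ (S.filter (Low r) + Sb).filter fun x => r ∣ addOrderOf x,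
      n.primeFactors ⊆ (addOrderOf x).primeFactors → x ∈ Sb → False := by
    intro x _ hx hxb
    exact hna (FQ.AlM_mono _ (hb x hxb) _ hx)
  have h2 : (((S.filter (Low r) + Sb).filter fun x => r ∣ addOrderOf x).filter
      fun x => n.primeFactors ⊆ (addOrderOf x).primeFactors) ≤ S.filter (Low r) := by
    rw [Multiset.filter_filter, Multiset.filter_add]
    have h3 : Sb.filter (fun x => n.primeFactors ⊆ (addOrderOf x).primeFactors ∧ r ∣ addOrderOf x) = 0 := by
      rw [Multiset.filter_eq_nil]
      rintro x hx ⟨h4, -⟩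
      exact hna (FQ.AlM_mono _ (hb x hx) _ h4)
    rw [h3, add_zero]
    exact Multiset.filter_le _ _
  have hAB : cA ((S.filter (Low r) + Sb).filter fun x => r ∣ addOrderOf x) n +
      cB ((S.filter (Low r) + Sb).filter fun x => r ∣ addOrderOf x) n =
      (((S.filter (Low r) + Sb).filter fun x => r ∣ addOrderOf x).filter
      fun x => n.primeFactors ⊆ (addOrderOf x).primeFactors).card := by
    unfold cA cB
    exact k8n_card _ (fun x : ZMod m => n.primeFactors ⊆ (addOrderOf x).primeFactors)
      (fun x => addOrderOf x % 4 ≠ 2) (fun x => addOrderOf x % 4 = 2) _ _ _ fun x => by rw [not_not]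
  refine ⟨?_, ?_⟩
  · rw [hAB]
    exact (Multiset.card_le_card (h2.trans (Multiset.filter_le _ _))).trans hc
  · rintro ⟨p, hp, hrp, hpn⟩
    have h5 : (((S.filter (Low r) + Sb).filter fun x => r ∣ addOrderOf x).filter
      fun x => n.primeFactors ⊆ (addOrderOf x).primeFactors).card = 0 := by
      rw [Multiset.card_eq_zero, Multiset.filter_eq_nil]
      intro x hx h6
      have h7 : x ∈ S.filter (Low r) := by
        have h8 := (Multiset.mem_filter.1 hx).1
        rcases Multiset.mem_add.1 h8 with h9 | h9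
        · exact h9
        · exact absurd h9 fun h => h1 x hx h6 h
      have h8 := (Multiset.mem_filter.1 h7).2 p hp (Nat.dvd_of_mem_primeFactors (h6 hpn))
      omega
    rw [← hAB] at h5
    omega

open Classical in
theorem kp8N {m : ℕ} [NeZero m] (hm : 2 ∣ m) (hex : ∀ c ∈ exc, ¬ c ∣ m) {r : ℕ} (hr : r.Prime)
    (hr11 : 11 ≤ r) {U : Type} [AddCommGroup U] (R : UDatum m r U) (S Sb : Multiset (ZMod m))
    (hc : S.card ≤ 8) (hb : ∀ x ∈ Sb, Aln m (addOrderOf x).primeFactors)
    (hW : ∀ t : (ZMod m)ˣ,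
      ((S.filter (Low r) + Sb).map fun x => sw ((t : ZMod m) * x)).sum = 0)
    {n : ℕ} [NeZero n] (hn : Uni m n) (hrn : r ∣ n) (hna : ¬ Aln m n.primeFactors) :
    Kp R.toRDatum n (GG ((S.filter (Low r) + Sb).filter fun x => r ∣ addOrderOf x) R.F) := by
  have hn0 : n ≠ 0 := NeZero.ne n
  intro N hN k hk g
  by_cases h4 : n % 4 = 2
  · exact k8n_two hr11 h4 N k hk g
  have hC := cert hr (by omega) hm R ((S.filter (Low r) + Sb).filter fun x => r ∣ addOrderOf x)
    (fun x hx => (Multiset.mem_filter.1 hx).2) (fun h hh => inv_act hr (by omega) R _ hW h hh) hn hrn N hN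
  obtain ⟨hAB, hAB0⟩ := k8n_count (r := r) S Sb hc hb hna
  obtain ⟨A, hA⟩ : ∃ A, A = cA ((S.filter (Low r) + Sb).filter fun x => r ∣ addOrderOf x) n := ⟨_, rfl⟩
  obtain ⟨B, hB⟩ : ∃ B, B = cB ((S.filter (Low r) + Sb).filter fun x => r ∣ addOrderOf x) n := ⟨_, rfl⟩
  rw [← hA, ← hB] at hC hAB hAB0
  have hmem : ∀ l : ℕ, l.Prime → l ∣ n → l ≠ r → l ∈ tps n r := fun l hl hln hlr =>
    mem_erase.2 ⟨hlr, Nat.mem_primeFactors.2 ⟨hl, hln, hn0⟩⟩
  have htp : ∀ l ∈ tps n r, l.Prime ∧ l ∣ n ∧ l ≠ r := fun l hl =>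
    ⟨Nat.prime_of_mem_primeFactors (mem_of_mem_erase hl),
      Nat.dvd_of_mem_primeFactors (mem_of_mem_erase hl), (mem_erase.1 hl).1⟩
  -- a larger prime
  by_cases hbig : ∃ p : ℕ, p.Prime ∧ r < p ∧ p ∈ n.primeFactors
  · obtain ⟨h1, h2⟩ := hAB0 hbig
    refine kp_triv hC ?_ k hk g
    rw [h1, h2]
    split_ifs <;> omega
  push Not at hbig
  have hle : ∀ l ∈ tps n r, l < r := by
    intro l hl
    obtain ⟨h1, h2, h3⟩ := htp l hl
    have h5 : ¬ r < l := fun h => hbig l h1 h (mem_of_mem_erase hl)
    omega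
  -- the exclusion of pairs
  have hexc : ∀ c d : ℕ, d ∈ exc → c.Coprime r → c * r = d → c ∣ n → False := by
    intro c d hd hcr hcd hcn
    exact hex d hd (hcd ▸ (hcr.mul_dvd_of_dvd_of_dvd hcn hrn).trans hn.1)
  have hempty : tps n r ⊆ ({3} : Finset ℕ) → 3 ∣ n := by
    intro hsub
    by_contra h3
    apply hna
    have h5 : n.primeFactors ⊆ {r} := by
      intro l hl
      rw [mem_singleton]
      by_contra hlr
      have h6 := hsub (mem_erase.2 ⟨hlr, hl⟩ : l ∈ tps n r)
      rw [mem_singleton] at h6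
      exact h3 (h6 ▸ Nat.dvd_of_mem_primeFactors hl)
    refine Or.inr ⟨(card_le_card h5).trans (by rw [card_singleton]; norm_num), ?_⟩
    intro p hp q hq hpq
    have h6 := mem_singleton.1 (h5 hp)
    have h7 := mem_singleton.1 (h5 hq)
    omega
  have hcop : ∀ c : ℕ, 0 < c → c < r → c.Coprime r := fun c h0 hcr =>
    ((Nat.Prime.coprime_iff_not_dvd hr).2 fun h => absurd (Nat.le_of_dvd h0 h) (by omega)).symm
  by_cases h37 : 37 ≤ r
  · refine kp_triv hC ?_ k hk g
    split_ifs <;> omega
  by_cases h19 : 19 ≤ r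
  · by_cases h2 : 2 ∣ n
    · refine kp_triv hC ?_ k hk g
      rw [if_pos h2]
      omega
    · by_cases h5 : ∃ l ∈ tps n r, 5 ≤ l
      · obtain ⟨l, hl, h5l⟩ := h5
        refine kp_alpha hn hC l hl h5l ?_ k hk g
        rw [if_neg h2]
        omega
      · exfalso
        push Not at h5
        have h3 : 3 ∣ n := by
          apply hempty
          intro l hl
          obtain ⟨h6, h7, -⟩ := htp l hl
          have h8 := h5 l hl
          have h9 := h6.two_le
          have h10 : l ≠ 2 := fun h => h2 (h ▸ h7)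
          have h11 : l ≠ 4 := by
            rintro rfl
            exact absurd h6 (by norm_num)
          rw [mem_singleton]
          omega
        have hr' : r = 19 ∨ r = 23 ∨ r = 29 ∨ r = 31 := by
          have h12 : r < 37 := by omega
          interval_cases r <;> first | omega | (exact absurd hr (by norm_num))
        have hco := hcop 3 (by norm_num) (by omega)
        rcases hr' with rfl | rfl | rfl | rfl
        · exact hexc 3 57 (by simp [exc]) hco (by norm_num) h3
        · exact hexc 3 69 (by simp [exc]) hco (by norm_num) h3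
        · exact hexc 3 87 (by simp [exc]) hco (by norm_num) h3
        · exact hexc 3 93 (by simp [exc]) hco (by norm_num) h3
  have hr' : r = 11 ∨ r = 13 ∨ r = 17 := by
    have h12 : r < 19 := by omega
    interval_cases r <;> first | omega | (exact absurd hr (by norm_num))
  by_cases h2 : 2 ∣ n
  · exfalso
    have h44 : 4 ∣ n := by omega
    have hco := hcop 4 (by norm_num) (by omega)
    rcases hr' with rfl | rfl | rfl
    · exact hexc 4 44 (by simp [exc]) hco (by norm_num) h44
    · exact hexc 4 52 (by simp [exc]) hco (by norm_num) h44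
    · exact hexc 4 68 (by simp [exc]) hco (by norm_num) h44
  by_cases h11 : ∃ l ∈ tps n r, 11 ≤ l
  · obtain ⟨l, hl, h11l⟩ := h11
    exact kp_beta hn hC l hl h11l h2 (by omega) k hk g
  exfalso
  push Not at h11
  have h5 : ¬ 5 ∣ n := by
    intro h
    have hco := hcop 5 (by norm_num) (by omega)
    rcases hr' with rfl | rfl | rfl
    · exact hexc 5 55 (by simp [exc]) hco (by norm_num) h
    · exact hexc 5 65 (by simp [exc]) hco (by norm_num) h
    · exact hexc 5 85 (by simp [exc]) hco (by norm_num) h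
  have h7 : ¬ 7 ∣ n := by
    intro h
    have hco := hcop 7 (by norm_num) (by omega)
    rcases hr' with rfl | rfl | rfl
    · exact hexc 7 77 (by simp [exc]) hco (by norm_num) h
    · exact hexc 7 91 (by simp [exc]) hco (by norm_num) h
    · exact hexc 7 119 (by simp [exc]) hco (by norm_num) h
  have hsub : tps n r ⊆ ({3} : Finset ℕ) := by
    intro l hl
    obtain ⟨h6, h7', -⟩ := htp l hl
    have h8 := h11 l hl
    rw [mem_singleton]
    interval_cases l
    all_goals first
      | rfl
      | exact absurd h7' h2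
      | exact absurd h7' h5
      | exact absurd h7' h7
      | exact absurd h6 (by norm_num)
  have h3 := hempty hsub
  by_cases h17 : r = 17
  · subst h17
    exact hexc 3 51 (by simp [exc]) (hcop 3 (by norm_num) (by omega)) (by norm_num) h3
  apply hna
  have h9 : n.primeFactors ⊆ {3, r} := by
    intro l hl
    rw [mem_insert, mem_singleton]
    by_cases hlr : l = r
    · exact Or.inr hlr
    · have h6 := hsub (mem_erase.2 ⟨hlr, hl⟩ : l ∈ tps n r)
      exact Or.inl (mem_singleton.1 h6)
  refine Or.inr ⟨(card_le_card h9).trans (card_le_two.trans (by norm_num)), ?_⟩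
  intro p hp q hq hpq
  have h6 := h9 hp
  have h7 := h9 hq
  rw [mem_insert, mem_singleton] at h6 h7
  have h8 : p = 3 ∧ q = r := by omega
  left
  left
  rw [h8.1, h8.2]
  rcases hr' with rfl | rfl | rfl
  · simp
  · simp
  · exact absurd rfl h17

end Pool.Agent.FHD
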