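import Pool.Agent.FHD.Avg

/-!
# FHD-No174: an odd number of elements of order `174` and an element of order prime to `29`

Plan. Let `n = qq m 29`, sum the equations over `t * (k * k')`, `k ∈ Kl m 2`, `k' ∈ Kl m 3`. For
`x ∈ T` (order `174 = 2 * 3 * 29`) `Kl_avg` twice (for `g = sw (t ·)`, `isDist_sw_unit`) gives
`(qq m 2 / 2) * (qq m 3 / 3) * (s(6 x) - s(3 x₂) - s(2 x₃) + s(x₂₃))` with `s z = sw (t z)`,
`x₂ = ide m 2 * x`, `x₃ = ide m 3 * x`, `x₂₃ = ide m 2 * (ide m 3 * x)`; all four elements have order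
`29`, their labels are `a, a / 2, a / 3, a / 6` modulo `29`, `a = lab x`. With `dist_exact` this is
`∑ w : (ZMod n)ˣ, N w * sw (t * emb m n w)`,
`N w = c * (Y (rr w) - Y (2 rr w) - Y (3 rr w) + Y (6 rr w))`, `Y b` the number of `x ∈ T` with
`lab x ≡ b [MOD 29]`, `c > 0`. The term of `p` is a function of `t` invariant under the
`κ` with `κ z = z` for all `z` of order prime to `29`. `RMixed_gen` (`Pool/Agent/FS/RMixed.lean`) for
`ls = [29]`: `M g = N g - N (-1 * g)` is constant, so zero (`M (-1 * g) = - M g`). With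
`Z b = Y b - Y (-b)` on `(ℤ/29)ˣ`: `Z b - Z (2 b) - Z (3 b) + Z (6 b) = 0`. `Z₁ b = Z b - Z (3 b)` is
invariant under `2`, so under `2 ^ 14 = -1`, and odd, so zero; then `Z` is invariant under `3`, so
under `3 ^ 14 = -1`, and odd, so zero. So `Y b = Y (-b)` and `T.card = ∑ b, Y b` is even.
-/

set_option autoImplicit false

namespace Pool.Agent.FHD

open Finset Pool.Agent.FS
open Pool.Agent.Helper9.Fermat (fib mem_fib)

private theorem n_pow_inv (c : ZMod 29) (hc : c ≠ 0) (Z : ZMod 29 → ℤ)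
    (h : ∀ b : ZMod 29, b ≠ 0 → Z (c * b) = Z b) :
    ∀ (k : ℕ) (b : ZMod 29), b ≠ 0 → Z (c ^ k * b) = Z b := by
  have : Fact (Nat.Prime 29) := ⟨by norm_num⟩
  intro k
  induction k with
  | zero => intro b _; rw [pow_zero, one_mul]
  | succ k ih =>
    intro b hb
    have h1 : c ^ (k + 1) * b = c * (c ^ k * b) := by ring
    rw [h1, h _ (mul_ne_zero (pow_ne_zero k hc) hb), ih b hb]

private theorem n_pow2 : (2 : ZMod 29) ^ 14 = -1 := by decide

private theorem n_pow3 : (3 : ZMod 29) ^ 14 = -1 := by decide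

private theorem n_two : (2 : ZMod 29) ≠ 0 := by decide

private theorem n_three : (3 : ZMod 29) ≠ 0 := by decide

private theorem n_neg : ∀ b : ZMod 29, b ≠ 0 → -b ≠ b := by decide

/-- the combinatorial part -/
theorem even_of_29 (Y : ZMod 29 → ℤ)
    (h : ∀ b : ZMod 29, b ≠ 0 → (Y b - Y (-b)) - (Y (2 * b) - Y (-(2 * b))) -
      (Y (3 * b) - Y (-(3 * b))) + (Y (6 * b) - Y (-(6 * b))) = 0) :
    Even (∑ b ∈ univ.filter (fun b : ZMod 29 => b ≠ 0), Y b) := by
  -- first step
  have s1 : ∀ b : ZMod 29, b ≠ 0 →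
      (Y b - Y (-b)) - (Y (3 * b) - Y (-(3 * b))) = 0 := by
    intro b hb
    have k1 := n_pow_inv 2 n_two (fun b => (Y b - Y (-b)) - (Y (3 * b) - Y (-(3 * b)))) (by
      intro b hb
      have e1 : (3 : ZMod 29) * (2 * b) = 6 * b := by ring
      have h1 := h b hb
      simp only [e1]
      linarith) 14 b hb
    simp only [n_pow2, neg_mul, one_mul, mul_neg, neg_neg] at k1
    linarith
  have s2 : ∀ b : ZMod 29, b ≠ 0 → Y b = Y (-b) := by
    intro b hb
    have k1 := n_pow_inv 3 n_three (fun b => Y b - Y (-b)) (by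
      intro b hb
      have h1 := s1 b hb
      linarith) 14 b hb
    simp only [n_pow3, neg_mul, one_mul, neg_neg] at k1
    linarith
  rw [even_iff_two_dvd]
  have h4 : ((∑ b ∈ univ.filter (fun b : ZMod 29 => b ≠ 0), Y b : ℤ) : ZMod 2) = 0 := by
    rw [Int.cast_sum]
    refine Finset.sum_involution (fun b _ => -b) ?_ ?_ ?_ ?_
    · intro b hb
      have h5 := s2 b (mem_filter.1 hb).2
      rw [← h5]
      exact CharTwo.add_self_eq_zero _
    · intro b hb _
      exact n_neg b (mem_filter.1 hb).2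
    · intro b hb
      rw [mem_filter]
      exact ⟨mem_univ _, neg_ne_zero.2 (mem_filter.1 hb).2⟩
    · intro b _
      exact neg_neg b
  have h5 := (ZMod.intCast_zmod_eq_zero_iff_dvd _ 2).1 h4
  exact_mod_cast h5

/-! ### averages -/

open Classical in
/-- the average over `Kl m l` -/
private noncomputable def av (m l : ℕ) [NeZero m] (φ : (ZMod m)ˣ → ℤ) (t : (ZMod m)ˣ) : ℤ :=
  ∑ k : Kl m l, φ (t * (k : (ZMod m)ˣ))

section

variable {m : ℕ} [NeZero m]

private theorem av_add (l : ℕ) (φ ψ : (ZMod m)ˣ → ℤ) (t : (ZMod m)ˣ) :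
    av m l (fun t => φ t + ψ t) t = av m l φ t + av m l ψ t := by
  unfold av
  exact sum_add_distrib

private theorem av_cs (l : ℕ) (c : ℤ) (φ ψ : (ZMod m)ˣ → ℤ) (t : (ZMod m)ˣ) :
    av m l (fun t => c * (φ t - ψ t)) t = c * (av m l φ t - av m l ψ t) := by
  unfold av
  rw [← sum_sub_distrib, mul_sum]

private theorem av_zero (l : ℕ) (t : (ZMod m)ˣ) : av m l (fun _ => 0) t = 0 := by
  unfold av
  exact sum_const_zero

private theorem av_sum {ι : Type} (l : ℕ) (f : ι → (ZMod m)ˣ → ℤ) (T : Multiset ι)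
    (t : (ZMod m)ˣ) :
    av m l (fun t => (T.map fun x => f x t).sum) t = (T.map fun x => av m l (f x) t).sum := by
  induction T using Multiset.induction_on with
  | empty => simp only [Multiset.map_zero, Multiset.sum_zero]; exact av_zero l t
  | cons a T ih =>
    simp only [Multiset.map_cons, Multiset.sum_cons]
    rw [av_add, ih]

/-- `av` commutes with translations, so invariance is kept -/
private theorem av_inv (l : ℕ) (κ : (ZMod m)ˣ) (φ : (ZMod m)ˣ → ℤ)
    (h : ∀ t, φ (κ * t) = φ t) (t : (ZMod m)ˣ) : av m l φ (κ * t) = av m l φ t := by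
  unfold av
  refine sum_congr rfl fun k _ => ?_
  rw [mul_assoc, h]

private theorem n_ordProj {l c : ℕ} (hl : l.Prime) (hc : ¬ l ∣ c) :
    ordProj[l] (l * c) = l ∧ ordCompl[l] (l * c) = c := by
  have hc0 : c ≠ 0 := by rintro rfl; exact hc (dvd_zero l)
  have h1 : (l * c).factorization l = 1 := by
    rw [Nat.factorization_mul hl.ne_zero hc0]
    simp [hl.factorization_self, Nat.factorization_eq_zero_of_not_dvd hc]
  rw [h1, pow_one]
  exact ⟨rfl, Nat.mul_div_cancel_left c hl.pos⟩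

private theorem av_sw {l c : ℕ} (hl : l.Prime) (hc : ¬ l ∣ c) (x : ZMod m)
    (hx : addOrderOf x = l * c) (t : (ZMod m)ˣ) :
    av m l (fun t => sw ((t : ZMod m) * x)) t = ((qq m l / l : ℕ) : ℤ) *
      (sw ((t : ZMod m) * ((l : ZMod m) * x)) - sw ((t : ZMod m) * (ide m l * x))) := by
  classical
  have h1 := Kl_avg (isDist_sw_unit t) hl x (hx ▸ Dvd.intro c rfl)
  rw [hx, (n_ordProj hl hc).1, Nat.div_self hl.pos, Nat.cast_one, one_mul, nsmul_eq_mul,
    finsum_eq_sum_of_fintype] at h1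
  unfold av
  rw [← h1]
  refine sum_congr rfl fun k _ => ?_
  beta_reduce
  rw [Units.val_mul, mul_assoc]

private theorem n_ide_order {l c : ℕ} (hl : l.Prime) (hc : ¬ l ∣ c) (x : ZMod m)
    (hx : addOrderOf x = l * c) : addOrderOf (ide m l * x) = c := by
  rw [addOrderOf_ide_mul l hl, hx, (n_ordProj hl hc).2]

private theorem n_mul_order {l c : ℕ} (hl : l.Prime) (x : ZMod m)
    (hx : addOrderOf x = l * c) : addOrderOf ((l : ZMod m) * x) = c := by
  rw [(lab_mul_dvd x l (hx ▸ Dvd.intro c rfl)).1, hx, Nat.mul_div_cancel_left c hl.pos]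

/-! ### the elements of order `29` -/

/-- the indicator of `d w ≡ lab x` modulo `29` -/
private noncomputable def ch (m n : ℕ) [NeZero n] (x : ZMod m) (d : ℕ) (w : (ZMod n)ˣ) : ℤ :=
  if (lab x : ZMod 29) = (d : ZMod 29) * (rr w : ZMod 29) then 1 else 0

private theorem n_sw29 {n : ℕ} [NeZero n] (hn : Uni m n) (hpf : n.primeFactors = {29})
    (x z : ZMod m) (d : ℕ) (hd : d.Coprime 29) (hz : addOrderOf z = 29)
    (hzx : (lab ((d : ZMod m) * z) : ZMod 29) = (lab x : ZMod 29)) (t : (ZMod m)ˣ) :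
    sw ((t : ZMod m) * z) = ∑ w : (ZMod n)ˣ, ch m n x d w * sw ((t : ZMod m) * emb m n w) := by
  have h29 : Nat.Prime 29 := by norm_num
  have : Fact (Nat.Prime 29) := ⟨h29⟩
  rw [dist_exact (isDist_sw_unit t) hn z (by
    rw [hz, hpf, h29.primeFactors])]
  refine sum_congr rfl fun w _ => ?_
  have h1 : (lab ((d : ZMod m) * z) : ZMod 29) = (d : ZMod 29) * (lab z : ZMod 29) := by
    have h2 := (lab_mul_coprime z d (hz ▸ hd)).2
    rw [hz, ← ZMod.natCast_eq_natCast_iff] at h2
    rw [h2, Nat.cast_mul]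
  have hd0 : (d : ZMod 29) ≠ 0 := by
    intro h
    rw [ZMod.natCast_eq_zero_iff] at h
    exact (Nat.Prime.coprime_iff_not_dvd h29).1 hd.symm h
  have h3 : rr w ≡ lab z [MOD addOrderOf z] ↔
      (lab x : ZMod 29) = (d : ZMod 29) * (rr w : ZMod 29) := by
    rw [hz, ← ZMod.natCast_eq_natCast_iff, ← hzx, h1]
    constructor
    · intro h
      rw [h]
    · intro h
      exact (mul_left_cancel₀ hd0 h).symm
  unfold ch
  by_cases h : rr w ≡ lab z [MOD addOrderOf z]
  · rw [if_pos h, if_pos (h3.1 h), one_mul]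
  · rw [if_neg h, if_neg (fun h' => h (h3.2 h')), zero_mul]

/-- the two averages of a term -/
private theorem n_av2 {n : ℕ} [NeZero n] (hn : Uni m n) (hpf : n.primeFactors = {29})
    (x : ZMod m) (hx : addOrderOf x = 174) (t : (ZMod m)ˣ) :
    av m 3 (av m 2 fun t => sw ((t : ZMod m) * x)) t =
      ∑ w : (ZMod n)ˣ, (((qq m 2 / 2 : ℕ) : ℤ) * ((qq m 3 / 3 : ℕ) : ℤ) *
        (ch m n x 1 w - ch m n x 3 w - ch m n x 2 w + ch m n x 6 w)) *
          sw ((t : ZMod m) * emb m n w) := by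
  have h2 : Nat.Prime 2 := Nat.prime_two
  have h3 : Nat.Prime 3 := Nat.prime_three
  have n2 : ¬ 2 ∣ 87 := by norm_num
  have n3 : ¬ 3 ∣ 29 := by norm_num
  have n2' : ¬ 2 ∣ 29 := by norm_num
  have hx2 : addOrderOf x = 2 * 87 := hx
  -- the four elements
  have oa : addOrderOf ((2 : ℕ) * x : ZMod m) = 3 * 29 := n_mul_order h2 x hx2
  have ob : addOrderOf (ide m 2 * x) = 3 * 29 := n_ide_order h2 n2 x hx2
  have o1 : addOrderOf ((3 : ℕ) * ((2 : ℕ) * x) : ZMod m) = 29 := n_mul_order h3 _ oa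
  have o2 : addOrderOf (ide m 3 * ((2 : ℕ) * x : ZMod m)) = 29 := n_ide_order h3 n3 _ oa
  have o3 : addOrderOf ((3 : ℕ) * (ide m 2 * x) : ZMod m) = 29 := n_mul_order h3 _ ob
  have o4 : addOrderOf (ide m 3 * (ide m 2 * x)) = 29 := n_ide_order h3 n3 _ ob
  have f3 : ide m 3 * ((3 : ℕ) * ((2 : ℕ) * x) : ZMod m) = (3 : ℕ) * ((2 : ℕ) * x) :=
    ide_mul_eq_self 3 h3 _ (o1 ▸ n3)
  have f2 : ide m 2 * ((3 : ℕ) * ((2 : ℕ) * x) : ZMod m) = (3 : ℕ) * ((2 : ℕ) * x) :=
    ide_mul_eq_self 2 h2 _ (o1 ▸ n2')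
  have l1 : (lab ((3 : ℕ) * ((2 : ℕ) * x) : ZMod m) : ZMod 29) = (lab x : ZMod 29) := by
    have h6 := (lab_mul_dvd x 6 (hx ▸ (by norm_num : 6 ∣ 174))).2
    rw [hx, ← ZMod.natCast_eq_natCast_iff] at h6
    have e : ((6 : ℕ) * x : ZMod m) = (3 : ℕ) * ((2 : ℕ) * x) := by
      push_cast
      ring
    rw [e] at h6
    exact h6
  -- the averages
  have e1 : (av m 2 fun t => sw ((t : ZMod m) * x)) = fun t : (ZMod m)ˣ =>
      ((qq m 2 / 2 : ℕ) : ℤ) * (sw ((t : ZMod m) * (((2 : ℕ) : ZMod m) * x)) -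
        sw ((t : ZMod m) * (ide m 2 * x))) := by
    funext t
    exact av_sw h2 n2 x hx2 t
  rw [e1, av_cs, av_sw h3 n3 _ oa, av_sw h3 n3 _ ob,
    n_sw29 hn hpf x _ 1 (by norm_num) o1 (by rw [Nat.cast_one, one_mul]; exact l1) t,
    n_sw29 hn hpf x _ 3 (by norm_num) o2 (by
      rw [← l1]
      congr 2
      rw [← f3]
      ring) t,
    n_sw29 hn hpf x _ 2 (by norm_num) o3 (by
      rw [← l1]
      congr 2
      rw [← f2]
      ring) t,
    n_sw29 hn hpf x _ 6 (by norm_num) o4 (by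
      rw [← l1]
      congr 2
      rw [← f3, ← f2]
      push_cast
      ring) t]
  simp only [mul_sum, ← sum_sub_distrib]
  refine sum_congr rfl fun w _ => ?_
  ring

/-- the sum over `T` -/
private theorem n_msum {m n : ℕ} [NeZero n] (c : ℤ) (T : Multiset (ZMod m))
    (f : ZMod m → (ZMod n)ˣ → ℤ) (s : (ZMod n)ˣ → ℤ) :
    (T.map fun x => ∑ w : (ZMod n)ˣ, (c * f x w) * s w).sum =
      ∑ w : (ZMod n)ˣ, (c * (T.map fun x => f x w).sum) * s w := by
  induction T using Multiset.induction_on with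
  | empty => simp
  | cons a T ih =>
    simp only [Multiset.map_cons, Multiset.sum_cons]
    rw [ih, ← sum_add_distrib]
    refine sum_congr rfl fun w _ => ?_
    ring

/-- the number of `x ∈ T` with the label `b` -/
private noncomputable def nY {m : ℕ} (T : Multiset (ZMod m)) (b : ZMod 29) : ℤ :=
  (T.map fun x => if (lab x : ZMod 29) = b then (1 : ℤ) else 0).sum

private theorem n_nY {m n : ℕ} [NeZero n] (T : Multiset (ZMod m)) (w : (ZMod n)ˣ) :
    (T.map fun x => ch m n x 1 w - ch m n x 3 w - ch m n x 2 w + ch m n x 6 w).sum =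
      nY T (rr w : ZMod 29) - nY T (3 * (rr w : ZMod 29)) - nY T (2 * (rr w : ZMod 29)) +
        nY T (6 * (rr w : ZMod 29)) := by
  unfold nY
  induction T using Multiset.induction_on with
  | empty => simp
  | cons a T ih =>
    simp only [Multiset.map_cons, Multiset.sum_cons]
    rw [ih]
    unfold ch
    simp only [Nat.cast_one, one_mul, Nat.cast_ofNat]
    ring

private theorem n_card (T : Multiset (ZMod m)) (hT : ∀ x ∈ T, addOrderOf x = 174) :
    ∑ b ∈ univ.filter (fun b : ZMod 29 => b ≠ 0), nY T b = (T.card : ℤ) := by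
  unfold nY
  induction T using Multiset.induction_on with
  | empty => simp
  | cons a T ih =>
    simp only [Multiset.map_cons, Multiset.sum_cons]
    rw [sum_add_distrib, ih (fun x hx => hT x (Multiset.mem_cons_of_mem hx)),
      Multiset.card_cons]
    have h1 : (lab a : ZMod 29) ≠ 0 := by
      intro h
      rw [ZMod.natCast_eq_zero_iff] at h
      have h2 := lab_coprime a
      rw [hT a (Multiset.mem_cons_self a T)] at h2
      have h3 := Nat.dvd_gcd h (by norm_num : 29 ∣ 174)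
      rw [h2] at h3
      exact absurd h3 (by norm_num)
    rw [sum_ite_eq]
    have h4 : (lab a : ZMod 29) ∈ univ.filter (fun b : ZMod 29 => b ≠ 0) :=
      mem_filter.2 ⟨mem_univ _, h1⟩
    rw [if_pos h4]
    push_cast
    ring

end

theorem no_174 {m : ℕ} [NeZero m] (h12 : 12 ∣ m) (T : Multiset (ZMod m))
    (hT : ∀ x ∈ T, addOrderOf x = 174) (hodd : Odd T.card) (p : ZMod m)
    (hp : ¬ 29 ∣ addOrderOf p)
    (hW : ∀ t : (ZMod m)ˣ, ((p ::ₘ T).map fun x => sw ((t : ZMod m) * x)).sum = 0) : False := by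
  have h29 : Nat.Prime 29 := by norm_num
  have : Fact (Nat.Prime 29) := ⟨h29⟩
  -- `29 ∣ m`
  have h29m : 29 ∣ m := by
    have h1 : T.card ≠ 0 := by
      intro h
      rw [h] at hodd
      exact absurd hodd (by decide)
    obtain ⟨x, hx⟩ := Multiset.card_pos_iff_exists_mem.1 (Nat.pos_of_ne_zero h1)
    have h2 := RUp_order_dvd x
    rw [hT x hx] at h2
    exact (by norm_num : 29 ∣ 174).trans h2
  obtain ⟨a, ha, -⟩ := RNorm_qq_div (m := m) 29 h29 h29m
  set n := qq m 29 with hndef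
  have : NeZero n := ⟨(RNorm_qq_pos (m := m) 29).ne'⟩
  have hn : Uni m n := ⟨RNorm_qq_dvd 29, RNorm_qq_coprime h29⟩
  have hpf : n.primeFactors = {29} := by
    rw [ha, Nat.primeFactors_prime_pow (by omega) h29]
  have h29n : 29 ∣ n := by
    rw [ha, pow_succ]
    exact Dvd.intro_left _ rfl
  -- the constants
  have hm0 : m ≠ 0 := NeZero.ne m
  have hc2 : 0 < qq m 2 / 2 := by
    obtain ⟨b, -, hb⟩ := RNorm_qq_div (m := m) 2 Nat.prime_two ((by norm_num : 2 ∣ 12).trans h12)
    rw [hb]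
    positivity
  have hc3 : 0 < qq m 3 / 3 := by
    obtain ⟨b, -, hb⟩ := RNorm_qq_div (m := m) 3 Nat.prime_three ((by norm_num : 3 ∣ 12).trans h12)
    rw [hb]
    positivity
  set c : ℤ := ((qq m 2 / 2 : ℕ) : ℤ) * ((qq m 3 / 3 : ℕ) : ℤ) with hc
  have hc0 : c ≠ 0 := by
    rw [hc]
    have h1 : (0 : ℤ) < ((qq m 2 / 2 : ℕ) : ℤ) := by exact_mod_cast hc2
    have h2 : (0 : ℤ) < ((qq m 3 / 3 : ℕ) : ℤ) := by exact_mod_cast hc3
    positivity
  -- the function `N`
  set N : (ZMod n)ˣ → ℤ := fun w => c * (nY T (rr w : ZMod 29) - nY T (3 * (rr w : ZMod 29)) -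
    nY T (2 * (rr w : ZMod 29)) + nY T (6 * (rr w : ZMod 29))) with hN
  set β : (ZMod m)ˣ → ℤ := av m 3 (av m 2 fun t => sw ((t : ZMod m) * p)) with hβd
  have hW' : ∀ t : (ZMod m)ˣ,
      ∑ w : (ZMod n)ˣ, N w * sw ((t : ZMod m) * emb m n w) + β t = 0 := by
    intro t
    have h1 : av m 3 (av m 2 fun t : (ZMod m)ˣ =>
        ((p ::ₘ T).map fun x => sw ((t : ZMod m) * x)).sum) t = 0 := by
      have h2 : (fun t : (ZMod m)ˣ => ((p ::ₘ T).map fun x => sw ((t : ZMod m) * x)).sum) =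
          fun _ => 0 := funext hW
      have h3 : av m 2 (fun _ : (ZMod m)ˣ => 0) = fun _ => 0 := funext (av_zero 2)
      rw [h2, h3, av_zero]
    have h4 : (av m 2 fun t : (ZMod m)ˣ =>
        ((p ::ₘ T).map fun x => sw ((t : ZMod m) * x)).sum) = fun t =>
        ((p ::ₘ T).map fun x => av m 2 (fun t => sw ((t : ZMod m) * x)) t).sum := by
      funext t
      exact av_sum 2 (fun (x : ZMod m) (t : (ZMod m)ˣ) => sw ((t : ZMod m) * x)) (p ::ₘ T) t
    rw [h4, av_sum 3 (fun (x : ZMod m) => av m 2 fun t : (ZMod m)ˣ => sw ((t : ZMod m) * x))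
      (p ::ₘ T) t, Multiset.map_cons, Multiset.sum_cons] at h1
    have h5 : (T.map fun x => av m 3 (av m 2 fun t : (ZMod m)ˣ => sw ((t : ZMod m) * x)) t).sum =
        ∑ w : (ZMod n)ˣ, N w * sw ((t : ZMod m) * emb m n w) := by
      rw [Multiset.map_congr rfl (fun x hx => n_av2 hn hpf x (hT x hx) t), n_msum]
      refine sum_congr rfl fun w _ => ?_
      rw [n_nY]
    rw [h5] at h1
    linarith
  have hβ : ∀ κs : List (ZMod m)ˣ,
      (∀ l ∈ [29], ∃ κ ∈ κs, ∀ z : ZMod m, ¬ l ∣ addOrderOf z → (κ : ZMod m) * z = z) →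
      difs κs β = 0 := by
    intro κs h
    obtain ⟨κ, hκ, hz⟩ := h 29 (by simp)
    apply Mixed_difs_kill hκ
    funext t
    have h1 : β (κ * t) = β t := by
      rw [hβd]
      apply av_inv
      intro t
      apply av_inv
      intro t
      have h2 := hz p hp
      rw [Units.val_mul, mul_comm (κ : ZMod m), mul_assoc, h2]
    unfold dif
    rw [h1, sub_self]
    rfl
  -- the relation
  have hcompl : ordCompl[29] n = 1 := by
    have h1 : n.factorization 29 = a + 1 := by
      rw [ha, h29.factorization_pow, Finsupp.single_eq_same]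
    rw [h1, ← ha]
    exact Nat.div_self (RNorm_qq_pos (m := m) 29)
  have hM := fun k g => RMixed_gen hn.1 hn.2 [29]
    (by
      intro l hl
      rw [List.mem_singleton] at hl
      subst hl
      exact ⟨h29, h29n⟩)
    (by
      intro l hl hln
      have h1 : l ∈ n.primeFactors := Nat.mem_primeFactors.2 ⟨hl, hln, NeZero.ne n⟩
      rw [hpf, mem_singleton] at h1
      rw [h1]
      simp) N β hβ hW' [k]
    (List.Forall₂.cons (mem_Kl.2 (by rw [hcompl]; exact Nat.modEq_one)) List.Forall₂.nil) g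
  have hNg : ∀ g : (ZMod n)ˣ, N g = N (-1 * g) := by
    intro g
    have h1 := hM (-1) g
    rw [Mixed_difs_cons, Mixed_difs_nil] at h1
    unfold dif at h1
    beta_reduce at h1
    have h2 : (-1 : (ZMod n)ˣ) * (-1 * g) = g := by
      rw [← mul_assoc]
      simp
    rw [h2] at h1
    linarith
  have hneg : ∀ g : (ZMod n)ˣ, (rr (-1 * g) : ZMod 29) = -(rr g : ZMod 29) := by
    intro g
    have h1 := (rr_neg g).of_dvd h29n
    rw [← ZMod.natCast_eq_natCast_iff, Nat.cast_add, Nat.cast_zero] at h1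
    exact eq_neg_of_add_eq_zero_left h1
  have hev := even_of_29 (nY T) (by
    intro b hb
    obtain ⟨g, hg⟩ := ZMod.unitsMap_surjective h29n (Units.mk0 b hb)
    have h1 : (rr g : ZMod 29) = b := by
      have h2 := congrArg (fun u : (ZMod 29)ˣ => (u : ZMod 29)) hg
      change (ZMod.castHom h29n (ZMod 29)) (g : ZMod n) = b at h2
      rw [ZMod.castHom_apply, ← ZMod.natCast_val] at h2
      exact h2
    have h3 := hNg g
    rw [hN] at h3
    beta_reduce at h3
    rw [hneg g, h1] at h3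
    have h4 := mul_left_cancel₀ hc0 h3
    simp only [mul_neg] at h4
    linarith)
  rw [n_card T hT] at hev
  have h5 : Even T.card := by exact_mod_cast hev
  exact (Nat.not_even_iff_odd.2 hodd) h5

end Pool.Agent.FHD
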