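import Pool.Agent.FHD.Kp29A
import Pool.Agent.FHD.No174

/-!
# FHD-Kp29: the level `{3, 29}` for at most eight elements

The values of the distribution `ω` are at most `2 V`, `V = |ω (m / 3)|`, and at most `V` if the
order is not `6`; by `om_29` the values at the elements of order divisible by `29` are at most
`V / 7`, and at most `V / 14` if the order is not `174`. A sum of such values for a part of a Hodge
character with at most eight elements is smaller than `V`; the extreme case is `no_174`.
-/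

set_option autoImplicit false

namespace Pool.Agent.FHD

open Finset Pool.Agent.FS
open Pool.Agent.Helper9.Fermat (fib mem_fib)

private theorem kb_ord0 {m : ℕ} [NeZero m] (x : ZMod m) : addOrderOf x ≠ 0 :=
  (addOrderOf_pos x).ne'

private theorem kb_val {m : ℕ} [NeZero m] {ω : ZMod m → ℤ}
    (hval : ∀ y : ZMod m, (addOrderOf y).primeFactors = {3} →
      ((addOrderOf y / 3 : ℕ) : ℤ) * |ω y| = |ω ((m / 3 : ℕ) : ZMod m)|) (y : ZMod m)
    (hy : (addOrderOf y).primeFactors = {3}) (c : ℕ) (hc : 3 * c ∣ addOrderOf y) :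
    (c : ℤ) * |ω y| ≤ |ω ((m / 3 : ℕ) : ZMod m)| := by
  rw [← hval y hy]
  have h1 : c ≤ addOrderOf y / 3 := by
    have h2 := Nat.le_of_dvd (addOrderOf_pos y) hc
    omega
  have h3 : (c : ℤ) ≤ ((addOrderOf y / 3 : ℕ) : ℤ) := by exact_mod_cast h1
  exact mul_le_mul_of_nonneg_right h3 (abs_nonneg _)

private theorem kb_three {m : ℕ} [NeZero m] {y : ZMod m}
    (hy : (addOrderOf y).primeFactors = {3}) : 3 ∣ addOrderOf y ∧ ¬ 2 ∣ addOrderOf y := by
  refine ⟨Nat.dvd_of_mem_primeFactors (by rw [hy]; exact Finset.mem_singleton_self 3), ?_⟩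
  intro h
  have h1 : 2 ∈ (addOrderOf y).primeFactors :=
    Nat.mem_primeFactors.2 ⟨Nat.prime_two, h, kb_ord0 y⟩
  rw [hy, Finset.mem_singleton] at h1
  omega

private theorem kb_bound {m : ℕ} [NeZero m] {ω : ZMod m → ℤ} (hω : Pure m {3} ω)
    (hval : ∀ y : ZMod m, (addOrderOf y).primeFactors = {3} →
      ((addOrderOf y / 3 : ℕ) : ℤ) * |ω y| = |ω ((m / 3 : ℕ) : ZMod m)|) (x : ZMod m) :
    |ω x| ≤ 2 * |ω ((m / 3 : ℕ) : ZMod m)| ∧
      (addOrderOf x % 4 ≠ 2 → |ω x| ≤ |ω ((m / 3 : ℕ) : ZMod m)|) := by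
  have hT : ∀ p ∈ ({3} : Finset ℕ), p.Prime := by
    intro p hp
    rw [Finset.mem_singleton] at hp
    rw [hp]
    norm_num
  have hV : 0 ≤ |ω ((m / 3 : ℕ) : ZMod m)| := abs_nonneg _
  have h1 : ∀ y : ZMod m, (addOrderOf y).primeFactors = {3} →
      |ω y| ≤ |ω ((m / 3 : ℕ) : ZMod m)| := by
    intro y hy
    have h := kb_val hval y hy 1 (by rw [mul_one]; exact (kb_three hy).1)
    rw [Nat.cast_one, one_mul] at h
    exact h
  have h2 : ∀ y : ZMod m, (addOrderOf y).primeFactors = {3} →
      |ω (2 * y) - ω y| ≤ 2 * |ω ((m / 3 : ℕ) : ZMod m)| := by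
    intro y hy
    have ho : addOrderOf (2 * y) = addOrderOf y := by
      have h3 : addOrderOf ((2 : ℕ) • y) = addOrderOf y := Nat.Coprime.addOrderOf_nsmul
        ((Nat.Prime.coprime_iff_not_dvd Nat.prime_two).2 (kb_three hy).2).symm
      rw [nsmul_eq_mul, Nat.cast_ofNat] at h3
      exact h3
    have h4 := h1 y hy
    have h5 := h1 (2 * y) (by rw [ho]; exact hy)
    have h6 := abs_sub (ω (2 * y)) (ω y)
    linarith
  refine ⟨?_, fun h => pure_bound hT hω _ hV h1 x h⟩
  by_cases hx : addOrderOf x % 4 = 2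
  · exact pure_bound_two hT hω (by norm_num) _ (by linarith) h2 x hx
  · have h := pure_bound hT hω _ hV h1 x hx
    linarith

theorem om_bound {m : ℕ} [NeZero m] {ω : ZMod m → ℤ} (hω : Pure m {3} ω)
    (hval : ∀ y : ZMod m, (addOrderOf y).primeFactors = {3} →
      ((addOrderOf y / 3 : ℕ) : ℤ) * |ω y| = |ω ((m / 3 : ℕ) : ZMod m)|) (x : ZMod m) :
    |ω x| ≤ 2 * |ω ((m / 3 : ℕ) : ZMod m)| ∧
      (addOrderOf x ≠ 6 → |ω x| ≤ |ω ((m / 3 : ℕ) : ZMod m)|) := by
  have hb := kb_bound hω hval
  refine ⟨(hb x).1, fun h6 => ?_⟩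
  have hV : 0 ≤ |ω ((m / 3 : ℕ) : ZMod m)| := abs_nonneg _
  by_cases hx4 : addOrderOf x % 4 = 2
  · by_cases hx3 : 3 ∣ addOrderOf x
    · by_cases hl : ∃ l : ℕ, l.Prime ∧ 5 ≤ l ∧ l ∣ addOrderOf x
      · obtain ⟨l, hlp, hl5, hlx⟩ := hl
        have hred := hω.red l hlp (by rw [Finset.mem_singleton]; omega) x hlx
        have h1 := (hb (((ordProj[l] (addOrderOf x) : ℕ) : ZMod m) * x)).1
        have h2 := (hb (((ordProj[l] (addOrderOf x) / l : ℕ) : ZMod m) * (ide m l * x))).1
        have h3 : 4 ≤ (ordProj[l] (addOrderOf x)).totient := by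
          obtain ⟨a, ha⟩ : ∃ a, (addOrderOf x).factorization l = a + 1 := by
            refine ⟨(addOrderOf x).factorization l - 1, ?_⟩
            have := hlp.factorization_pos_of_dvd (kb_ord0 x) hlx
            omega
          rw [ha, Nat.totient_prime_pow_succ hlp]
          have h4 : 1 ≤ l ^ a := Nat.one_le_pow _ _ hlp.pos
          have h5 : 4 ≤ l - 1 := by omega
          calc 4 = 1 * 4 := rfl
            _ ≤ l ^ a * (l - 1) := Nat.mul_le_mul h4 h5
        have h3' : (4 : ℤ) ≤ ((ordProj[l] (addOrderOf x)).totient : ℤ) := by exact_mod_cast h3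
        have h4 : ((ordProj[l] (addOrderOf x)).totient : ℤ) * |ω x| ≤
            4 * |ω ((m / 3 : ℕ) : ZMod m)| := by
          have h5 : ((ordProj[l] (addOrderOf x)).totient : ℤ) * |ω x| =
              |((ordProj[l] (addOrderOf x)).totient : ℤ) * ω x| := by
            rw [abs_mul, Nat.abs_cast]
          rw [h5, hred]
          have h6 := abs_sub (ω (((ordProj[l] (addOrderOf x) : ℕ) : ZMod m) * x))
            (ω (((ordProj[l] (addOrderOf x) / l : ℕ) : ZMod m) * (ide m l * x)))
          linarith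
        have h5 : 4 * |ω x| ≤ ((ordProj[l] (addOrderOf x)).totient : ℤ) * |ω x| :=
          mul_le_mul_of_nonneg_right h3' (abs_nonneg _)
        linarith
      · -- the order is twice a power of three
        have h2x : 2 ∣ addOrderOf x := by omega
        have hP : ordProj[2] (addOrderOf x) = 2 := by
          have h1 : (addOrderOf x).factorization 2 = 1 := by
            have h2 := Nat.prime_two.factorization_pos_of_dvd (kb_ord0 x) h2x
            by_contra hne
            have h3 : 2 ≤ (addOrderOf x).factorization 2 := by omega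
            have h4 := (Nat.prime_two.pow_dvd_iff_le_factorization (kb_ord0 x)).2 h3
            norm_num at h4
            omega
          rw [h1, pow_one]
        have hred := hω.red 2 Nat.prime_two (by norm_num) x h2x
        rw [hP, Nat.totient_two, Nat.cast_one, one_mul] at hred
        have ho1 := (lab_mul_dvd x 2 h2x).1
        have ho2 : addOrderOf (((2 / 2 : ℕ) : ZMod m) * (ide m 2 * x)) = addOrderOf x / 2 := by
          have h1 := addOrderOf_ide_mul 2 Nat.prime_two x
          rw [hP] at h1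
          rw [Nat.div_self (by norm_num), Nat.cast_one, one_mul]
          exact h1
        have hpf : (addOrderOf x / 2).primeFactors = {3} := by
          ext p
          rw [Nat.mem_primeFactors, Finset.mem_singleton]
          constructor
          · rintro ⟨hp, hpd, _⟩
            have hp5 : p < 5 := by
              by_contra hcon
              exact hl ⟨p, hp, by omega, hpd.trans (Nat.div_dvd_of_dvd h2x)⟩
            have h2 := hp.two_le
            have h4 : p ≠ 4 := by
              rintro rfl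
              revert hp
              norm_num
            have h5 : p ≠ 2 := by
              rintro rfl
              omega
            omega
          · rintro rfl
            exact ⟨by norm_num, by omega, by omega⟩
        have h9 : 3 * 3 ∣ addOrderOf x / 2 := by
          have hne : addOrderOf x / 2 ≠ 3 := by omega
          obtain ⟨c, hc⟩ : 3 ∣ addOrderOf x / 2 := by omega
          have hc1 : c ≠ 1 := by
            rintro rfl
            exact hne hc
          obtain ⟨p, hp, hpc⟩ := Nat.exists_prime_and_dvd hc1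
          have hp3 : p ∈ (addOrderOf x / 2).primeFactors := by
            rw [Nat.mem_primeFactors]
            refine ⟨hp, ?_, by omega⟩
            rw [hc]
            exact hpc.mul_left 3
          rw [hpf, Finset.mem_singleton] at hp3
          rw [hc]
          rw [hp3] at hpc
          exact Nat.mul_dvd_mul_left 3 hpc
        have h1 := kb_val hval _ (by rw [ho1]; exact hpf) 3 (by rw [ho1]; exact h9)
        have h2 := kb_val hval _ (by rw [ho2]; exact hpf) 3 (by rw [ho2]; exact h9)
        have h3 := abs_sub (ω (((2 : ℕ) : ZMod m) * x))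
          (ω (((2 / 2 : ℕ) : ZMod m) * (ide m 2 * x)))
        rw [← hred] at h3
        push_cast at h1 h2
        have h0 := abs_nonneg (ω x)
        push_cast at h3
        linarith
    · rw [hω.supp x 3 (Finset.mem_singleton_self 3) hx3, abs_zero]
      exact hV
  · exact (hb x).2 hx4

/-- the values at the elements of order divisible by `29` -/
private theorem oc_val {m : ℕ} [NeZero m] (h3 : 3 ∣ m) {ω : ZMod m → ℤ} (hω : Pure m {3} ω)
    (hunit : ∀ (u : (ZMod m)ˣ) (x : ZMod m), ω ((u : ZMod m) * x) = c3 (u : ZMod m).val * ω x)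
    (hval : ∀ y : ZMod m, (addOrderOf y).primeFactors = {3} →
      ((addOrderOf y / 3 : ℕ) : ℤ) * |ω y| = |ω ((m / 3 : ℕ) : ZMod m)|) (x : ZMod m)
    (hx : 29 ∣ addOrderOf x) :
    14 * |ω x| ≤ |ω ((m / 3 : ℕ) : ZMod m)| +
      (if addOrderOf x = 174 then |ω ((m / 3 : ℕ) : ZMod m)| else 0) := by
  have hp : Nat.Prime 29 := by norm_num
  have he0 := kb_ord0 x
  have hV : 0 ≤ |ω ((m / 3 : ℕ) : ZMod m)| := abs_nonneg _
  have h0 : 0 ≤ |ω x| := abs_nonneg _
  have h29 := om_29 hω hunit h3 x hx
  have hb := om_bound hω hval (((ordProj[29] (addOrderOf x) : ℕ) : ZMod m) * x)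
  rw [← h29, abs_mul, abs_mul, Nat.abs_cast, abs_of_pos (by norm_num : (0 : ℤ) < 14)] at hb
  have hord := (lab_mul_dvd x (ordProj[29] (addOrderOf x)) (Nat.ordProj_dvd _ 29)).1
  rw [hord] at hb
  have hmul : ordProj[29] (addOrderOf x) * (addOrderOf x / ordProj[29] (addOrderOf x)) =
      addOrderOf x := Nat.ordProj_mul_ordCompl_eq_self _ 29
  have hdP : 29 ∣ ordProj[29] (addOrderOf x) := Nat.dvd_ordProj_of_dvd he0 hp hx
  obtain ⟨P, hP⟩ : ∃ P, P = ordProj[29] (addOrderOf x) := ⟨_, rfl⟩
  have hPp : ∃ j, P = 29 ^ j := ⟨_, hP⟩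
  rw [← hP] at hb hmul hdP
  have hP1 : 1 ≤ P / 29 := by
    have := Nat.le_of_dvd (by rw [hP]; exact Nat.ordProj_pos _ _) hdP
    omega
  have hP1' : (1 : ℤ) ≤ ((P / 29 : ℕ) : ℤ) := by exact_mod_cast hP1
  have h1 : 14 * |ω x| ≤ 14 * ((P / 29 : ℕ) : ℤ) * |ω x| := by nlinarith
  by_cases h174 : addOrderOf x = 174
  · rw [if_pos h174]
    linarith [hb.1]
  · rw [if_neg h174, add_zero]
    by_cases hP29 : P = 29
    · have h6 : addOrderOf x / P ≠ 6 := by
        intro h
        rw [h, hP29] at hmul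
        exact h174 hmul.symm
      exact h1.trans (hb.2 h6)
    · have h2 : 29 ≤ P / 29 := by
        obtain ⟨j, hj⟩ := hPp
        rcases j with _ | _ | j
        · rw [pow_zero] at hj
          omega
        · rw [zero_add, pow_one] at hj
          exact absurd hj hP29
        · have h3 : P = 29 * 29 * 29 ^ j := by rw [hj]; ring
          have h4 : 1 ≤ 29 ^ j := Nat.one_le_pow _ _ (by norm_num)
          omega
      have h2' : (29 : ℤ) ≤ ((P / 29 : ℕ) : ℤ) := by exact_mod_cast h2
      have h3 : 14 * 29 * |ω x| ≤ 14 * ((P / 29 : ℕ) : ℤ) * |ω x| := by nlinarith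
      linarith [hb.1]

private theorem oc_sum {α : Type} (T : Multiset α) (ω : α → ℤ) (V : ℤ) (p : α → Prop)
    [DecidablePred p] (h : ∀ x ∈ T, 14 * |ω x| ≤ V + (if p x then V else 0)) :
    14 * |(T.map ω).sum| ≤ V * T.card + V * (T.filter p).card := by
  induction T using Multiset.induction_on with
  | empty => simp
  | cons x T ih =>
    have h1 := ih fun y hy => h y (Multiset.mem_cons_of_mem hy)
    have h2 := h x (Multiset.mem_cons_self x T)
    have h3 : |ω x + (T.map ω).sum| ≤ |ω x| + |(T.map ω).sum| := abs_add_le _ _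
    rw [Multiset.map_cons, Multiset.sum_cons, Multiset.filter_cons, Multiset.card_add,
      Multiset.card_cons]
    have e1 : (((if p x then ({x} : Multiset α) else 0).card : ℕ) : ℤ) = if p x then 1 else 0 := by
      split_ifs <;> simp
    rw [Nat.cast_add, Nat.cast_add, e1, mul_add, mul_add, mul_ite, Nat.cast_one, mul_one, mul_zero]
    linarith

open Classical in
theorem om_contra {m : ℕ} [NeZero m] (h12 : 12 ∣ m) {ω : ZMod m → ℤ} (hω : Pure m {3} ω)
    (hunit : ∀ (u : (ZMod m)ˣ) (x : ZMod m), ω ((u : ZMod m) * x) = c3 (u : ZMod m).val * ω x)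
    (hV : ω ((m / 3 : ℕ) : ZMod m) ≠ 0)
    (hval : ∀ y : ZMod m, (addOrderOf y).primeFactors = {3} →
      ((addOrderOf y / 3 : ℕ) : ℤ) * |ω y| = |ω ((m / 3 : ℕ) : ZMod m)|)
    (S : Multiset (ZMod m)) (hc : S.card ≤ 8) (hS0 : (S.map ω).sum = 0)
    (hS : ∀ t : (ZMod m)ˣ, (S.map fun x => sw ((t : ZMod m) * x)).sum = 0)
    (Q : ZMod m → Prop) (hQ : ∀ x, Q x → 29 ∣ addOrderOf x) :
    |((S.filter Q).map ω).sum| < |ω ((m / 3 : ℕ) : ZMod m)| := by
  by_contra hcon
  rw [not_lt] at hcon
  have h3m : 3 ∣ m := (by norm_num : 3 ∣ 12).trans h12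
  have hV0 : 0 < |ω ((m / 3 : ℕ) : ZMod m)| := abs_pos.2 hV
  have hsplit := Multiset.filter_add_not Q S
  have hcard : (S.filter Q).card + (S.filter fun x => ¬ Q x).card = S.card := by
    rw [← Multiset.card_add, hsplit]
  have hT : ∀ x ∈ S.filter Q, 29 ∣ addOrderOf x := fun x hx => hQ x (Multiset.mem_filter.1 hx).2
  obtain ⟨T, hTe⟩ : ∃ T, T = S.filter Q := ⟨_, rfl⟩
  obtain ⟨T', hTe'⟩ : ∃ T', T' = S.filter fun x => ¬ Q x := ⟨_, rfl⟩
  rw [← hTe, ← hTe'] at hsplit hcard
  rw [← hTe] at hcon hT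
  have hsT := oc_sum T ω |ω ((m / 3 : ℕ) : ZMod m)| (fun x => addOrderOf x = 174)
    fun x hx => oc_val h3m hω hunit hval x (hT x hx)
  obtain ⟨V, hVe⟩ : ∃ V, V = |ω ((m / 3 : ℕ) : ZMod m)| := ⟨_, rfl⟩
  have ha : (T.filter fun x => addOrderOf x = 174).card ≤ T.card :=
    Multiset.card_le_card (Multiset.filter_le _ _)
  have h14 : 14 ≤ T.card + (T.filter fun x => addOrderOf x = 174).card := by
    have h1 : |ω ((m / 3 : ℕ) : ZMod m)| * 14 ≤ |ω ((m / 3 : ℕ) : ZMod m)| *
        ((T.card + (T.filter fun x => addOrderOf x = 174).card : ℕ) : ℤ) := by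
      push_cast
      linarith
    have h2 := le_of_mul_le_mul_left h1 hV0
    exact_mod_cast h2
  by_cases hall : ∀ x ∈ S, 29 ∣ addOrderOf x
  · have hT' : ∀ x ∈ T', 29 ∣ addOrderOf x := fun x hx => hall x (by
      rw [hTe'] at hx
      exact (Multiset.mem_filter.1 hx).1)
    have hsT' := oc_sum T' ω |ω ((m / 3 : ℕ) : ZMod m)| (fun x => addOrderOf x = 174)
      fun x hx => oc_val h3m hω hunit hval x (hT' x hx)
    have ha' : (T'.filter fun x => addOrderOf x = 174).card ≤ T'.card :=
      Multiset.card_le_card (Multiset.filter_le _ _)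
    have h1 : T'.card ≤ 1 := by omega
    have h2 : |(T'.map ω).sum| = |(T.map ω).sum| := by
      have h3 : (T.map ω).sum + (T'.map ω).sum = 0 := by
        rw [← Multiset.sum_add, ← Multiset.map_add, hsplit]
        exact hS0
      have h4 : (T'.map ω).sum = -(T.map ω).sum := by linarith
      rw [h4, abs_neg]
    rw [h2] at hsT'
    have h3 : ((T'.card : ℕ) : ℤ) ≤ 1 := by exact_mod_cast h1
    have h4 : (((T'.filter fun x => addOrderOf x = 174).card : ℕ) : ℤ) ≤ 1 := by
      exact_mod_cast ha'.trans h1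
    nlinarith
  · push Not at hall
    obtain ⟨p, hpS, hp⟩ := hall
    have hpT' : p ∈ T' := by
      rw [hTe', Multiset.mem_filter]
      exact ⟨hpS, fun h => hp (hQ p h)⟩
    have h1 : 1 ≤ T'.card := Multiset.card_pos.2 fun h => by
      rw [h] at hpT'
      exact absurd hpT' (Multiset.notMem_zero p)
    have h7 : T.card = 7 := by omega
    have h8 : T'.card = 1 := by omega
    have h9 : (T.filter fun x => addOrderOf x = 174).card = T.card := by omega
    have h10 : (T.filter fun x => addOrderOf x = 174) = T :=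
      Multiset.eq_of_le_of_card_le (Multiset.filter_le _ _) h9.ge
    have h11 : T' = {p} := by
      obtain ⟨q, hq⟩ := Multiset.card_eq_one.1 h8
      rw [hq, Multiset.mem_singleton] at hpT'
      rw [hq, hpT']
    have hSe : S = p ::ₘ T := by
      rw [← hsplit, h11, add_comm, Multiset.singleton_add]
    refine no_174 h12 T (Multiset.filter_eq_self.1 h10) (by rw [h7]; decide) p hp fun t => ?_
    rw [← hSe]
    exact hS t

end Pool.Agent.FHD
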