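import Pool.Agent.FHD.MdMul
import Pool.Agent.FHD.Split

/-!
# FHD-KpA: vanishing of the mixed differences

Plan. `kp_triv`: the certificate inequality for one term (`ι = Unit`), `C₁ = 2`, `C₂ = 4`
(`bv_le`). `kp_alpha`: `md_gen` with `good a = (¬ rr a + 1 ≡ 0 [MOD l])` and `split_alpha`; for good
`k l` the inequality with `C₁ = 1`, `C₂ = 2` (`bv_alpha` for `y` and `2 * y`; if `¬ 2 ∣ n` then `y`
has odd order and `2 * y` has the same order). `kp_beta`: `good a = GoodB l (rr a)`, `split_beta`,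
`C₁ = C₂ = 1` (`bv_alpha`, `bv_beta`).
-/

set_option autoImplicit false

namespace Pool.Agent.FHD

open Finset Pool.Agent.FS
open Pool.Agent.Helper9.Fermat (fib mem_fib)

section

variable {m : ℕ} [NeZero m] {n r : ℕ} [NeZero n] {N : (ZMod n)ˣ → ℤ} {A B : ℕ}

private theorem kp_core (hC : CIneq m n r (md n r N) A B) (C₁ C₂ : ℕ) (k : ℕ → (ZMod n)ˣ)
    (hk : KFam n r k) (g : (ZMod n)ˣ)
    (h1 : ∀ y : ZMod m, (addOrderOf y).primeFactors = tps n r → |bv y r k g| ≤ C₁)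
    (h2 : 2 ∣ n ∨ ∀ y : ZMod m, (addOrderOf y).primeFactors = tps n r →
      |bv (2 * y) r k g - bv y r k g| ≤ C₂)
    (h : C₁ * A + (if 2 ∣ n then 0 else C₂ * B) < r - 1) : md n r N k g = 0 := by
  have h3 := hC Unit Finset.univ (fun _ => 1) (fun _ => k) (fun _ => g) C₁ C₂ (fun _ _ => hk)
    (fun y hy => by
      rw [Finset.univ_unique, Finset.sum_singleton, one_mul]
      exact h1 y hy)
    (by
      rcases h2 with h2 | h2
      · exact Or.inl h2
      · refine Or.inr fun y hy => ?_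
        rw [Finset.univ_unique, Finset.sum_singleton, one_mul]
        exact h2 y hy)
  rw [Finset.univ_unique, Finset.sum_singleton, one_mul] at h3
  by_contra hne
  have h4 : 1 ≤ |md n r N k g| := Int.one_le_abs hne
  have h5 : (C₁ : ℤ) * A + ((if 2 ∣ n then 0 else C₂ * B : ℕ) : ℤ) < ((r - 1 : ℕ) : ℤ) := by
    rw [← Nat.cast_mul, ← Nat.cast_add]
    exact Nat.cast_lt.2 h
  have h6 : ((r - 1 : ℕ) : ℤ) ≤ ((r - 1 : ℕ) : ℤ) * |md n r N k g| :=
    le_mul_of_one_le_right (Int.natCast_nonneg _) h4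
  exact absurd (h6.trans h3) (not_le.2 h5)

private theorem kp_two (h2 : ¬ 2 ∣ n) (y : ZMod m) (hy : (addOrderOf y).primeFactors = tps n r) :
    (addOrderOf (2 * y)).primeFactors = tps n r := by
  have hm0 : m ≠ 0 := NeZero.ne m
  have h0 : addOrderOf y ≠ 0 := fun h => hm0 (Nat.eq_zero_of_zero_dvd (h ▸ RUp_order_dvd y))
  have h3 : ¬ 2 ∣ addOrderOf y := by
    intro h
    have h4 : 2 ∈ (addOrderOf y).primeFactors := Nat.mem_primeFactors.2 ⟨Nat.prime_two, h, h0⟩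
    rw [hy] at h4
    exact h2 (Nat.dvd_of_mem_primeFactors (Finset.mem_of_mem_erase h4))
  have h5 : Nat.Coprime 2 (addOrderOf y) := (Nat.Prime.coprime_iff_not_dvd Nat.prime_two).2 h3
  have h6 := (lab_mul_coprime y 2 h5).1
  rw [Nat.cast_ofNat] at h6
  rw [h6, hy]

private theorem kp_abs (a b : ℤ) (ha : |a| ≤ 1) (hb : |b| ≤ 1) : |a - b| ≤ 2 := by
  have := abs_sub a b
  omega

theorem kp_triv (hC : CIneq m n r (md n r N) A B)
    (h : 2 * A + (if 2 ∣ n then 0 else 4 * B) < r - 1) (k : ℕ → (ZMod n)ˣ) (hk : KFam n r k)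
    (g : (ZMod n)ˣ) : md n r N k g = 0 := by
  refine kp_core hC 2 4 k hk g (fun y _ => bv_le y k g) (Or.inr fun y _ => ?_) h
  have h1 := bv_le (r := r) y k g
  have h2 := bv_le (r := r) (2 * y) k g
  have h3 := abs_sub (bv (2 * y) r k g) (bv y r k g)
  push_cast
  omega

private theorem kp_hb {l : ℕ} (h5 : 5 ≤ l) : hb l = l := by
  unfold hb
  rw [if_neg (by omega)]

private theorem kp_dvd {l : ℕ} (hl : l ∈ tps n r) : l.Prime ∧ l ∣ n :=
  ⟨Nat.prime_of_mem_primeFactors (Finset.mem_of_mem_erase hl),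
    Nat.dvd_of_mem_primeFactors (Finset.mem_of_mem_erase hl)⟩

theorem kp_alpha (hn : Uni m n) (hC : CIneq m n r (md n r N) A B) (l : ℕ) (hl : l ∈ tps n r)
    (h5 : 5 ≤ l) (h : A + (if 2 ∣ n then 0 else 2 * B) < r - 1) (k : ℕ → (ZMod n)ˣ)
    (hk : KFam n r k) (g : (ZMod n)ˣ) : md n r N k g = 0 := by
  obtain ⟨hlp, hln⟩ := kp_dvd hl
  refine md_gen N l hl (fun a => ¬ rr a + 1 ≡ 0 [MOD l])
    (fun x hx => split_alpha l hlp hln h5 x hx) ?_ k hk g
  intro k hk hg g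
  have hb1 : hb l ∣ n := by rw [kp_hb h5]; exact hln
  have hg' : ¬ rr (k l) + 1 ≡ 0 [MOD hb l] := by rw [kp_hb h5]; exact hg
  refine kp_core hC 1 2 k hk g (fun y hy => bv_alpha hn y hy k g l hl hb1 hg') ?_
    (by rw [one_mul]; exact h)
  by_cases h2 : 2 ∣ n
  · exact Or.inl h2
  · refine Or.inr fun y hy => kp_abs _ _ ?_ ?_
    · exact bv_alpha hn (2 * y) (kp_two h2 y hy) k g l hl hb1 hg'
    · exact bv_alpha hn y hy k g l hl hb1 hg'

theorem kp_beta (hn : Uni m n) (hC : CIneq m n r (md n r N) A B) (l : ℕ) (hl : l ∈ tps n r)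
    (h11 : 11 ≤ l) (h2 : ¬ 2 ∣ n) (h : A + B < r - 1) (k : ℕ → (ZMod n)ˣ)
    (hk : KFam n r k) (g : (ZMod n)ˣ) : md n r N k g = 0 := by
  obtain ⟨hlp, hln⟩ := kp_dvd hl
  have h5 : 5 ≤ l := by omega
  refine md_gen N l hl (fun a => GoodB l (rr a))
    (fun x hx => split_beta l hlp hln h11 x hx) ?_ k hk g
  intro k hk hg g
  have hb1 : hb l ∣ n := by rw [kp_hb h5]; exact hln
  have hg' : ¬ rr (k l) + 1 ≡ 0 [MOD hb l] := by rw [kp_hb h5]; exact hg.1
  refine kp_core hC 1 1 k hk g (fun y hy => bv_alpha hn y hy k g l hl hb1 hg')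
    (Or.inr fun y hy => bv_beta hn y hy h2 k g l hl h5 hg) ?_
  rw [if_neg h2, one_mul, one_mul]
  exact h

end

end Pool.Agent.FHD
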