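import Pool.Agent.FHD.Om
import Pool.Agent.FHD.KpA
import Pool.Agent.FHD.Cert

/-!
# FHD-Kp29A: the level `{3, 29}`

Plan. Assume that some `md n 29 N k g` is not zero; `tps n 29 = {3}`,
`md n 29 N k g = M g - M (k 3 * g)`, `M g = N g - N (-1 * g)`.
1. If `k 3` is `1` modulo `3` then it is zero: `hC` for one term with `C₁ = 1` (`bv_alpha`, `l = 3`),
   `C₂ = 2`; `A + 2 * B ≤ 16 < 28`.
2. So `M g - M (a * g)`, `a ∈ Kl n 3`, `a ≡ -1` modulo `3`, does not depend on `a`; call it `D g`.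
   `D (a g) = - D g`, `D (u g) = D g` for `u ∈ Kl n 3`, `u ≡ 1` modulo `3`, and `D (h g) = D g` for
   `h ∈ Kl n 29` (`mix_inv`). So `D g = β * c3 (rr g)` with an integer `β ≠ 0`.
3. `∑ w, N w * c3 (rr w) = (1 / 2) ∑ M w * c3 (rr w) = (1 / 4) ∑ D w * c3 (rr w) =
   (1 / 4) * β * n.totient`.
4. `n₁ = ordCompl[29] n` is a power of `3`, `ω (al m 29 * emb m n w) = ω (emb m n₁ w) =
   c3 (rr w) * ω (emb m n₁ 1)` (`hunit`, lift `w` to a unit modulo `m`), and
   `(n₁ / 3) * |ω (emb m n₁ 1)| = V`. `n.totient = (n₁ / 3 * 2) * (qq m 29 / 29 * 28)`.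
   So the left hand side of `pairing` for `ω` has absolute value `14 * (qq m 29 / 29) * V * |β|`.
5. Right hand side of `pairing`: for `29 ∣ addOrderOf x`, `P = ordProj[29] (addOrderOf x)`,
   `x' = (P / 29) * (ide m 29 * x)`: `ω (P x) = ω (29 * x') = - ω x'` (`29` acts on the elements of
   order prime to `29` as a unit congruent to `29`, so to `-1`, modulo `3`), so by `red`
   `28 * (P / 29) * ω x = 2 * ω (P x)` and `(qq m 29 / P) * ω (P x) = 14 * (qq m 29 / 29) * ω x`.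
Hence `|∑ x ∈ T, ω x| = V * |β| ≥ V`.
-/

set_option autoImplicit false

namespace Pool.Agent.FHD

open Finset Pool.Agent.FS
open Pool.Agent.Helper9.Fermat (fib mem_fib)

private theorem ka_p29 : Nat.Prime 29 := by norm_num

private theorem ka_mul_congr {m : ℕ} [NeZero m] (y : ZMod m) {a c b : ℕ} (hy : addOrderOf y ∣ b)
    (h : a ≡ c [MOD b]) : (a : ZMod m) * y = (c : ZMod m) * y := by
  have h1 : a • y = c • y := nsmul_eq_nsmul_iff_modEq.2 (h.of_dvd hy)
  rwa [nsmul_eq_mul, nsmul_eq_mul] at h1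

private theorem ka_c3_congr {a b : ℕ} (h : a ≡ b [MOD 3]) : c3 a = c3 b := by
  unfold c3
  have h1 : a % 3 = b % 3 := h
  rw [h1]

/-- for `29 ∣ addOrderOf x` -/
theorem om_29 {m : ℕ} [NeZero m] {ω : ZMod m → ℤ} (hω : Pure m {3} ω)
    (hunit : ∀ (u : (ZMod m)ˣ) (x : ZMod m), ω ((u : ZMod m) * x) = c3 (u : ZMod m).val * ω x)
    (h3 : 3 ∣ m) (x : ZMod m) (hx : 29 ∣ addOrderOf x) :
    14 * ((ordProj[29] (addOrderOf x) / 29 : ℕ) : ℤ) * ω x =
      ω (((ordProj[29] (addOrderOf x) : ℕ) : ZMod m) * x) := by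
  have hm0 : m ≠ 0 := NeZero.ne m
  have he0 : addOrderOf x ≠ 0 := fun h => hm0 (Nat.eq_zero_of_zero_dvd (h ▸ RUp_order_dvd x))
  have hred := hω.red 29 ka_p29 (by simp) x hx
  set P := ordProj[29] (addOrderOf x) with hP
  have hPd : 29 ∣ P := Nat.dvd_ordProj_of_dvd he0 ka_p29 hx
  have hPP : 29 * (P / 29) = P := Nat.mul_div_cancel' hPd
  set x' : ZMod m := ((P / 29 : ℕ) : ZMod m) * (ide m 29 * x) with hx'
  -- `29 x' = P x`
  have h1 : (29 : ZMod m) * x' = ((P : ℕ) : ZMod m) * x := by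
    have e1 : (29 : ZMod m) * x' = ide m 29 * (((P : ℕ) : ZMod m) * x) := by
      have e2 : ((P : ℕ) : ZMod m) = (29 : ZMod m) * ((P / 29 : ℕ) : ZMod m) := by
        conv_lhs => rw [← hPP]
        rw [Nat.cast_mul]
        rfl
      rw [hx', e2]
      ring
    rw [e1]
    apply ide_mul_eq_self 29 ka_p29
    rw [(lab_mul_dvd x P (Nat.ordProj_dvd _ 29)).1]
    exact Nat.not_dvd_ordCompl ka_p29 he0
  -- the unit
  have hcop : (ordProj[29] m).Coprime (ordCompl[29] m) :=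
    (Nat.coprime_ordCompl ka_p29 hm0).pow_left _
  have hab : m = ordProj[29] m * ordCompl[29] m := (Nat.ordProj_mul_ordCompl_eq_self m 29).symm
  obtain ⟨u, -, hu⟩ := exists_unit_crt hab hcop 1 29 (Nat.coprime_one_left _)
    (Nat.coprime_ordCompl ka_p29 hm0)
  have hord : addOrderOf x' ∣ ordCompl[29] m := by
    have e1 : x' = ide m 29 * (((P / 29 : ℕ) : ZMod m) * x) := by
      rw [hx']
      ring
    rw [e1, addOrderOf_ide_mul 29 ka_p29]
    exact Nat.ordCompl_dvd_ordCompl_of_dvd (RUp_order_dvd _) 29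
  have h2 : (u : ZMod m) * x' = (29 : ZMod m) * x' := by
    have e1 := ka_mul_congr x' hord hu
    unfold rr at e1
    rw [ZMod.natCast_zmod_val] at e1
    exact e1
  have h3d : 3 ∣ ordCompl[29] m := by
    have e1 : Nat.Coprime 3 (ordProj[29] m) := Nat.Coprime.pow_right _ (by norm_num)
    refine e1.dvd_of_dvd_mul_left ?_
    rw [← hab]
    exact h3
  have h4 : c3 (u : ZMod m).val = -1 := by
    have e1 : (u : ZMod m).val ≡ 29 [MOD 3] := hu.of_dvd h3d
    rw [ka_c3_congr e1]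
    rfl
  have h5 : ω x' = - ω (((P : ℕ) : ZMod m) * x) := by
    rw [← h1, ← h2, hunit u x', h4]
    ring
  rw [h5] at hred
  have htot : P.totient = P / 29 * 28 := by
    obtain ⟨a, ha⟩ : ∃ a, (addOrderOf x).factorization 29 = a + 1 := by
      refine ⟨(addOrderOf x).factorization 29 - 1, ?_⟩
      have := ka_p29.factorization_pos_of_dvd he0 hx
      omega
    rw [hP, ha, Nat.totient_prime_pow_succ ka_p29, pow_succ, Nat.mul_div_cancel _ (by norm_num)]
  rw [htot] at hred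
  push_cast at hred ⊢
  linarith

private theorem ka_order_two {m : ℕ} [NeZero m] {n r : ℕ} (h2 : ¬ 2 ∣ n) (y : ZMod m)
    (hy : (addOrderOf y).primeFactors = tps n r) :
    (addOrderOf (2 * y)).primeFactors = tps n r := by
  have h1 : ¬ 2 ∣ addOrderOf y := by
    intro hd
    have h3 : addOrderOf y ≠ 0 := (addOrderOf_pos y).ne'
    have h4 : 2 ∈ (addOrderOf y).primeFactors := Nat.mem_primeFactors.mpr ⟨Nat.prime_two, hd, h3⟩
    rw [hy] at h4
    exact h2 (Nat.dvd_of_mem_primeFactors (Finset.mem_of_mem_erase h4))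
  have h5 : (addOrderOf y).Coprime 2 :=
    ((Nat.Prime.coprime_iff_not_dvd Nat.prime_two).mpr h1).symm
  have h6 : (2 : ZMod m) * y = 2 • y := by
    rw [two_mul, two_nsmul]
  rw [h6, h5.addOrderOf_nsmul, hy]

private theorem ka_one {m n : ℕ} [NeZero m] [NeZero n] {N : (ZMod n)ˣ → ℤ} {A B : ℕ}
    (hn : Uni m n) (hC : CIneq m n 29 (md n 29 N) A B) (hAB : A + B ≤ 8) (ht : tps n 29 = {3})
    (h2 : ¬ 2 ∣ n) (h3 : 3 ∣ n) (k : ℕ → (ZMod n)ˣ) (hk : KFam n 29 k)
    (h1 : rr (k 3) ≡ 1 [MOD 3]) (g : (ZMod n)ˣ) : md n 29 N k g = 0 := by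
  have hl : 3 ∈ tps n 29 := by rw [ht]; exact Finset.mem_singleton_self 3
  have hb3 : hb 3 = 3 := rfl
  have hg : ¬ rr (k 3) + 1 ≡ 0 [MOD hb 3] := by
    rw [hb3]
    intro h
    have e1 : rr (k 3) % 3 = 1 := h1
    have e2 : (rr (k 3) + 1) % 3 = 0 := h
    omega
  have ha : ∀ y : ZMod m, (addOrderOf y).primeFactors = tps n 29 → |bv y 29 k g| ≤ 1 :=
    fun y hy => bv_alpha hn y hy k g 3 hl (by rw [hb3]; exact h3) hg
  have H := hC Unit {()} (fun _ => 1) (fun _ => k) (fun _ => g) 1 2 (fun _ _ => hk)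
    (fun y hy => by
      simpa using ha y hy)
    (Or.inr fun y hy => by
      have e1 := ha y hy
      have e2 := ha (2 * y) (ka_order_two h2 y hy)
      have e3 := abs_sub (bv (2 * y) 29 k g) (bv y 29 k g)
      simp only [Finset.sum_singleton, one_mul]
      push_cast
      linarith)
  rw [if_neg h2] at H
  simp only [Finset.sum_singleton, one_mul] at H
  by_contra hne
  have h5 : (1 : ℤ) ≤ |md n 29 N k g| := Int.one_le_abs hne
  have h4 : ((A + B : ℕ) : ℤ) ≤ 8 := by exact_mod_cast hAB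
  have h6 : (0 : ℤ) ≤ A := Int.natCast_nonneg _
  push_cast at H h4
  linarith

private theorem ka_c3_cases {a : ℕ} (h : ¬ 3 ∣ a) :
    (a % 3 = 1 ∧ c3 a = 1) ∨ (a % 3 = 2 ∧ c3 a = -1) := by
  unfold c3
  have h1 : a % 3 ≠ 0 := fun h' => h (Nat.dvd_of_mod_eq_zero h')
  by_cases h2 : a % 3 = 1
  · exact Or.inl ⟨h2, if_pos h2⟩
  · exact Or.inr ⟨by omega, if_neg h2⟩

private theorem ka_not3 {n : ℕ} [NeZero n] (h3 : 3 ∣ n) (g : (ZMod n)ˣ) : ¬ 3 ∣ rr g := by
  intro h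
  have h1 := Nat.eq_one_of_dvd_coprimes (rr_coprime g) h h3
  omega

private theorem ka_sum {n : ℕ} [NeZero n] (F : (ZMod n)ˣ → ℤ) (a : (ZMod n)ˣ)
    (ha : ∀ w : (ZMod n)ˣ, c3 (rr (a * w)) = - c3 (rr w)) :
    ∑ w : (ZMod n)ˣ, (F w - F (a * w)) * c3 (rr w) = 2 * ∑ w : (ZMod n)ˣ, F w * c3 (rr w) := by
  have h1 : ∑ w : (ZMod n)ˣ, F (a * w) * c3 (rr (a * w)) = ∑ w : (ZMod n)ˣ, F w * c3 (rr w) :=
    Equiv.sum_comp (Equiv.mulLeft a) fun w => F w * c3 (rr w)
  have h2 : ∑ w : (ZMod n)ˣ, (F w - F (a * w)) * c3 (rr w) =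
      ∑ w : (ZMod n)ˣ, F w * c3 (rr w) + ∑ w : (ZMod n)ˣ, F (a * w) * c3 (rr (a * w)) := by
    rw [← Finset.sum_add_distrib]
    refine Finset.sum_congr rfl fun w _ => ?_
    rw [ha]
    ring
  rw [h2, h1]
  ring

private theorem ka_rr {n d : ℕ} [NeZero n] [NeZero d] (h : d ∣ n) (g : (ZMod n)ˣ) :
    rr (ZMod.unitsMap h g) ≡ rr g [MOD d] := by
  unfold rr
  rw [ZMod.unitsMap_val, ← ZMod.natCast_eq_natCast_iff, ZMod.natCast_zmod_val]
  exact (ZMod.natCast_val _).symm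

theorem kp29A {m : ℕ} [NeZero m] {U : Type} [AddCommGroup U] (h12 : 12 ∣ m) (R : UDatum m 29 U)
    (T : Multiset (ZMod m)) (hT : ∀ x ∈ T, 29 ∣ addOrderOf x)
    (hinv : ∀ h ∈ Kl m 29, R.act h (GG T R.F) = GG T R.F) {n : ℕ} [NeZero n] (hn : Uni m n)
    (hn3 : n.primeFactors = {3, 29}) (hAB : cA T n + cB T n ≤ 8) {ω : ZMod m → ℤ}
    (hω : Pure m {3} ω)
    (hunit : ∀ (u : (ZMod m)ˣ) (x : ZMod m), ω ((u : ZMod m) * x) = c3 (u : ZMod m).val * ω x)
    (hval : ∀ y : ZMod m, (addOrderOf y).primeFactors = {3} →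
      ((addOrderOf y / 3 : ℕ) : ℤ) * |ω y| = |ω ((m / 3 : ℕ) : ZMod m)|)
    (hlt : |(T.map ω).sum| < |ω ((m / 3 : ℕ) : ZMod m)|) :
    Kp R.toRDatum n (GG T R.F) := by
  classical
  intro N hN k hk g
  by_contra hne
  have hm0 : m ≠ 0 := NeZero.ne m
  have hn0 : n ≠ 0 := NeZero.ne n
  have h3n : 3 ∣ n := Nat.dvd_of_mem_primeFactors (by rw [hn3]; simp)
  have h29n : 29 ∣ n := Nat.dvd_of_mem_primeFactors (by rw [hn3]; simp)
  have h2n : ¬ 2 ∣ n := by
    intro h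
    have h1 : 2 ∈ n.primeFactors := Nat.mem_primeFactors.2 ⟨Nat.prime_two, h, hn0⟩
    rw [hn3] at h1
    simp at h1
  have htps : tps n 29 = {3} := by
    unfold tps
    rw [hn3]
    rfl
  have hC := cert ka_p29 (by norm_num) ((by norm_num : 2 ∣ 12).trans h12) R T hT hinv hn h29n N hN
  obtain ⟨M, hM⟩ : ∃ M : (ZMod n)ˣ → ℤ, M = fun g => N g - N (-1 * g) := ⟨_, rfl⟩
  have hmd : ∀ (k : ℕ → (ZMod n)ˣ) (g : (ZMod n)ˣ), md n 29 N k g = M g - M (k 3 * g) := by
    intro k g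
    unfold md lsr
    rw [htps, Finset.toList_singleton, hM]
    rfl
  have fam : ∀ a ∈ Kl n 3, KFam n 29 fun _ => a := by
    intro a ha l hl
    rw [htps, Finset.mem_singleton] at hl
    subst hl
    exact ha
  -- step 1
  have s1 : ∀ a ∈ Kl n 3, rr a ≡ 1 [MOD 3] → ∀ g, M (a * g) = M g := by
    intro a ha ha1 g
    have h1 := ka_one hn hC hAB htps h2n h3n (fun _ => a) (fam a ha) ha1 g
    rw [hmd] at h1
    linarith
  -- step 2
  have ha0 : k 3 ∈ Kl n 3 := hk 3 (by rw [htps]; exact Finset.mem_singleton_self 3)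
  obtain ⟨a, hak⟩ : ∃ a, a = k 3 := ⟨_, rfl⟩
  rw [← hak] at ha0
  rw [hmd, ← hak] at hne
  have ha2 : rr a % 3 = 2 := by
    rcases ka_c3_cases (ka_not3 h3n a) with h | h
    · exfalso
      apply hne
      rw [s1 a ha0 h.1 g, sub_self]
    · exact h.1
  have rmul : ∀ v w : (ZMod n)ˣ, rr (v * w) % 3 = ((rr v % 3) * (rr w % 3)) % 3 := by
    intro v w
    have h1 : rr (v * w) ≡ rr v * rr w [MOD 3] := (rr_mul v w).of_dvd h3n
    have h2 : rr (v * w) % 3 = (rr v * rr w) % 3 := h1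
    rw [h2, Nat.mul_mod]
  obtain ⟨D, hD⟩ : ∃ D : (ZMod n)ˣ → ℤ, D = fun g => M g - M (a * g) := ⟨_, rfl⟩
  have hDg : ∀ g, D g = M g - M (a * g) := fun g => by rw [hD]
  have d1 : ∀ g, D (a * g) = - D g := by
    intro g
    have h1 : M (a * (a * g)) = M g := by
      rw [← mul_assoc]
      refine s1 (a * a) (Subgroup.mul_mem _ ha0 ha0) ?_ g
      show rr (a * a) % 3 = 1 % 3
      rw [rmul, ha2]
    rw [hDg, hDg, h1]
    ring
  have d2 : ∀ u ∈ Kl n 3, rr u % 3 = 1 → ∀ g, D (u * g) = D g := by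
    intro u hu hu1 g
    rw [hDg, hDg, s1 u hu hu1 g, mul_left_comm, s1 u hu hu1 (a * g)]
  have d3 : ∀ h ∈ Kl n 29, ∀ g, D (h * g) = D g := by
    intro h hh g
    have h1 := mix_inv ka_p29 R (GG T R.F) hinv hn h29n N hN k hk h hh g
    rw [hmd, hmd, ← hak] at h1
    rw [hDg, hDg, h1]
  -- the factorisation of `n`
  have hfac : ordProj[3] n * ordProj[29] n = n := by
    have h1 : ∏ l ∈ n.primeFactors, l ^ n.factorization l = n :=
      Nat.prod_factorization_pow_eq_self hn0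
    rw [hn3, Finset.prod_pair (by norm_num)] at h1
    exact h1
  obtain ⟨n₁, hn₁⟩ : ∃ n₁, n₁ = ordProj[3] n := ⟨_, rfl⟩
  obtain ⟨Q, hQ⟩ : ∃ Q, Q = ordProj[29] n := ⟨_, rfl⟩
  have hQm : Q = qq m 29 := by rw [hQ]; exact uni_ordProj hn ka_p29 h29n
  have hQpos : 0 < Q := by rw [hQ]; exact Nat.ordProj_pos _ _
  have hn₁pos : 0 < n₁ := by rw [hn₁]; exact Nat.ordProj_pos _ _
  have hnQ : n₁ * Q = n := by rw [hn₁, hQ]; exact hfac
  have hcompl : ordCompl[29] n = n₁ := by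
    rw [← hQ]
    conv_lhs => rw [← hnQ]
    exact Nat.mul_div_cancel _ hQpos
  have h3n₁ : 3 ∣ n₁ := by rw [hn₁]; exact Nat.dvd_ordProj_of_dvd hn0 Nat.prime_three h3n
  have hn₁n : n₁ ∣ n := Dvd.intro _ hnQ
  -- the formula for `D`
  have d4 : ∀ g, D g = c3 (rr g) * D 1 := by
    intro g
    obtain ⟨v, hv, hvg⟩ := exists_Kl (n := n) 3 Nat.prime_three (rr g) (ka_not3 h3n g)
    rw [← hn₁] at hvg
    have hgv : g = (g * v⁻¹) * v := by rw [inv_mul_cancel_right]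
    have hh : g * v⁻¹ ∈ Kl n 29 := by
      rw [mem_Kl, hcompl]
      have h1 : rr (g * v⁻¹) * rr v ≡ 1 * rr v [MOD n₁] := by
        have h2 := ((rr_mul (g * v⁻¹) v).of_dvd hn₁n).symm
        rw [← hgv] at h2
        rw [one_mul]
        exact h2.trans hvg.symm
      have h3 : Nat.gcd n₁ (rr v) = 1 := ((rr_coprime v).coprime_dvd_right hn₁n).symm
      exact Nat.ModEq.cancel_right_of_coprime h3 h1
    have h4 : D g = D v := by
      conv_lhs => rw [hgv]
      exact d3 _ hh v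
    have h5 : c3 (rr g) = c3 (rr v) := ka_c3_congr (hvg.of_dvd h3n₁).symm
    rw [h4, h5]
    rcases ka_c3_cases (ka_not3 h3n v) with h | h
    · rw [h.2, one_mul]
      have h6 := d2 v hv h.1 1
      rwa [mul_one] at h6
    · rw [h.2]
      have h6 := d2 (a * v) (Subgroup.mul_mem _ ha0 hv) (by rw [rmul, ha2, h.1]) 1
      rw [mul_one, d1] at h6
      linarith
  have hβ : D 1 ≠ 0 := by
    intro h
    apply hne
    rw [← hDg, d4, h, mul_zero]
  -- step 3
  have cneg : ∀ w : (ZMod n)ˣ, c3 (rr (-1 * w)) = - c3 (rr w) := by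
    intro w
    have h1 : (rr (-1 * w) + rr w) % 3 = 0 := (rr_neg w).of_dvd h3n
    rcases ka_c3_cases (ka_not3 h3n w) with h | h <;>
      rcases ka_c3_cases (ka_not3 h3n (-1 * w)) with h' | h' <;>
      first
      | (exfalso; omega)
      | (rw [h.2, h'.2] <;> norm_num)
  have ca : ∀ w : (ZMod n)ˣ, c3 (rr (a * w)) = - c3 (rr w) := by
    intro w
    have h1 := rmul a w
    rw [ha2] at h1
    rcases ka_c3_cases (ka_not3 h3n w) with h | h <;>
      rcases ka_c3_cases (ka_not3 h3n (a * w)) with h' | h' <;>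
      rw [h.1] at h1 <;>
      first
      | (exfalso; omega)
      | (rw [h.2, h'.2] <;> norm_num)
  have hsumN : 4 * ∑ w : (ZMod n)ˣ, N w * c3 (rr w) = D 1 * (n.totient : ℤ) := by
    have h1 : ∑ w : (ZMod n)ˣ, M w * c3 (rr w) = 2 * ∑ w : (ZMod n)ˣ, N w * c3 (rr w) := by
      rw [hM]
      exact ka_sum N (-1) cneg
    have h2 : ∑ w : (ZMod n)ˣ, D w * c3 (rr w) = 2 * ∑ w : (ZMod n)ˣ, M w * c3 (rr w) := by
      rw [hD]
      exact ka_sum M a ca
    have h3 : ∑ w : (ZMod n)ˣ, D w * c3 (rr w) = D 1 * (n.totient : ℤ) := by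
      have h4 : ∀ w ∈ (Finset.univ : Finset (ZMod n)ˣ), D w * c3 (rr w) = D 1 := by
        intro w _
        rw [d4 w]
        rcases ka_c3_cases (ka_not3 h3n w) with h | h <;> rw [h.2] <;> ring
      rw [Finset.sum_congr rfl h4, Finset.sum_const, Finset.card_univ, ZMod.card_units_eq_totient,
        nsmul_eq_mul, mul_comm]
    linarith
  -- step 4
  have h3m : 3 ∣ m := (by norm_num : 3 ∣ 12).trans h12
  have hn₁m : n₁ ∣ m := hn₁n.trans hn.1
  obtain ⟨y₁, hy₁⟩ : ∃ y₁ : ZMod m, y₁ = ((m / n₁ : ℕ) : ZMod m) := ⟨_, rfl⟩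
  have hord : addOrderOf y₁ = n₁ := by
    rw [hy₁, ZMod.addOrderOf_coe _ hm0, Nat.gcd_eq_right (Nat.div_dvd_of_dvd hn₁m),
      Nat.div_div_self hn₁m hm0]
  have hpf : (addOrderOf y₁).primeFactors = {3} := by
    rw [hord, hn₁]
    refine Nat.primeFactors_prime_pow ?_ Nat.prime_three
    have := Nat.prime_three.factorization_pos_of_dvd hn0 h3n
    omega
  have hV := hval y₁ hpf
  rw [hord] at hV
  have hterm : ∀ w : (ZMod n)ˣ, ω (al m 29 * emb m n (w : ZMod n)) = c3 (rr w) * ω y₁ := by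
    intro w
    obtain ⟨t, ht⟩ := ZMod.unitsMap_surjective hn.1 w
    have h1 : (t : ZMod m).val ≡ rr w [MOD n] := by
      have h2 := ka_rr hn.1 t
      rw [ht] at h2
      exact h2.symm
    have h2 : m / n₁ = qq m 29 * (m / n) := by
      rw [← hQm]
      have h3 : m = n₁ * (Q * (m / n)) := by
        rw [← mul_assoc, hnQ, Nat.mul_div_cancel' hn.1]
      conv_lhs => rw [h3]
      exact Nat.mul_div_cancel_left _ hn₁pos
    have h4 : al m 29 * emb m n (w : ZMod n) = (t : ZMod m) * y₁ := by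
      have e1 : al m 29 * emb m n (w : ZMod n) = ((m / n₁ * rr w : ℕ) : ZMod m) := by
        rw [al, RNorm_qq_ide 29 ka_p29, emb, h2, ← Nat.cast_mul, mul_assoc]
        rfl
      have e2 : (t : ZMod m) * y₁ = ((m / n₁ * (t : ZMod m).val : ℕ) : ZMod m) := by
        rw [hy₁, Nat.cast_mul, ZMod.natCast_zmod_val, mul_comm]
      rw [e1, e2, ZMod.natCast_eq_natCast_iff]
      have e3 := Nat.ModEq.mul_left' (m / n₁) ((h1.of_dvd hn₁n).symm)
      rwa [Nat.div_mul_cancel hn₁m] at e3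
    rw [h4, hunit, ka_c3_congr (h1.of_dvd h3n)]
  have hp := pairing ka_p29 R T hT hn h29n N hN (by rw [htps]; exact hω)
  have hL : ∑ w : (ZMod n)ˣ, N w * ω (al m 29 * emb m n (w : ZMod n)) =
      (∑ w : (ZMod n)ˣ, N w * c3 (rr w)) * ω y₁ := by
    rw [Finset.sum_mul]
    refine Finset.sum_congr rfl fun w _ => ?_
    rw [hterm]
    ring
  -- step 5
  have hR : (T.map fun x => ((qq m 29 / ordProj[29] (addOrderOf x) : ℕ) : ℤ) *
      ω (((ordProj[29] (addOrderOf x) : ℕ) : ZMod m) * x)).sum =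
      14 * ((Q / 29 : ℕ) : ℤ) * (T.map ω).sum := by
    rw [← Multiset.sum_map_mul_left]
    refine congrArg Multiset.sum (Multiset.map_congr rfl fun x hx => ?_)
    rw [← om_29 hω hunit h3m x (hT x hx), ← hQm]
    have he0 : addOrderOf x ≠ 0 := fun h => hm0 (Nat.eq_zero_of_zero_dvd (h ▸ RUp_order_dvd x))
    have h1 : ordProj[29] (addOrderOf x) ∣ Q := by
      rw [hQm]
      exact Nat.ordProj_dvd_ordProj_of_dvd hm0 (RUp_order_dvd x) 29
    have h2 : 29 ∣ ordProj[29] (addOrderOf x) := Nat.dvd_ordProj_of_dvd he0 ka_p29 (hT x hx)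
    have hPpos : 0 < ordProj[29] (addOrderOf x) := Nat.ordProj_pos _ _
    generalize ordProj[29] (addOrderOf x) = P at h1 h2 hPpos
    obtain ⟨c, hc⟩ := h1
    obtain ⟨e, he⟩ := h2
    have h3 : Q / P = c := by rw [hc]; exact Nat.mul_div_cancel_left _ hPpos
    have h4 : P / 29 = e := by rw [he]; exact Nat.mul_div_cancel_left _ (by norm_num)
    have h5 : Q / 29 = e * c := by
      rw [hc, he, mul_assoc]
      exact Nat.mul_div_cancel_left _ (by norm_num)
    rw [h3, h4, h5]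
    push_cast
    ring
  rw [hL, hR] at hp
  -- the totient
  have htot : n.totient = (n₁ / 3 * 2) * (Q / 29 * 28) := by
    have h1 : n₁.Coprime Q := by
      rw [hn₁, hQ]
      exact Nat.Coprime.pow _ _ (by norm_num)
    have e1 : n₁.totient = n₁ / 3 * 2 := by
      obtain ⟨c, hc⟩ : ∃ c, n.factorization 3 = c + 1 := by
        refine ⟨n.factorization 3 - 1, ?_⟩
        have := Nat.prime_three.factorization_pos_of_dvd hn0 h3n
        omega
      rw [hn₁, hc, Nat.totient_prime_pow_succ Nat.prime_three, pow_succ,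
        Nat.mul_div_cancel _ (by norm_num)]
    have e2 : Q.totient = Q / 29 * 28 := by
      obtain ⟨c, hc⟩ : ∃ c, n.factorization 29 = c + 1 := by
        refine ⟨n.factorization 29 - 1, ?_⟩
        have := ka_p29.factorization_pos_of_dvd hn0 h29n
        omega
      rw [hQ, hc, Nat.totient_prime_pow_succ ka_p29, pow_succ,
        Nat.mul_div_cancel _ (by norm_num)]
    conv_lhs => rw [← hnQ]
    rw [Nat.totient_mul h1, e1, e2]
  have hQ29 : 0 < Q / 29 := by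
    refine Nat.div_pos (Nat.le_of_dvd hQpos ?_) (by norm_num)
    rw [hQ]
    exact Nat.dvd_ordProj_of_dvd hn0 ka_p29 h29n
  have hQ29' : (0 : ℤ) < ((Q / 29 : ℕ) : ℤ) := by exact_mod_cast hQ29
  rw [htot] at hsumN
  push_cast at hsumN
  -- conclusion
  have f1 : (56 * ((Q / 29 : ℕ) : ℤ)) * (T.map ω).sum =
      (56 * ((Q / 29 : ℕ) : ℤ)) * (D 1 * (((n₁ / 3 : ℕ) : ℤ) * ω y₁)) := by
    have h1 : 4 * ((∑ w : (ZMod n)ˣ, N w * c3 (rr w)) * ω y₁) =
        D 1 * ((((n₁ / 3 : ℕ) : ℤ) * 2) * (((Q / 29 : ℕ) : ℤ) * 28)) * ω y₁ := by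
      push_cast
      rw [← hsumN]
      ring
    rw [hp] at h1
    linear_combination h1
  have f2 : (T.map ω).sum = D 1 * (((n₁ / 3 : ℕ) : ℤ) * ω y₁) :=
    mul_left_cancel₀ (by positivity) f1
  rw [f2, abs_mul, abs_mul, Nat.abs_cast, hV] at hlt
  have f3 : (1 : ℤ) ≤ |D 1| := Int.one_le_abs hβ
  have f4 : (0 : ℤ) ≤ |ω ((m / 3 : ℕ) : ZMod m)| := abs_nonneg _
  have f5 := mul_le_mul_of_nonneg_right f3 f4
  linarith

end Pool.Agent.FHD
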