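import Pool.Agent.FHD.RemoveAll
import Pool.Agent.FHD.CoreZero

/-!
# FHD-Main8: Hodge characters with at most eight elements

`remove_all` moves the elements whose order is divisible by a prime `≥ 11` to allowed levels, `core_zero` those
with order divisible by `4`, `3`, `5`, `7`; the rest is allowed (`alw_2357`) and `zero_of_allowed` applies.
-/

set_option autoImplicit false

namespace Pool.Agent.FHD

open Finset Pool.Agent.FS
open Pool.Agent.FQ (P2)
open Pool.Agent.Helper9.Fermat (fib mem_fib)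

private theorem e8_mem {T : Finset ℕ} {l : ℕ} (hT : T ⊆ ({2, 3, 5, 7} : Finset ℕ).erase l)
    (hl : l ∈ ({2, 3, 5, 7} : Finset ℕ)) : T ⊆ {2, 3, 5, 7} ∧ T ≠ {2, 3, 5, 7} := by
  refine ⟨hT.trans (erase_subset _ _), ?_⟩
  rintro rfl
  exact absurd (hT hl) (notMem_erase _ _)

private theorem e8_nR {m : ℕ} (hm : m ≠ 0) (R : Finset ℕ) (hR : ∀ l ∈ R, l.Prime) :
    (FQ.nR m R).primeFactors ⊆ R := by
  intro p hp
  have hpp := Nat.prime_of_mem_primeFactors hp
  have hpd := Nat.dvd_of_mem_primeFactors hp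
  unfold FQ.nR at hpd
  obtain ⟨l, hl, hpl⟩ := (Prime.dvd_finset_prod_iff hpp.prime _).1 hpd
  have h1 : p ∣ l := hpp.dvd_of_dvd_pow (by unfold qq at hpl; exact hpl)
  have h2 : p = l := (Nat.prime_dvd_prime_iff_eq hpp (hR l hl)).1 h1
  rw [h2]
  exact hl

private theorem e8_low {m : ℕ} {x : ZMod m} (h : Low 10 x) :
    (addOrderOf x).primeFactors ⊆ {2, 3, 5, 7} := by
  intro p hp
  have hpp := Nat.prime_of_mem_primeFactors hp
  have h1 := h p hpp (Nat.dvd_of_mem_primeFactors hp)
  interval_cases p <;> first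
    | (simp; done)
    | exact absurd hpp (by norm_num)

private theorem e8_L {m n' p : ℕ} (h0 : n' ≠ 0) (hA : Alw m n'.primeFactors) (hp : p.Prime)
    (h11 : 11 ≤ p) (hpn : p ∣ n') :
    (¬ 5 ∣ n') ∨ (¬ 7 ∣ n' ∧ (¬ 2 ∣ n' ∨ ¬ 3 ∣ n')) ∨ (¬ 2 ∣ n' ∧ ¬ 3 ∣ n') := by
  by_cases h5 : 5 ∣ n'
  swap
  · exact Or.inl h5
  right
  have hmem : ∀ l : ℕ, l.Prime → l ∣ n' → l ∈ n'.primeFactors := fun l hl h =>
    Nat.mem_primeFactors.2 ⟨hl, h, h0⟩
  have hc := alw_five hA (hmem 5 (by norm_num) h5)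
  have key : ∀ a b : ℕ, a.Prime → b.Prime → a ≠ b → a ≠ 5 → b ≠ 5 → a < 11 → b < 11 → a ∣ n' →
      b ∣ n' → False := by
    intro a b ha hb hab ha5 hb5 ha11 hb11 had hbd
    have h1 : ({a, b, 5, p} : Finset ℕ) ⊆ n'.primeFactors := by
      intro l hl
      simp only [mem_insert, mem_singleton] at hl
      rcases hl with rfl | rfl | rfl | rfl
      · exact hmem _ ha had
      · exact hmem _ hb hbd
      · exact hmem _ (by norm_num) h5
      · exact hmem _ hp hpn
    have h2 : ({a, b, 5, p} : Finset ℕ).card = 4 := by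
      rw [card_insert_of_notMem, card_insert_of_notMem, card_insert_of_notMem, card_singleton]
      · simp only [mem_singleton]; omega
      · simp only [mem_insert, mem_singleton]; omega
      · simp only [mem_insert, mem_singleton]; omega
    have h3 := card_le_card h1
    omega
  by_cases h7 : 7 ∣ n'
  · right
    exact ⟨fun h2 => key 7 2 (by norm_num) (by norm_num) (by norm_num) (by norm_num) (by norm_num)
        (by norm_num) (by norm_num) h7 h2,
      fun h3 => key 7 3 (by norm_num) (by norm_num) (by norm_num) (by norm_num) (by norm_num)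
        (by norm_num) (by norm_num) h7 h3⟩
  · left
    refine ⟨h7, ?_⟩
    by_cases h2 : 2 ∣ n'
    · right
      exact fun h3 => key 2 3 (by norm_num) (by norm_num) (by norm_num) (by norm_num) (by norm_num)
        (by norm_num) (by norm_num) h2 h3
    · exact Or.inl h2

/-- Hodge characters with at most eight elements, all levels. -/
theorem eightZ (m : ℕ) [NeZero m] (h12 : 12 ∣ m) (S : Multiset (ZMod m)) (h0 : (0 : ZMod m) ∉ S)
    (heven : Even S.card) (hc : S.card ≤ 8) (hS : IsHodge S) : FQ.Gen True P2 m S := by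
  classical
  have hm0 : m ≠ 0 := NeZero.ne m
  have hm : Even m := even_iff_two_dvd.2 ((by norm_num : 2 ∣ 12).trans h12)
  have hm4 : 4 ∣ m := (by norm_num : 4 ∣ 12).trans h12
  obtain ⟨A, _, D, hD⟩ := FQ.exists_datumQ True P2 m hm
  refine hD S h0 heven ?_
  -- the weights
  have hW : ∀ t, D.W t (S.map D.f).sum = 0 := by
    intro t
    rw [map_multiset_sum, Multiset.map_map]
    have h1 : S.map (D.W t ∘ D.f) = S.map fun x => 2 * (((t : ZMod m) * x).val : ℤ) - m := by
      refine Multiset.map_congr rfl fun x hx => ?_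
      have hx0 : (t : ZMod m) * x ≠ 0 := by
        intro h
        have h2 := (t.isUnit.mul_right_eq_zero).1 h
        exact h0 (h2 ▸ hx)
      rw [Function.comp_apply, D.wf, sw, if_neg hx0]
    rw [h1]
    have h2 : ∀ (U : Multiset (ZMod m)),
        (U.map fun x => 2 * (((t : ZMod m) * x).val : ℤ) - m).sum =
          2 * (((U.map fun x => ((t : ZMod m) * x).val).sum : ℕ) : ℤ) - m * U.card := by
      intro U
      induction U using Multiset.induction_on with
      | empty => simp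
      | cons x U ih =>
        rw [Multiset.map_cons, Multiset.sum_cons, ih, Multiset.map_cons, Multiset.sum_cons,
          Multiset.card_cons]
        push_cast
        ring
    rw [h2]
    have h3 := hS t
    have h4 : (2 : ℤ) * (((S.map fun x => ((t : ZMod m) * x).val).sum : ℕ) : ℤ) =
        m * S.card := by exact_mod_cast h3
    rw [h4, sub_self]
  have hsw : ∀ t : (ZMod m)ˣ, (S.map fun x => sw ((t : ZMod m) * x)).sum = 0 := by
    intro t
    have h1 := hW t
    rw [map_multiset_sum, Multiset.map_map] at h1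
    rw [← h1]
    refine congrArg Multiset.sum (Multiset.map_congr rfl fun x _ => ?_)
    rw [Function.comp_apply, D.wf]
  obtain ⟨Sb, hSb, hsum⟩ := remove_all D.toDatum h12 S hc hsw
  obtain ⟨E, hE⟩ : ∃ E, E = (S.filter (Low 10)).filter fun x =>
      (addOrderOf x).primeFactors = {2, 3, 5, 7} ∧ 4 ∣ addOrderOf x := ⟨_, rfl⟩
  obtain ⟨Y, hY⟩ : ∃ Y, Y = (S.filter (Low 10)).filter fun x =>
      ¬ ((addOrderOf x).primeFactors = {2, 3, 5, 7} ∧ 4 ∣ addOrderOf x) := ⟨_, rfl⟩
  have hEY : E + Y = S.filter (Low 10) := by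
    rw [hE, hY]
    exact Multiset.filter_add_not _ _
  have hEYs : ((S.filter (Low 10)).map D.f).sum = (E.map D.f).sum + (Y.map D.f).sum := by
    rw [← hEY, Multiset.map_add, Multiset.sum_add]
  have hcEY : E.card + Y.card ≤ 8 := by
    rw [← Multiset.card_add, hEY]
    exact (Multiset.card_le_card (Multiset.filter_le _ _)).trans hc
  have hE' : ∀ x ∈ E, (addOrderOf x).primeFactors = {2, 3, 5, 7} ∧ 4 ∣ addOrderOf x := by
    intro x hx
    rw [hE] at hx
    exact (Multiset.mem_filter.1 hx).2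
  have hY' : ∀ x ∈ Y, (addOrderOf x).primeFactors ⊆ {2, 3, 5, 7} ∧
      ¬ ((addOrderOf x).primeFactors = {2, 3, 5, 7} ∧ 4 ∣ addOrderOf x) := by
    intro x hx
    rw [hY] at hx
    have h1 := Multiset.mem_filter.1 hx
    exact ⟨e8_low (Multiset.mem_filter.1 h1.1).2, h1.2⟩
  have hord : ∀ x : ZMod m, addOrderOf x ≠ 0 := fun x => (addOrderOf_pos x).ne'
  have hb : (Sb.map D.f).sum ∈ D.toDatum.lev {n' | n' ≠ 0 ∧ Alw m n'.primeFactors ∧
      ∃ p : ℕ, p.Prime ∧ 11 ≤ p ∧ p ∣ n'} := by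
    refine AddSubgroup.multiset_sum_mem _ _ fun a ha => ?_
    obtain ⟨x, hx, rfl⟩ := Multiset.mem_map.1 ha
    exact AddSubgroup.subset_closure ⟨x, ⟨hord x, (hSb x hx).1, (hSb x hx).2⟩, rfl⟩
  have hall : (S.map D.f).sum = (E.map D.f).sum + ((Y.map D.f).sum + (Sb.map D.f).sum) := by
    rw [hsum, hEYs, add_assoc]
  have hcore := core_zero D.toDatum hm4 E Y hE' hY' hcEY _
    (fun n' hn' => by
      obtain ⟨h1, h2, p, h3, h4, h5⟩ := hn'
      exact e8_L h1 h2 h3 h4 h5) _ hb (fun t => by rw [← hall]; exact hW t)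
  refine FQ.zero_of_allowed D.toDatum (Al := FQ.AlM True P2 m)
    (fun T hT T' hT' => FQ.AlM_mono T hT T' hT') hm.two_dvd
    (fun R hR hA hne hev => FQ.killers D hm R hR hA hne hev) _ ?_ hW
  rw [hall]
  refine AddSubgroup.add_mem _ ?_ (AddSubgroup.add_mem _ ?_ ?_)
  · refine (AddSubgroup.closure_mono ?_) hcore
    rintro a ⟨x, ⟨l, hl, hx⟩, rfl⟩
    have hR : ∀ l' ∈ ({2, 3, 5, 7} : Finset ℕ).erase l, l'.Prime := by
      intro l' hl'
      have h1 := mem_of_mem_erase hl'
      simp only [mem_insert, mem_singleton] at h1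
      rcases h1 with rfl | rfl | rfl | rfl <;> norm_num
    have h1 := e8_nR hm0 _ hR
    rw [← hx] at h1
    obtain ⟨h2, h3⟩ := e8_mem h1 hl
    exact ⟨x, ⟨_, Or.inl rfl, alw_2357 h12 h2 h3⟩, rfl⟩
  · refine AddSubgroup.multiset_sum_mem _ _ fun a ha => ?_
    obtain ⟨x, hx, rfl⟩ := Multiset.mem_map.1 ha
    obtain ⟨h1, h2⟩ := hY' x hx
    refine AddSubgroup.subset_closure ⟨x, ?_, rfl⟩
    by_cases h3 : (addOrderOf x).primeFactors = {2, 3, 5, 7}
    · have h4 : ¬ 4 ∣ addOrderOf x := fun h => h2 ⟨h3, h⟩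
      have h5 : 2 ∣ addOrderOf x := by
        refine Nat.dvd_of_mem_primeFactors ?_
        rw [h3]
        simp
      obtain ⟨e', he'⟩ := h5
      have h6 : ¬ 2 ∣ e' := by
        rintro ⟨c, rfl⟩
        exact h4 ⟨c, by rw [he']; ring⟩
      have h7 : e'.primeFactors ⊆ ({2, 3, 5, 7} : Finset ℕ).erase 2 := by
        intro p hp
        refine mem_erase.2 ⟨?_, ?_⟩
        · rintro rfl
          exact h6 (Nat.dvd_of_mem_primeFactors hp)
        · rw [← h3]
          refine Nat.mem_primeFactors.2 ⟨Nat.prime_of_mem_primeFactors hp, ?_, hord x⟩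
          rw [he']
          exact (Nat.dvd_of_mem_primeFactors hp).mul_left 2
      obtain ⟨h8, h9⟩ := e8_mem h7 (by simp)
      exact ⟨e', Or.inr he', alw_2357 h12 h8 h9⟩
    · exact ⟨_, Or.inl rfl, alw_2357 h12 h1 h3⟩
  · refine AddSubgroup.multiset_sum_mem _ _ fun a ha => ?_
    obtain ⟨x, hx, rfl⟩ := Multiset.mem_map.1 ha
    exact AddSubgroup.subset_closure ⟨x, ⟨_, Or.inl rfl, (hSb x hx).1⟩, rfl⟩

end Pool.Agent.FHD
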