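import Pool.Agent.FHD.K8N
import Pool.Agent.FHD.Main8

/-!
# FHD-Main8N: Hodge characters with at most eight elements, no additional generators

`remove_allN`: as `remove_all`. `eightN`: as `eightZ`, the remaining elements have allowed orders.
-/

set_option autoImplicit false

namespace Pool.Agent.FHD

open Finset Pool.Agent.FS
open Pool.Agent.Helper9.Fermat (fib mem_fib)

open Classical in
/-- the statement of the descending induction -/
private def RAN {m : ℕ} [NeZero m] {A : Type} [AddCommGroup A] (D : Datum m A)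
    (S : Multiset (ZMod m)) (M : ℕ) : Prop :=
  ∃ Sb : Multiset (ZMod m),
    (∀ x ∈ Sb, Aln m (addOrderOf x).primeFactors) ∧
    (S.map D.f).sum = ((S.filter (Low M)).map D.f).sum + (Sb.map D.f).sum

private theorem low_not_prime {m M : ℕ} (hM : ¬ (M + 1).Prime) (x : ZMod m) :
    Low (M + 1) x ↔ Low M x := by
  constructor
  · intro h p hp hpx
    have h1 := h p hp hpx
    have h2 : p ≠ M + 1 := fun h3 => hM (h3 ▸ hp)
    omega
  · intro h p hp hpx
    have h1 := h p hp hpx
    omega

private theorem low_prime {m M : ℕ} (hM : (M + 1).Prime) (x : ZMod m) :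
    (¬ (M + 1) ∣ addOrderOf x ∧ Low (M + 1) x) ↔ Low M x := by
  constructor
  · rintro ⟨h1, h2⟩ p hp hpx
    have h3 := h2 p hp hpx
    have h4 : p ≠ M + 1 := by
      rintro rfl
      exact h1 hpx
    omega
  · intro h
    refine ⟨fun h1 => ?_, fun p hp hpx => ?_⟩
    · have h2 := h _ hM h1
      omega
    · have h2 := h p hp hpx
      omega

open Classical in
private theorem ran_step {m : ℕ} [NeZero m] {A : Type} [AddCommGroup A] (D : Datum m A)
    (hm : 2 ∣ m) (hex : ∀ c ∈ exc, ¬ c ∣ m) (S : Multiset (ZMod m)) (hc : S.card ≤ 8)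
    (hS : ∀ t : (ZMod m)ˣ, (S.map fun x => sw ((t : ZMod m) * x)).sum = 0) {M : ℕ} (hM : 10 ≤ M)
    (h : RAN D S (M + 1)) : RAN D S M := by
  obtain ⟨Sb, hb, hsum⟩ := h
  by_cases hr : (M + 1).Prime
  swap
  · refine ⟨Sb, hb, ?_⟩
    rw [hsum, Multiset.filter_congr fun x _ => low_not_prime hr x]
  have hW : ∀ t : (ZMod m)ˣ,
      ((S.filter (Low (M + 1)) + Sb).map fun x => sw ((t : ZMod m) * x)).sum = 0 := by
    intro t
    have h1 : ∀ T : Multiset (ZMod m), D.W t (T.map D.f).sum =
        (T.map fun x => sw ((t : ZMod m) * x)).sum := by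
      intro T
      rw [map_multiset_sum, Multiset.map_map]
      congr 1
      exact Multiset.map_congr rfl fun x _ => D.wf t x
    rw [← h1, Multiset.map_add, Multiset.sum_add, ← hsum, h1, hS t]
  have hmem := remove_one D hr (by omega) (S.filter (Low (M + 1)) + Sb)
    (fun n => Aln m n.primeFactors)
    (fun n n' hnn' hn'm hA => FQ.AlM_mono _ hA _ (Nat.primeFactors_mono hnn' (by
      rintro rfl
      exact NeZero.ne m (Nat.eq_zero_of_zero_dvd hn'm))))
    (fun U _ R n _ hn hrn hna => kp8N hm hex hr (by omega) R S Sb hc hb hW hn hrn hna)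
  obtain ⟨Sb', hSb', hsum'⟩ := Pool.Agent.FQ.lev_multiset D _ hmem
  refine ⟨Sb.filter (fun x => ¬ (M + 1) ∣ addOrderOf x) + Sb', ?_, ?_⟩
  · intro x hx
    rcases Multiset.mem_add.1 hx with h1 | h1
    · exact hb x (Multiset.mem_filter.1 h1).1
    · obtain ⟨-, -, h4⟩ := hSb' x h1
      exact h4
  · have h1 : ((S.filter (Low (M + 1)) + Sb).map D.f).sum =
        (((S.filter (Low (M + 1)) + Sb).filter fun x => (M + 1) ∣ addOrderOf x).map D.f).sum +
        (((S.filter (Low (M + 1)) + Sb).filter fun x => ¬ (M + 1) ∣ addOrderOf x).map D.f).sum := by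
      rw [← Multiset.sum_add, ← Multiset.map_add, Multiset.filter_add_not]
    have h2 : (S.filter (Low (M + 1)) + Sb).filter (fun x => ¬ (M + 1) ∣ addOrderOf x) =
        S.filter (Low M) + Sb.filter (fun x => ¬ (M + 1) ∣ addOrderOf x) := by
      rw [Multiset.filter_add, Multiset.filter_filter]
      congr 1
      exact Multiset.filter_congr fun x _ => low_prime hr x
    rw [hsum, ← Multiset.sum_add, ← Multiset.map_add, h1, h2, hsum']
    simp only [Multiset.map_add, Multiset.sum_add]
    abel

open Classical in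
theorem remove_allN {m : ℕ} [NeZero m] {A : Type} [AddCommGroup A] (D : Datum m A) (hm : 2 ∣ m)
    (hex : ∀ c ∈ exc, ¬ c ∣ m) (S : Multiset (ZMod m)) (hc : S.card ≤ 8)
    (hS : ∀ t : (ZMod m)ˣ, (S.map fun x => sw ((t : ZMod m) * x)).sum = 0) :
    ∃ Sb : Multiset (ZMod m), (∀ x ∈ Sb, Aln m (addOrderOf x).primeFactors) ∧
      (S.map D.f).sum = ((S.filter (Low 10)).map D.f).sum + (Sb.map D.f).sum := by
  have key : ∀ j : ℕ, j ≤ m → RAN D S (10 + (m - j)) := by
    intro j
    induction j with
    | zero =>
      intro _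
      refine ⟨0, fun x hx => absurd hx (Multiset.notMem_zero x), ?_⟩
      have h1 : S.filter (Low (10 + (m - 0))) = S := by
        rw [Multiset.filter_eq_self]
        intro x _ p hp hpx
        have h2 : addOrderOf x ∣ m := by
          have h3 := addOrderOf_dvd_card (x := x)
          rwa [ZMod.card] at h3
        have h3 := Nat.le_of_dvd (Nat.pos_of_ne_zero (NeZero.ne m)) (hpx.trans h2)
        omega
      rw [h1]
      simp
    | succ j ih =>
      intro hj
      have h1 := ih (by omega)
      have h2 : 10 + (m - j) = 10 + (m - (j + 1)) + 1 := by omega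
      rw [h2] at h1
      exact ran_step D hm hex S hc hS (by omega) h1
  have h1 := key m le_rfl
  rw [Nat.sub_self] at h1
  exact h1

private theorem e8n_allow {m : ℕ} {T : Finset ℕ} (h : T ⊆ {2, 3, 5} ∨ T ⊆ {2, 3, 7}) :
    FQ.AlM False ∅ m T := by
  refine Or.inr ⟨?_, ?_⟩
  · rcases h with h | h
    · exact (card_le_card h).trans (by decide)
    · exact (card_le_card h).trans (by decide)
  · intro p hp q hq hpq
    left
    left
    rcases h with h | h
    · have h1 := h hp
      have h2 := h hq
      simp only [mem_insert, mem_singleton] at h1 h2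
      rcases h1 with rfl | rfl | rfl <;> rcases h2 with rfl | rfl | rfl <;> first
        | omega
        | (simp; done)
    · have h1 := h hp
      have h2 := h hq
      simp only [mem_insert, mem_singleton] at h1 h2
      rcases h1 with rfl | rfl | rfl <;> rcases h2 with rfl | rfl | rfl <;> first
        | omega
        | (simp; done)

private theorem e8n_low {m : ℕ} {x : ZMod m} (h : Low 10 x) :
    (addOrderOf x).primeFactors ⊆ {2, 3, 5, 7} := by
  intro p hp
  have hpp := Nat.prime_of_mem_primeFactors hp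
  have h1 := h p hpp (Nat.dvd_of_mem_primeFactors hp)
  interval_cases p <;> first
    | (simp; done)
    | exact absurd hpp (by norm_num)

/-- Hodge characters with at most eight elements, without additional generators. -/
theorem eightN (m : ℕ) [NeZero m] (hm : Even m) (hex : ∀ c ∈ exc, ¬ c ∣ m)
    (S : Multiset (ZMod m)) (h0 : (0 : ZMod m) ∉ S) (heven : Even S.card) (hc : S.card ≤ 8)
    (hS : IsHodge S) : FQ.Gen False ∅ m S := by
  classical
  obtain ⟨A, _, D, hD⟩ := FQ.exists_datumQ False ∅ m hm
  refine hD S h0 heven ?_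
  -- the weights
  have hW : ∀ t, D.W t (S.map D.f).sum = 0 := by
    intro t
    rw [map_multiset_sum, Multiset.map_map]
    have h1 : S.map (D.W t ∘ D.f) = S.map fun x => 2 * (((t : ZMod m) * x).val : ℤ) - m := by
      refine Multiset.map_congr rfl fun x hx => ?_
      have hx0 : (t : ZMod m) * x ≠ 0 := by
        intro h
        have h2 := (t.isUnit.mul_right_eq_zero).1 h
        exact h0 (h2 ▸ hx)
      rw [Function.comp_apply, D.wf, sw, if_neg hx0]
    rw [h1]
    have h2 : ∀ (U : Multiset (ZMod m)),
        (U.map fun x => 2 * (((t : ZMod m) * x).val : ℤ) - m).sum =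
          2 * (((U.map fun x => ((t : ZMod m) * x).val).sum : ℕ) : ℤ) - m * U.card := by
      intro U
      induction U using Multiset.induction_on with
      | empty => simp
      | cons x U ih =>
        rw [Multiset.map_cons, Multiset.sum_cons, ih, Multiset.map_cons, Multiset.sum_cons,
          Multiset.card_cons]
        push_cast
        ring
    rw [h2]
    have h3 := hS t
    have h4 : (2 : ℤ) * (((S.map fun x => ((t : ZMod m) * x).val).sum : ℕ) : ℤ) =
        m * S.card := by exact_mod_cast h3
    rw [h4, sub_self]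
  have hsw : ∀ t : (ZMod m)ˣ, (S.map fun x => sw ((t : ZMod m) * x)).sum = 0 := by
    intro t
    have h1 := hW t
    rw [map_multiset_sum, Multiset.map_map] at h1
    rw [← h1]
    refine congrArg Multiset.sum (Multiset.map_congr rfl fun x _ => ?_)
    rw [Function.comp_apply, D.wf]
  obtain ⟨Sb, hSb, hsum⟩ := remove_allN D.toDatum hm.two_dvd hex S hc hsw
  refine FQ.zero_of_allowed D.toDatum (Al := FQ.AlM False ∅ m)
    (fun T hT T' hT' => FQ.AlM_mono T hT T' hT') hm.two_dvd
    (fun R hR hA hne hev => FQ.killers D hm R hR hA hne hev) _ ?_ hW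
  rw [hsum]
  refine AddSubgroup.add_mem _ ?_ ?_
  · refine AddSubgroup.multiset_sum_mem _ _ fun a ha => ?_
    obtain ⟨x, hx, rfl⟩ := Multiset.mem_map.1 ha
    have h1 := e8n_low (Multiset.mem_filter.1 hx).2
    have h2 : addOrderOf x ∣ m := by
      have h3 := addOrderOf_dvd_card (x := x)
      rwa [ZMod.card] at h3
    have h35 : ¬ (5 ∣ addOrderOf x ∧ 7 ∣ addOrderOf x) := by
      rintro ⟨h5, h7⟩
      refine hex 35 (by simp [exc]) (Dvd.dvd.trans ?_ h2)
      exact Nat.Coprime.mul_dvd_of_dvd_of_dvd (by norm_num : Nat.Coprime 5 7) h5 h7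
    refine AddSubgroup.subset_closure ⟨x, ⟨_, Or.inl rfl, e8n_allow ?_⟩, rfl⟩
    by_cases h5 : 5 ∣ addOrderOf x
    · left
      intro p hp
      have h3 := h1 hp
      have h4 : p ≠ 7 := by
        rintro rfl
        exact h35 ⟨h5, Nat.dvd_of_mem_primeFactors hp⟩
      simp only [mem_insert, mem_singleton] at h3 ⊢
      omega
    · right
      intro p hp
      have h3 := h1 hp
      have h4 : p ≠ 5 := by
        rintro rfl
        exact h5 (Nat.dvd_of_mem_primeFactors hp)
      simp only [mem_insert, mem_singleton] at h3 ⊢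
      omega
  · refine AddSubgroup.multiset_sum_mem _ _ fun a ha => ?_
    obtain ⟨x, hx, rfl⟩ := Multiset.mem_map.1 ha
    exact AddSubgroup.subset_closure ⟨x, ⟨_, Or.inl rfl, hSb x hx⟩, rfl⟩

end Pool.Agent.FHD
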