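import Pool.Agent.FHD.Defs

/-!
# FHD-MdMul: additivity of the mixed differences

Plan. `md_head`: `lsr n r` is a permutation of `l :: ls'`, and `difs` is invariant under
permutations of the list (`Mixed_dif_comm`), so `md n r N k g = F g - F (k l * g)` where
`F = difs (ls'.map k) (N - N (-1 * ·))`, `ls' = (lsr n r).erase l`, does not depend on `k l`.
`md_mul`: `F g - F (a * b * g) = (F g - F (a * g)) + (F (a * g) - F (b * (a * g)))`.
-/

set_option autoImplicit false

namespace Pool.Agent.FHD

open Finset Pool.Agent.FS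
open Pool.Agent.Helper9.Fermat (fib mem_fib)

section

variable {n r : ℕ} [NeZero n] (N : (ZMod n)ˣ → ℤ)

private theorem difs_head {G : Type*} [CommGroup G] (φ : G → ℤ) (k : ℕ → G) (l : ℕ) :
    ∀ ls : List ℕ, ls.Nodup → l ∈ ls → ∃ F : G → ℤ, ∀ a g : G,
      difs (ls.map (Function.update k l a)) φ g = F g - F (a * g)
  | [], _, h => absurd h (by simp)
  | l' :: ls, hn, h => by
    rw [List.nodup_cons] at hn
    by_cases hl : l' = l
    · subst hl
      refine ⟨difs (ls.map k) φ, fun a g => ?_⟩
      have h1 : ls.map (Function.update k l' a) = ls.map k := by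
        refine List.map_congr_left fun x hx => ?_
        rw [Function.update_of_ne]
        rintro rfl
        exact hn.1 hx
      rw [List.map_cons, h1, Function.update_self]
      rfl
    · have h2 : l ∈ ls := by
        rcases List.mem_cons.1 h with h3 | h3
        · exact absurd h3.symm hl
        · exact h3
      obtain ⟨F, hF⟩ := difs_head φ k l ls hn.2 h2
      refine ⟨fun g => F g - F (k l' * g), fun a g => ?_⟩
      rw [List.map_cons, Function.update_of_ne hl]
      change difs (ls.map (Function.update k l a)) φ g -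
        difs (ls.map (Function.update k l a)) φ (k l' * g) = _
      rw [hF, hF, mul_left_comm a (k l') g]
      ring

theorem md_head (l : ℕ) (hl : l ∈ tps n r) (k : ℕ → (ZMod n)ˣ) :
    ∃ F : (ZMod n)ˣ → ℤ, ∀ (a : (ZMod n)ˣ) (g : (ZMod n)ˣ),
      md n r N (Function.update k l a) g = F g - F (a * g) := by
  exact difs_head (fun g => N g - N (-1 * g)) k l (lsr n r) (Finset.nodup_toList _)
    (Finset.mem_toList.2 hl)

theorem md_mul (l : ℕ) (hl : l ∈ tps n r) (k : ℕ → (ZMod n)ˣ) (a b g : (ZMod n)ˣ) :
    md n r N (Function.update k l (a * b)) g =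
      md n r N (Function.update k l a) g + md n r N (Function.update k l b) (a * g) := by
  obtain ⟨F, hF⟩ := md_head N l hl k
  rw [hF, hF, hF, mul_assoc a b g, mul_left_comm b a g]
  ring

/-- it suffices to consider generators at one prime -/
theorem md_gen (l : ℕ) (hl : l ∈ tps n r) (good : (ZMod n)ˣ → Prop)
    (hgood : ∀ x ∈ Kl n l, ∃ a ∈ Kl n l, ∃ b ∈ Kl n l, good a ∧ good b ∧ x = a * b)
    (h0 : ∀ k : ℕ → (ZMod n)ˣ, KFam n r k → good (k l) → ∀ g, md n r N k g = 0)
    (k : ℕ → (ZMod n)ˣ) (hk : KFam n r k) (g : (ZMod n)ˣ) : md n r N k g = 0 := by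
  obtain ⟨a, ha, b, hb, hga, hgb, hab⟩ := hgood (k l) (hk l hl)
  have h1 : ∀ c ∈ Kl n l, good c → ∀ g, md n r N (Function.update k l c) g = 0 := by
    intro c hc hgc g
    refine h0 _ (fun l' hl' => ?_) ?_ g
    · by_cases h : l' = l
      · subst h
        rw [Function.update_self]
        exact hc
      · rw [Function.update_of_ne h]
        exact hk l' hl'
    · rw [Function.update_self]
      exact hgc
  have h2 := md_mul N l hl k a b g
  rw [← hab, Function.update_eq_self, h1 a ha hga, h1 b hb hgb, add_zero] at h2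
  exact h2

end

end Pool.Agent.FHD
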