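import Pool.Agent.FHD.Avg

/-!
# FHD-Om: the distribution of the character modulo `3`

Plan. `ω x = ∑ t : (ZMod m)ˣ, χ t * sw (t * x)`, `χ t = if (t : ZMod m).val % 3 = 1 then 1 else -1`
(a homomorphism to `{1, -1}`, `χ (-1) = -1`, since `3 ∣ m`). It is a distribution (`isDist_sw_unit`),
`ω (u x) = χ u * ω x` (substitution), so odd, and it is killed if all `∑ sw (t x)` vanish. If
`¬ 3 ∣ addOrderOf x` take `u ∈ Kl m 3` with `u ≡ -1` modulo `3`: `u x = x`, `χ u = -1`, so `ω x = 0`.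
`red` for `l ≠ 3`: `u ∈ Kl m l` is `1` modulo `3`, so `ω (u x) = ω x` and `Kl_avg` gives
`(qq m l / l * (l - 1)) * ω x = (qq m l / P) * (..)`; `P.totient = P / l * (l - 1)`, cancel.
Values for `(addOrderOf y).primeFactors = {3}`: by the distribution relation, if the order of `y` is
`3 ^ (i + 1)`, `i ≥ 1`, then the fibre of `3 y` consists of `y, u y, u' y` with units `u, u'`
congruent to `1` modulo `3`, so `3 ω y = ω (3 y)`; the elements of order `3` are `± m / 3`.
`ω (m / 3) ≠ 0`: `sw (t * (m / 3)) = (2 * (t % 3) - 3) * (m / 3) = - χ t * (m / 3)`, so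
`ω (m / 3) = - m.totient * (m / 3)`.
-/

set_option autoImplicit false

namespace Pool.Agent.FHD

open Finset Pool.Agent.FS
open Pool.Agent.Helper9.Fermat (fib mem_fib)

/-- the sign modulo `3` -/
def c3 (a : ℕ) : ℤ := if a % 3 = 1 then 1 else -1

private theorem om_c3_mod {a b : ℕ} (h : a % 3 = b % 3) : c3 a = c3 b := by
  unfold c3
  rw [h]

private theorem om_c3_mul {a b : ℕ} (ha : ¬ 3 ∣ a) (hb : ¬ 3 ∣ b) : c3 (a * b) = c3 a * c3 b := by
  unfold c3
  have h1 : a % 3 = 1 ∨ a % 3 = 2 := by omega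
  have h2 : b % 3 = 1 ∨ b % 3 = 2 := by omega
  rw [Nat.mul_mod]
  rcases h1 with h1 | h1 <;> rcases h2 with h2 | h2 <;> rw [h1, h2] <;> norm_num

private theorem om_c3_sq (a : ℕ) : c3 a * c3 a = 1 := by
  unfold c3
  split_ifs <;> norm_num

section

variable {m : ℕ} [NeZero m]

private theorem om_unit (h3 : 3 ∣ m) (u : (ZMod m)ˣ) : ¬ 3 ∣ rr u := by
  intro h
  have h1 := Nat.dvd_gcd h h3
  rw [(rr_coprime u : (rr u).gcd m = 1)] at h1
  omega

private theorem om_c3_unit (h3 : 3 ∣ m) (u v : (ZMod m)ˣ) :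
    c3 (rr (u * v)) = c3 (rr u) * c3 (rr v) := by
  rw [← om_c3_mul (om_unit h3 u) (om_unit h3 v)]
  exact om_c3_mod ((rr_mul u v).of_dvd h3)

private theorem om_c3_neg_one (h3 : 3 ∣ m) : c3 (rr (-1 : (ZMod m)ˣ)) = -1 := by
  have h1 : rr ((-1 : (ZMod m)ˣ)) + 1 ≡ 0 [MOD 3] := (neg_one_val (n := m)).of_dvd h3
  have h2 : (rr ((-1 : (ZMod m)ˣ)) + 1) % 3 = 0 % 3 := h1
  unfold c3
  rw [if_neg]
  omega

/-- the distribution -/
private def om (x : ZMod m) : ℤ := ∑ t : (ZMod m)ˣ, c3 (rr t) * sw ((t : ZMod m) * x)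

private theorem om_smul (h3 : 3 ∣ m) (u : (ZMod m)ˣ) (x : ZMod m) :
    om ((u : ZMod m) * x) = c3 (rr u) * om x := by
  unfold om
  rw [mul_sum]
  refine Fintype.sum_equiv (Equiv.mulRight u) _ _ fun t => ?_
  rw [Equiv.coe_mulRight, om_c3_unit h3, Units.val_mul, mul_assoc (t : ZMod m)]
  have h1 := om_c3_sq (rr u)
  calc c3 (rr t) * sw ((t : ZMod m) * ((u : ZMod m) * x)) =
      (c3 (rr u) * c3 (rr u)) * (c3 (rr t) * sw ((t : ZMod m) * ((u : ZMod m) * x))) := by
        rw [h1, one_mul]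
    _ = _ := by ring

private theorem om_dist : IsDist (om (m := m)) := by
  intro r hr hrm y
  unfold om
  rw [sum_comm]
  refine sum_congr rfl fun t _ => ?_
  rw [← mul_sum]
  congr 1
  exact isDist_sw_unit t r hr hrm y

private theorem om_odd (h3 : 3 ∣ m) (x : ZMod m) : om (-x) = - om x := by
  have h1 := om_smul h3 (-1 : (ZMod m)ˣ) x
  rw [om_c3_neg_one h3, Units.val_neg, Units.val_one] at h1
  rw [← neg_one_mul, h1]
  ring

private theorem om_crt (w : ℕ) (hw : ¬ 3 ∣ w) : ∃ u : (ZMod m)ˣ, u ∈ Kl m 3 ∧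
    rr u ≡ w [MOD qq m 3] := by
  obtain ⟨u, hu1, hu2⟩ := exists_unit_crt (n := m) (a := qq m 3) (b := ordCompl[3] m)
    (RNorm_qq_mul (m := m) 3).symm (RNorm_qq_coprime Nat.prime_three) w 1
    (Nat.Coprime.pow_right _ ((Nat.coprime_comm.1 ((Nat.Prime.coprime_iff_not_dvd
      Nat.prime_three).2 hw)))) (Nat.coprime_one_left _)
  exact ⟨u, mem_Kl.2 hu2, hu1⟩

private theorem om_three_qq (h3 : 3 ∣ m) : 3 ∣ qq m 3 := by
  have h1 : 1 ≤ m.factorization 3 :=
    (Nat.prime_three.dvd_iff_one_le_factorization (NeZero.ne m)).1 h3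
  exact dvd_pow_self 3 (by omega)

private theorem om_supp (h3 : 3 ∣ m) (x : ZMod m) (hx : ¬ 3 ∣ addOrderOf x) : om x = 0 := by
  obtain ⟨u, hu, hu2⟩ := om_crt (m := m) 2 (by norm_num)
  have h1 := ide_mul_eq_self (m := m) 3 Nat.prime_three x hx
  have h2 := Kl_mul_ide (m := m) 3 Nat.prime_three u hu x
  rw [h1] at h2
  have h4 := om_smul h3 u x
  rw [h2] at h4
  have h5 : rr u % 3 = 2 % 3 := hu2.of_dvd (om_three_qq h3)
  have h6 : c3 (rr u) = -1 := by
    unfold c3
    rw [if_neg]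
    omega
  rw [h6] at h4
  omega

private theorem om_red (h3 : 3 ∣ m) (l : ℕ) (hl : l.Prime) (hl3 : l ≠ 3) (x : ZMod m)
    (hx : l ∣ addOrderOf x) :
    ((ordProj[l] (addOrderOf x)).totient : ℤ) * om x =
      om (((ordProj[l] (addOrderOf x) : ℕ) : ZMod m) * x) -
        om (((ordProj[l] (addOrderOf x) / l : ℕ) : ZMod m) * (ide m l * x)) := by
  classical
  have he0 : addOrderOf x ≠ 0 := (addOrderOf_pos x).ne'
  have hlm : l ∣ m := hx.trans (RNorm_ord_dvd x)
  have h1 := Kl_avg (om_dist (m := m)) hl x hx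
  have h2 : ∑ᶠ k : Kl m l, om (((k : (ZMod m)ˣ) : ZMod m) * x) = (qq m l / l * (l - 1)) • om x := by
    rw [finsum_eq_sum_of_fintype, ← card_Kl l hl hlm, Nat.card_eq_fintype_card, ← card_univ,
      ← sum_const]
    refine sum_congr rfl fun k _ => ?_
    rw [om_smul h3]
    have h4 : rr (k : (ZMod m)ˣ) ≡ 1 [MOD ordCompl[l] m] := mem_Kl.1 k.2
    have h5 : 3 ∣ ordCompl[l] m := by
      have h6 : 3 ∣ qq m l * ordCompl[l] m := by
        rw [RNorm_qq_mul]
        exact h3
      rcases (Nat.Prime.dvd_mul Nat.prime_three).1 h6 with h7 | h7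
      · exfalso
        have h8 := (Nat.prime_dvd_prime_iff_eq Nat.prime_three hl).1
          (Nat.prime_three.dvd_of_dvd_pow h7)
        exact hl3 h8.symm
      · exact h7
    have h6 : rr (k : (ZMod m)ˣ) % 3 = 1 % 3 := h4.of_dvd h5
    have h7 : c3 (rr (k : (ZMod m)ˣ)) = 1 := by
      unfold c3
      rw [if_pos]
      omega
    rw [h7, one_mul]
  rw [h2] at h1
  obtain ⟨P, hP⟩ : ∃ P, P = ordProj[l] (addOrderOf x) := ⟨_, rfl⟩
  have hPq : P ∣ qq m l := by
    rw [hP]
    exact RNorm_ordProj_dvd l x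
  rw [← hP] at h1 ⊢
  obtain ⟨a, ha⟩ : ∃ a, (addOrderOf x).factorization l = a + 1 := by
    refine ⟨(addOrderOf x).factorization l - 1, ?_⟩
    have := hl.factorization_pos_of_dvd he0 hx
    omega
  rw [ha] at hP
  obtain ⟨c, hc⟩ := hPq
  have hc0 : c ≠ 0 := by
    rintro rfl
    have := RNorm_qq_pos (m := m) l
    omega
  have hPpos : 0 < P := by
    rw [hP]
    exact pow_pos hl.pos _
  have h4 : qq m l / P = c := by
    rw [hc]
    exact Nat.mul_div_cancel_left c hPpos
  have h5 : qq m l / l * (l - 1) = c * P.totient := by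
    rw [hc, hP, Nat.totient_prime_pow_succ hl, pow_succ, mul_assoc (l ^ a), mul_comm l c,
      ← mul_assoc, Nat.mul_div_cancel _ hl.pos]
    ring
  rw [h4, h5, mul_smul] at h1
  have h6 : (c : ℤ) * ((P.totient : ℤ) * om x) = (c : ℤ) * (om (((P : ℕ) : ZMod m) * x) -
      om (((P / l : ℕ) : ZMod m) * (ide m l * x))) := by
    simpa [nsmul_eq_mul] using h1
  exact mul_left_cancel₀ (by exact_mod_cast hc0) h6

private theorem om_third (h3 : 3 ∣ m) (y : ZMod m) (hy : (3 : ZMod m) * y = 0) :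
    ∃ j : ℕ, j < 3 ∧ y = (j : ZMod m) * ((m / 3 : ℕ) : ZMod m) := by
  have hm0 : 0 < m := Nat.pos_of_ne_zero (NeZero.ne m)
  obtain ⟨c, hc⟩ := h3
  have hc0 : 0 < c := by
    rcases Nat.eq_zero_or_pos c with h | h
    · rw [h, mul_zero] at hc
      omega
    · exact h
  have h1 : ((3 * y.val : ℕ) : ZMod m) = 0 := by
    rw [Nat.cast_mul, ZMod.natCast_zmod_val]
    exact_mod_cast hy
  rw [ZMod.natCast_eq_zero_iff] at h1
  have h2 : c ∣ y.val := by
    have h4 : 3 * c ∣ 3 * y.val := by rwa [← hc]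
    exact Nat.dvd_of_mul_dvd_mul_left (by norm_num) h4
  obtain ⟨j, hj⟩ := h2
  have h5 : m / 3 = c := by
    rw [hc]
    exact Nat.mul_div_cancel_left c (by norm_num)
  refine ⟨j, ?_, ?_⟩
  · have h6 := ZMod.val_lt y
    have h7 : c * j < c * 3 := by
      rw [← hj, mul_comm c 3, ← hc]
      exact h6
    exact Nat.lt_of_mul_lt_mul_left h7
  · rw [h5, mul_comm, ← Nat.cast_mul, ← hj, ZMod.natCast_zmod_val]

omit [NeZero m] in
private theorem om_mthird (h3 : 3 ∣ m) : (3 : ZMod m) * ((m / 3 : ℕ) : ZMod m) = 0 := by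
  have h1 : ((3 * (m / 3) : ℕ) : ZMod m) = 0 := by
    rw [Nat.mul_div_cancel' h3, ZMod.natCast_self]
  exact_mod_cast h1

private theorem om_val_zero (h3 : 3 ∣ m) (y : ZMod m) (hy : addOrderOf y = 3) :
    |om y| = |om ((m / 3 : ℕ) : ZMod m)| := by
  have h1 : (3 : ZMod m) * y = 0 := by
    have h2 := addOrderOf_nsmul_eq_zero y
    rw [hy, nsmul_eq_mul] at h2
    exact_mod_cast h2
  have hy0 : y ≠ 0 := by
    rintro rfl
    rw [addOrderOf_zero] at hy
    omega
  obtain ⟨j, hj, hyj⟩ := om_third h3 y h1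
  have h4 := om_mthird (m := m) h3
  interval_cases j
  · exfalso
    apply hy0
    rw [hyj, Nat.cast_zero, zero_mul]
  · rw [hyj, Nat.cast_one, one_mul]
  · have h5 : y = -((m / 3 : ℕ) : ZMod m) := by
      rw [hyj]
      push_cast
      linear_combination h4
    rw [h5, om_odd h3, abs_neg]

private theorem om_three (h3 : 3 ∣ m) (i : ℕ) (y : ZMod m) (hy : addOrderOf y = 3 ^ (i + 2)) :
    3 * om y = om ((3 : ZMod m) * y) := by
  -- the elements of the fibre
  have hkey : ∀ z ∈ fib m 3 ((3 : ZMod m) * y), om z = om y := by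
    intro z hz
    rw [mem_fib] at hz
    have hz' : (3 : ZMod m) * z = (3 : ZMod m) * y := by exact_mod_cast hz
    obtain ⟨j, -, hj⟩ := om_third h3 (z - y) (by linear_combination hz')
    have h1 : (3 : ZMod m) * (((3 ^ (i + 1) : ℕ) : ZMod m) * y) = 0 := by
      have h2 := addOrderOf_nsmul_eq_zero y
      rw [hy, nsmul_eq_mul] at h2
      push_cast at h2 ⊢
      linear_combination h2
    have h2 : ((3 ^ (i + 1) : ℕ) : ZMod m) * y ≠ 0 := by
      intro h4
      rw [← nsmul_eq_mul, ← addOrderOf_dvd_iff_nsmul_eq_zero, hy] at h4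
      have h5 := Nat.le_of_dvd (pow_pos (by norm_num) _) h4
      have h6 : 3 ^ (i + 1) < 3 ^ (i + 2) := Nat.pow_lt_pow_right (by norm_num) (by omega)
      omega
    obtain ⟨e, he, hye⟩ := om_third h3 _ h1
    have h4 := om_mthird (m := m) h3
    have h5 : ((m / 3 : ℕ) : ZMod m) = (e : ZMod m) * (((3 ^ (i + 1) : ℕ) : ZMod m) * y) := by
      rw [hye]
      interval_cases e
      · exfalso
        apply h2
        rw [hye, Nat.cast_zero, zero_mul]
      · rw [Nat.cast_one, one_mul, one_mul]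
      · push_cast
        linear_combination - h4
    have h6 : z = ((1 + j * e * 3 ^ (i + 1) : ℕ) : ZMod m) * y := by
      rw [h5] at hj
      push_cast
      push_cast at hj
      linear_combination hj
    have h7 : (1 + j * e * 3 ^ (i + 1)) % 3 = 1 := by
      rw [pow_succ, ← mul_assoc]
      omega
    obtain ⟨u, hu, hu2⟩ := om_crt (m := m) (1 + j * e * 3 ^ (i + 1)) (by omega)
    have h8 : 3 ^ (i + 2) ∣ qq m 3 := by
      have h9 := RNorm_ordProj_dvd (m := m) 3 y
      rw [hy, Nat.Prime.factorization_pow Nat.prime_three, Finsupp.single_eq_same] at h9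
      exact h9
    have h9 : ((rr u : ℕ) : ZMod m) * y = ((1 + j * e * 3 ^ (i + 1) : ℕ) : ZMod m) * y := by
      have h10 : rr u ≡ 1 + j * e * 3 ^ (i + 1) [MOD addOrderOf y] := by
        rw [hy]
        exact hu2.of_dvd h8
      rw [← nsmul_eq_mul, ← nsmul_eq_mul]
      exact (nsmul_eq_nsmul_iff_modEq).2 h10
    have h10 : z = (u : ZMod m) * y := by
      rw [h6, ← h9, rr, ZMod.natCast_zmod_val]
    have h11 : c3 (rr u) = 1 := by
      have h12 : rr u % 3 = (1 + j * e * 3 ^ (i + 1)) % 3 := hu2.of_dvd (om_three_qq h3)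
      unfold c3
      rw [if_pos]
      omega
    rw [h10, om_smul h3, h11, one_mul]
  have h1 := om_dist (m := m) 3 Nat.prime_three h3 y
  have h2 : ∑ z ∈ fib m 3 (((3 : ℕ) : ZMod m) * y), om z =
      ∑ z ∈ fib m 3 (((3 : ℕ) : ZMod m) * y), om y := by
    refine sum_congr rfl fun z hz => hkey z ?_
    exact_mod_cast hz
  rw [h2, sum_const, Pool.Agent.Helper9.Fermat.fib_card (by norm_num) h3, nsmul_eq_mul] at h1
  exact_mod_cast h1

private theorem om_values (h3 : 3 ∣ m) (i : ℕ) : ∀ y : ZMod m, addOrderOf y = 3 ^ (i + 1) →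
    (3 : ℤ) ^ i * |om y| = |om ((m / 3 : ℕ) : ZMod m)| := by
  induction i with
  | zero =>
    intro y hy
    rw [pow_zero, one_mul]
    exact om_val_zero h3 y (by rw [hy]; norm_num)
  | succ i ih =>
    intro y hy
    have h1 : addOrderOf ((3 : ZMod m) * y) = 3 ^ (i + 1) := by
      have h2 : (3 : ZMod m) * y = 3 • y := by
        rw [nsmul_eq_mul]
        norm_cast
      rw [h2, addOrderOf_nsmul' y (by norm_num), hy, Nat.gcd_eq_right (dvd_pow_self 3 (by omega)),
        pow_succ, Nat.mul_div_cancel _ (by norm_num)]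
    rw [← ih _ h1, ← om_three h3 i y hy, abs_mul]
    norm_num
    ring

private theorem om_mthird_val (h3 : 3 ∣ m) : om ((m / 3 : ℕ) : ZMod m) ≠ 0 := by
  have hm0 : 0 < m := Nat.pos_of_ne_zero (NeZero.ne m)
  obtain ⟨c, hc⟩ := h3
  have hc0 : 0 < c := by
    rcases Nat.eq_zero_or_pos c with h | h
    · rw [h, mul_zero] at hc
      omega
    · exact h
  have h5 : m / 3 = c := by
    rw [hc]
    exact Nat.mul_div_cancel_left c (by norm_num)
  have h1 : ∀ t : (ZMod m)ˣ, c3 (rr t) * sw ((t : ZMod m) * ((m / 3 : ℕ) : ZMod m)) = -(c : ℤ) := by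
    intro t
    have ht := om_unit (Dvd.intro c hc.symm) t
    have h2 : ((t : ZMod m) * ((m / 3 : ℕ) : ZMod m)).val = rr t % 3 * c := by
      have h4 : (t : ZMod m) * ((m / 3 : ℕ) : ZMod m) = ((rr t * c : ℕ) : ZMod m) := by
        rw [h5, Nat.cast_mul, rr, ZMod.natCast_zmod_val]
      rw [h4, ZMod.val_natCast]
      have h6 : rr t * c % m = rr t * c % (3 * c) := congrArg (fun x => rr t * c % x) hc
      rw [h6]
      exact Nat.mul_mod_mul_right c (rr t) 3
    have h4 : (t : ZMod m) * ((m / 3 : ℕ) : ZMod m) ≠ 0 := by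
      intro h6
      rw [h6, ZMod.val_zero] at h2
      have h7 : rr t % 3 ≠ 0 := by omega
      have h8 : 0 < rr t % 3 * c := Nat.mul_pos (by omega) hc0
      omega
    have h7 : sw ((t : ZMod m) * ((m / 3 : ℕ) : ZMod m)) =
        2 * ((((t : ZMod m) * ((m / 3 : ℕ) : ZMod m)).val : ℕ) : ℤ) - m := if_neg h4
    rw [h7, h2]
    have h8 : (m : ℤ) = 3 * c := by exact_mod_cast hc
    rw [h8]
    unfold c3
    have h9 : rr t % 3 = 1 ∨ rr t % 3 = 2 := by omega
    rcases h9 with h9 | h9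
    · rw [h9, if_pos rfl]
      push_cast
      ring
    · rw [h9, if_neg (by norm_num)]
      push_cast
      ring
  unfold om
  rw [sum_congr rfl fun t _ => h1 t, sum_const, nsmul_eq_mul]
  have h2 : 0 < (univ : Finset (ZMod m)ˣ).card := card_pos.2 ⟨1, mem_univ _⟩
  have h4 : (0 : ℤ) < ((univ : Finset (ZMod m)ˣ).card : ℤ) := by exact_mod_cast h2
  have h6 : (0 : ℤ) < (c : ℤ) := by exact_mod_cast hc0
  have h7 := mul_pos h4 h6
  intro h8
  rw [mul_neg] at h8
  omega

end

theorem exists_om (m : ℕ) [NeZero m] (h3 : 3 ∣ m) :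
    ∃ ω : ZMod m → ℤ, Pure m {3} ω ∧
      (∀ S : Multiset (ZMod m), (∀ t : (ZMod m)ˣ, (S.map fun x => sw ((t : ZMod m) * x)).sum = 0) →
        (S.map ω).sum = 0) ∧
      (∀ (u : (ZMod m)ˣ) (x : ZMod m), ω ((u : ZMod m) * x) = c3 (u : ZMod m).val * ω x) ∧
      ω ((m / 3 : ℕ) : ZMod m) ≠ 0 ∧
      ∀ y : ZMod m, (addOrderOf y).primeFactors = {3} →
        ((addOrderOf y / 3 : ℕ) : ℤ) * |ω y| = |ω ((m / 3 : ℕ) : ZMod m)| := by
  refine ⟨om, ⟨om_dist, om_odd h3, ?_, ?_⟩, ?_, ?_, om_mthird_val h3, ?_⟩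
  · intro x l hl hx
    rw [mem_singleton] at hl
    subst hl
    exact om_supp h3 x hx
  · intro l hl hlT x hx
    rw [mem_singleton] at hlT
    exact om_red h3 l hl hlT x hx
  · intro S hS
    have h1 : (S.map (om (m := m))).sum =
        ∑ t : (ZMod m)ˣ, c3 (rr t) * (S.map fun x => sw ((t : ZMod m) * x)).sum := by
      induction S using Multiset.induction_on with
      | empty => simp
      | cons a s ih =>
        clear ih hS
        induction s using Multiset.induction_on with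
        | empty => simp [om]
        | cons b s ih =>
          simp only [Multiset.map_cons, Multiset.sum_cons] at ih ⊢
          have h2 : om b + (s.map (om (m := m))).sum + om a =
              ∑ t : (ZMod m)ˣ, c3 (rr t) * (sw ((t : ZMod m) * a) +
                (s.map fun x => sw ((t : ZMod m) * x)).sum) + om b := by
            rw [← ih]
            ring
          have h3 : om b = ∑ t : (ZMod m)ˣ, c3 (rr t) * sw ((t : ZMod m) * b) := rfl
          calc om a + (om b + (s.map (om (m := m))).sum) =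
              om b + (s.map (om (m := m))).sum + om a := by ring
            _ = _ := h2
            _ = _ := by
              rw [h3, ← sum_add_distrib]
              refine sum_congr rfl fun t _ => ?_
              ring
    rw [h1]
    exact sum_eq_zero fun t _ => by rw [hS t, mul_zero]
  · intro u x
    exact om_smul h3 u x
  · intro y hy
    have hy0 : addOrderOf y ≠ 0 := (addOrderOf_pos y).ne'
    have h1 : addOrderOf y = 3 ^ (addOrderOf y).primeFactorsList.length := by
      apply Nat.eq_prime_pow_of_unique_prime_dvd hy0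
      intro d hd hdy
      have h2 : d ∈ (addOrderOf y).primeFactors := Nat.mem_primeFactors.2 ⟨hd, hdy, hy0⟩
      rw [hy, mem_singleton] at h2
      exact h2
    obtain ⟨k, hk⟩ : ∃ k, k = (addOrderOf y).primeFactorsList.length := ⟨_, rfl⟩
    rw [← hk] at h1
    have h2 : k ≠ 0 := by
      rintro rfl
      rw [h1, pow_zero, Nat.primeFactors_one] at hy
      exact absurd hy (by decide)
    obtain ⟨i, rfl⟩ : ∃ i, k = i + 1 := ⟨k - 1, by omega⟩
    have h4 : addOrderOf y / 3 = 3 ^ i := by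
      rw [h1, pow_succ, Nat.mul_div_cancel _ (by norm_num)]
    rw [h4]
    push_cast
    exact_mod_cast om_values h3 i y h1

end Pool.Agent.FHD
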