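import Pool.Agent.FHD.ParDefs

/-!
# FHD-ParA: the contradiction for the primes `2` and `3`

Plan. The class of a number `g` prime to `35`: `g` modulo `5` up to sign and `g` modulo `7` up to
sign (six classes). If `PMx (q x) (b x) g` then `g` and `b x` have the same class. For every class
there is an element of `E` with this class (`hodd` for a `g` of this class), so `par_six`.
`par_flip`: since `E.card ≤ 11` there is a class which contains exactly one element `x` of `E`; then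
for all `g` prime to `210` with this class `PMx (q x) (b x) g` by `hodd`. Let `g₀ = b x`. In the sum
for `g₀` only the term of `x` is not zero (for the other elements the factor for `5` or for `7` is
zero), it is `c x`. `l₀ ^ 6` (`729` or `64`) is `1` modulo `hb l₁` (`4` or `3`), `-1` modulo `5` and `1`
modulo `7`. Take `g` congruent to `l₀ ^ 6 * g₀` modulo `q x l₁ * q x 5 * q x 7` and to `1` modulo
`q x l₀` (Chinese remainder theorem); `PMx (q x) (b x) g` shows that `l₀ ^ 6 * g₀` is congruent to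
`b x` modulo `q x l₁` and `q x 7`, and to `-b x` modulo `q x 5`. So the sum for `l₀ ^ 6 * g₀` is
`- c x`. By `hU` (six times) the two sums are equal.
-/

set_option autoImplicit false

namespace Pool.Agent.FHD

open Finset

/-- the class -/
private def cl (g : ℕ) : ℕ × ℕ := (g ^ 2 % 5, g ^ 2 % 7)

private theorem sq_pm {p g b : ℕ} (h : g ≡ b [MOD p] ∨ g + b ≡ 0 [MOD p]) :
    g ^ 2 ≡ b ^ 2 [MOD p] := by
  rcases h with h | h
  · exact h.pow 2
  · rw [← ZMod.natCast_eq_natCast_iff] at h ⊢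
    push_cast at h ⊢
    have h1 : (g : ZMod p) = -(b : ZMod p) := by linear_combination h
    rw [h1]
    ring

private theorem cl_eq {g b : ℕ} (h5 : g ^ 2 ≡ b ^ 2 [MOD 5]) (h7 : g ^ 2 ≡ b ^ 2 [MOD 7]) :
    cl g = cl b := by
  unfold cl
  rw [Prod.mk.injEq]
  exact ⟨h5, h7⟩

private theorem cl_of_PMx {q : ℕ → ℕ} {b g : ℕ} (hq : OkQ q b) (h : PMx q b g) : cl g = cl b := by
  have h5 := h 5 (by decide)
  have h7 := h 7 (by decide)
  exact cl_eq (sq_pm (h5.imp (fun h => h.of_dvd hq.five) fun h => h.of_dvd hq.five))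
    (sq_pm (h7.imp (fun h => h.of_dvd hq.seven) fun h => h.of_dvd hq.seven))

private theorem fac_zero {p Q g b : ℕ} (hp : p ∣ Q) (h : ¬ g ^ 2 ≡ b ^ 2 [MOD p]) :
    ((if g ≡ b [MOD Q] then 1 else 0) - (if g + b ≡ 0 [MOD Q] then 1 else 0) : ℤ) = 0 := by
  rw [if_neg fun h1 => h (sq_pm (Or.inl (h1.of_dvd hp))),
    if_neg fun h1 => h (sq_pm (Or.inr (h1.of_dvd hp))), sub_zero]

private theorem fac_one {p Q g b : ℕ} (hp : p ∣ Q) (hb : ¬ b + b ≡ 0 [MOD p]) (hg : g ≡ b [MOD p])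
    (h : g ≡ b [MOD Q] ∨ g + b ≡ 0 [MOD Q]) :
    ((if g ≡ b [MOD Q] then 1 else 0) - (if g + b ≡ 0 [MOD Q] then 1 else 0) : ℤ) = 1 := by
  have h1 : ¬ g + b ≡ 0 [MOD Q] := fun h1 =>
    hb ((hg.symm.add_right b).trans (h1.of_dvd hp))
  rw [if_pos (h.resolve_right h1), if_neg h1, sub_zero]

private theorem fac_neg {p Q g b : ℕ} (hp : p ∣ Q) (hb : ¬ b + b ≡ 0 [MOD p])
    (hg : g + b ≡ 0 [MOD p]) (h : g ≡ b [MOD Q] ∨ g + b ≡ 0 [MOD Q]) :
    ((if g ≡ b [MOD Q] then 1 else 0) - (if g + b ≡ 0 [MOD Q] then 1 else 0) : ℤ) = -1 := by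
  have h1 : ¬ g ≡ b [MOD Q] := fun h1 =>
    hb (((h1.of_dvd hp).symm.add_right b).trans hg)
  rw [if_neg h1, if_pos (h.resolve_left h1), zero_sub]

private theorem sgx_zero {T : Finset ℕ} {q : ℕ → ℕ} {b g : ℕ} (h5 : 5 ∈ T) (h7 : 7 ∈ T)
    (hq : OkQ q b) (h : cl g ≠ cl b) : sgx T q b g = 0 := by
  unfold sgx
  by_cases h5' : g ^ 2 ≡ b ^ 2 [MOD 5]
  · by_cases h7' : g ^ 2 ≡ b ^ 2 [MOD 7]
    · exact absurd (cl_eq h5' h7') h
    · exact Finset.prod_eq_zero h7 (fac_zero hq.seven h7')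
  · exact Finset.prod_eq_zero h5 (fac_zero hq.five h5')

private def six : Finset (ℕ × ℕ) := ({1, 11, 13, 17, 19, 23} : Finset ℕ).image cl

private theorem six_card : six.card = 6 := by decide

private theorem six_sub {α : Type} (E : Multiset α) (q : α → ℕ → ℕ) (b : α → ℕ)
    (hE : ∀ x ∈ E, OkQ (q x) (b x))
    (hodd : ∀ g : ℕ, g.Coprime 210 → ∃ x ∈ E, PMx (q x) (b x) g) :
    six ⊆ (E.map fun x => cl (b x)).toFinset := by
  intro κ hκ
  obtain ⟨g, hg, rfl⟩ := Finset.mem_image.1 hκ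
  have hg' : g.Coprime 210 := by
    simp only [Finset.mem_insert, Finset.mem_singleton] at hg
    rcases hg with rfl | rfl | rfl | rfl | rfl | rfl <;> norm_num
  obtain ⟨x, hx, hx'⟩ := hodd g hg'
  rw [Multiset.mem_toFinset, Multiset.mem_map]
  exact ⟨x, hx, (cl_of_PMx (hE x hx) hx').symm⟩

private theorem exists_single {α : Type} (E : Multiset α) (q : α → ℕ → ℕ) (b : α → ℕ)
    (hE : ∀ x ∈ E, OkQ (q x) (b x))
    (hodd : ∀ g : ℕ, g.Coprime 210 → ∃ x ∈ E, PMx (q x) (b x) g) (hc : E.card ≤ 11) :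
    ∃ (x : α) (E' : Multiset α), E = x ::ₘ E' ∧ ∀ y ∈ E', cl (b y) ≠ cl (b x) := by
  have hsub := six_sub E q b hE hodd
  have h1 : ∃ κ ∈ six, (E.map fun x => cl (b x)).count κ = 1 := by
    by_contra hcon
    push Not at hcon
    have h2 : ∀ κ ∈ six, 2 ≤ (E.map fun x => cl (b x)).count κ := by
      intro κ hκ
      have h3 : 0 < (E.map fun x => cl (b x)).count κ :=
        Multiset.count_pos.2 (Multiset.mem_toFinset.1 (hsub hκ))
      have h4 := hcon κ hκ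
      omega
    have h3 : ∑ _κ ∈ six, 2 ≤ ∑ κ ∈ six, (E.map fun x => cl (b x)).count κ := Finset.sum_le_sum h2
    have h4 : ∑ κ ∈ six, (E.map fun x => cl (b x)).count κ ≤
        ∑ κ ∈ (E.map fun x => cl (b x)).toFinset, (E.map fun x => cl (b x)).count κ :=
      Finset.sum_le_sum_of_subset hsub
    rw [Multiset.toFinset_sum_count_eq, Multiset.card_map] at h4
    rw [Finset.sum_const, six_card, smul_eq_mul] at h3
    omega
  obtain ⟨κ, -, hκ⟩ := h1
  have h2 : κ ∈ E.map fun x => cl (b x) := Multiset.count_pos.1 (by omega)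
  obtain ⟨x, hx, rfl⟩ := Multiset.mem_map.1 h2
  obtain ⟨E', rfl⟩ := Multiset.exists_cons_of_mem hx
  refine ⟨x, E', rfl, ?_⟩
  intro y hy hxy
  rw [Multiset.map_cons, Multiset.count_cons_self] at hκ
  have h3 : cl (b x) ∈ E'.map fun x => cl (b x) := Multiset.mem_map.2 ⟨y, hy, hxy⟩
  have h4 := Multiset.count_pos.2 h3
  omega

private theorem two_ne {p b : ℕ} (hp : p.Prime) (hp2 : p ≠ 2) (hpb : p.Coprime b) :
    ¬ b + b ≡ 0 [MOD p] := by
  intro h
  rw [Nat.modEq_zero_iff_dvd, ← two_mul] at h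
  rcases (Nat.Prime.dvd_mul hp).1 h with h1 | h1
  · exact hp2 ((Nat.prime_dvd_prime_iff_eq hp Nat.prime_two).1 h1)
  · have h2 := Nat.dvd_gcd dvd_rfl h1
    rw [hpb] at h2
    exact hp.one_lt.ne' (Nat.dvd_one.1 h2)

private theorem two_ne4 {b : ℕ} (hb : Nat.Coprime 2 b) : ¬ b + b ≡ 0 [MOD 4] := by
  intro h
  rw [Nat.modEq_zero_iff_dvd] at h
  have h1 : 2 ∣ b := by omega
  have h2 := Nat.dvd_gcd (dvd_refl 2) h1
  rw [hb] at h2
  omega

private theorem core {α : Type} (E : Multiset α) (q : α → ℕ → ℕ) (b : α → ℕ) (l₀ l₁ h : ℕ)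
    (h6 : 210 = l₀ * l₁ * (5 * 7)) (m1 : l₁ ∈ ({2, 3, 5, 7} : Finset ℕ)) (hl1 : l₁ ≠ 5) (hl1' : l₁ ≠ 7)
    (c01 : l₀.Coprime l₁) (c05 : l₀.Coprime 5) (c07 : l₀.Coprime 7)
    (e1 : l₀ ^ 6 ≡ 1 [MOD h]) (e5 : l₀ ^ 6 + 1 ≡ 0 [MOD 5]) (e7 : l₀ ^ 6 ≡ 1 [MOD 7])
    (hE : ∀ x ∈ E, OkQ (q x) (b x)) (hh : ∀ x ∈ E, h ∣ q x l₁)
    (hbh : ∀ x ∈ E, ¬ b x + b x ≡ 0 [MOD h]) (hq0 : ∀ x ∈ E, l₀ ∣ q x l₀) (hq1 : ∀ x ∈ E, l₁ ∣ q x l₁)
    (hqc : ∀ x ∈ E, (q x l₁ * (q x 5 * q x 7)).Coprime (q x l₀))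
    (hodd : ∀ g : ℕ, g.Coprime 210 → ∃ x ∈ E, PMx (q x) (b x) g)
    (hc : E.card ≤ 11) (c : α → ℤ) (hc0 : ∀ x ∈ E, 0 < c x)
    (hU : ∀ g : ℕ, g.Coprime (l₁ * 35) →
      (E.map fun x => c x * sgx {l₁, 5, 7} (q x) (b x) (l₀ * g)).sum =
        (E.map fun x => c x * sgx {l₁, 5, 7} (q x) (b x) g).sum) : False := by
  obtain ⟨x, E', rfl, hx⟩ := exists_single E q b hE hodd hc
  have hxE : x ∈ x ::ₘ E' := Multiset.mem_cons_self x E'
  have hqx := hE x hxE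
  have hb210 : (b x).Coprime 210 := hqx.cop
  have hdvd : ∀ d : ℕ, d ∣ 210 → (b x).Coprime d := fun d hd => hb210.coprime_dvd_right hd
  have d0 : l₀ ∣ 210 := by rw [h6]; exact Dvd.intro _ (by rw [mul_assoc])
  have d1 : l₁ ∣ 210 := by rw [h6]; exact (dvd_mul_left l₁ l₀).mul_right _
  have b5 : ¬ b x + b x ≡ 0 [MOD 5] := two_ne (by norm_num) (by norm_num) (hdvd 5 (by norm_num)).symm
  have b7 : ¬ b x + b x ≡ 0 [MOD 7] := two_ne (by norm_num) (by norm_num) (hdvd 7 (by norm_num)).symm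
  -- the sums
  have hsum : ∀ g : ℕ, cl g = cl (b x) →
      ((x ::ₘ E').map fun x => c x * sgx {l₁, 5, 7} (q x) (b x) g).sum =
        c x * sgx {l₁, 5, 7} (q x) (b x) g := by
    intro g hg
    rw [Multiset.map_cons, Multiset.sum_cons, Multiset.sum_eq_zero, add_zero]
    intro z hz
    obtain ⟨y, hy, rfl⟩ := Multiset.mem_map.1 hz
    rw [sgx_zero (by simp) (by simp) (hE y (Multiset.mem_cons_of_mem hy)), mul_zero]
    rw [hg]
    exact (hx y hy).symm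
  have hpmx : ∀ g : ℕ, g.Coprime 210 → cl g = cl (b x) → PMx (q x) (b x) g := by
    intro g hg hg'
    obtain ⟨y, hy, hy'⟩ := hodd g hg
    rcases Multiset.mem_cons.1 hy with rfl | hy
    · exact hy'
    · exact absurd ((cl_of_PMx (hE y (Multiset.mem_cons_of_mem hy)) hy').symm.trans hg') (hx y hy)
  -- the class of `l₀ ^ 6 * b x`
  have g5 : l₀ ^ 6 * b x + b x ≡ 0 [MOD 5] := by
    have h1 := e5.mul_right (b x)
    rw [zero_mul, add_mul, one_mul] at h1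
    exact h1
  have g7 : l₀ ^ 6 * b x ≡ b x [MOD 7] := by
    have h1 := e7.mul_right (b x)
    rw [one_mul] at h1
    exact h1
  have gh : l₀ ^ 6 * b x ≡ b x [MOD h] := by
    have h1 := e1.mul_right (b x)
    rw [one_mul] at h1
    exact h1
  have hcl : cl (l₀ ^ 6 * b x) = cl (b x) := cl_eq (sq_pm (Or.inr g5)) (sq_pm (Or.inl g7))
  obtain ⟨g, hg1, hg2⟩ := Nat.chineseRemainder (hqc x hxE) (l₀ ^ 6 * b x) 1
  have k1 : g ≡ l₀ ^ 6 * b x [MOD q x l₁] := hg1.of_dvd (Dvd.intro _ rfl)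
  have k5 : g ≡ l₀ ^ 6 * b x [MOD q x 5] := hg1.of_dvd ((Dvd.intro _ rfl).mul_left _)
  have k7 : g ≡ l₀ ^ 6 * b x [MOD q x 7] := hg1.of_dvd ((Dvd.intro_left _ rfl).mul_left _)
  have cop_of : ∀ p : ℕ, l₀.Coprime p → (b x).Coprime p → g ≡ l₀ ^ 6 * b x [MOD p] → g.Coprime p := by
    intro p h1 h2 h3
    have h4 : (l₀ ^ 6 * b x).Coprime p := Nat.Coprime.mul_left (h1.pow_left 6) h2
    unfold Nat.Coprime
    rw [h3.gcd_eq]
    exact h4
  have hg210 : g.Coprime 210 := by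
    rw [h6]
    refine Nat.Coprime.mul_right (Nat.Coprime.mul_right ?_ ?_) (Nat.Coprime.mul_right ?_ ?_)
    · have h1 : g ≡ 1 [MOD l₀] := hg2.of_dvd (hq0 x hxE)
      unfold Nat.Coprime
      rw [h1.gcd_eq, Nat.gcd_one_left]
    · exact cop_of l₁ c01 (hdvd l₁ d1) (k1.of_dvd (hq1 x hxE))
    · exact cop_of 5 c05 (hdvd 5 (by norm_num)) (k5.of_dvd hqx.five)
    · exact cop_of 7 c07 (hdvd 7 (by norm_num)) (k7.of_dvd hqx.seven)
  have hclg : cl g = cl (b x) := by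
    rw [← hcl]
    exact cl_eq ((k5.of_dvd hqx.five).pow 2) ((k7.of_dvd hqx.seven).pow 2)
  have hP := hpmx g hg210 hclg
  have tr : ∀ Q : ℕ, g ≡ l₀ ^ 6 * b x [MOD Q] → (g ≡ b x [MOD Q] ∨ g + b x ≡ 0 [MOD Q]) →
      (l₀ ^ 6 * b x ≡ b x [MOD Q] ∨ l₀ ^ 6 * b x + b x ≡ 0 [MOD Q]) := fun Q h1 h2 =>
    h2.imp (fun h3 => h1.symm.trans h3) fun h3 => (h1.symm.add_right _).trans h3
  have t1 := tr _ k1 (hP l₁ m1)
  have t5 := tr _ k5 (hP 5 (by decide))
  have t7 := tr _ k7 (hP 7 (by decide))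
  have hprod : ∀ f : ℕ → ℤ, ∏ l ∈ ({l₁, 5, 7} : Finset ℕ), f l = f l₁ * (f 5 * f 7) := by
    intro f
    rw [Finset.prod_insert (by simp [hl1, hl1']), Finset.prod_insert (by simp), Finset.prod_singleton]
  have s1 : sgx {l₁, 5, 7} (q x) (b x) (l₀ ^ 6 * b x) = -1 := by
    unfold sgx
    rw [hprod, fac_one (hh x hxE) (hbh x hxE) gh t1, fac_neg hqx.five b5 g5 t5,
      fac_one hqx.seven b7 g7 t7]
    norm_num
  have s0 : sgx {l₁, 5, 7} (q x) (b x) (b x) = 1 := by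
    unfold sgx
    rw [hprod, fac_one (hh x hxE) (hbh x hxE) rfl (Or.inl rfl), fac_one hqx.five b5 rfl (Or.inl rfl),
      fac_one hqx.seven b7 rfl (Or.inl rfl)]
    norm_num
  have hit' : ∀ k : ℕ, ((x ::ₘ E').map fun y => c y * sgx {l₁, 5, 7} (q y) (b y) (l₀ ^ k * b x)).sum =
      ((x ::ₘ E').map fun y => c y * sgx {l₁, 5, 7} (q y) (b y) (b x)).sum := by
    intro k
    induction k with
    | zero => rw [pow_zero, one_mul]
    | succ k ih =>
      have h1 : l₀ ^ (k + 1) * b x = l₀ * (l₀ ^ k * b x) := by ring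
      rw [h1, hU (l₀ ^ k * b x), ih]
      have h2 : ∀ p : ℕ, l₀.Coprime p → (b x).Coprime p → (l₀ ^ k * b x).Coprime p := fun p h3 h4 =>
        Nat.Coprime.mul_left (h3.pow_left k) h4
      refine h2 _ (Nat.Coprime.mul_right c01 ?_) (hdvd _ ?_)
      · have h3 : (35 : ℕ) = 5 * 7 := rfl
        rw [h3]
        exact Nat.Coprime.mul_right c05 c07
      · rw [h6, mul_assoc l₀]
        exact dvd_mul_left _ _
  have h1 := hit' 6
  rw [hsum _ hcl, hsum _ rfl, s1, s0] at h1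
  have h2 := hc0 x hxE
  linarith

section

variable {α : Type} (E : Multiset α) (q : α → ℕ → ℕ) (b : α → ℕ)

open Classical in
theorem par_six (hE : ∀ x ∈ E, OkQ (q x) (b x))
    (hodd : ∀ g : ℕ, g.Coprime 210 → Odd (E.filter fun x => PMx (q x) (b x) g).card) :
    6 ≤ E.card := by
  have h1 := Finset.card_le_card (six_sub E q b hE fun g hg => by
    obtain ⟨x, hx⟩ := Multiset.card_pos_iff_exists_mem.1 (hodd g hg).pos
    rw [Multiset.mem_filter] at hx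
    exact ⟨x, hx.1, hx.2⟩)
  rw [six_card] at h1
  refine h1.trans ((Multiset.toFinset_card_le _).trans ?_)
  rw [Multiset.card_map]

open Classical in
theorem par_flip (l₀ l₁ : ℕ) (hl : (l₀ = 3 ∧ l₁ = 2) ∨ (l₀ = 2 ∧ l₁ = 3))
    (hE : ∀ x ∈ E, OkQ (q x) (b x))
    (hodd : ∀ g : ℕ, g.Coprime 210 → Odd (E.filter fun x => PMx (q x) (b x) g).card)
    (hc : E.card ≤ 11) (c : α → ℤ) (hc0 : ∀ x ∈ E, 0 < c x)
    (hU : ∀ g : ℕ, g.Coprime (l₁ * 35) →
      (E.map fun x => c x * sgx {l₁, 5, 7} (q x) (b x) (l₀ * g)).sum =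
        (E.map fun x => c x * sgx {l₁, 5, 7} (q x) (b x) g).sum) : False := by
  have hodd' : ∀ g : ℕ, g.Coprime 210 → ∃ x ∈ E, PMx (q x) (b x) g := by
    intro g hg
    obtain ⟨x, hx⟩ := Multiset.card_pos_iff_exists_mem.1 (hodd g hg).pos
    rw [Multiset.mem_filter] at hx
    exact ⟨x, hx.1, hx.2⟩
  have hpow : ∀ x ∈ E, ∃ j2 j3 j5 j7 : ℕ, q x 2 = 2 ^ j2 ∧ q x 3 = 3 ^ j3 ∧ q x 5 = 5 ^ j5 ∧
      q x 7 = 7 ^ j7 := by
    intro x hx
    obtain ⟨j2, h2⟩ := (hE x hx).pow 2 (by decide)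
    obtain ⟨j3, h3⟩ := (hE x hx).pow 3 (by decide)
    obtain ⟨j5, h5⟩ := (hE x hx).pow 5 (by decide)
    obtain ⟨j7, h7⟩ := (hE x hx).pow 7 (by decide)
    exact ⟨j2, j3, j5, j7, h2, h3, h5, h7⟩
  rcases hl with ⟨rfl, rfl⟩ | ⟨rfl, rfl⟩
  · refine core E q b 3 2 4 (by norm_num) (by decide) (by norm_num) (by norm_num) (by norm_num)
      (by norm_num) (by norm_num) (by decide) (by decide) (by decide) hE (fun x hx => (hE x hx).two)
      (fun x hx => two_ne4 ((hE x hx).cop.symm.coprime_dvd_left (by norm_num)))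
      (fun x hx => (hE x hx).three) (fun x hx => (Dvd.intro 2 rfl : 2 ∣ 4).trans (hE x hx).two) ?_
      hodd' hc c hc0 hU
    intro x hx
    obtain ⟨j2, j3, j5, j7, h2, h3, h5, h7⟩ := hpow x hx
    rw [h2, h3, h5, h7]
    refine Nat.Coprime.mul_left (Nat.Coprime.pow _ _ (by norm_num)) (Nat.Coprime.mul_left
      (Nat.Coprime.pow _ _ (by norm_num)) (Nat.Coprime.pow _ _ (by norm_num)))
  · refine core E q b 2 3 3 (by norm_num) (by decide) (by norm_num) (by norm_num) (by norm_num)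
      (by norm_num) (by norm_num) (by decide) (by decide) (by decide) hE (fun x hx => (hE x hx).three)
      (fun x hx => two_ne (by norm_num) (by norm_num) ((hE x hx).cop.symm.coprime_dvd_left (by norm_num)))
      (fun x hx => (Dvd.intro 2 rfl : 2 ∣ 4).trans (hE x hx).two) (fun x hx => (hE x hx).three) ?_
      hodd' hc c hc0 hU
    intro x hx
    obtain ⟨j2, j3, j5, j7, h2, h3, h5, h7⟩ := hpow x hx
    rw [h2, h3, h5, h7]
    refine Nat.Coprime.mul_left (Nat.Coprime.pow _ _ (by norm_num)) (Nat.Coprime.mul_left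
      (Nat.Coprime.pow _ _ (by norm_num)) (Nat.Coprime.pow _ _ (by norm_num)))

end

end Pool.Agent.FHD
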