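import Pool.Agent.FHD.RemoveOne
import Pool.Agent.FHD.K8
import Pool.Agent.FQ.StepMin

/-!
# FHD-RemoveAll: all elements whose order is divisible by a prime `≥ 11` are moved to allowed levels

Descending induction on the bound of the primes.
-/

set_option autoImplicit false

namespace Pool.Agent.FHD

open Finset Pool.Agent.FS
open Pool.Agent.Helper9.Fermat (fib mem_fib)

open Classical in
/-- the statement of the descending induction -/
private def RAP {m : ℕ} [NeZero m] {A : Type} [AddCommGroup A] (D : Datum m A)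
    (S : Multiset (ZMod m)) (M : ℕ) : Prop :=
  ∃ Sb : Multiset (ZMod m),
    (∀ x ∈ Sb, Alw m (addOrderOf x).primeFactors ∧ ∃ p : ℕ, p.Prime ∧ 11 ≤ p ∧
      p ∣ addOrderOf x) ∧
    (S.map D.f).sum = ((S.filter (Low M)).map D.f).sum + (Sb.map D.f).sum

private theorem low_not_prime {m M : ℕ} (hM : ¬ (M + 1).Prime) (x : ZMod m) :
    Low (M + 1) x ↔ Low M x := by
  constructor
  · intro h p hp hpx
    have h1 := h p hp hpx
    have h2 : p ≠ M + 1 := fun h3 => hM (h3 ▸ hp)
    omega
  · intro h p hp hpx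
    have h1 := h p hp hpx
    omega

private theorem low_prime {m M : ℕ} (hM : (M + 1).Prime) (x : ZMod m) :
    (¬ (M + 1) ∣ addOrderOf x ∧ Low (M + 1) x) ↔ Low M x := by
  constructor
  · rintro ⟨h1, h2⟩ p hp hpx
    have h3 := h2 p hp hpx
    have h4 : p ≠ M + 1 := by
      rintro rfl
      exact h1 hpx
    omega
  · intro h
    refine ⟨fun h1 => ?_, fun p hp hpx => ?_⟩
    · have h2 := h _ hM h1
      omega
    · have h2 := h p hp hpx
      omega

open Classical in
private theorem ra_step {m : ℕ} [NeZero m] {A : Type} [AddCommGroup A] (D : Datum m A)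
    (h12 : 12 ∣ m) (S : Multiset (ZMod m)) (hc : S.card ≤ 8)
    (hS : ∀ t : (ZMod m)ˣ, (S.map fun x => sw ((t : ZMod m) * x)).sum = 0) {M : ℕ} (hM : 10 ≤ M)
    (h : RAP D S (M + 1)) : RAP D S M := by
  obtain ⟨Sb, hb, hsum⟩ := h
  by_cases hr : (M + 1).Prime
  swap
  · refine ⟨Sb, hb, ?_⟩
    rw [hsum, Multiset.filter_congr fun x _ => low_not_prime hr x]
  have hW : ∀ t : (ZMod m)ˣ,
      ((S.filter (Low (M + 1)) + Sb).map fun x => sw ((t : ZMod m) * x)).sum = 0 := by
    intro t
    have h1 : ∀ T : Multiset (ZMod m), D.W t (T.map D.f).sum =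
        (T.map fun x => sw ((t : ZMod m) * x)).sum := by
      intro T
      rw [map_multiset_sum, Multiset.map_map]
      congr 1
      exact Multiset.map_congr rfl fun x _ => D.wf t x
    rw [← h1, Multiset.map_add, Multiset.sum_add, ← hsum, h1, hS t]
  have hmem := remove_one D hr (by omega) (S.filter (Low (M + 1)) + Sb)
    (fun n => Alw m n.primeFactors)
    (fun n n' hnn' hn'm hA => alw_mono hA (Nat.primeFactors_mono hnn' (by
      rintro rfl
      exact NeZero.ne m (Nat.eq_zero_of_zero_dvd hn'm))))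
    (fun U _ R n _ hn hrn hna => kp8 h12 hr (by omega) R S Sb hc hS (fun x hx => (hb x hx).1) hW
      hn hrn hna)
  obtain ⟨Sb', hSb', hsum'⟩ := Pool.Agent.FQ.lev_multiset D _ hmem
  refine ⟨Sb.filter (fun x => ¬ (M + 1) ∣ addOrderOf x) + Sb', ?_, ?_⟩
  · intro x hx
    rcases Multiset.mem_add.1 hx with h1 | h1
    · exact hb x (Multiset.mem_filter.1 h1).1
    · obtain ⟨-, h3, h4⟩ := hSb' x h1
      exact ⟨h4, M + 1, hr, by omega, h3⟩
  · have h1 : ((S.filter (Low (M + 1)) + Sb).map D.f).sum =
        (((S.filter (Low (M + 1)) + Sb).filter fun x => (M + 1) ∣ addOrderOf x).map D.f).sum +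
        (((S.filter (Low (M + 1)) + Sb).filter fun x => ¬ (M + 1) ∣ addOrderOf x).map D.f).sum := by
      rw [← Multiset.sum_add, ← Multiset.map_add, Multiset.filter_add_not]
    have h2 : (S.filter (Low (M + 1)) + Sb).filter (fun x => ¬ (M + 1) ∣ addOrderOf x) =
        S.filter (Low M) + Sb.filter (fun x => ¬ (M + 1) ∣ addOrderOf x) := by
      rw [Multiset.filter_add, Multiset.filter_filter]
      congr 1
      exact Multiset.filter_congr fun x _ => low_prime hr x
    rw [hsum, ← Multiset.sum_add, ← Multiset.map_add, h1, h2, hsum']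
    simp only [Multiset.map_add, Multiset.sum_add]
    abel

open Classical in
theorem remove_all {m : ℕ} [NeZero m] {A : Type} [AddCommGroup A] (D : Datum m A) (h12 : 12 ∣ m)
    (S : Multiset (ZMod m)) (hc : S.card ≤ 8)
    (hS : ∀ t : (ZMod m)ˣ, (S.map fun x => sw ((t : ZMod m) * x)).sum = 0) :
    ∃ Sb : Multiset (ZMod m),
      (∀ x ∈ Sb, Alw m (addOrderOf x).primeFactors ∧ ∃ p : ℕ, p.Prime ∧ 11 ≤ p ∧
        p ∣ addOrderOf x) ∧
      (S.map D.f).sum = ((S.filter (Low 10)).map D.f).sum + (Sb.map D.f).sum := by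
  have key : ∀ j : ℕ, j ≤ m → RAP D S (10 + (m - j)) := by
    intro j
    induction j with
    | zero =>
      intro _
      refine ⟨0, fun x hx => absurd hx (Multiset.notMem_zero x), ?_⟩
      have h1 : S.filter (Low (10 + (m - 0))) = S := by
        rw [Multiset.filter_eq_self]
        intro x _ p hp hpx
        have h2 : addOrderOf x ∣ m := by
          have h3 := addOrderOf_dvd_card (x := x)
          rwa [ZMod.card] at h3
        have h3 := Nat.le_of_dvd (Nat.pos_of_ne_zero (NeZero.ne m)) (hpx.trans h2)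
        omega
      rw [h1]
      simp
    | succ j ih =>
      intro hj
      have h1 := ih (by omega)
      have h2 : 10 + (m - j) = 10 + (m - (j + 1)) + 1 := by omega
      rw [h2] at h1
      exact ra_step D h12 S hc hS (by omega) h1
  have h1 := key m le_rfl
  rw [Nat.sub_self] at h1
  exact h1

end Pool.Agent.FHD
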