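import Pool.Agent.FHD.UnivA
import Pool.Agent.FHD.Chain
import Pool.Agent.FHD.InvAct

/-! # FHD-RemoveOne: the elements of order divisible by `r` are moved to the levels in `𝒟` -/

set_option autoImplicit false

namespace Pool.Agent.FHD

open Finset Pool.Agent.FS
open Pool.Agent.Helper9.Fermat (fib mem_fib)

theorem remove_one {m : ℕ} [NeZero m] {A : Type} [AddCommGroup A] (D : Datum m A) {r : ℕ}
    (hr : r.Prime) (hr3 : 3 ≤ r) (S : Multiset (ZMod m)) (𝒟 : ℕ → Prop)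
    (h𝒟 : ∀ n n' : ℕ, n ∣ n' → n' ∣ m → 𝒟 n' → 𝒟 n)
    (hK : ∀ (U : Type) (_ : AddCommGroup U) (R : UDatum m r U) (n : ℕ) (_ : NeZero n), Uni m n →
      r ∣ n → ¬ 𝒟 n → Kp R.toRDatum n (GG (S.filter fun x => r ∣ addOrderOf x) R.F)) :
    ((S.filter fun x => r ∣ addOrderOf x).map D.f).sum ∈
      D.lev {n | Uni m n ∧ r ∣ n ∧ 𝒟 n} := by
  obtain ⟨U, instU, ⟨R⟩⟩ := exists_udatum m r hr
  set T := S.filter fun x => r ∣ addOrderOf x with hT
  have hTr : ∀ x ∈ T, r ∣ addOrderOf x := fun x hx => (Multiset.mem_filter.1 hx).2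
  have ha := GG_mem_lev hr R.toRDatum T hTr
  have hb := chain hr hr3 R.toRDatum 𝒟 h𝒟 _ ha fun n hn0 hn hrn hD => hK U instU R n hn0 hn hrn hD
  have hg : RFun m r D.f :=
    ⟨D.odd, fun n l hn _ hl hln _ => rel_of_dist hn hl hln (g := D.f) (D.dist l hl (hln.trans hn.1))⟩
  obtain ⟨φ, hφ⟩ := R.lift A D.f hg
  have h1 : φ (GG T R.F) = (T.map D.f).sum := by
    rw [GG_map]
    have h2 : (fun w => φ (R.F w)) = D.f := funext hφ
    rw [h2, GG_dist T (D_isDist D)]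
  rw [← h1]
  have h3 : R.toRDatum.lev {n | Uni m n ∧ r ∣ n ∧ 𝒟 n} ≤
      (D.lev {n | Uni m n ∧ r ∣ n ∧ 𝒟 n}).comap φ := by
    unfold RDatum.lev
    rw [AddSubgroup.closure_le]
    rintro b ⟨x, hx, rfl⟩
    show φ (R.F x) ∈ D.lev {n | Uni m n ∧ r ∣ n ∧ 𝒟 n}
    rw [hφ]
    exact AddSubgroup.subset_closure ⟨x, hx, rfl⟩
  exact h3 hb

end Pool.Agent.FHD
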