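import Pool.Agent.FHD.ThDefs

/-!
# FHD-ThBase: the distribution given by its values on the elements of unitary order `n`
-/

set_option autoImplicit false

namespace Pool.Agent.FHD

open Finset Pool.Agent.FS
open Pool.Agent.Helper9.Fermat (fib mem_fib)

/-- the condition for the label `w` of `x` -/
private def tbP {m : ℕ} (n : ℕ) [NeZero n] (e : ℕ) (x : ZMod m) (w : (ZMod n)ˣ) : Prop :=
  ((n / e : ℕ) : ZMod m) * emb m n w = x

open Classical in
/-- the sum over the labels -/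
private noncomputable def tbS {m : ℕ} (n : ℕ) [NeZero n] (φ : (ZMod n)ˣ → ℤ) (e : ℕ) (x : ZMod m) : ℤ :=
  ∑ w : (ZMod n)ˣ, if tbP n e x w then φ w else 0

open Classical in
/-- the distribution -/
private noncomputable def tbTh {m : ℕ} (n : ℕ) [NeZero n] (φ : (ZMod n)ˣ → ℤ) (x : ZMod m) : ℤ :=
  if (addOrderOf x).primeFactors = n.primeFactors then tbS n φ (addOrderOf x) x else 0

variable {m : ℕ} [NeZero m] {n : ℕ} [NeZero n]

private theorem tb_ord_z {l : ℕ} (hl : l.Prime) (z : ZMod m) :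
    addOrderOf z = l * addOrderOf ((l : ZMod m) * z) ∨
      (addOrderOf z = addOrderOf ((l : ZMod m) * z) ∧ ¬ l ∣ addOrderOf ((l : ZMod m) * z)) := by
  by_cases h : l ∣ addOrderOf z
  · left
    rw [← nsmul_eq_mul, addOrderOf_nsmul_of_dvd hl.ne_zero h, Nat.mul_div_cancel' h]
  · right
    have h1 : addOrderOf ((l : ZMod m) * z) = addOrderOf z :=
      RNorm_ord_nsmul z ((Nat.Prime.coprime_iff_not_dvd hl).2 h).symm
    rw [h1]
    exact ⟨rfl, h⟩

private theorem tb_ord_d (hn : Uni m n) {d : ℕ} (hd : d ∣ n) (w : (ZMod n)ˣ) :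
    addOrderOf (((n / d : ℕ) : ZMod m) * emb m n w) = d := by
  have hn0 : n ≠ 0 := NeZero.ne n
  have h1 : addOrderOf (emb m n w) = n := (exists_emb hn.1 _).2 ⟨w, rfl⟩
  have hd0 : d ≠ 0 := by
    rintro rfl
    exact hn0 (Nat.eq_zero_of_zero_dvd hd)
  have h2 : n / d ∣ n := Nat.div_dvd_of_dvd hd
  have h3 : n / d ≠ 0 := by
    intro h
    rw [h] at h2
    exact hn0 (Nat.eq_zero_of_zero_dvd h2)
  rw [← nsmul_eq_mul, addOrderOf_nsmul_of_dvd h3 (by rw [h1]; exact h2), h1, Nat.div_div_self hd hn0]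

private theorem tb_dvd (hn : Uni m n) {l : ℕ} (hl : l.Prime) (hln : l ∣ n) (y : ZMod m)
    (hy : addOrderOf ((l : ZMod m) * y) ∣ n) : l * addOrderOf ((l : ZMod m) * y) ∣ n := by
  by_cases h : l ∣ addOrderOf ((l : ZMod m) * y)
  · have h1 : addOrderOf y = l * addOrderOf ((l : ZMod m) * y) := by
      rcases tb_ord_z hl y with h1 | h1
      · exact h1
      · exact absurd h h1.2
    have h2 : l * addOrderOf ((l : ZMod m) * y) ∣ m := by
      rw [← h1]
      exact RNorm_ord_dvd y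
    have h3 : (l * addOrderOf ((l : ZMod m) * y)).Coprime (m / n) :=
      Nat.Coprime.mul_left (hn.2.coprime_dvd_left hln) (hn.2.coprime_dvd_left hy)
    have h4 : m = n * (m / n) := (Nat.mul_div_cancel' hn.1).symm
    exact h3.dvd_of_dvd_mul_right (h2.trans (dvd_of_eq h4))
  · exact Nat.Coprime.mul_dvd_of_dvd_of_dvd ((Nat.Prime.coprime_iff_not_dvd hl).2 h) hln hy

private theorem tb_sum (φ : (ZMod n)ˣ → ℤ) {l e : ℕ} (hle : l * e ∣ n) (y' : ZMod m) :
    ∑ z ∈ fib m l y', tbS n φ (l * e) z = tbS n φ e y' := by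
  classical
  unfold tbS
  rw [Finset.sum_comm]
  refine Finset.sum_congr rfl fun w _ => ?_
  have h0 : l * (n / (l * e)) = n / e := by
    obtain ⟨c, hc⟩ := hle
    have hn0 : n ≠ 0 := NeZero.ne n
    have hle0 : 0 < l * e := by
      rcases Nat.eq_zero_or_pos (l * e) with h | h
      · rw [h, zero_mul] at hc
        exact absurd hc hn0
      · exact h
    have he0 : 0 < e := Nat.pos_of_ne_zero (by rintro rfl; rw [mul_zero] at hle0; omega)
    rw [hc, Nat.mul_div_cancel_left c hle0]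
    have h1 : l * e * c = e * (l * c) := by ring
    rw [h1, Nat.mul_div_cancel_left _ he0]
  have h1 : ∀ z : ZMod m, tbP n (l * e) z w ↔ ((n / (l * e) : ℕ) : ZMod m) * emb m n w = z := fun z => Iff.rfl
  have h2 : tbP n e y' w ↔ ((n / (l * e) : ℕ) : ZMod m) * emb m n w ∈ fib m l y' := by
    rw [mem_fib, ← mul_assoc, ← Nat.cast_mul, h0]
    exact Iff.rfl
  by_cases h : tbP n e y' w
  · rw [if_pos h, Finset.sum_eq_single (((n / (l * e) : ℕ) : ZMod m) * emb m n w)]
    · rw [if_pos ((h1 _).2 rfl)]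
    · intro z _ hz
      rw [if_neg]
      intro h3
      exact hz ((h1 z).1 h3).symm
    · intro h3
      exact absurd (h2.1 h) h3
  · rw [if_neg h]
    refine Finset.sum_eq_zero fun z hz => ?_
    rw [if_neg]
    intro h3
    apply h
    rw [h2, (h1 z).1 h3]
    exact hz

private theorem tb_kl (hn : Uni m n) {l e : ℕ} (hl : l.Prime) (he : e ∣ n) (hle : ¬ l ∣ e)
    (k : (ZMod n)ˣ) (hk : k ∈ Kl n l) (w : (ZMod n)ˣ) (x : ZMod m) : tbP n e x (k * w) ↔ tbP n e x w := by
  have h1 : rr (k * w) ≡ rr w [MOD ordCompl[l] n] := by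
    have h2 : rr (k * w) ≡ rr k * rr w [MOD ordCompl[l] n] := (rr_mul k w).of_dvd (Nat.ordCompl_dvd n l)
    have h3 := (mem_Kl.1 hk).mul_right (rr w)
    rw [one_mul] at h3
    exact h2.trans h3
  have h2 : e ∣ ordCompl[l] n := by
    have h3 : e.Coprime (ordProj[l] n) := Nat.Coprime.pow_right _ ((Nat.Prime.coprime_iff_not_dvd hl).2 hle).symm
    rw [← Nat.ordProj_mul_ordCompl_eq_self n l] at he
    exact h3.dvd_of_dvd_mul_left he
  have h3 : n ∣ n / e * ordCompl[l] n := by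
    have h4 : n / e * e ∣ n / e * ordCompl[l] n := Nat.mul_dvd_mul_left _ h2
    rwa [Nat.div_mul_cancel he] at h4
  have h4 : n / e * rr (k * w) ≡ n / e * rr w [MOD n] := (Nat.ModEq.mul_left' (n / e) h1).of_dvd h3
  have h5 := emb_modEq (m := m) hn.1 h4
  have h6 : ((n / e : ℕ) : ZMod m) * emb m n ((k * w : (ZMod n)ˣ) : ZMod n) = ((n / e : ℕ) : ZMod m) * emb m n w := by
    have h7 : ∀ u : (ZMod n)ˣ, ((n / e : ℕ) : ZMod m) * emb m n u = ((m / n * (n / e * rr u) : ℕ) : ZMod m) := by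
      intro u
      unfold emb rr
      push_cast
      ring
    rw [h7, h7]
    exact h5
  unfold tbP
  rw [h6]

private theorem tb_zero (hn : Uni m n) {φ : (ZMod n)ˣ → ℤ} {l e : ℕ} (hl : l.Prime) (he : e ∣ n)
    (hle : ¬ l ∣ e) (hker : ∀ w, ∑ᶠ k : Kl n l, φ ((k : (ZMod n)ˣ) * w) = 0) (x : ZMod m) :
    tbS n φ e x = 0 := by
  classical
  obtain ⟨S, hS⟩ : ∃ S, S = tbS n φ e x := ⟨_, rfl⟩
  have : Fintype (Kl n l) := Fintype.ofFinite _
  have h1 : ∀ k : Kl n l, S = ∑ w : (ZMod n)ˣ, if tbP n e x w then φ ((k : (ZMod n)ˣ) * w) else 0 := by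
    intro k
    rw [hS]
    unfold tbS
    rw [← Equiv.sum_comp (Equiv.mulLeft (k : (ZMod n)ˣ))]
    refine Finset.sum_congr rfl fun w _ => ?_
    rw [Equiv.coe_mulLeft]
    have h2 := tb_kl hn hl he hle k k.2 w x
    by_cases h : tbP n e x w
    · rw [if_pos h, if_pos (h2.2 h)]
    · rw [if_neg h, if_neg fun h3 => h (h2.1 h3)]
  have h2 : ∑ _k : Kl n l, S = 0 := by
    rw [Finset.sum_congr rfl fun k _ => h1 k, Finset.sum_comm]
    refine Finset.sum_eq_zero fun w _ => ?_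
    by_cases h : tbP n e x w
    · simp only [if_pos h]
      rw [← finsum_eq_sum_of_fintype]
      exact hker w
    · simp only [if_neg h]
      exact Finset.sum_const_zero
  rw [Finset.sum_const, nsmul_eq_mul] at h2
  rcases mul_eq_zero.1 h2 with h3 | h3
  · exfalso
    have h4 : (Finset.univ : Finset (Kl n l)).card ≠ 0 := (Finset.card_pos.2 univ_nonempty).ne'
    exact h4 (by exact_mod_cast h3)
  · rw [← hS]
    exact h3

private theorem tb_neg (hn : Uni m n) {φ : (ZMod n)ˣ → ℤ} (hodd : ∀ w, φ (-1 * w) = - φ w) (e : ℕ)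
    (x : ZMod m) : tbS n φ e (-x) = - tbS n φ e x := by
  classical
  unfold tbS
  rw [← Equiv.sum_comp (Equiv.mulLeft (-1 : (ZMod n)ˣ)), ← Finset.sum_neg_distrib]
  refine Finset.sum_congr rfl fun w _ => ?_
  rw [Equiv.coe_mulLeft, hodd]
  have h1 : tbP n e (-x) (-1 * w) ↔ tbP n e x w := by
    unfold tbP
    rw [emb_neg hn.1, mul_neg, neg_inj]
  by_cases h : tbP n e x w
  · rw [if_pos h, if_pos (h1.2 h)]
  · rw [if_neg h, if_neg fun h3 => h (h1.1 h3), neg_zero]

private theorem tb_dist (hn : Uni m n) {φ : (ZMod n)ˣ → ℤ}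
    (hker : ∀ l : ℕ, l.Prime → l ∣ n → ∀ w, ∑ᶠ k : Kl n l, φ ((k : (ZMod n)ˣ) * w) = 0) :
    DistOn m n (tbTh n φ) := by
  intro l hl hln y hy
  have hn0 : n ≠ 0 := NeZero.ne n
  have hle := tb_dvd hn hl hln y hy
  obtain ⟨y', hy'⟩ : ∃ y', y' = (l : ZMod m) * y := ⟨_, rfl⟩
  obtain ⟨e, he⟩ : ∃ e, e = addOrderOf y' := ⟨_, rfl⟩
  rw [← hy', ← he] at hle hy
  rw [← hy']
  have he0 : e ≠ 0 := by
    rintro rfl
    exact hn0 (Nat.eq_zero_of_zero_dvd hy)
  have hz : ∀ z ∈ fib m l y', addOrderOf z = l * e ∨ (addOrderOf z = e ∧ ¬ l ∣ e) := by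
    intro z hz
    have h1 := tb_ord_z hl z
    rw [mem_fib.1 hz, ← he] at h1
    exact h1
  have hpf : (l * e).primeFactors = insert l e.primeFactors := by
    rw [Nat.primeFactors_mul hl.ne_zero he0, hl.primeFactors, Finset.insert_eq]
  have hln' : l ∈ n.primeFactors := Nat.mem_primeFactors.2 ⟨hl, hln, hn0⟩
  -- the primes of `e`
  have hE : e.primeFactors = n.primeFactors → l ∣ e ∧ (l * e).primeFactors = n.primeFactors := by
    intro h
    have h1 : l ∈ e.primeFactors := by rw [h]; exact hln'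
    exact ⟨Nat.dvd_of_mem_primeFactors h1, by rw [hpf, Finset.insert_eq_of_mem h1, h]⟩
  by_cases hP : (l * e).primeFactors = n.primeFactors
  · have h1 : ∀ z ∈ fib m l y', tbTh n φ z = tbS n φ (l * e) z := by
      intro z hz'
      unfold tbTh
      rcases hz z hz' with h2 | ⟨h2, h3⟩
      · rw [h2, if_pos hP]
      · rw [h2, if_neg fun h4 => h3 (hE h4).1]
        symm
        unfold tbS
        refine Finset.sum_eq_zero fun w _ => ?_
        rw [if_neg]
        intro h4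
        have h5 := tb_ord_d hn hle w
        have h6 : ((n / (l * e) : ℕ) : ZMod m) * emb m n w = z := h4
        rw [h6, h2] at h5
        have h7 := hl.two_le
        have h8 : 2 * e ≤ l * e := Nat.mul_le_mul_right _ h7
        omega
    rw [Finset.sum_congr rfl h1, tb_sum φ hle]
    unfold tbTh
    rw [← he]
    by_cases h2 : l ∣ e
    · have h3 : e.primeFactors = n.primeFactors := by
        rw [← hP, hpf, Finset.insert_eq_of_mem (Nat.mem_primeFactors.2 ⟨hl, h2, he0⟩)]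
      rw [if_pos h3]
    · rw [if_neg fun h3 => h2 (hE h3).1]
      exact tb_zero hn hl hy h2 (hker l hl hln) y'
  · have h1 : ∀ z ∈ fib m l y', tbTh n φ z = 0 := by
      intro z hz'
      unfold tbTh
      rcases hz z hz' with h2 | ⟨h2, h3⟩
      · rw [h2, if_neg hP]
      · rw [h2, if_neg fun h4 => hP (hE h4).2]
    rw [Finset.sum_eq_zero h1]
    unfold tbTh
    rw [← he, if_neg fun h4 => hP (hE h4).2]

theorem theta_base {m : ℕ} [NeZero m] {n : ℕ} [NeZero n] (hn : Uni m n) (φ : (ZMod n)ˣ → ℤ)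
    (hodd : ∀ w, φ (-1 * w) = - φ w)
    (hker : ∀ l : ℕ, l.Prime → l ∣ n → ∀ w, ∑ᶠ k : Kl n l, φ ((k : (ZMod n)ˣ) * w) = 0) :
    ∃ Θ : ZMod m → ℤ, DistOn m n Θ ∧ (∀ x, Θ (-x) = - Θ x) ∧
      (∀ x, ∀ l ∈ n.primeFactors, ¬ l ∣ addOrderOf x → Θ x = 0) ∧
      ∀ w : (ZMod n)ˣ, Θ (emb m n w) = φ w := by
  classical
  refine ⟨tbTh n φ, tb_dist hn hker, fun x => ?_, fun x l hl hlx => ?_, fun w => ?_⟩
  · unfold tbTh
    rw [addOrderOf_neg]
    by_cases h : (addOrderOf x).primeFactors = n.primeFactors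
    · rw [if_pos h, if_pos h, tb_neg hn hodd]
    · rw [if_neg h, if_neg h, neg_zero]
  · unfold tbTh
    rw [if_neg]
    intro h
    rw [← h] at hl
    exact hlx (Nat.dvd_of_mem_primeFactors hl)
  · have h1 : addOrderOf (emb m n w) = n := (exists_emb hn.1 _).2 ⟨w, rfl⟩
    unfold tbTh
    rw [h1, if_pos rfl]
    unfold tbS
    have h2 : ∀ w' : (ZMod n)ˣ, tbP n n (emb m n w) w' ↔ w' = w := by
      intro w'
      unfold tbP
      rw [Nat.div_self (Nat.pos_of_ne_zero (NeZero.ne n)), Nat.cast_one, one_mul]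
      constructor
      · intro h
        exact Units.val_injective (emb_inj hn.1 h)
      · rintro rfl
        rfl
    rw [Finset.sum_eq_single w]
    · rw [if_pos ((h2 w).2 rfl)]
    · intro w' _ hw'
      rw [if_neg fun h => hw' ((h2 w').1 h)]
    · intro h
      exact absurd (mem_univ w) h

end Pool.Agent.FHD
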