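import Pool.Agent.FHD.Defs

/-!
# FHD-ThDefs: distributions on a part of the level
-/

set_option autoImplicit false

namespace Pool.Agent.FHD

open Finset Pool.Agent.FS
open Pool.Agent.Helper9.Fermat (fib mem_fib)

/-- the distribution relations for the primes dividing `n` and the elements of order dividing `n` -/
def DistOn (m n : ℕ) [NeZero m] (Θ : ZMod m → ℤ) : Prop :=
  ∀ l : ℕ, l.Prime → l ∣ n → ∀ y : ZMod m, addOrderOf ((l : ZMod m) * y) ∣ n →
    ∑ z ∈ fib m l ((l : ZMod m) * y), Θ z = Θ ((l : ZMod m) * y)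

/-- as `Pure`, for the elements of order dividing `n` -/
structure PureOn (m n : ℕ) [NeZero m] (T : Finset ℕ) (Θ : ZMod m → ℤ) : Prop where
  dist : DistOn m n Θ
  odd : ∀ x, Θ (-x) = - Θ x
  supp : ∀ x, ∀ l ∈ T, ¬ l ∣ addOrderOf x → Θ x = 0
  red : ∀ l : ℕ, l.Prime → l ∉ T → ∀ x : ZMod m, addOrderOf x ∣ n → l ∣ addOrderOf x →
    ((ordProj[l] (addOrderOf x)).totient : ℤ) * Θ x =
      Θ (((ordProj[l] (addOrderOf x) : ℕ) : ZMod m) * x) -
        Θ (((ordProj[l] (addOrderOf x) / l : ℕ) : ZMod m) * (ide m l * x))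

end Pool.Agent.FHD
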