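import Pool.Agent.FHD.Defs

/-!
# FHD-UnivA: the universal datum

Plan: `U` is the quotient of `ZMod m →₀ ℤ` by the subgroup generated by the elements
`[-x] + [x]` and, for `n, l, u` as in `RFun.rel`,
`∑_{k : Kl n l} [emb m n (k u)] - [al m l * emb m n u] + [be m l * emb m n u]`.
`lift`: `Finsupp.liftAddHom` (or `FreeAbelianGroup.lift`) and `QuotientAddGroup.lift`. Action: the
map `[x] ↦ [h x]`; it preserves the relations since `h * emb m n u = emb m n (h' u)`
(`Mixed_mul_emb`). `W t`, `W' t`: the lifts of `sw (t x)` and `sw (t (ide m r x))`; they are odd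
and satisfy the relations by `rel_of_dist` with `isDist_sw_unit` and `ide_dist`
(`Pool/Agent/FS/RRemove.lean`, compare `liftDatum`).
-/

set_option autoImplicit false

namespace Pool.Agent.FHD

open Finset Pool.Agent.FS
open Pool.Agent.Helper9.Fermat (fib mem_fib)

section

variable (m r : ℕ) [NeZero m]

/-- the norm relation in the free group -/
noncomputable def relEl (n l : ℕ) (u : (ZMod n)ˣ) : FreeAbelianGroup (ZMod m) :=
  (∑ᶠ k : Kl n l, FreeAbelianGroup.of
      (emb m n (((k : (ZMod n)ˣ) * u : (ZMod n)ˣ) : ZMod n))) -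
    (FreeAbelianGroup.of (al m l * emb m n u) - FreeAbelianGroup.of (be m l * emb m n u))

/-- the subgroup of relations -/
noncomputable def relSub : AddSubgroup (FreeAbelianGroup (ZMod m)) :=
  AddSubgroup.closure ({b | ∃ x : ZMod m, b = FreeAbelianGroup.of (-x) + FreeAbelianGroup.of x} ∪
    {b | ∃ n l : ℕ, Uni m n ∧ r ∣ n ∧ l.Prime ∧ l ∣ n ∧ l ≠ r ∧ ∃ u : (ZMod n)ˣ,
      b = relEl m n l u})

/-- the universal group -/
abbrev UG : Type := FreeAbelianGroup (ZMod m) ⧸ relSub m r

/-- the universal function -/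
noncomputable def UF (x : ZMod m) : UG m r := QuotientAddGroup.mk (FreeAbelianGroup.of x)

variable {m r}

theorem lift_relEl {B : Type} [AddCommGroup B] (g : ZMod m → B) {n : ℕ} (hn : Uni m n) (l : ℕ)
    (u : (ZMod n)ˣ) : FreeAbelianGroup.lift g (relEl m n l u) =
      (∑ᶠ k : Kl n l, g (emb m n (((k : (ZMod n)ˣ) * u : (ZMod n)ˣ) : ZMod n))) -
        (g (al m l * emb m n u) - g (be m l * emb m n u)) := by
  have : NeZero n := ⟨uni_pos (NeZero.ne m) hn⟩
  classical
  unfold relEl
  rw [map_sub, map_sub, FreeAbelianGroup.lift_apply_of, FreeAbelianGroup.lift_apply_of,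
    finsum_eq_sum_of_fintype, finsum_eq_sum_of_fintype, map_sum]
  simp only [FreeAbelianGroup.lift_apply_of]

theorem relSub_le {B : Type} [AddCommGroup B] {g : ZMod m → B} (hg : RFun m r g) :
    relSub m r ≤ (FreeAbelianGroup.lift g).ker := by
  unfold relSub
  rw [AddSubgroup.closure_le]
  rintro b (⟨x, rfl⟩ | ⟨n, l, hn, hrn, hl, hln, hne, u, rfl⟩)
  · show FreeAbelianGroup.lift g _ = 0
    rw [map_add, FreeAbelianGroup.lift_apply_of, FreeAbelianGroup.lift_apply_of, hg.odd,
      neg_add_cancel]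
  · show FreeAbelianGroup.lift g _ = 0
    rw [lift_relEl g hn, hg.rel n l hn hrn hl hln hne u, sub_self]

/-- the induced homomorphism -/
noncomputable def ulift {B : Type} [AddCommGroup B] {g : ZMod m → B} (hg : RFun m r g) :
    UG m r →+ B :=
  QuotientAddGroup.lift (relSub m r) (FreeAbelianGroup.lift g) (relSub_le hg)

theorem ulift_UF {B : Type} [AddCommGroup B] {g : ZMod m → B} (hg : RFun m r g) (x : ZMod m) :
    ulift hg (UF m r x) = g x := by
  show FreeAbelianGroup.lift g (FreeAbelianGroup.of x) = g x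
  rw [FreeAbelianGroup.lift_apply_of]

theorem UF_rfun : RFun m r (UF m r) := by
  refine ⟨fun x => ?_, fun n l hn hrn hl hln hne u => ?_⟩
  · have h : (FreeAbelianGroup.of (-x) + FreeAbelianGroup.of x : FreeAbelianGroup (ZMod m)) ∈
        relSub m r := AddSubgroup.subset_closure (Or.inl ⟨x, rfl⟩)
    have h1 : UF m r (-x) + UF m r x = 0 := (QuotientAddGroup.eq_zero_iff _).2 h
    exact eq_neg_of_add_eq_zero_left h1
  · have h : relEl m n l u ∈ relSub m r :=
      AddSubgroup.subset_closure (Or.inr ⟨n, l, hn, hrn, hl, hln, hne, u, rfl⟩)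
    have h1 : FreeAbelianGroup.lift (UF m r) (relEl m n l u) = 0 := by
      have h2 : FreeAbelianGroup.lift (UF m r) = QuotientAddGroup.mk' (relSub m r) := by
        ext x
        rw [FreeAbelianGroup.lift_apply_of]
        rfl
      rw [h2]
      exact (QuotientAddGroup.eq_zero_iff _).2 h
    rw [lift_relEl _ hn] at h1
    exact sub_eq_zero.1 h1

theorem RFun.act {B : Type} [AddCommGroup B] {g : ZMod m → B} (hg : RFun m r g) (h : (ZMod m)ˣ) :
    RFun m r (fun x => g ((h : ZMod m) * x)) := by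
  refine ⟨fun x => ?_, fun n l hn hrn hl hln hne u => ?_⟩
  · show g ((h : ZMod m) * -x) = -g ((h : ZMod m) * x)
    rw [mul_neg, hg.odd]
  · have : NeZero n := ⟨uni_pos (NeZero.ne m) hn⟩
    have h1 := hg.rel n l hn hrn hl hln hne (ZMod.unitsMap hn.1 h * u)
    have e1 : ∀ w : (ZMod n)ˣ, (h : ZMod m) * emb m n (w : ZMod n) =
        emb m n (((ZMod.unitsMap hn.1 h * w : (ZMod n)ˣ)) : ZMod n) := by
      intro w
      rw [Mixed_mul_emb hn.1, Units.val_mul]
    have e2 : ∀ c : ZMod m, (h : ZMod m) * (c * emb m n (u : ZMod n)) =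
        c * emb m n (((ZMod.unitsMap hn.1 h * u : (ZMod n)ˣ)) : ZMod n) := by
      intro c
      rw [mul_left_comm, e1]
    show (∑ᶠ k : Kl n l, g ((h : ZMod m) *
      emb m n (((k : (ZMod n)ˣ) * u : (ZMod n)ˣ) : ZMod n))) =
        g ((h : ZMod m) * (al m l * emb m n u)) - g ((h : ZMod m) * (be m l * emb m n u))
    rw [e2, e2, ← h1]
    refine finsum_congr fun k => ?_
    rw [e1, mul_left_comm]

theorem rfun_sw (t : (ZMod m)ˣ) : RFun m r (fun x => sw ((t : ZMod m) * x)) := by
  refine ⟨fun x => ?_, fun n l hn hrn hl hln hne => ?_⟩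
  · show sw ((t : ZMod m) * -x) = -sw ((t : ZMod m) * x)
    rw [mul_neg, Quot.sw_neg]
  · exact rel_of_dist hn hl hln ((isDist_sw_unit t) l hl (hln.trans hn.1))

theorem rfun_sw' (hr : r.Prime) (t : (ZMod m)ˣ) :
    RFun m r (fun x => sw ((t : ZMod m) * (ide m r * x))) := by
  refine ⟨fun x => ?_, fun n l hn hrn hl hln hne => ?_⟩
  · show sw ((t : ZMod m) * (ide m r * -x)) = -sw ((t : ZMod m) * (ide m r * x))
    rw [mul_neg, mul_neg, Quot.sw_neg]
  · exact rel_of_dist (g := fun x => sw ((t : ZMod m) * (ide m r * x))) hn hl hln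
      (fun y => ide_dist hr hl (hln.trans hn.1) hne (isDist_sw_unit t) y)

end

theorem exists_udatum (m r : ℕ) [NeZero m] (hr : r.Prime) :
    ∃ (U : Type) (_ : AddCommGroup U), Nonempty (UDatum m r U) := by
  refine ⟨UG m r, inferInstance, ⟨?_⟩⟩
  exact
    { F := UF m r
      W := fun t => ulift (rfun_sw t)
      W' := fun t => ulift (rfun_sw' hr t)
      odd := UF_rfun.odd
      rel := UF_rfun.rel
      wf := fun t x => ulift_UF (rfun_sw t) x
      wf' := fun t x => ulift_UF (rfun_sw' hr t) x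
      act := fun h => ulift (UF_rfun.act h)
      act_F := fun h x => ulift_UF (UF_rfun.act h) x
      lift := fun B _ g hg => ⟨ulift hg, fun x => ulift_UF hg x⟩ }

end Pool.Agent.FHD
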